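import Mathlib
import Pool.Agent.Work.MP_b0497c_an.Dec.Defs

set_option autoImplicit false

/-!
The Euler equations on the torus with an energy conserving dispersive term.
-/

namespace Pool.Agent.Work.MP_b0497c_an.Disp

open Set MeasureTheory RealInnerProductSpace Pool.Agent.Work.MP_b0497c_an
open Pool.Agent.Work.MP_b0497c_an.Dec (cube phase vec)

/-- `u` is a classical solution on `[0, T)` of the equations
`∂ₜ u + (u · ∇) u + ∇ p + L u = 0`, `div u = 0` on the torus, where `L` is the Fourier multiplier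
with the symbol `i B`, that is, the Fourier coefficient of `L u` at `k` is `i B k` applied to the
one of `u`: `u` is `C¹` in `(t, x)`, `u t` is periodic and divergence free, and the equation holds
against all divergence free modes `cos (k · x) c` and `sin (k · x) c`, `k · c = 0`.
(If `B = 0` this is the Euler equation.) -/
structure IsSolution (B : (Fin 3 → ℤ) → EuclideanSpace ℝ (Fin 3) → EuclideanSpace ℝ (Fin 3))
    (T : ℝ) (u : ℝ → EuclideanSpace ℝ (Fin 3) → EuclideanSpace ℝ (Fin 3)) : Prop where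
  contDiff_u : ContDiffOn ℝ 1 (fun z : ℝ × EuclideanSpace ℝ (Fin 3) => u z.1 z.2)
    (Ico 0 T ×ˢ univ)
  periodic : ∀ t ∈ Ico 0 T, Periodic3 (u t)
  div_free : ∀ t ∈ Ico 0 T, ∀ x,
    LinearMap.trace ℝ (EuclideanSpace ℝ (Fin 3)) (fderiv ℝ (u t) x) = 0
  cos_eq : ∀ t ∈ Ico 0 T, ∀ (k : Fin 3 → ℤ) (c : EuclideanSpace ℝ (Fin 3)), ⟪vec k, c⟫ = 0 →
    (∫ x in cube, Real.cos (phase k x) *
      ⟪derivWithin (fun s => u s x) (Ico 0 T) t + fderiv ℝ (u t) x (u t x), c⟫)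
      + ∫ x in cube, Real.sin (phase k x) * ⟪u t x, B k c⟫ = 0
  sin_eq : ∀ t ∈ Ico 0 T, ∀ (k : Fin 3 → ℤ) (c : EuclideanSpace ℝ (Fin 3)), ⟪vec k, c⟫ = 0 →
    (∫ x in cube, Real.sin (phase k x) *
      ⟪derivWithin (fun s => u s x) (Ico 0 T) t + fderiv ℝ (u t) x (u t x), c⟫)
      - ∫ x in cube, Real.cos (phase k x) * ⟪u t x, B k c⟫ = 0

/-- The rotoreflection `(x, y, z) ↦ (y, -x, -z)` on `ℤ³`. -/
def rk (k : Fin 3 → ℤ) : Fin 3 → ℤ := ![k 1, -k 0, -k 2]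

/-- The rotoreflection `(x, y, z) ↦ (y, -x, -z)` on `ℝ³`. -/
noncomputable def rx (x : EuclideanSpace ℝ (Fin 3)) : EuclideanSpace ℝ (Fin 3) :=
  !₂[x 1, -x 0, -x 2]

/-- `v` is a divergence free trigonometric polynomial which commutes with `rx`. -/
structure IsDatum (v : EuclideanSpace ℝ (Fin 3) → EuclideanSpace ℝ (Fin 3)) : Prop where
  trig : ∃ (F : Finset (Fin 3 → ℤ)) (b c : (Fin 3 → ℤ) → EuclideanSpace ℝ (Fin 3)), ∀ x,
    v x = ∑ k ∈ F, (Real.cos (phase k x) • b k + Real.sin (phase k x) • c k)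
  symm : ∀ x : EuclideanSpace ℝ (Fin 3), v (rx x) = rx (v x)
  div_free : ∀ x, LinearMap.trace ℝ (EuclideanSpace ℝ (Fin 3)) (fderiv ℝ v x) = 0

/-- The chain of modes `(x, y, z)` with `x² + y² = |z| = 2ⁿ`. -/
def X : Set (Fin 3 → ℤ) := {k | ∃ n : ℕ, k 0 ^ 2 + k 1 ^ 2 = 2 ^ n ∧ |k 2| = 2 ^ n}

/-- A sign which changes if `(x, y)` is rotated by 90 degrees. -/
def sg (k : Fin 3 → ℤ) : ℝ := if 0 < k 0 * k 1 ∨ k 1 = 0 then 1 else -1

/-- The horizontal unit vector orthogonal to `k`. -/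
noncomputable def tor (k : Fin 3 → ℤ) : EuclideanSpace ℝ (Fin 3) :=
  (Real.sqrt ((k 0 : ℝ) ^ 2 + (k 1 : ℝ) ^ 2))⁻¹ • !₂[-(k 1 : ℝ), (k 0 : ℝ), 0]

/-- The vertical unit vector. -/
noncomputable def ez : EuclideanSpace ℝ (Fin 3) := !₂[0, 0, 1]

open Classical in
/-- The symbol: `± ω k` times the identity outside the chain and the plane `z = 0`, times the
projection on the horizontal direction on the chain, and times the exchange of the horizontal and
the vertical direction on the plane `z = 0`; zero on the vertical axis. -/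
noncomputable def sym (ω : (Fin 3 → ℤ) → ℝ) (k : Fin 3 → ℤ)
    (c : EuclideanSpace ℝ (Fin 3)) : EuclideanSpace ℝ (Fin 3) :=
  if k 0 = 0 ∧ k 1 = 0 then 0
  else if k 2 = 0 then (sg k * ω k) • (⟪tor k, c⟫ • ez + ⟪ez, c⟫ • tor k)
  else if k ∈ X then ((k 2).sign * sg k * ω k) • (⟪tor k, c⟫ • tor k)
  else ((k 2).sign * sg k * ω k) • c

/-- Admissible frequencies. -/
structure IsFreq (ω : (Fin 3 → ℤ) → ℝ) : Prop where
  growth : ∃ C s : ℕ, ∀ k, ω k ≤ C * (1 + ‖vec k‖) ^ s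
  rot : ∀ k, ω (rk k) = ω k
  neg : ∀ k, ω (-k) = ω k
  lower : ∀ k, ‖vec k‖ ^ 8 ≤ ω k
  gap : ∀ p q, p + q ∈ X → (∀ j : ℕ, q ≠ rk^[j] p ∧ q ≠ -(rk^[j] p)) →
    (‖vec p‖ + ‖vec q‖) ^ 4 ≤ |ω p - ω q|

/-- A code of the orbit of `k` under `rk` and `-1`. -/
def code (k : Fin 3 → ℤ) : ℕ :=
  let a : ℕ := if 0 < k 0 * k 1 ∨ k 1 = 0 then (k 1).natAbs else (k 0).natAbs
  let s : ℕ := (k 0).natAbs + (k 1).natAbs + (k 2).natAbs
  s ^ 3 + (s + 1) * (k 2).natAbs + a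

/-- Admissible frequencies of order `3 m`. -/
def freq (m : ℕ) (k : Fin 3 → ℤ) : ℝ := 16 * (code k : ℝ) ^ m

end Pool.Agent.Work.MP_b0497c_an.Disp
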