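import Mathlib
import Pool.Agent.Work.MP_b0497c_an.Damp.Stmts
import Pool.Agent.Work.MP_b0497c_an.Disp.Defs

set_option autoImplicit false

/-!
Euler equations with a dispersive term: auxiliary definitions and the list of claims.
-/

namespace Pool.Agent.Work.MP_b0497c_an.Disp

open Set MeasureTheory RealInnerProductSpace Pool.Agent.Work.MP_b0497c_an
open Pool.Agent.Work.MP_b0497c_an.Dec (cube phase vec)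
open Pool.Agent.Work.MP_b0497c_an.Damp (cc sc acc)

/-! ### Auxiliary definitions -/

/-- The algebraic properties of a symbol. -/
structure IsSymbol (B : (Fin 3 → ℤ) → E3 → E3) : Prop where
  symm : ∀ k b c, ⟪B k b, c⟫ = ⟪b, B k c⟫
  perp : ∀ k c, ⟪vec k, c⟫ = 0 → ⟪vec k, B k c⟫ = 0
  odd : ∀ k c, B (-k) c = -B k c
  rot : ∀ k c, B (rk k) (rx c) = rx (B k c)
  growth : ∃ C s : ℕ, ∀ k c, ‖B k c‖ ≤ C * (1 + ‖vec k‖) ^ s * ‖c‖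

/-- The Fourier coefficient `(2 π)⁻³ ∫ exp (- i k · x) f · c`. -/
noncomputable def hat (f : E3 → E3) (k : Fin 3 → ℤ) (c : E3) : ℂ :=
  ((((2 * Real.pi) ^ 3)⁻¹ * ⟪cc f k, c⟫ : ℝ) : ℂ) -
    Complex.I * ((((2 * Real.pi) ^ 3)⁻¹ * ⟪sc f k, c⟫ : ℝ) : ℂ)

/-- The squared size of a coefficient, given by its values on vectors. -/
noncomputable def nsq (h : E3 → ℂ) : ℝ := ‖h (e 0)‖ ^ 2 + ‖h (e 1)‖ ^ 2 + ‖h (e 2)‖ ^ 2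

/-- The convolution sum in the equation for the coefficients. -/
noncomputable def conv (h : (Fin 3 → ℤ) → E3 → ℂ) (k : Fin 3 → ℤ) (c : E3) : ℂ :=
  ∑' p, h p (vec k) * h (k - p) c

/-- The coefficients of a symmetric solution. -/
structure IsHat (B : (Fin 3 → ℤ) → E3 → E3) (T E : ℝ) (h : ℝ → (Fin 3 → ℤ) → E3 → ℂ) : Prop where
  lin : ∀ t ∈ Ico 0 T, ∀ k (a b : ℝ) (c d : E3), h t k (a • c + b • d) = a * h t k c + b * h t k d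
  div : ∀ t ∈ Ico 0 T, ∀ k, h t k (vec k) = 0
  conj : ∀ t ∈ Ico 0 T, ∀ k c, h t (-k) c = (starRingEnd ℂ) (h t k c)
  rot : ∀ t ∈ Ico 0 T, ∀ k c, h t (rk k) (rx c) = h t k c
  sum : ∀ t ∈ Ico 0 T, HasSum (fun k => nsq (h t k)) E
  deriv : ∀ k c, ⟪vec k, c⟫ = 0 → ∀ t ∈ Ico 0 T, HasDerivWithinAt (fun s => h s k c)
    (-Complex.I * conv (h t) k c - Complex.I * h t k (B k c)) (Ico 0 T) t
  cont : ∀ k c, ⟪vec k, c⟫ = 0 → ContinuousOn (fun t => conv (h t) k c) (Ico 0 T)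
  grad : ∀ t ∈ Ico 0 T, ∃ C : ℝ, ∀ s ∈ Icc 0 t, ∀ k, ‖vec k‖ ^ 2 * nsq (h s k) ≤ C

/-- The wave vectors of the chain: `(1, 0, 1)`, `(1, 1, 2)`, `(0, 2, 4)`, ... -/
def kn : ℕ → Fin 3 → ℤ
  | 0 => ![1, 0, 1]
  | n + 1 => ![kn n 0 - kn n 1, kn n 0 + kn n 1, 2 * kn n 2]

/-- The polarisations of the chain. -/
def en (n : ℕ) : Fin 3 → ℤ := ![kn n 0, kn n 1, -1]

/-- The modes of the chain whose difference to `kn n` is in the chain, `n ≥ 1`. -/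
def cp (n : ℕ) : List (Fin 3 → ℤ) :=
  [kn (n - 1), -rk (kn (n - 1)), kn (n + 1), rk (kn n), -(rk^[3] (kn (n + 1))), rk^[3] (kn n)]

/-- The vector orthogonal to `k` and `tor k`. -/
noncomputable def pol (k : Fin 3 → ℤ) : E3 :=
  (Real.sqrt ((k 0 : ℝ) ^ 2 + (k 1 : ℝ) ^ 2 + (((k 0 : ℝ) ^ 2 + (k 1 : ℝ) ^ 2) / k 2) ^ 2))⁻¹ •
    !₂[(k 0 : ℝ), (k 1 : ℝ), -(((k 0 : ℝ) ^ 2 + (k 1 : ℝ) ^ 2) / k 2)]

/-- Eigenvectors of the symbol. -/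
noncomputable def fr (j : Fin 2) (k : Fin 3 → ℤ) : E3 :=
  if k 2 = 0 then (if j = 0 then (Real.sqrt 2)⁻¹ • (tor k + ez) else (Real.sqrt 2)⁻¹ • (tor k - ez))
  else (if j = 0 then pol k else tor k)

open Classical in
/-- Eigenvalues of the symbol. -/
noncomputable def lam (ω : (Fin 3 → ℤ) → ℝ) (j : Fin 2) (k : Fin 3 → ℤ) : ℝ :=
  if k 2 = 0 then (if j = 0 then sg k * ω k else -(sg k * ω k))
  else if k ∈ X ∧ j = 0 then 0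
  else (k 2).sign * sg k * ω k

/-- Resonant combinations at `kn n`. -/
def Res (n : ℕ) (p : Fin 3 → ℤ) (j l : Fin 2) : Prop :=
  (j = 0 ∧ l = 0 ∧ p ∈ cp n) ∨ (j = 1 ∧ l = 1 ∧ (p = kn (n - 1) ∨ p = -rk (kn (n - 1))))

open Classical in
/-- The nonresonant part of a term of the convolution sum. -/
noncomputable def nres (n : ℕ) (h : (Fin 3 → ℤ) → E3 → ℂ) (p : Fin 3 → ℤ) : ℂ :=
  ∑ j : Fin 2, ∑ l : Fin 2, if Res n p j l then 0 else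
    (⟪fr j p, vec (kn n)⟫ * ⟪fr l (kn n - p), vec (en n)⟫ : ℝ) *
      (h p (fr j p) * h (kn n - p) (fr l (kn n - p)))

open Classical in
/-- The resonant part of a term of the convolution sum. -/
noncomputable def pres (n : ℕ) (h : (Fin 3 → ℤ) → E3 → ℂ) (p : Fin 3 → ℤ) : ℂ :=
  ∑ j : Fin 2, ∑ l : Fin 2, if Res n p j l then
    (⟪fr j p, vec (kn n)⟫ * ⟪fr l (kn n - p), vec (en n)⟫ : ℝ) *
      (h p (fr j p) * h (kn n - p) (fr l (kn n - p))) else 0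

/-- The amplitude of shell `n`. -/
noncomputable def Sn (n : ℕ) (h : (Fin 3 → ℤ) → E3 → ℂ) : ℝ := -(h (kn n) (vec (en n))).im

/-! ### Fourier series -/

/-- F1. The coefficients of the nonlinearity. -/
def ClaimConv : Prop := ∀ u : E3 → E3, ContDiff ℝ 1 u → Periodic3 u →
  (∀ x, LinearMap.trace ℝ E3 (fderiv ℝ u x) = 0) → ∀ (k : Fin 3 → ℤ) (c : E3),
    HasSum (fun p => hat u p (vec k) * hat u (k - p) c)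
      (-Complex.I * hat (fun x => fderiv ℝ u x (u x)) k c)

/-- F2. Basic properties of the coefficients. -/
def ClaimBasic : Prop := ∀ f : E3 → E3, ContDiff ℝ 1 f → Periodic3 f →
  (∀ x, LinearMap.trace ℝ E3 (fderiv ℝ f x) = 0) →
  (∀ k, hat f k (vec k) = 0) ∧ (∀ k c, hat f (-k) c = (starRingEnd ℂ) (hat f k c)) ∧
  (∀ k (a b : ℝ) (c d : E3), hat f k (a • c + b • d) = a * hat f k c + b * hat f k d) ∧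
  HasSum (fun k => nsq (hat f k)) (((2 * Real.pi) ^ 3)⁻¹ * ∫ x in cube, ‖f x‖ ^ 2) ∧
  ∀ K : ℝ, (∀ x, ‖fderiv ℝ f x‖ ≤ K) → ∀ k, ‖vec k‖ ^ 2 * nsq (hat f k) ≤ 100 * K ^ 2

/-- F3. Conservation of energy. -/
def ClaimEnergy : Prop := ∀ (B : (Fin 3 → ℤ) → E3 → E3) (T : ℝ) (u : ℝ → E3 → E3), IsSymbol B →
  IsSolution B T u → ∀ t ∈ Ico 0 T, ∫ x in cube, ‖u t x‖ ^ 2 = ∫ x in cube, ‖u 0 x‖ ^ 2

/-- F4. Uniqueness. -/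
def ClaimUnique : Prop := ∀ (B : (Fin 3 → ℤ) → E3 → E3) (T₁ T₂ : ℝ) (u v : ℝ → E3 → E3),
  IsSymbol B → IsSolution B T₁ u → IsSolution B T₂ v →
  (∀ x, u 0 x = v 0 x) → ∀ t ∈ Ico 0 (min T₁ T₂), ∀ x, u t x = v t x

/-- F5. Symmetry propagates. -/
def ClaimSymm : Prop := ∀ (B : (Fin 3 → ℤ) → E3 → E3) (T : ℝ) (u : ℝ → E3 → E3),
  IsSymbol B → IsSolution B T u → 0 < T → (∀ x, u 0 (rx x) = rx (u 0 x)) →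
  ∀ t ∈ Ico 0 T, ∀ x, u t (rx x) = rx (u t x)

/-- F6. The coefficients of a symmetric field. -/
def ClaimHatSym : Prop := ∀ f : E3 → E3, Continuous f → Periodic3 f →
  (∀ x, f (rx x) = rx (f x)) → ∀ (k : Fin 3 → ℤ) (c : E3), hat f (rk k) (rx c) = hat f k c

/-- F7. The equations for the coefficients. -/
def ClaimOde : Prop := ∀ (B : (Fin 3 → ℤ) → E3 → E3) (T : ℝ) (u : ℝ → E3 → E3), IsSymbol B →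
  IsSolution B T u → ∀ (k : Fin 3 → ℤ) (c : E3), ⟪vec k, c⟫ = 0 →
    ContinuousOn (fun t => conv (hat (u t)) k c) (Ico 0 T) ∧
    ∀ t ∈ Ico 0 T, HasDerivWithinAt (fun s => hat (u s) k c)
      (-Complex.I * conv (hat (u t)) k c - Complex.I * hat (u t) k (B k c)) (Ico 0 T) t

/-- F8. Data are finite sums. -/
def ClaimDatum : Prop := ∀ v : E3 → E3, IsDatum v → ContDiff ℝ 1 v ∧ Periodic3 v ∧
  ∃ F : Finset (Fin 3 → ℤ), (∀ k ∉ F, cc v k = 0 ∧ sc v k = 0) ∧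
    ∀ x, v x = ∑ k ∈ F, ((2 * Real.pi) ^ 3)⁻¹ • (Real.cos (phase k x) • cc v k +
      Real.sin (phase k x) • sc v k)

/-- F9. The coefficients of a symmetric solution. -/
def ClaimHat : Prop := ∀ (B : (Fin 3 → ℤ) → E3 → E3) (T E : ℝ) (u : ℝ → E3 → E3), 0 < T →
  IsSymbol B → IsSolution B T u → (∀ x, u 0 (rx x) = rx (u 0 x)) →
  ∫ x in cube, ‖u 0 x‖ ^ 2 = (2 * Real.pi) ^ 3 * E → IsHat B T E (fun t => hat (u t))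

/-! ### The symbol -/

/-- S1. The symbol is a symbol. -/
def ClaimSymbol : Prop := ∀ (ω : (Fin 3 → ℤ) → ℝ) (Ω : ℝ), IsFreq ω →
  IsSymbol (fun k c => Ω • sym ω k c)

/-- S2. The eigenvectors. -/
def ClaimEig : Prop := ∀ (k : Fin 3 → ℤ), ¬ (k 0 = 0 ∧ k 1 = 0) →
  (∀ j, ‖fr j k‖ = 1) ∧ (∀ j, ⟪vec k, fr j k⟫ = 0) ∧ ⟪fr 0 k, fr 1 k⟫ = 0 ∧
  (∀ (ω : (Fin 3 → ℤ) → ℝ) j, sym ω k (fr j k) = lam ω j k • fr j k) ∧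
  ∀ c : E3, c = (⟪vec k, c⟫ / ‖vec k‖ ^ 2) • vec k + (⟪fr 0 k, c⟫ • fr 0 k + ⟪fr 1 k, c⟫ • fr 1 k)

/-- S3. The powers of the code are admissible frequencies. -/
def ClaimFreq : Prop := ∀ m : ℕ, 3 ≤ m → IsFreq (freq m) ∧ ∀ k,
  ‖vec k‖ ^ (3 * m) ≤ freq m k ∧ freq m k ≤ 16 * (1 + 2 * ‖vec k‖) ^ (3 * m)

/-! ### The chain -/

/-- C1. The vectors of the chain. -/
def ClaimKn : Prop := (∀ n, kn n 0 ^ 2 + kn n 1 ^ 2 = 2 ^ n ∧ kn n 2 = 2 ^ n) ∧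
  (∀ k : Fin 3 → ℤ, k ∈ X ↔ ∃ n j : ℕ, k = rk^[j] (kn n) ∨ k = -(rk^[j] (kn n))) ∧
  (∀ n, ‖vec (en n)‖ ^ 2 = 2 ^ n + 1 ∧ ⟪vec (kn n), vec (en n)⟫ = 0 ∧
    ‖vec (kn n)‖ ^ 2 = 2 ^ n + 4 ^ n ∧ fr 0 (kn n) = (Real.sqrt (2 ^ n + 1))⁻¹ • vec (en n)) ∧
  ∀ (ω : (Fin 3 → ℤ) → ℝ) n, sym ω (kn n) (vec (en n)) = 0

/-- C2. The chain is closed. -/
def ClaimClosed : Prop := ∀ (n : ℕ) (p : Fin 3 → ℤ), 1 ≤ n → p ∈ X → kn n - p ∈ X → p ∈ cp n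

/-- C3. Nonresonance. -/
def ClaimNonres : Prop := ∀ (ω : (Fin 3 → ℤ) → ℝ) (n : ℕ) (p : Fin 3 → ℤ) (j l : Fin 2),
  IsFreq ω → 1 ≤ n → ¬ (p 0 = 0 ∧ p 1 = 0) → ¬ ((kn n - p) 0 = 0 ∧ (kn n - p) 1 = 0) →
  ¬ Res n p j l →
  (‖vec p‖ + ‖vec (kn n - p)‖) ^ 4 ≤ 256 * |lam ω j p + lam ω l (kn n - p)|

/-- C4. The resonant terms. -/
def ClaimRes : Prop := ∀ (h : (Fin 3 → ℤ) → E3 → ℂ),
  (∀ k (a b : ℝ) (c d : E3), h k (a • c + b • d) = a * h k c + b * h k d) →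
  (∀ k, h k (vec k) = 0) → (∀ k c, h (-k) c = (starRingEnd ℂ) (h k c)) →
  (∀ k c, h (rk k) (rx c) = h k c) → ∀ n : ℕ, 1 ≤ n →
    (cp n).Nodup ∧ (∀ p, p ∉ cp n → pres n h p = 0) ∧
    (((cp n).map (pres n h)).sum).re = 2 ^ n * nsq (h (kn (n - 1))) -
      2 ^ (n + 1) * (Sn n h * Sn (n + 1) h) / (2 ^ (n + 1) + 1)

/-! ### The remainder -/

/-- R1. Consequences of linearity. -/
def ClaimLin : Prop := ∀ (h : E3 → ℂ) (k : Fin 3 → ℤ),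
  (∀ (a b : ℝ) (c d : E3), h (a • c + b • d) = a * h c + b * h d) → h (vec k) = 0 →
  (∀ c, ‖h c‖ ^ 2 ≤ nsq h * ‖c‖ ^ 2) ∧
  (¬ (k 0 = 0 ∧ k 1 = 0) → (∀ c, h c = ⟪fr 0 k, c⟫ * h (fr 0 k) + ⟪fr 1 k, c⟫ * h (fr 1 k)) ∧
    ‖h (fr 0 k)‖ ^ 2 + ‖h (fr 1 k)‖ ^ 2 = nsq h)

/-- R2. There are no modes on the axis. -/
def ClaimAxis : Prop := ∀ (h : (Fin 3 → ℤ) → E3 → ℂ),
  (∀ k (a b : ℝ) (c d : E3), h k (a • c + b • d) = a * h k c + b * h k d) →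
  (∀ k, h k (vec k) = 0) → (∀ k c, h (-k) c = (starRingEnd ℂ) (h k c)) →
  (∀ k c, h (rk k) (rx c) = h k c) → ∀ k, k 0 = 0 → k 1 = 0 → ∀ c, h k c = 0

/-- R3. The equations for the components. -/
def ClaimComp : Prop := ∀ (ω : (Fin 3 → ℤ) → ℝ) (Ω T E : ℝ) (h : ℝ → (Fin 3 → ℤ) → E3 → ℂ),
  IsHat (fun k c => Ω • sym ω k c) T E h → ∀ (k : Fin 3 → ℤ) (j : Fin 2),
  ¬ (k 0 = 0 ∧ k 1 = 0) → ContinuousOn (fun t => conv (h t) k (fr j k)) (Ico 0 T) ∧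
    ∀ t ∈ Ico 0 T, ‖conv (h t) k (fr j k)‖ ≤ ‖vec k‖ * E ∧
      HasDerivWithinAt (fun s => h s k (fr j k)) (-Complex.I * conv (h t) k (fr j k) -
        Complex.I * (Ω * lam ω j k) * h t k (fr j k)) (Ico 0 T) t

/-- R4. Integration by parts. -/
def ClaimParts : Prop := ∀ (t G₁ G₂ l₁ l₂ : ℝ) (α β g₁ g₂ : ℝ → ℂ), 0 ≤ t → l₁ + l₂ ≠ 0 →
  (∀ s ∈ Icc 0 t, HasDerivWithinAt α (g₁ s - Complex.I * l₁ * α s) (Icc 0 t) s) →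
  (∀ s ∈ Icc 0 t, HasDerivWithinAt β (g₂ s - Complex.I * l₂ * β s) (Icc 0 t) s) →
  ContinuousOn g₁ (Icc 0 t) → ContinuousOn g₂ (Icc 0 t) →
  (∀ s ∈ Icc 0 t, ‖g₁ s‖ ≤ G₁) → (∀ s ∈ Icc 0 t, ‖g₂ s‖ ≤ G₂) →
  ‖∫ s in (0 : ℝ)..t, α s * β s‖ ≤ (|l₁ + l₂|)⁻¹ * (‖α t‖ * ‖β t‖ + ‖α 0‖ * ‖β 0‖ +
    ∫ s in (0 : ℝ)..t, (G₁ * ‖β s‖ + G₂ * ‖α s‖))

/-- R5. The nonresonant part of one term. -/
def ClaimTerm : Prop := ∀ (ω : (Fin 3 → ℤ) → ℝ) (Ω T E t : ℝ) (h : ℝ → (Fin 3 → ℤ) → E3 → ℂ)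
  (n : ℕ) (p : Fin 3 → ℤ), IsFreq ω → 0 < Ω → IsHat (fun k c => Ω • sym ω k c) T E h →
  t ∈ Ico 0 T → 1 ≤ n →
  ContinuousOn (fun s => nres n (h s) p) (Ico 0 T) ∧
  (∀ s ∈ Ico 0 T, h s p (vec (kn n)) * h s (kn n - p) (vec (en n)) =
    nres n (h s) p + pres n (h s) p) ∧
  (∀ s ∈ Ico 0 T, ‖nres n (h s) p‖ ≤ 4 * ‖vec (kn n)‖ * ‖vec (en n)‖ *
    (Real.sqrt (nsq (h s p)) * Real.sqrt (nsq (h s (kn n - p))))) ∧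
  ‖∫ s in (0 : ℝ)..t, nres n (h s) p‖ ≤ 1024 / Ω * ‖vec (kn n)‖ * ‖vec (en n)‖ *
    ((‖vec p‖ + ‖vec (kn n - p)‖) ^ 4)⁻¹ *
    (Real.sqrt (nsq (h t p)) * Real.sqrt (nsq (h t (kn n - p))) +
      Real.sqrt (nsq (h 0 p)) * Real.sqrt (nsq (h 0 (kn n - p))) +
      E * ∫ s in (0 : ℝ)..t, (‖vec p‖ * Real.sqrt (nsq (h s (kn n - p))) +
        ‖vec (kn n - p)‖ * Real.sqrt (nsq (h s p))))

/-- R6. The weighted sums. -/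
def ClaimSum : Prop := ∃ C : ℝ, 0 < C ∧ ∀ (N : (Fin 3 → ℤ) → ℝ) (E : ℝ) (k : Fin 3 → ℤ)
  (F : Finset (Fin 3 → ℤ)), (∀ p, 0 ≤ N p) → HasSum N E → k ≠ 0 →
  ∑ p ∈ F, ((‖vec p‖ + ‖vec (k - p)‖) ^ 4)⁻¹ * (Real.sqrt (N p) * Real.sqrt (N (k - p))) ≤
    E * (‖vec k‖ ^ 4)⁻¹ ∧
  ∑ p ∈ F, ((‖vec p‖ + ‖vec (k - p)‖) ^ 4)⁻¹ * (‖vec p‖ * Real.sqrt (N (k - p)) +
    ‖vec (k - p)‖ * Real.sqrt (N p)) ≤ C * Real.sqrt E * ‖vec k‖⁻¹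

/-- R7. The equation for the chain with its remainder. -/
def ClaimRem : Prop := ∃ C : ℝ, 0 < C ∧ ∀ (ω : (Fin 3 → ℤ) → ℝ) (Ω T E t : ℝ)
  (h : ℝ → (Fin 3 → ℤ) → E3 → ℂ) (n : ℕ), IsFreq ω → 0 < Ω →
  IsHat (fun k c => Ω • sym ω k c) T E h → t ∈ Ico 0 T → 1 ≤ n →
  |Sn n (h t) - Sn n (h 0) - ∫ s in (0 : ℝ)..t, (2 ^ n * nsq (h s (kn (n - 1))) -
    2 ^ (n + 1) * (Sn n (h s) * Sn (n + 1) (h s)) / (2 ^ (n + 1) + 1))| ≤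
  C * Real.sqrt (2 ^ n + 1) * (E + t * (E * Real.sqrt E)) / Ω

/-- R8. A mode of the chain persists. -/
def ClaimStay : Prop := ∀ (ω : (Fin 3 → ℤ) → ℝ) (Ω T E : ℝ)
  (h : ℝ → (Fin 3 → ℤ) → E3 → ℂ) (k : Fin 3 → ℤ), ¬ (k 0 = 0 ∧ k 1 = 0) →
  IsHat (fun k c => Ω • sym ω k c) T E h → ∀ t ∈ Ico 0 T,
  2 * (‖vec k‖ * E * t) ≤ Real.sqrt (nsq (h 0 k)) / 2 → nsq (h 0 k) ≤ 4 * nsq (h t k)

/-! ### The dyadic inequality -/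

/-- B1. The quadratic form. -/
def ClaimQuad : Prop := ∀ (N M : ℕ) (S m : ℕ → ℝ), N < M → (∀ n, S n ^ 2 ≤ (2 ^ n + 1) * m n) →
  (7 / 10) ^ (N + 1) * 2 ^ (N + 1) * m N +
    1 / 20 * ∑ n ∈ Finset.Ioc N M, (7 / 10) ^ (n + 1) * 2 ^ (n + 1) * m n
    - 2 * ((7 / 10) ^ (M + 1) * 2 ^ (M + 1) * m M) - (7 / 10) ^ (M + 2) * 2 ^ (M + 2) * m (M + 1) ≤
  ∑ n ∈ Finset.Ioc N M, (7 / 10) ^ n * (2 ^ n * m (n - 1) -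
    2 ^ (n + 1) * (S n * S (n + 1)) / (2 ^ (n + 1) + 1))

/-- B2. Blow-up for the perturbed dyadic system. -/
def ClaimBlow : Prop := ∀ (N : ℕ) (m₀ C : ℝ), 0 < m₀ → 0 < C → ∃ c : ℝ, 0 < c ∧
  ∀ (A Ω T : ℝ) (S M : ℕ → ℝ → ℝ), 0 < A → 0 < Ω → 0 < T → A ≤ c * Ω →
  (∀ n, ContinuousOn (S n) (Ico 0 T)) → (∀ n, ContinuousOn (M n) (Ico 0 T)) →
  (∀ n, ∀ t ∈ Ico 0 T, S n t ^ 2 ≤ (2 ^ n + 1) * M n t) →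
  (∀ n, N < n → ∀ t ∈ Ico 0 T, |S n t - ∫ s in (0 : ℝ)..t, (2 ^ n * M (n - 1) s -
    2 ^ (n + 1) * (S n s * S (n + 1) s) / (2 ^ (n + 1) + 1))| ≤
    C * Real.sqrt (2 ^ n + 1) * (A ^ 2 + t * A ^ 3) / Ω) →
  (∀ t ∈ Ico 0 T, ∃ D : ℝ, ∀ n, ∀ s ∈ Icc 0 t, 4 ^ n * M n s ≤ D) →
  (∀ t ∈ Ico 0 T, C * A * t ≤ 1 → A ^ 2 * m₀ ≤ M N t) → c * A * T ≤ 1

/-- L. The life span of the coefficients. -/
def ClaimLife : Prop := ∀ (N : ℕ) (m₀ E₀ : ℝ), 0 < m₀ → ∃ c : ℝ, 0 < c ∧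
  ∀ (ω : (Fin 3 → ℤ) → ℝ) (A Ω T : ℝ) (h : ℝ → (Fin 3 → ℤ) → E3 → ℂ), IsFreq ω → 0 < A →
  A ≤ c * Ω → 0 < T → IsHat (fun k c => Ω • sym ω k c) T (A ^ 2 * E₀) h →
  nsq (h 0 (kn N)) = A ^ 2 * m₀ → (∀ n, N < n → ∀ c, h 0 (kn n) c = 0) → c * A * T ≤ 1

/-! ### Existence -/

/-- The properties of the coefficients of a local solution: the solution is
`∑ (cos (k · x) a k + sin (k · x) b k)`. -/
structure IsCoeff (B : (Fin 3 → ℤ) → E3 → E3) (T K : ℝ)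
    (a b a' b' : (Fin 3 → ℤ) → ℝ → E3) : Prop where
  deriv_a : ∀ k, ∀ t ∈ Icc 0 T, HasDerivWithinAt (a k) (a' k t) (Icc 0 T) t
  deriv_b : ∀ k, ∀ t ∈ Icc 0 T, HasDerivWithinAt (b k) (b' k t) (Icc 0 T) t
  cont_a : ∀ k, ContinuousOn (a' k) (Icc 0 T)
  cont_b : ∀ k, ContinuousOn (b' k) (Icc 0 T)
  even : ∀ k, ∀ t ∈ Icc 0 T, a (-k) t = a k t
  odd : ∀ k, ∀ t ∈ Icc 0 T, b (-k) t = -b k t
  div_a : ∀ k, ∀ t ∈ Icc 0 T, ⟪vec k, a k t⟫ = 0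
  div_b : ∀ k, ∀ t ∈ Icc 0 T, ⟪vec k, b k t⟫ = 0
  bd : ∀ k, ∀ t ∈ Icc 0 T, ‖a k t‖ + ‖b k t‖ ≤ K * Real.exp (-‖vec k‖)
  bd' : ∀ k, ∀ t ∈ Icc 0 T, ‖a' k t‖ + ‖b' k t‖ ≤ K * Real.exp (-‖vec k‖)
  eqn_a : ∀ k, ∀ t ∈ Icc 0 T, ∀ c : E3, ⟪vec k, c⟫ = 0 → ⟪a' k t, c⟫ =
    -(∑' p, (⟪a p t, vec k⟫ * ⟪b (k - p) t, c⟫ + ⟪b p t, vec k⟫ * ⟪a (k - p) t, c⟫)) -
      ⟪b k t, B k c⟫
  eqn_b : ∀ k, ∀ t ∈ Icc 0 T, ∀ c : E3, ⟪vec k, c⟫ = 0 → ⟪b' k t, c⟫ =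
    (∑' p, (⟪a p t, vec k⟫ * ⟪a (k - p) t, c⟫ - ⟪b p t, vec k⟫ * ⟪b (k - p) t, c⟫)) +
      ⟪a k t, B k c⟫

/-- X1. Local existence for the coefficients. -/
def ClaimCoeff : Prop := ∀ (B : (Fin 3 → ℤ) → E3 → E3) (F : Finset (Fin 3 → ℤ))
  (a₀ b₀ : (Fin 3 → ℤ) → E3), IsSymbol B → (∀ k ∉ F, a₀ k = 0 ∧ b₀ k = 0) →
  (∀ k, a₀ (-k) = a₀ k) → (∀ k, b₀ (-k) = -b₀ k) →
  (∀ k, ⟪vec k, a₀ k⟫ = 0) → (∀ k, ⟪vec k, b₀ k⟫ = 0) →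
  ∃ (T K : ℝ) (a b a' b' : (Fin 3 → ℤ) → ℝ → E3), 0 < T ∧ (∀ k, a k 0 = a₀ k ∧ b k 0 = b₀ k) ∧
    IsCoeff B T K a b a' b'

/-- X2. From coefficients to a classical solution. -/
def ClaimBuild : Prop := ∀ (B : (Fin 3 → ℤ) → E3 → E3) (T K : ℝ)
  (a b a' b' : (Fin 3 → ℤ) → ℝ → E3), IsSymbol B → 0 < T → IsCoeff B T K a b a' b' →
  IsSolution B T (fun t x => ∑' k, (Real.cos (phase k x) • a k t + Real.sin (phase k x) • b k t))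

/-- G1. The maximal time. -/
def ClaimMax : Prop := ∀ (B : (Fin 3 → ℤ) → E3 → E3) (v : E3 → E3) (β : ℝ), IsSymbol B →
  (∃ T, 0 < T ∧ ∃ u, IsSolution B T u ∧ ∀ x, u 0 x = v x) →
  (∀ T, 0 < T → ∀ u, IsSolution B T u → (∀ x, u 0 x = v x) → T ≤ β) →
  ∃ Ts, 0 < Ts ∧ Ts ≤ β ∧
    ∀ T, 0 < T → ((∃ u, IsSolution B T u ∧ ∀ x, u 0 x = v x) ↔ T ≤ Ts)

/-! ### Main theorem -/

/-- The main theorem. -/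
def ClaimMain : Prop := ∀ v : E3 → E3, IsDatum v →
  (∃ k ∈ X, (∫ x in cube, Real.cos (phase k x) • v x ≠ 0) ∨
    ∫ x in cube, Real.sin (phase k x) • v x ≠ 0) →
  ∃ c : ℝ, 0 < c ∧ ∀ (A Ω : ℝ) (ω : (Fin 3 → ℤ) → ℝ), 0 < A → A ≤ c * Ω → IsFreq ω →
    (∀ (T : ℝ) (u u' : ℝ → E3 → E3), IsSolution (fun k c => Ω • sym ω k c) T u →
      IsSolution (fun k c => Ω • sym ω k c) T u' →
      (∀ x, u 0 x = A • v x) → (∀ x, u' 0 x = A • v x) → ∀ t ∈ Ico 0 T, u t = u' t) ∧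
    ∃ Ts : ℝ, 0 < Ts ∧ c * A * Ts ≤ 1 ∧ ∀ T, 0 < T →
      ((∃ u, IsSolution (fun k c => Ω • sym ω k c) T u ∧ ∀ x, u 0 x = A • v x) ↔ T ≤ Ts)

end Pool.Agent.Work.MP_b0497c_an.Disp
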