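import Mathlib
import Pool.Agent.Work.MP_b0497c_an.Disp.Stmts
import Pool.Agent.Work.MP_b0497c_an.Tri.Form

set_option autoImplicit false

/-!
C1: the vectors of the chain.
-/

namespace Pool.Agent.Work.MP_b0497c_an.Disp

open Set MeasureTheory RealInnerProductSpace Pool.Agent.Work.MP_b0497c_an
open Pool.Agent.Work.MP_b0497c_an.Dec (cube phase vec)

theorem kn_succ (n : ℕ) : kn (n + 1) = ![kn n 0 - kn n 1, kn n 0 + kn n 1, 2 * kn n 2] := rfl

theorem kn_succ0 (n : ℕ) : kn (n + 1) 0 = kn n 0 - kn n 1 := rfl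
theorem kn_succ1 (n : ℕ) : kn (n + 1) 1 = kn n 0 + kn n 1 := rfl
theorem kn_succ2 (n : ℕ) : kn (n + 1) 2 = 2 * kn n 2 := rfl

theorem kn_two (n : ℕ) : kn n 2 = 2 ^ n := by
  induction n with
  | zero => rfl
  | succ n ih => rw [kn_succ2, ih]; ring

theorem kn_sq (n : ℕ) : kn n 0 ^ 2 + kn n 1 ^ 2 = 2 ^ n := by
  induction n with
  | zero => rfl
  | succ n ih =>
    rw [kn_succ0, kn_succ1, pow_succ 2 n, ← ih]
    ring

theorem kn_ext (a b : Fin 3 → ℤ) : a = b ↔ a 0 = b 0 ∧ a 1 = b 1 ∧ a 2 = b 2 := by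
  constructor
  · rintro rfl; exact ⟨rfl, rfl, rfl⟩
  · rintro ⟨h0, h1, h2⟩
    funext i
    fin_cases i
    · exact h0
    · exact h1
    · exact h2

/-- The representations of powers of two as sums of two squares. -/
theorem kn_rep (n : ℕ) : ∀ x y : ℤ, x ^ 2 + y ^ 2 = 2 ^ n →
    (x = kn n 0 ∧ y = kn n 1) ∨ (x = kn n 1 ∧ y = -kn n 0) ∨ (x = -kn n 0 ∧ y = -kn n 1) ∨
      (x = -kn n 1 ∧ y = kn n 0) := by
  induction n with
  | zero =>
    intro x y h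
    have hx1 : x ≤ 1 := by nlinarith [sq_nonneg y]
    have hx2 : -1 ≤ x := by nlinarith [sq_nonneg y]
    have hy1 : y ≤ 1 := by nlinarith [sq_nonneg x]
    have hy2 : -1 ≤ y := by nlinarith [sq_nonneg x]
    have e0 : kn 0 0 = 1 := rfl
    have e1 : kn 0 1 = 0 := rfl
    rw [e0, e1]
    interval_cases x <;> interval_cases y <;> simp_all
  | succ n ih =>
    intro x y h
    have hev : Even (x + y) := by
      have h1 : Even (x ^ 2 + y ^ 2) := by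
        rw [h, pow_succ]
        exact even_two.mul_left _
      have h2 : Even (x ^ 2 + y ^ 2 + 2 * x * y) := by
        rw [show 2 * x * y = 2 * (x * y) by ring]
        exact h1.add (even_two_mul _)
      have h3 : (x + y) ^ 2 = x ^ 2 + y ^ 2 + 2 * x * y := by ring
      rw [← h3] at h2
      exact (Int.even_pow.1 h2).1
    obtain ⟨a, ha⟩ := hev
    have hb : y - x = 2 * (a - x) := by linarith
    have hxa : x = a - (a - x) := by ring
    have hya : y = a + (a - x) := by linarith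
    set b := a - x with hbdef
    have hab : a ^ 2 + b ^ 2 = 2 ^ n := by
      rw [hxa, hya, pow_succ 2 n] at h
      linarith [h, show (a - b) ^ 2 + (a + b) ^ 2 = 2 * (a ^ 2 + b ^ 2) by ring]
    rw [kn_succ0, kn_succ1]
    rcases ih a b hab with ⟨h1, h2⟩ | ⟨h1, h2⟩ | ⟨h1, h2⟩ | ⟨h1, h2⟩
    · left; constructor <;> linarith
    · right; left; constructor <;> linarith
    · right; right; left; constructor <;> linarith
    · right; right; right; constructor <;> linarith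

theorem kn_rk0 (k : Fin 3 → ℤ) : rk k 0 = k 1 := rfl
theorem kn_rk1 (k : Fin 3 → ℤ) : rk k 1 = -k 0 := rfl
theorem kn_rk2 (k : Fin 3 → ℤ) : rk k 2 = -k 2 := rfl

theorem kn_rk_mem (k : Fin 3 → ℤ) (hk : k ∈ X) : rk k ∈ X := by
  obtain ⟨n, h1, h2⟩ := hk
  refine ⟨n, ?_, ?_⟩
  · rw [kn_rk0, kn_rk1, ← h1]; ring
  · rw [kn_rk2, abs_neg, h2]

theorem kn_neg_mem (k : Fin 3 → ℤ) (hk : k ∈ X) : -k ∈ X := by
  obtain ⟨n, h1, h2⟩ := hk
  refine ⟨n, ?_, ?_⟩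
  · rw [← h1]
    simp only [Pi.neg_apply]
    ring
  · rw [Pi.neg_apply, abs_neg, h2]

theorem kn_mem (n : ℕ) : kn n ∈ X := by
  refine ⟨n, kn_sq n, ?_⟩
  rw [kn_two, abs_of_pos (by positivity)]

theorem kn_rk_iter_mem (k : Fin 3 → ℤ) (hk : k ∈ X) (j : ℕ) : rk^[j] k ∈ X := by
  induction j with
  | zero => exact hk
  | succ j ih =>
    rw [Function.iterate_succ_apply']
    exact kn_rk_mem _ ih

theorem kn_mem_X (k : Fin 3 → ℤ) : k ∈ X ↔ ∃ n j : ℕ, k = rk^[j] (kn n) ∨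
    k = -(rk^[j] (kn n)) := by
  constructor
  · rintro ⟨n, h1, h2⟩
    refine ⟨n, ?_⟩
    have hz : k 2 = kn n 2 ∨ k 2 = -kn n 2 := by
      rw [kn_two]
      rcases abs_choice (k 2) with h | h
      · left; rw [← h2, h]
      · right; rw [← h2, h, neg_neg]
    rcases kn_rep n (k 0) (k 1) h1 with ⟨ha, hb⟩ | ⟨ha, hb⟩ | ⟨ha, hb⟩ | ⟨ha, hb⟩ <;>
      rcases hz with hz | hz
    · exact ⟨0, Or.inl ((kn_ext _ _).2 ⟨ha, hb, hz⟩)⟩
    · refine ⟨2, Or.inr ((kn_ext _ _).2 ?_)⟩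
      refine ⟨ha.trans ?_, hb.trans ?_, hz.trans ?_⟩ <;>
        simp [kn_rk0, kn_rk1, kn_rk2]
    · refine ⟨3, Or.inr ((kn_ext _ _).2 ?_)⟩
      refine ⟨ha.trans ?_, hb.trans ?_, hz.trans ?_⟩ <;>
        simp [kn_rk0, kn_rk1, kn_rk2]
    · refine ⟨1, Or.inl ((kn_ext _ _).2 ?_)⟩
      refine ⟨ha.trans ?_, hb.trans ?_, hz.trans ?_⟩ <;>
        simp [kn_rk0, kn_rk1, kn_rk2]
    · refine ⟨2, Or.inl ((kn_ext _ _).2 ?_)⟩
      refine ⟨ha.trans ?_, hb.trans ?_, hz.trans ?_⟩ <;>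
        simp [kn_rk0, kn_rk1, kn_rk2]
    · refine ⟨0, Or.inr ((kn_ext _ _).2 ?_)⟩
      refine ⟨ha.trans ?_, hb.trans ?_, hz.trans ?_⟩ <;>
        simp [kn_rk0, kn_rk1, kn_rk2]
    · refine ⟨1, Or.inr ((kn_ext _ _).2 ?_)⟩
      refine ⟨ha.trans ?_, hb.trans ?_, hz.trans ?_⟩ <;>
        simp [kn_rk0, kn_rk1, kn_rk2]
    · refine ⟨3, Or.inl ((kn_ext _ _).2 ?_)⟩
      refine ⟨ha.trans ?_, hb.trans ?_, hz.trans ?_⟩ <;>
        simp [kn_rk0, kn_rk1, kn_rk2]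
  · rintro ⟨n, j, rfl | rfl⟩
    · exact kn_rk_iter_mem _ (kn_mem n) j
    · exact kn_neg_mem _ (kn_rk_iter_mem _ (kn_mem n) j)

theorem kn_vec_apply (k : Fin 3 → ℤ) (i : Fin 3) : vec k i = (k i : ℝ) := by
  fin_cases i <;> rfl

theorem kn_en0 (n : ℕ) : en n 0 = kn n 0 := rfl
theorem kn_en1 (n : ℕ) : en n 1 = kn n 1 := rfl
theorem kn_en2 (n : ℕ) : en n 2 = -1 := rfl

theorem kn_sq_real (n : ℕ) : (kn n 0 : ℝ) ^ 2 + (kn n 1 : ℝ) ^ 2 = 2 ^ n := by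
  exact_mod_cast kn_sq n

theorem kn_two_real (n : ℕ) : (kn n 2 : ℝ) = 2 ^ n := by
  exact_mod_cast kn_two n

theorem kn_fr (n : ℕ) : fr 0 (kn n) = (Real.sqrt (2 ^ n + 1))⁻¹ • vec (en n) := by
  have h2 : kn n 2 ≠ 0 := by
    rw [kn_two]
    positivity
  have h3 : (2 ^ n : ℝ) ≠ 0 := by positivity
  unfold fr
  rw [if_neg h2, if_pos rfl]
  unfold pol
  rw [kn_sq_real, kn_two_real, div_self h3, one_pow]
  congr 1
  ext i
  fin_cases i
  · rfl
  · rfl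
  · change -(1 : ℝ) = ((en n 2 : ℤ) : ℝ)
    rw [kn_en2]
    norm_num

theorem kn_tor (n : ℕ) : ⟪tor (kn n), vec (en n)⟫ = 0 := by
  unfold tor
  rw [real_inner_smul_left, inner_eq]
  have h0 : (!₂[-(kn n 1 : ℝ), (kn n 0 : ℝ), 0] : E3) 0 = -(kn n 1 : ℝ) := rfl
  have h1 : (!₂[-(kn n 1 : ℝ), (kn n 0 : ℝ), 0] : E3) 1 = (kn n 0 : ℝ) := rfl
  have h2 : (!₂[-(kn n 1 : ℝ), (kn n 0 : ℝ), 0] : E3) 2 = 0 := rfl
  rw [h0, h1, h2, kn_vec_apply, kn_vec_apply, kn_vec_apply, kn_en0, kn_en1, kn_en2]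
  ring

theorem claimKn : ClaimKn := by
  refine ⟨fun n => ⟨kn_sq n, kn_two n⟩, kn_mem_X, fun n => ⟨?_, ?_, ?_, kn_fr n⟩, ?_⟩
  · rw [Tri.FormAux.norm_vec_sq, Fin.sum_univ_three, kn_en0, kn_en1, kn_en2, kn_sq_real]
    push_cast
    ring
  · rw [inner_eq]
    simp only [kn_vec_apply, kn_en0, kn_en1, kn_en2]
    have h1 := kn_sq_real n
    have h2 := kn_two_real n
    rw [h2]
    push_cast
    linarith
  · rw [Tri.FormAux.norm_vec_sq, Fin.sum_univ_three, kn_sq_real, kn_two_real]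
    rw [← pow_mul, mul_comm n 2, pow_mul]
    norm_num
  · intro ω n
    have h2 : kn n 2 ≠ 0 := by
      rw [kn_two]
      positivity
    have h0 : ¬ (kn n 0 = 0 ∧ kn n 1 = 0) := by
      rintro ⟨h, h'⟩
      have h3 := kn_sq n
      rw [h, h'] at h3
      have : (2 : ℤ) ^ n ≠ 0 := by positivity
      exact this (by rw [← h3]; ring)
    unfold sym
    rw [if_neg h0, if_neg h2, if_pos (kn_mem n), kn_tor, zero_smul, smul_zero]

end Pool.Agent.Work.MP_b0497c_an.Disp
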