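import Mathlib
import Pool.Agent.Work.MP_b0497c_an.Disp.Stmts

set_option autoImplicit false

/-!
Euler equations with a dispersive term: the eigenvectors of the symbol (item S2).
-/

namespace Pool.Agent.Work.MP_b0497c_an.Disp

open Set MeasureTheory RealInnerProductSpace Pool.Agent.Work.MP_b0497c_an
open Pool.Agent.Work.MP_b0497c_an.Dec (cube phase vec)

theorem Eig_inner (a b : E3) : ⟪a, b⟫ = a 0 * b 0 + a 1 * b 1 + a 2 * b 2 := by
  simp [PiLp.inner_apply, Fin.sum_univ_three]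
  ring

theorem Eig_norm {a : E3} (h : ⟪a, a⟫ = 1) : ‖a‖ = 1 := by
  rw [real_inner_self_eq_norm_sq] at h
  have h1 := norm_nonneg a
  nlinarith

theorem Eig_complete (κ a b c : E3) (hκ : κ ≠ 0) (ha : ‖a‖ = 1) (hb : ‖b‖ = 1)
    (h1 : ⟪κ, a⟫ = 0) (h2 : ⟪κ, b⟫ = 0) (h3 : ⟪a, b⟫ = 0) :
    c = (⟪κ, c⟫ / ‖κ‖ ^ 2) • κ + (⟪a, c⟫ • a + ⟪b, c⟫ • b) := by
  have hκn : ‖κ‖ ≠ 0 := norm_ne_zero_iff.2 hκ
  have h1' : ⟪a, κ⟫ = 0 := by rw [real_inner_comm]; exact h1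
  have h2' : ⟪b, κ⟫ = 0 := by rw [real_inner_comm]; exact h2
  have h3' : ⟪b, a⟫ = 0 := by rw [real_inner_comm]; exact h3
  have haa : ⟪a, a⟫ = 1 := by rw [real_inner_self_eq_norm_sq, ha]; norm_num
  have hbb : ⟪b, b⟫ = 1 := by rw [real_inner_self_eq_norm_sq, hb]; norm_num
  have hkk : ⟪κ, κ⟫ = ‖κ‖ ^ 2 := real_inner_self_eq_norm_sq κ
  have hnk : ‖‖κ‖⁻¹ • κ‖ = 1 := by rw [norm_smul, norm_inv, norm_norm, inv_mul_cancel₀ hκn]
  let v : Fin 3 → E3 := ![‖κ‖⁻¹ • κ, a, b]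
  have hv : Orthonormal ℝ v := by
    rw [orthonormal_iff_ite]
    intro i j
    fin_cases i <;> fin_cases j <;>
      simp [v, inner_smul_left, inner_smul_right, h1, h2, h3, h1', h2', h3', ha, hb, hnk]
  have hspan : ⊤ ≤ Submodule.span ℝ (Set.range v) := by
    have hcard : Fintype.card (Fin 3) = Module.finrank ℝ E3 := by simp
    rw [hv.linearIndependent.span_eq_top_of_card_eq_finrank' hcard]
  let B := OrthonormalBasis.mk hv hspan
  have hB := B.sum_repr' c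
  rw [Fin.sum_univ_three] at hB
  have e0 : B 0 = ‖κ‖⁻¹ • κ := by simp [B, v]
  have e1 : B 1 = a := by simp [B, v]
  have e2 : B 2 = b := by simp [B, v]
  rw [e0, e1, e2] at hB
  rw [real_inner_smul_left, smul_smul] at hB
  have h5 : ‖κ‖⁻¹ * ⟪κ, c⟫ * ‖κ‖⁻¹ = ⟪κ, c⟫ / ‖κ‖ ^ 2 := by
    field_simp
  rw [h5] at hB
  rw [← add_assoc]
  exact hB.symm

section

variable (k : Fin 3 → ℤ)

theorem Eig_pos (hk : ¬ (k 0 = 0 ∧ k 1 = 0)) : (0 : ℝ) < (k 0 : ℝ) ^ 2 + (k 1 : ℝ) ^ 2 := by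
  by_cases h0 : k 0 = 0
  · have h1 : (k 1 : ℝ) ≠ 0 := by
      intro h
      exact hk ⟨h0, by exact_mod_cast h⟩
    positivity
  · have h1 : (k 0 : ℝ) ≠ 0 := by exact_mod_cast h0
    positivity

theorem Eig_vec : vec k 0 = k 0 ∧ vec k 1 = k 1 ∧ vec k 2 = k 2 := by
  simp [vec]

theorem Eig_tor : tor k 0 = (Real.sqrt ((k 0 : ℝ) ^ 2 + (k 1 : ℝ) ^ 2))⁻¹ * (-(k 1 : ℝ)) ∧
    tor k 1 = (Real.sqrt ((k 0 : ℝ) ^ 2 + (k 1 : ℝ) ^ 2))⁻¹ * (k 0 : ℝ) ∧ tor k 2 = 0 := by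
  simp [tor]

theorem Eig_ez : ez 0 = 0 ∧ ez 1 = 0 ∧ ez 2 = 1 := by
  simp [ez]

theorem Eig_pol : pol k 0 =
      (Real.sqrt ((k 0 : ℝ) ^ 2 + (k 1 : ℝ) ^ 2 + (((k 0 : ℝ) ^ 2 + (k 1 : ℝ) ^ 2) / k 2) ^ 2))⁻¹ *
        (k 0 : ℝ) ∧
    pol k 1 =
      (Real.sqrt ((k 0 : ℝ) ^ 2 + (k 1 : ℝ) ^ 2 + (((k 0 : ℝ) ^ 2 + (k 1 : ℝ) ^ 2) / k 2) ^ 2))⁻¹ *
        (k 1 : ℝ) ∧
    pol k 2 =
      (Real.sqrt ((k 0 : ℝ) ^ 2 + (k 1 : ℝ) ^ 2 + (((k 0 : ℝ) ^ 2 + (k 1 : ℝ) ^ 2) / k 2) ^ 2))⁻¹ *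
        (-(((k 0 : ℝ) ^ 2 + (k 1 : ℝ) ^ 2) / k 2)) := by
  simp [pol]

theorem Eig_tor_tor (hk : ¬ (k 0 = 0 ∧ k 1 = 0)) : ⟪tor k, tor k⟫ = 1 := by
  have hp := Eig_pos k hk
  rw [Eig_inner, (Eig_tor k).1, (Eig_tor k).2.1, (Eig_tor k).2.2]
  set r : ℝ := (k 0 : ℝ) ^ 2 + (k 1 : ℝ) ^ 2 with hr
  have h1 : Real.sqrt r * Real.sqrt r = r := Real.mul_self_sqrt hp.le
  have h2 : Real.sqrt r ≠ 0 := (Real.sqrt_pos.2 hp).ne'
  have h3 : Real.sqrt r ^ 2 = r := Real.sq_sqrt hp.le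
  field_simp
  rw [h3, hr]
  ring

theorem Eig_tor_ez : ⟪tor k, ez⟫ = 0 := by
  rw [Eig_inner, (Eig_tor k).2.2, Eig_ez.1, Eig_ez.2.1]
  ring

theorem Eig_ez_ez : ⟪ez, ez⟫ = 1 := by
  rw [Eig_inner, Eig_ez.1, Eig_ez.2.1, Eig_ez.2.2]
  ring

theorem Eig_tor_pol : ⟪tor k, pol k⟫ = 0 := by
  rw [Eig_inner, (Eig_tor k).1, (Eig_tor k).2.1, (Eig_tor k).2.2, (Eig_pol k).1, (Eig_pol k).2.1]
  ring

theorem Eig_pol_pol (hk : ¬ (k 0 = 0 ∧ k 1 = 0)) : ⟪pol k, pol k⟫ = 1 := by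
  have hp := Eig_pos k hk
  rw [Eig_inner, (Eig_pol k).1, (Eig_pol k).2.1, (Eig_pol k).2.2]
  set r : ℝ := (k 0 : ℝ) ^ 2 + (k 1 : ℝ) ^ 2 with hr
  set w : ℝ := r / k 2 with hw
  have hp2 : 0 < r + w ^ 2 := by positivity
  have h1 : Real.sqrt (r + w ^ 2) * Real.sqrt (r + w ^ 2) = r + w ^ 2 := Real.mul_self_sqrt hp2.le
  have h2 : Real.sqrt (r + w ^ 2) ≠ 0 := (Real.sqrt_pos.2 hp2).ne'
  set s : ℝ := Real.sqrt (r + w ^ 2) with hs
  have h3 : s⁻¹ * (k 0 : ℝ) * (s⁻¹ * (k 0 : ℝ)) + s⁻¹ * (k 1 : ℝ) * (s⁻¹ * (k 1 : ℝ)) +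
      s⁻¹ * -w * (s⁻¹ * -w) = (r + w ^ 2) / (s * s) := by
    rw [hr]
    field_simp
  rw [h3, h1, div_self hp2.ne']

theorem Eig_vec_tor : ⟪vec k, tor k⟫ = 0 := by
  rw [Eig_inner, (Eig_vec k).1, (Eig_vec k).2.1, (Eig_tor k).1, (Eig_tor k).2.1, (Eig_tor k).2.2]
  ring

theorem Eig_vec_pol (h2 : k 2 ≠ 0) : ⟪vec k, pol k⟫ = 0 := by
  have h2' : (k 2 : ℝ) ≠ 0 := by exact_mod_cast h2
  rw [Eig_inner, (Eig_vec k).1, (Eig_vec k).2.1, (Eig_vec k).2.2, (Eig_pol k).1, (Eig_pol k).2.1,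
    (Eig_pol k).2.2]
  set s : ℝ := (Real.sqrt ((k 0 : ℝ) ^ 2 + (k 1 : ℝ) ^ 2 +
    (((k 0 : ℝ) ^ 2 + (k 1 : ℝ) ^ 2) / k 2) ^ 2))⁻¹ with hs
  have h3 : (k 2 : ℝ) * (s * -(((k 0 : ℝ) ^ 2 + (k 1 : ℝ) ^ 2) / k 2)) =
      -(s * ((k 0 : ℝ) ^ 2 + (k 1 : ℝ) ^ 2)) := by
    field_simp
  rw [h3]
  ring

theorem Eig_vec_ez (h2 : k 2 = 0) : ⟪vec k, ez⟫ = 0 := by
  rw [Eig_inner, (Eig_vec k).2.2, Eig_ez.1, Eig_ez.2.1, h2]
  simp

end

theorem claimEig : ClaimEig := by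
  intro k hk
  have htt := Eig_tor_tor k hk
  have hte := Eig_tor_ez k
  have het : ⟪ez, tor k⟫ = 0 := by rw [real_inner_comm]; exact hte
  have hee := Eig_ez_ez
  have htp := Eig_tor_pol k
  have hpt : ⟪pol k, tor k⟫ = 0 := by rw [real_inner_comm]; exact htp
  have hpp := Eig_pol_pol k hk
  have hvt := Eig_vec_tor k
  have hs2 : (Real.sqrt 2)⁻¹ * (Real.sqrt 2)⁻¹ = 1 / 2 := by
    rw [← mul_inv, Real.mul_self_sqrt (by norm_num)]
    norm_num
  have hfr1 : ∀ j, ⟪fr j k, fr j k⟫ = 1 := by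
    intro j
    by_cases h2 : k 2 = 0
    · fin_cases j
      · simp only [fr, h2, if_true, Fin.zero_eta]
        rw [real_inner_smul_left, real_inner_smul_right, inner_add_left, inner_add_right,
          inner_add_right, htt, hte, het, hee, ← mul_assoc, hs2]
        norm_num
      · simp only [fr, h2, if_true, Fin.mk_one, one_ne_zero, if_false]
        rw [real_inner_smul_left, real_inner_smul_right, inner_sub_left, inner_sub_right,
          inner_sub_right, htt, hte, het, hee, ← mul_assoc, hs2]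
        norm_num
    · fin_cases j
      · simpa only [fr, h2, if_false, Fin.zero_eta, if_true] using hpp
      · simpa only [fr, h2, if_false, Fin.mk_one, one_ne_zero] using htt
  have hfrv : ∀ j, ⟪vec k, fr j k⟫ = 0 := by
    intro j
    by_cases h2 : k 2 = 0
    · have hve := Eig_vec_ez k h2
      fin_cases j
      · simp only [fr, h2, if_true, Fin.zero_eta]
        rw [real_inner_smul_right, inner_add_right, hvt, hve]
        norm_num
      · simp only [fr, h2, if_true, Fin.mk_one, one_ne_zero, if_false]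
        rw [real_inner_smul_right, inner_sub_right, hvt, hve]
        norm_num
    · have hvp := Eig_vec_pol k h2
      fin_cases j
      · simpa only [fr, h2, if_false, Fin.zero_eta, if_true] using hvp
      · simpa only [fr, h2, if_false, Fin.mk_one, one_ne_zero] using hvt
  have hfr01 : ⟪fr 0 k, fr 1 k⟫ = 0 := by
    by_cases h2 : k 2 = 0
    · simp only [fr, h2, if_true, one_ne_zero, if_false]
      rw [real_inner_smul_left, real_inner_smul_right, inner_add_left, inner_sub_right,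
        inner_sub_right, htt, hte, het, hee]
      norm_num
    · simp only [fr, h2, if_false, if_true, one_ne_zero]
      exact hpt
  refine ⟨fun j => Eig_norm (hfr1 j), hfrv, hfr01, ?_, ?_⟩
  · intro ω j
    by_cases h2 : k 2 = 0
    · fin_cases j
      · simp only [fr, lam, sym, h2, if_true, if_neg hk, Fin.zero_eta]
        rw [real_inner_smul_right, real_inner_smul_right, inner_add_right, inner_add_right,
          htt, hte, het, hee]
        module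
      · simp only [fr, lam, sym, h2, if_true, if_neg hk, Fin.mk_one, one_ne_zero, if_false]
        rw [real_inner_smul_right, real_inner_smul_right, inner_sub_right, inner_sub_right,
          htt, hte, het, hee]
        module
    · by_cases hX : k ∈ X
      · fin_cases j
        · simp only [fr, lam, sym, h2, if_false, if_neg hk, Fin.zero_eta, if_true, hX, htp,
            and_self]
          simp
        · simp only [fr, lam, sym, h2, if_false, if_neg hk, Fin.mk_one, one_ne_zero, if_true, hX,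
            and_false, htt]
          simp
      · simp only [lam, sym, h2, if_false, if_neg hk, hX, false_and]
  · intro c
    refine Eig_complete (vec k) (fr 0 k) (fr 1 k) c ?_ (Eig_norm (hfr1 0)) (Eig_norm (hfr1 1))
      (hfrv 0) (hfrv 1) hfr01
    intro h0
    have hp := Eig_pos k hk
    have h3 := (Eig_vec k).1
    have h4 := (Eig_vec k).2.1
    rw [h0] at h3 h4
    simp only [PiLp.zero_apply] at h3 h4
    rw [← h3, ← h4] at hp
    norm_num at hp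

end Pool.Agent.Work.MP_b0497c_an.Disp
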