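import Mathlib
import Pool.Agent.Work.MP_b0497c_an.Disp.Stmts

set_option autoImplicit false

/-!
Euler equations with a dispersive term: assembly of the main theorem from the claims.
-/

namespace Pool.Agent.Work.MP_b0497c_an.Disp

open Set MeasureTheory RealInnerProductSpace Pool.Agent.Work.MP_b0497c_an
open Pool.Agent.Work.MP_b0497c_an.Dec (cube phase vec)
open Pool.Agent.Work.MP_b0497c_an.Damp (cc sc acc)

namespace DCore

theorem hat_re (f : E3 → E3) (k : Fin 3 → ℤ) (c : E3) :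
    (hat f k c).re = ((2 * Real.pi) ^ 3)⁻¹ * ⟪cc f k, c⟫ := by
  simp only [hat, Complex.sub_re, Complex.ofReal_re, Complex.mul_re, Complex.I_re, Complex.I_im,
    Complex.ofReal_im, zero_mul, mul_zero, sub_zero]

theorem hat_im (f : E3 → E3) (k : Fin 3 → ℤ) (c : E3) :
    (hat f k c).im = -(((2 * Real.pi) ^ 3)⁻¹ * ⟪sc f k, c⟫) := by
  simp only [hat, Complex.sub_im, Complex.ofReal_re, Complex.mul_im, Complex.I_re, Complex.I_im,
    Complex.ofReal_im, zero_mul, one_mul, zero_add, zero_sub]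

theorem cc_smul (A : ℝ) (v : E3 → E3) (k : Fin 3 → ℤ) :
    cc (fun x => A • v x) k = A • cc v k := by
  unfold cc
  have : (fun x => Real.cos (phase k x) • A • v x) = fun x => A • (Real.cos (phase k x) • v x) := by
    funext x
    rw [smul_comm]
  rw [this, integral_smul]

theorem sc_smul (A : ℝ) (v : E3 → E3) (k : Fin 3 → ℤ) :
    sc (fun x => A • v x) k = A • sc v k := by
  unfold sc
  have : (fun x => Real.sin (phase k x) • A • v x) = fun x => A • (Real.sin (phase k x) • v x) := by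
    funext x
    rw [smul_comm]
  rw [this, integral_smul]

theorem hat_smul (A : ℝ) (v : E3 → E3) (k : Fin 3 → ℤ) (c : E3) :
    hat (fun x => A • v x) k c = A * hat v k c := by
  apply Complex.ext
  · rw [hat_re, cc_smul, real_inner_smul_left, Complex.re_ofReal_mul, hat_re]
    ring
  · rw [hat_im, sc_smul, real_inner_smul_left, Complex.im_ofReal_mul, hat_im]
    ring

theorem nsq_smul (A : ℝ) (v : E3 → E3) (k : Fin 3 → ℤ) :
    nsq (hat (fun x => A • v x) k) = A ^ 2 * nsq (hat v k) := by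
  unfold nsq
  simp only [hat_smul, norm_mul, Complex.norm_real, Real.norm_eq_abs, mul_pow, sq_abs]
  ring

theorem nsq_nonneg (h : E3 → ℂ) : 0 ≤ nsq h := by
  unfold nsq
  positivity

theorem rx_smul (a : ℝ) (x : E3) : rx (a • x) = a • rx x := by
  ext i
  fin_cases i <;> simp [rx]

theorem rx_iter4 (x : E3) : rx^[4] x = x := by
  simp only [Function.iterate_succ, Function.iterate_zero, Function.comp_apply, id]
  ext i
  fin_cases i <;> simp [rx]

theorem rx_surj (j : ℕ) : Function.Surjective (rx^[j]) := by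
  apply Function.Surjective.iterate
  intro y
  refine ⟨rx^[3] y, ?_⟩
  rw [← Function.iterate_succ_apply' rx 3]
  exact rx_iter4 y

/-- The last mode of the chain in the datum. -/
theorem last_mode (hBasic : ClaimBasic) (hHatSym : ClaimHatSym) (hDatum : ClaimDatum)
    (hKn : ClaimKn) (hLin : ClaimLin) (v : E3 → E3) (hv : IsDatum v)
    (hX : ∃ k ∈ X, (∫ x in cube, Real.cos (phase k x) • v x ≠ 0) ∨
      ∫ x in cube, Real.sin (phase k x) • v x ≠ 0) :
    ∃ N : ℕ, 0 < nsq (hat v (kn N)) ∧ ∀ n, N < n → ∀ c, hat v (kn n) c = 0 := by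
  obtain ⟨hvC, hvP, F, hF0, hFs⟩ := hDatum v hv
  obtain ⟨hb1, hb2, hb3, -, -⟩ := hBasic v hvC hvP hv.div_free
  have hsym := hHatSym v hvC.continuous hvP hv.symm
  have hzero : ∀ k, nsq (hat v k) = 0 → ∀ c, hat v k c = 0 := by
    intro k hk c
    have h1 := (hLin (hat v k) k (fun a b c d => hb3 k a b c d) (hb1 k)).1 c
    rw [hk, zero_mul] at h1
    exact norm_eq_zero.1 (pow_eq_zero_iff (by norm_num) |>.1 (le_antisymm h1 (by positivity)))
  obtain ⟨k, hkX, hk⟩ := hX
  obtain ⟨n₀, j, hj⟩ := (hKn.2.1 k).1 hkX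
  have hiter : ∀ (i : ℕ) (q : Fin 3 → ℤ) (c : E3), hat v (rk^[i] q) (rx^[i] c) = hat v q c := by
    intro i
    induction i with
    | zero => intro q c; rfl
    | succ i ih =>
      intro q c
      rw [Function.iterate_succ_apply', Function.iterate_succ_apply', hsym]
      exact ih q c
  have hn₀ : nsq (hat v (kn n₀)) ≠ 0 := by
    intro h0
    have h1 := hzero _ h0
    have h2 : ∀ c, hat v (rk^[j] (kn n₀)) c = 0 := by
      intro c
      obtain ⟨d, rfl⟩ := rx_surj j c
      rw [hiter]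
      exact h1 d
    have h3 : ∀ c, hat v k c = 0 := by
      intro c
      rcases hj with rfl | rfl
      · exact h2 c
      · rw [hb2, h2, map_zero]
    have hπ : ((2 * Real.pi) ^ 3)⁻¹ ≠ 0 := by positivity
    rcases hk with hk | hk
    · apply hk
      have h4 := congrArg Complex.re (h3 (cc v k))
      rw [hat_re, Complex.zero_re, real_inner_self_eq_norm_sq] at h4
      rcases mul_eq_zero.1 h4 with h5 | h5
      · exact absurd h5 hπ
      · exact norm_eq_zero.1 (pow_eq_zero_iff (by norm_num) |>.1 h5)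
    · apply hk
      have h4 := congrArg Complex.im (h3 (sc v k))
      rw [hat_im, Complex.zero_im, real_inner_self_eq_norm_sq, neg_eq_zero] at h4
      rcases mul_eq_zero.1 h4 with h5 | h5
      · exact absurd h5 hπ
      · exact norm_eq_zero.1 (pow_eq_zero_iff (by norm_num) |>.1 h5)
  have hbd : ∃ B : ℕ, ∀ n, nsq (hat v (kn n)) ≠ 0 → n ≤ B := by
    obtain ⟨R, hR⟩ : ∃ R : ℝ, ∀ k ∈ F, ‖vec k‖ ^ 2 ≤ R := by
      obtain ⟨R, hR⟩ := (F.image fun k => ‖vec k‖ ^ 2).bddAbove
      exact ⟨R, fun k hk => hR (Finset.mem_coe.mpr (Finset.mem_image_of_mem _ hk))⟩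
    obtain ⟨m, hm⟩ := pow_unbounded_of_one_lt R (by norm_num : (1 : ℝ) < 4)
    refine ⟨m, fun n hn => ?_⟩
    by_contra hcon
    rw [not_le] at hcon
    have h1 : kn n ∈ F := by
      by_contra h2
      apply hn
      obtain ⟨e1, e2⟩ := hF0 _ h2
      have h3 : ∀ c, hat v (kn n) c = 0 := by
        intro c
        apply Complex.ext
        · rw [hat_re, e1, inner_zero_left, mul_zero, Complex.zero_re]
        · rw [hat_im, e2, inner_zero_left, mul_zero, neg_zero, Complex.zero_im]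
      unfold nsq
      simp [h3]
    have h2 := (hKn.2.2.1 n).2.2.1
    have h3 := hR _ h1
    rw [h2] at h3
    have h5 : (4 : ℝ) ^ m ≤ 4 ^ n := pow_le_pow_right₀ (by norm_num) hcon.le
    have h6 : (0 : ℝ) < 2 ^ n := by positivity
    linarith
  obtain ⟨B₀, hB₀⟩ := hbd
  classical
  have hN1 := Nat.findGreatest_spec (P := fun n => nsq (hat v (kn n)) ≠ 0) (hB₀ n₀ hn₀) hn₀
  have hN3 : ∀ n, Nat.findGreatest (fun n => nsq (hat v (kn n)) ≠ 0) B₀ < n →
      nsq (hat v (kn n)) = 0 := by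
    intro n hn
    by_contra h
    exact Nat.findGreatest_is_greatest hn (hB₀ n h) h
  generalize Nat.findGreatest (fun n => nsq (hat v (kn n)) ≠ 0) B₀ = N at hN1 hN3
  exact ⟨N, lt_of_le_of_ne (nsq_nonneg _) (Ne.symm hN1), fun n hn => hzero _ (hN3 n hn)⟩

/-- Upper bound for the life span. -/
theorem life (hBasic : ClaimBasic) (hHatSym : ClaimHatSym) (hDatum : ClaimDatum)
    (hKn : ClaimKn) (hLin : ClaimLin) (hHat : ClaimHat) (hSymbol : ClaimSymbol)
    (hLife : ClaimLife) (v : E3 → E3) (hv : IsDatum v)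
    (hX : ∃ k ∈ X, (∫ x in cube, Real.cos (phase k x) • v x ≠ 0) ∨
      ∫ x in cube, Real.sin (phase k x) • v x ≠ 0) :
    ∃ c : ℝ, 0 < c ∧ ∀ (A Ω : ℝ) (ω : (Fin 3 → ℤ) → ℝ), 0 < A → A ≤ c * Ω → IsFreq ω →
      ∀ T, 0 < T → ∀ u, IsSolution (fun k c => Ω • sym ω k c) T u → (∀ x, u 0 x = A • v x) →
      c * A * T ≤ 1 := by
  obtain ⟨N, hN0, hN1⟩ := last_mode hBasic hHatSym hDatum hKn hLin v hv hX
  have hπ : (0 : ℝ) < (2 * Real.pi) ^ 3 := by positivity
  obtain ⟨c, hc, hcL⟩ := hLife N (nsq (hat v (kn N)))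
    (((2 * Real.pi) ^ 3)⁻¹ * ∫ x in cube, ‖v x‖ ^ 2) hN0
  refine ⟨c, hc, fun A Ω ω hA hAΩ hω T hT u hu hu0 => ?_⟩
  have e1 : u 0 = fun x => A • v x := funext hu0
  have hH : IsHat (fun k c => Ω • sym ω k c) T
      (A ^ 2 * (((2 * Real.pi) ^ 3)⁻¹ * ∫ x in cube, ‖v x‖ ^ 2)) (fun t => hat (u t)) := by
    refine hHat _ T _ u hT (hSymbol ω Ω hω) hu ?_ ?_
    · intro x
      rw [hu0, hu0, hv.symm, rx_smul]
    · have h1 : ∫ x in cube, ‖u 0 x‖ ^ 2 = A ^ 2 * ∫ x in cube, ‖v x‖ ^ 2 := by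
        rw [← integral_const_mul]
        refine integral_congr_ae (Filter.Eventually.of_forall fun x => ?_)
        simp only [hu0, norm_smul, Real.norm_eq_abs, abs_of_pos hA, mul_pow]
      rw [h1]
      field_simp
  refine hcL ω A Ω T (fun t => hat (u t)) hω hA hAΩ hT hH ?_ ?_
  · simp only [e1, nsq_smul]
  · intro n hn d
    simp only [e1, hat_smul, hN1 n hn d, mul_zero]

/-- Existence of a solution for a short time. -/
theorem exists_short (hBasic : ClaimBasic) (hDatum : ClaimDatum) (hCoeff : ClaimCoeff)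
    (hBuild : ClaimBuild) (v : E3 → E3) (hv : IsDatum v) (A : ℝ)
    (B : (Fin 3 → ℤ) → E3 → E3) (hB : IsSymbol B) :
    ∃ T, 0 < T ∧ ∃ u, IsSolution B T u ∧ ∀ x, u 0 x = A • v x := by
  obtain ⟨hvC, hvP, F, hF0, hFs⟩ := hDatum v hv
  obtain ⟨hb1, hb2, -, -, -⟩ := hBasic v hvC hvP hv.div_free
  have hπ : ((2 * Real.pi) ^ 3)⁻¹ ≠ 0 := by positivity
  have hccv : ∀ k, ⟪vec k, cc v k⟫ = 0 := by
    intro k
    have h := congrArg Complex.re (hb1 k)
    rw [hat_re, Complex.zero_re] at h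
    rw [real_inner_comm]
    exact (mul_eq_zero.1 h).resolve_left hπ
  have hscv : ∀ k, ⟪vec k, sc v k⟫ = 0 := by
    intro k
    have h := congrArg Complex.im (hb1 k)
    rw [hat_im, Complex.zero_im, neg_eq_zero] at h
    rw [real_inner_comm]
    exact (mul_eq_zero.1 h).resolve_left hπ
  have hccn : ∀ k, cc v (-k) = cc v k := by
    intro k
    apply ext_inner_right ℝ
    intro c
    have h := congrArg Complex.re (hb2 k c)
    rw [hat_re, Complex.conj_re, hat_re] at h
    exact mul_left_cancel₀ hπ h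
  have hscn : ∀ k, sc v (-k) = -sc v k := by
    intro k
    apply ext_inner_right ℝ
    intro c
    have h := congrArg Complex.im (hb2 k c)
    rw [hat_im, Complex.conj_im, hat_im, neg_neg] at h
    rw [inner_neg_left]
    have h2 : ((2 * Real.pi) ^ 3)⁻¹ * ⟪sc v (-k), c⟫ = ((2 * Real.pi) ^ 3)⁻¹ * -⟪sc v k, c⟫ := by
      linarith
    exact mul_left_cancel₀ hπ h2
  obtain ⟨T, K, a, b, a', b', hT, h0, hS⟩ := hCoeff B F
    (fun k => (A * ((2 * Real.pi) ^ 3)⁻¹) • cc v k) (fun k => (A * ((2 * Real.pi) ^ 3)⁻¹) • sc v k)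
    hB (fun k hk => by simp only [(hF0 k hk).1, (hF0 k hk).2, smul_zero, and_self])
    (fun k => by rw [hccn]) (fun k => by rw [hscn, smul_neg])
    (fun k => by rw [real_inner_smul_right, hccv, mul_zero])
    (fun k => by rw [real_inner_smul_right, hscv, mul_zero])
  refine ⟨T, hT, _, hBuild B T K a b a' b' hB hT hS, ?_⟩
  intro x
  simp only [(h0 _).1, (h0 _).2]
  rw [tsum_eq_sum (s := F) (fun k hk => by rw [(hF0 k hk).1, (hF0 k hk).2]; simp), hFs x,
    Finset.smul_sum]
  refine Finset.sum_congr rfl fun k _ => ?_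
  module

end DCore

open DCore in
/-- The main theorem from the claims. -/
theorem main_of (hBasic : ClaimBasic) (hHatSym : ClaimHatSym) (hDatum : ClaimDatum)
    (hKn : ClaimKn) (hLin : ClaimLin) (hHat : ClaimHat) (hSymbol : ClaimSymbol)
    (hLife : ClaimLife) (hUnique : ClaimUnique) (hCoeff : ClaimCoeff) (hBuild : ClaimBuild)
    (hMax : ClaimMax) : ClaimMain := by
  intro v hv hX
  obtain ⟨c, hc, hlife⟩ := life hBasic hHatSym hDatum hKn hLin hHat hSymbol hLife v hv hX
  refine ⟨c, hc, ?_⟩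
  intro A Ω ω hA hAΩ hω
  have hB := hSymbol ω Ω hω
  refine ⟨?_, ?_⟩
  · intro T u u' hu hu' h0 h0' t ht
    have h := hUnique _ T T u u' hB hu hu' (fun x => by rw [h0, h0'])
    rw [min_self] at h
    exact funext fun x => h t ht x
  · have hcA : 0 < c * A := mul_pos hc hA
    obtain ⟨Ts, h1, h2, h3⟩ := hMax _ (fun x => A • v x) (1 / (c * A)) hB
      (exists_short hBasic hDatum hCoeff hBuild v hv A _ hB)
      (fun T hT u hu hu0 => by
        rw [le_div_iff₀ hcA, mul_comm]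
        exact hlife A Ω ω hA hAΩ hω T hT u hu hu0)
    refine ⟨Ts, h1, ?_, h3⟩
    rwa [le_div_iff₀ hcA, mul_comm] at h2

end Pool.Agent.Work.MP_b0497c_an.Disp
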