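import Mathlib
import Pool.Agent.Work.MP_b0497c_an.Disp.Stmts

set_option autoImplicit false

/-!
Euler equations with a dispersive term: the chain is closed (item C2).
-/

namespace Pool.Agent.Work.MP_b0497c_an.Disp

open Set Pool.Agent.Work.MP_b0497c_an

theorem Closed_rk4 (k : Fin 3 → ℤ) : rk (rk (rk (rk k))) = k := by
  funext i
  fin_cases i <;> simp [rk]

theorem Closed_iter (k : Fin 3 → ℤ) (j : ℕ) : rk^[j] k = k ∨ rk^[j] k = rk k ∨
    rk^[j] k = rk (rk k) ∨ rk^[j] k = rk (rk (rk k)) := by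
  induction j with
  | zero => exact Or.inl rfl
  | succ j ih =>
    rw [Function.iterate_succ_apply']
    rcases ih with h | h | h | h
    · rw [h]; exact Or.inr (Or.inl rfl)
    · rw [h]; exact Or.inr (Or.inr (Or.inl rfl))
    · rw [h]; exact Or.inr (Or.inr (Or.inr rfl))
    · rw [h, Closed_rk4]; exact Or.inl rfl

/-- The coordinates of the modes of the chain. -/
theorem Closed_coords (hKn : ClaimKn) {p : Fin 3 → ℤ} (hp : p ∈ X) : ∃ a : ℕ,
    (p 2 = 2 ^ a ∨ p 2 = -2 ^ a) ∧
    ((p 0 = kn a 0 ∧ p 1 = kn a 1) ∨ (p 0 = kn a 1 ∧ p 1 = -kn a 0) ∨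
      (p 0 = -kn a 0 ∧ p 1 = -kn a 1) ∨ (p 0 = -kn a 1 ∧ p 1 = kn a 0)) := by
  obtain ⟨a, j, h⟩ := (hKn.2.1 p).1 hp
  have hz := (hKn.1 a).2
  refine ⟨a, ?_⟩
  rcases h with h | h <;> rcases Closed_iter (kn a) j with hj | hj | hj | hj <;>
    rw [hj] at h <;> subst h <;> simp [rk, hz]

theorem Closed_pow {a b c : ℕ} (h : (2 : ℤ) ^ a + 2 ^ b = 2 ^ c) : a = b ∧ c = a + 1 := by
  have h' : 2 ^ a + 2 ^ b = 2 ^ c := by exact_mod_cast h
  have hab : a = b := by
    rcases lt_trichotomy a b with hlt | heq | hlt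
    · exfalso
      have h1 : 2 ^ a < 2 ^ b := Nat.pow_lt_pow_right (by norm_num) hlt
      have h2 : 2 ^ b < 2 ^ c := by
        have := Nat.pos_of_ne_zero (pow_ne_zero a (two_ne_zero' ℕ))
        omega
      have h3 : b < c := (Nat.pow_lt_pow_iff_right (by norm_num)).1 h2
      have h4 : 2 ^ (b + 1) ≤ 2 ^ c := Nat.pow_le_pow_right (by norm_num) h3
      rw [pow_succ] at h4
      omega
    · exact heq
    · exfalso
      have h1 : 2 ^ b < 2 ^ a := Nat.pow_lt_pow_right (by norm_num) hlt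
      have h2 : 2 ^ a < 2 ^ c := by
        have := Nat.pos_of_ne_zero (pow_ne_zero b (two_ne_zero' ℕ))
        omega
      have h3 : a < c := (Nat.pow_lt_pow_iff_right (by norm_num)).1 h2
      have h4 : 2 ^ (a + 1) ≤ 2 ^ c := Nat.pow_le_pow_right (by norm_num) h3
      rw [pow_succ] at h4
      omega
  refine ⟨hab, ?_⟩
  subst hab
  have h5 : 2 ^ (a + 1) = 2 ^ c := by rw [pow_succ]; omega
  exact (Nat.pow_right_injective (le_refl 2) h5).symm

theorem Closed_ext {p q : Fin 3 → ℤ} (h0 : p 0 = q 0) (h1 : p 1 = q 1) (h2 : p 2 = q 2) :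
    p = q := by
  funext i
  fin_cases i
  · exact h0
  · exact h1
  · exact h2

theorem claimClosed (hKn : ClaimKn) : ClaimClosed := by
  intro n p hn hp hq
  obtain ⟨a, hp2, hp01⟩ := Closed_coords hKn hp
  obtain ⟨b, hqb, hq2⟩ := hq
  have hn2 := (hKn.1 n).2
  have hn1 := (hKn.1 n).1
  simp only [Pi.sub_apply] at hqb hq2
  rw [hn2] at hq2
  have hpos : ∀ m : ℕ, (0 : ℤ) < 2 ^ m := fun m => by positivity
  have hcases : (a = b ∧ n = a + 1 ∧ p 2 = 2 ^ a) ∨ (b = n ∧ a = n + 1 ∧ p 2 = 2 ^ a) ∨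
      (a = n ∧ b = n + 1 ∧ p 2 = -2 ^ a) := by
    rcases hp2 with hp2 | hp2
    · rw [hp2] at hq2
      rcases abs_eq (hpos b).le |>.1 hq2 with h | h
      · left
        have h1 := Closed_pow (a := a) (b := b) (c := n) (by linarith)
        exact ⟨h1.1, h1.2, hp2⟩
      · right; left
        have h1 := Closed_pow (a := n) (b := b) (c := a) (by linarith)
        exact ⟨h1.1.symm, h1.2, hp2⟩
    · rw [hp2] at hq2
      rcases abs_eq (hpos b).le |>.1 hq2 with h | h
      · right; right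
        have h1 := Closed_pow (a := n) (b := a) (c := b) (by linarith)
        exact ⟨h1.1.symm, h1.2, hp2⟩
      · exfalso
        have h1 := hpos n
        have h2 := hpos a
        have h3 := hpos b
        linarith
  simp only [cp, List.mem_cons, List.not_mem_nil, or_false]
  rcases hcases with ⟨hab, hna, hp2⟩ | ⟨hab, hna, hp2⟩ | ⟨hab, hna, hp2⟩
  · -- both in the shell `n - 1`
    subst hab
    subst hna
    have hm := (hKn.1 a).1
    have h0 : kn (a + 1) 0 = kn a 0 - kn a 1 := rfl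
    have h1 : kn (a + 1) 1 = kn a 0 + kn a 1 := rfl
    have hz := (hKn.1 a).2
    rw [h0, h1] at hqb
    have hpa := hpos a
    rcases hp01 with ⟨e0, e1⟩ | ⟨e0, e1⟩ | ⟨e0, e1⟩ | ⟨e0, e1⟩
    · left
      exact Closed_ext e0 e1 (by rw [hp2]; exact hz.symm)
    · exfalso
      rw [e0, e1] at hqb
      nlinarith
    · exfalso
      rw [e0, e1] at hqb
      nlinarith
    · right; left
      refine Closed_ext ?_ ?_ ?_
      · simp [rk, e0]
      · simp [rk, e1]
      · simp [rk, hp2, hz]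
  · subst hab
    subst hna
    have h0 : kn (b + 1) 0 = kn b 0 - kn b 1 := rfl
    have h1 : kn (b + 1) 1 = kn b 0 + kn b 1 := rfl
    have hz := (hKn.1 (b + 1)).2
    have hpa := hpos b
    rcases hp01 with ⟨e0, e1⟩ | ⟨e0, e1⟩ | ⟨e0, e1⟩ | ⟨e0, e1⟩
    · right; right; left
      exact Closed_ext e0 e1 (by rw [hp2]; exact hz.symm)
    · right; right; right; right; left
      refine Closed_ext ?_ ?_ ?_
      · simp [rk, e0]
      · simp [rk, e1]
      · simp [rk, hp2, hz]
    · exfalso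
      rw [e0, e1, h0, h1] at hqb
      nlinarith
    · exfalso
      rw [e0, e1, h0, h1] at hqb
      nlinarith
  · subst hab
    subst hna
    have hpa := hpos a
    have hz := (hKn.1 a).2
    rcases hp01 with ⟨e0, e1⟩ | ⟨e0, e1⟩ | ⟨e0, e1⟩ | ⟨e0, e1⟩
    · exfalso
      rw [e0, e1] at hqb
      have := hpos (a + 1)
      nlinarith
    · right; right; right; left
      refine Closed_ext ?_ ?_ ?_
      · simp [rk, e0]
      · simp [rk, e1]
      · simp [rk, hp2, hz]
    · exfalso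
      rw [e0, e1, pow_succ 2 a] at hqb
      nlinarith
    · right; right; right; right; right
      refine Closed_ext ?_ ?_ ?_
      · simp [rk, e0]
      · simp [rk, e1]
      · simp [rk, hp2, hz]

end Pool.Agent.Work.MP_b0497c_an.Disp
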