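import Mathlib
import Pool.Agent.Work.MP_b0497c_an.Disp.Stmts

set_option autoImplicit false

/-!
The equations for the components of the coefficients.
-/

namespace Pool.Agent.Work.MP_b0497c_an.Disp

open Set MeasureTheory RealInnerProductSpace Pool.Agent.Work.MP_b0497c_an
open Pool.Agent.Work.MP_b0497c_an.Dec (cube phase vec)

theorem comp_nsq_nonneg (g : E3 → ℂ) : 0 ≤ nsq g := by
  unfold nsq
  positivity

/-- The bound of the convolution sum. -/
theorem comp_conv_le (hL : ClaimLin) (g : (Fin 3 → ℤ) → E3 → ℂ) (E : ℝ)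
    (hlin : ∀ k (a b : ℝ) (c d : E3), g k (a • c + b • d) = a * g k c + b * g k d)
    (hdiv : ∀ k, g k (vec k) = 0) (hsum : HasSum (fun k => nsq (g k)) E)
    (k : Fin 3 → ℤ) (c : E3) : ‖conv g k c‖ ≤ ‖vec k‖ * ‖c‖ * E := by
  have hb : ∀ p c, ‖g p c‖ ≤ Real.sqrt (nsq (g p)) * ‖c‖ := by
    intro p c
    have h1 := (hL (g p) p (hlin p) (hdiv p)).1 c
    have h2 : ‖g p c‖ ^ 2 ≤ (Real.sqrt (nsq (g p)) * ‖c‖) ^ 2 := by
      rw [mul_pow, Real.sq_sqrt (comp_nsq_nonneg _)]
      exact h1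
    exact le_of_sq_le_sq h2 (by positivity)
  have hs' : HasSum (fun p => nsq (g (k - p))) E :=
    (Equiv.subLeft k).hasSum_iff.mpr hsum
  have hs2 : HasSum (fun p => ‖vec k‖ * ‖c‖ * ((1 / 2) * nsq (g p) + (1 / 2) * nsq (g (k - p))))
      (‖vec k‖ * ‖c‖ * E) := by
    have h := ((hsum.mul_left (1 / 2)).add (hs'.mul_left (1 / 2))).mul_left (‖vec k‖ * ‖c‖)
    have e : (1 / 2 * E + 1 / 2 * E) = E := by ring
    rw [e] at h
    exact h
  have hterm : ∀ p, ‖g p (vec k) * g (k - p) c‖ ≤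
      ‖vec k‖ * ‖c‖ * ((1 / 2) * nsq (g p) + (1 / 2) * nsq (g (k - p))) := by
    intro p
    rw [norm_mul]
    have h1 := mul_le_mul (hb p (vec k)) (hb (k - p) c) (norm_nonneg _) (by positivity)
    refine h1.trans ?_
    have h2 : Real.sqrt (nsq (g p)) * Real.sqrt (nsq (g (k - p))) ≤
        (1 / 2) * nsq (g p) + (1 / 2) * nsq (g (k - p)) := by
      have e1 := Real.sq_sqrt (comp_nsq_nonneg (g p))
      have e2 := Real.sq_sqrt (comp_nsq_nonneg (g (k - p)))
      nlinarith [sq_nonneg (Real.sqrt (nsq (g p)) - Real.sqrt (nsq (g (k - p))))]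
    calc Real.sqrt (nsq (g p)) * ‖vec k‖ * (Real.sqrt (nsq (g (k - p))) * ‖c‖)
        = ‖vec k‖ * ‖c‖ * (Real.sqrt (nsq (g p)) * Real.sqrt (nsq (g (k - p)))) := by ring
      _ ≤ _ := mul_le_mul_of_nonneg_left h2 (by positivity)
  have := tsum_of_norm_bounded hs2 hterm
  exact this

/-- R3. The equations for the components. -/
theorem claimComp (hE : ClaimEig) (hL : ClaimLin) : ClaimComp := by
  intro ω Ω T E h hh k j hk
  obtain ⟨hn, hp, -, he, -⟩ := hE k hk
  refine ⟨hh.cont k (fr j k) (hp j), ?_⟩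
  intro t ht
  constructor
  · have := comp_conv_le hL (h t) E (hh.lin t ht) (hh.div t ht) (hh.sum t ht) k (fr j k)
    rw [hn j, mul_one] at this
    exact this
  · have h1 := hh.deriv k (fr j k) (hp j) t ht
    have h2 : h t k (Ω • sym ω k (fr j k)) = (Ω * lam ω j k) * h t k (fr j k) := by
      have h3 := hh.lin t ht k (Ω * lam ω j k) 0 (fr j k) 0
      rw [he ω j, smul_smul]
      simpa using h3
    have h4 : -Complex.I * conv (h t) k (fr j k) - Complex.I * (Ω * lam ω j k) * h t k (fr j k) =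
        -Complex.I * conv (h t) k (fr j k) -
          Complex.I * h t k ((fun k c => Ω • sym ω k c) k (fr j k)) := by
      simp only [h2]
      ring
    rw [h4]
    exact h1

end Pool.Agent.Work.MP_b0497c_an.Disp
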