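import Pool.Agent.Work.MP_b0497c_an.Disp.Stmts

set_option autoImplicit false

/-!
R1: consequences of linearity.
-/

namespace Pool.Agent.Work.MP_b0497c_an.Disp

open Set MeasureTheory RealInnerProductSpace Pool.Agent.Work.MP_b0497c_an
open Pool.Agent.Work.MP_b0497c_an.Dec (cube phase vec)

theorem lin_smul {h : E3 → ℂ}
    (hl : ∀ (a b : ℝ) (c d : E3), h (a • c + b • d) = a * h c + b * h d) (a : ℝ) (c : E3) :
    h (a • c) = a * h c := by
  have := hl a 0 c c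
  simpa using this

theorem lin_expand {h : E3 → ℂ}
    (hl : ∀ (a b : ℝ) (c d : E3), h (a • c + b • d) = a * h c + b * h d) (c : E3) :
    h c = c 0 * h (e 0) + (c 1 * h (e 1) + c 2 * h (e 2)) := by
  have hc : c = c 0 • e 0 + (1 : ℝ) • (c 1 • e 1 + c 2 • e 2) := by
    ext i
    fin_cases i <;> simp [e]
  conv_lhs => rw [hc]
  rw [hl, hl]
  push_cast
  ring

theorem lin_norm_sq (z : ℂ) : ‖z‖ ^ 2 = z.re ^ 2 + z.im ^ 2 := by
  rw [← Complex.normSq_eq_norm_sq, Complex.normSq_apply]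
  ring

theorem lin_vec_sq (c : E3) : ‖c‖ ^ 2 = c 0 ^ 2 + c 1 ^ 2 + c 2 ^ 2 := by
  rw [EuclideanSpace.norm_sq_eq, Fin.sum_univ_three]
  simp

theorem lin_inner (c d : E3) : ⟪c, d⟫ = c 0 * d 0 + c 1 * d 1 + c 2 * d 2 := by
  rw [PiLp.inner_apply, Fin.sum_univ_three]
  simp [mul_comm]

theorem claimLin (hE : ClaimEig) : ClaimLin := by
  intro h k hl hk
  refine ⟨fun c => ?_, fun hk0 => ?_⟩
  · rw [nsq, lin_vec_sq, lin_norm_sq, lin_norm_sq, lin_norm_sq, lin_norm_sq, lin_expand hl c]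
    simp only [Complex.add_re, Complex.add_im, Complex.mul_re, Complex.mul_im,
      Complex.ofReal_re, Complex.ofReal_im, zero_mul, sub_zero, add_zero]
    set a := c 0
    set b := c 1
    set d := c 2
    set x0 := (h (e 0)).re
    set x1 := (h (e 1)).re
    set x2 := (h (e 2)).re
    set y0 := (h (e 0)).im
    set y1 := (h (e 1)).im
    set y2 := (h (e 2)).im
    nlinarith [sq_nonneg (a * x1 - b * x0), sq_nonneg (a * x2 - d * x0),
      sq_nonneg (b * x2 - d * x1), sq_nonneg (a * y1 - b * y0), sq_nonneg (a * y2 - d * y0),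
      sq_nonneg (b * y2 - d * y1)]
  · obtain ⟨hn, -, ho, -, hx⟩ := hE k hk0
    have hexp : ∀ c, h c = ⟪fr 0 k, c⟫ * h (fr 0 k) + ⟪fr 1 k, c⟫ * h (fr 1 k) := by
      intro c
      have h1 := hx c
      have h2 : c = (⟪vec k, c⟫ / ‖vec k‖ ^ 2) • vec k +
          (1 : ℝ) • (⟪fr 0 k, c⟫ • fr 0 k + ⟪fr 1 k, c⟫ • fr 1 k) := by
        rw [one_smul]
        exact h1
      conv_lhs => rw [h2]
      rw [hl, hl, hk]
      simp
    refine ⟨hexp, ?_⟩
    have he : ∀ i : Fin 3, h (e i) = (fr 0 k i : ℝ) * h (fr 0 k) + (fr 1 k i : ℝ) * h (fr 1 k) := by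
      intro i
      rw [hexp (e i)]
      have hi : ∀ v : E3, ⟪v, e i⟫ = v i := by
        intro v
        rw [lin_inner]
        fin_cases i <;> simp [e]
      rw [hi, hi]
    have hn0 := hn 0
    have hn1 := hn 1
    have hs0 : fr 0 k 0 ^ 2 + fr 0 k 1 ^ 2 + fr 0 k 2 ^ 2 = 1 := by
      rw [← lin_vec_sq, hn0, one_pow]
    have hs1 : fr 1 k 0 ^ 2 + fr 1 k 1 ^ 2 + fr 1 k 2 ^ 2 = 1 := by
      rw [← lin_vec_sq, hn1, one_pow]
    rw [lin_inner] at ho
    rw [nsq, he 0, he 1, he 2]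
    simp only [lin_norm_sq, Complex.add_re, Complex.add_im, Complex.mul_re, Complex.mul_im,
      Complex.ofReal_re, Complex.ofReal_im, zero_mul, sub_zero, add_zero]
    linear_combination (-(h (fr 0 k)).re ^ 2 - (h (fr 0 k)).im ^ 2) * hs0 +
      (-(h (fr 1 k)).re ^ 2 - (h (fr 1 k)).im ^ 2) * hs1 +
      (-2 * (h (fr 0 k)).re * (h (fr 1 k)).re - 2 * (h (fr 0 k)).im * (h (fr 1 k)).im) * ho

end Pool.Agent.Work.MP_b0497c_an.Disp
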