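import Mathlib
import Pool.Agent.Work.MP_b0497c_an.Disp.Stmts

set_option autoImplicit false

/-!
R5. The nonresonant part of one term.
-/

namespace Pool.Agent.Work.MP_b0497c_an.Disp

open Set MeasureTheory RealInnerProductSpace Pool.Agent.Work.MP_b0497c_an
open Pool.Agent.Work.MP_b0497c_an.Dec (cube phase vec)

theorem Term_nsq_nonneg (h : E3 → ℂ) : 0 ≤ nsq h := by
  unfold nsq
  positivity

theorem Term_E_nonneg {B : (Fin 3 → ℤ) → E3 → E3} {T E : ℝ} {h : ℝ → (Fin 3 → ℤ) → E3 → ℂ}
    (hh : IsHat B T E h) {t : ℝ} (ht : t ∈ Ico 0 T) : 0 ≤ E :=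
  (hh.sum t ht).nonneg fun _ => Term_nsq_nonneg _

theorem Term_norm_vec_pos {p : Fin 3 → ℤ} (hp : ¬ (p 0 = 0 ∧ p 1 = 0)) : 0 < ‖vec p‖ := by
  rw [norm_pos_iff]
  intro h0
  apply hp
  have h1 : ∀ i, (vec p) i = 0 := fun i => by rw [h0]; rfl
  constructor
  · have h2 := h1 0
    simp [vec] at h2
    exact h2
  · have h2 := h1 1
    simp [vec] at h2
    exact h2

theorem claimTerm (hEig : ClaimEig) (hLin : ClaimLin) (hAx : ClaimAxis) (hComp : ClaimComp)
    (hParts : ClaimParts) (hNon : ClaimNonres) : ClaimTerm := by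
  classical
  intro ω Ω T E t h n p hω hΩ hh ht hn
  have hE : 0 ≤ E := Term_E_nonneg hh ht
  have hsub : Icc 0 t ⊆ Ico 0 T := fun s hs => ⟨hs.1, hs.2.trans_lt ht.2⟩
  set q : Fin 3 → ℤ := kn n - p with hq
  by_cases hax : (p 0 = 0 ∧ p 1 = 0) ∨ (q 0 = 0 ∧ q 1 = 0)
  · -- no modes on the axis
    have hz : ∀ s ∈ Ico 0 T, ∀ c d : E3, h s p c * h s q d = 0 := by
      intro s hs c d
      rcases hax with hp | hp
      · rw [hAx (h s) (hh.lin s hs) (hh.div s hs) (hh.conj s hs) (hh.rot s hs) p hp.1 hp.2 c,
          zero_mul]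
      · rw [hAx (h s) (hh.lin s hs) (hh.div s hs) (hh.conj s hs) (hh.rot s hs) q hp.1 hp.2 d,
          mul_zero]
    have hn0 : ∀ s ∈ Ico 0 T, nres n (h s) p = 0 := by
      intro s hs
      unfold nres
      apply Finset.sum_eq_zero
      intro j _
      apply Finset.sum_eq_zero
      intro l _
      rw [← hq, hz s hs, mul_zero, ite_self]
    have hp0 : ∀ s ∈ Ico 0 T, pres n (h s) p = 0 := by
      intro s hs
      unfold pres
      apply Finset.sum_eq_zero
      intro j _
      apply Finset.sum_eq_zero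
      intro l _
      rw [← hq, hz s hs, mul_zero, ite_self]
    refine ⟨?_, ?_, ?_, ?_⟩
    · exact continuousOn_const.congr hn0
    · intro s hs
      rw [hz s hs, hn0 s hs, hp0 s hs, add_zero]
    · intro s hs
      rw [hn0 s hs, norm_zero]
      positivity
    · have h1 : ∫ s in (0 : ℝ)..t, nres n (h s) p = ∫ s in (0 : ℝ)..t, (0 : ℂ) := by
        apply intervalIntegral.integral_congr
        intro s hs
        rw [uIcc_of_le ht.1] at hs
        exact hn0 s (hsub hs)
      rw [h1, intervalIntegral.integral_zero, norm_zero]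
      have h2 : 0 ≤ ∫ s in (0 : ℝ)..t, (‖vec p‖ * Real.sqrt (nsq (h s q)) +
          ‖vec q‖ * Real.sqrt (nsq (h s p))) :=
        intervalIntegral.integral_nonneg ht.1 fun s _ => by positivity
      positivity
  · push Not at hax
    have hpn : ¬ (p 0 = 0 ∧ p 1 = 0) := fun h => hax.1 h.1 h.2
    have hqn : ¬ (q 0 = 0 ∧ q 1 = 0) := fun h => hax.2 h.1 h.2
    obtain ⟨hp1, -, -, -, -⟩ := hEig p hpn
    obtain ⟨hq1, -, -, -, -⟩ := hEig q hqn
    have hlp : ∀ s ∈ Ico 0 T, ∀ j, ‖h s p (fr j p)‖ ≤ Real.sqrt (nsq (h s p)) := by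
      intro s hs j
      apply Real.le_sqrt_of_sq_le
      have := (hLin (h s p) p (hh.lin s hs p) (hh.div s hs p)).1 (fr j p)
      rwa [hp1 j, one_pow, mul_one] at this
    have hlq : ∀ s ∈ Ico 0 T, ∀ j, ‖h s q (fr j q)‖ ≤ Real.sqrt (nsq (h s q)) := by
      intro s hs j
      apply Real.le_sqrt_of_sq_le
      have := (hLin (h s q) q (hh.lin s hs q) (hh.div s hs q)).1 (fr j q)
      rwa [hq1 j, one_pow, mul_one] at this
    have hcp : ∀ j, ContinuousOn (fun s => h s p (fr j p)) (Ico 0 T) := fun j s hs =>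
      (((hComp ω Ω T E h hh p j hpn).2 s hs).2).continuousWithinAt
    have hcq : ∀ j, ContinuousOn (fun s => h s q (fr j q)) (Ico 0 T) := fun j s hs =>
      (((hComp ω Ω T E h hh q j hqn).2 s hs).2).continuousWithinAt
    have hnp : ContinuousOn (fun s => Real.sqrt (nsq (h s p))) (Ico 0 T) := by
      have h1 : ContinuousOn (fun s => Real.sqrt (‖h s p (fr 0 p)‖ ^ 2 + ‖h s p (fr 1 p)‖ ^ 2))
          (Ico 0 T) := (((hcp 0).norm.pow 2).add ((hcp 1).norm.pow 2)).sqrt
      refine h1.congr fun s hs => ?_
      have := ((hLin (h s p) p (hh.lin s hs p) (hh.div s hs p)).2 hpn).2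
      simp only [← this]
    have hnq : ContinuousOn (fun s => Real.sqrt (nsq (h s q))) (Ico 0 T) := by
      have h1 : ContinuousOn (fun s => Real.sqrt (‖h s q (fr 0 q)‖ ^ 2 + ‖h s q (fr 1 q)‖ ^ 2))
          (Ico 0 T) := (((hcq 0).norm.pow 2).add ((hcq 1).norm.pow 2)).sqrt
      refine h1.congr fun s hs => ?_
      have := ((hLin (h s q) q (hh.lin s hs q) (hh.div s hs q)).2 hqn).2
      simp only [← this]
    set cf : Fin 2 → Fin 2 → ℝ := fun j l =>
      if Res n p j l then 0 else ⟪fr j p, vec (kn n)⟫ * ⟪fr l q, vec (en n)⟫ with hcf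
    have hcfb : ∀ j l, |cf j l| ≤ ‖vec (kn n)‖ * ‖vec (en n)‖ := by
      intro j l
      simp only [hcf]
      split_ifs
      · rw [abs_zero]
        positivity
      · rw [abs_mul]
        apply mul_le_mul _ _ (abs_nonneg _) (norm_nonneg _)
        · have := abs_real_inner_le_norm (fr j p) (vec (kn n))
          rwa [hp1 j, one_mul] at this
        · have := abs_real_inner_le_norm (fr l q) (vec (en n))
          rwa [hq1 l, one_mul] at this
    have hnr : ∀ s, nres n (h s) p =
        ∑ j : Fin 2, ∑ l : Fin 2, (cf j l : ℂ) * (h s p (fr j p) * h s q (fr l q)) := by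
      intro s
      unfold nres
      apply Finset.sum_congr rfl
      intro j _
      apply Finset.sum_congr rfl
      intro l _
      simp only [hcf, ← hq]
      split_ifs
      · simp
      · rfl
    have hcn : ContinuousOn (fun s => nres n (h s) p) (Ico 0 T) := by
      simp only [hnr]
      exact continuousOn_finsetSum _ fun j _ => continuousOn_finsetSum _ fun l _ =>
        continuousOn_const.mul ((hcp j).mul (hcq l))
    refine ⟨hcn, ?_, ?_, ?_⟩
    · intro s hs
      have h1 := ((hLin (h s p) p (hh.lin s hs p) (hh.div s hs p)).2 hpn).1 (vec (kn n))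
      have h2 := ((hLin (h s q) q (hh.lin s hs q) (hh.div s hs q)).2 hqn).1 (vec (en n))
      rw [h1, h2]
      have h3 : nres n (h s) p + pres n (h s) p = ∑ j : Fin 2, ∑ l : Fin 2,
          ((⟪fr j p, vec (kn n)⟫ * ⟪fr l q, vec (en n)⟫ : ℝ) : ℂ) *
            (h s p (fr j p) * h s q (fr l q)) := by
        unfold nres pres
        rw [← Finset.sum_add_distrib]
        apply Finset.sum_congr rfl
        intro j _
        rw [← Finset.sum_add_distrib]
        apply Finset.sum_congr rfl
        intro l _
        rw [← hq]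
        split_ifs
        · rw [zero_add]
        · rw [add_zero]
      rw [h3]
      simp only [Fin.sum_univ_two]
      push_cast
      ring
    · intro s hs
      rw [hnr s]
      have h1 : ∀ j l : Fin 2, ‖(cf j l : ℂ) * (h s p (fr j p) * h s q (fr l q))‖ ≤
          ‖vec (kn n)‖ * ‖vec (en n)‖ *
            (Real.sqrt (nsq (h s p)) * Real.sqrt (nsq (h s q))) := by
        intro j l
        rw [norm_mul, norm_mul, Complex.norm_real, Real.norm_eq_abs]
        exact mul_le_mul (hcfb j l) (mul_le_mul (hlp s hs j) (hlq s hs l) (norm_nonneg _)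
          (Real.sqrt_nonneg _)) (by positivity) (by positivity)
      calc ‖∑ j : Fin 2, ∑ l : Fin 2, (cf j l : ℂ) * (h s p (fr j p) * h s q (fr l q))‖
          ≤ ∑ j : Fin 2, ∑ l : Fin 2, ‖(cf j l : ℂ) * (h s p (fr j p) * h s q (fr l q))‖ :=
            (norm_sum_le _ _).trans (Finset.sum_le_sum fun j _ => norm_sum_le _ _)
        _ ≤ ∑ j : Fin 2, ∑ l : Fin 2, ‖vec (kn n)‖ * ‖vec (en n)‖ *
            (Real.sqrt (nsq (h s p)) * Real.sqrt (nsq (h s q))) :=
            Finset.sum_le_sum fun j _ => Finset.sum_le_sum fun l _ => h1 j l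
        _ = 4 * ‖vec (kn n)‖ * ‖vec (en n)‖ *
            (Real.sqrt (nsq (h s p)) * Real.sqrt (nsq (h s q))) := by
            simp only [Finset.sum_const, Finset.card_univ, Fintype.card_fin, nsmul_eq_mul]
            push_cast
            ring
    · have hcI : ∀ j l, IntervalIntegrable (fun s => (cf j l : ℂ) *
          (h s p (fr j p) * h s q (fr l q))) volume 0 t := by
        intro j l
        apply ContinuousOn.intervalIntegrable_of_Icc ht.1
        exact (continuousOn_const.mul ((hcp j).mul (hcq l))).mono hsub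
      set I₀ : ℝ := ∫ s in (0 : ℝ)..t, (‖vec p‖ * Real.sqrt (nsq (h s q)) +
        ‖vec q‖ * Real.sqrt (nsq (h s p))) with hI₀
      have hI₀n : 0 ≤ I₀ := intervalIntegral.integral_nonneg ht.1 fun s _ => by positivity
      set D : ℝ := (‖vec p‖ + ‖vec q‖) ^ 4 with hD
      have hDp : 0 < D := by
        have := Term_norm_vec_pos hpn
        positivity
      set P : ℝ := Real.sqrt (nsq (h t p)) * Real.sqrt (nsq (h t q)) +
        Real.sqrt (nsq (h 0 p)) * Real.sqrt (nsq (h 0 q)) + E * I₀ with hP
      have hPn : 0 ≤ P := by positivity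
      have h0T : (0 : ℝ) ∈ Ico 0 T := ⟨le_rfl, ht.1.trans_lt ht.2⟩
      have hkey : ∀ j l, ‖∫ s in (0 : ℝ)..t, (cf j l : ℂ) *
          (h s p (fr j p) * h s q (fr l q))‖ ≤
          256 / Ω * ‖vec (kn n)‖ * ‖vec (en n)‖ * D⁻¹ * P := by
        intro j l
        rw [intervalIntegral.integral_const_mul, norm_mul, Complex.norm_real, Real.norm_eq_abs]
        by_cases hR : Res n p j l
        · have : cf j l = 0 := by simp only [hcf, if_pos hR]
          rw [this, abs_zero, zero_mul]
          positivity
        · have h1 := hNon ω n p j l hω hn hpn hqn hR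
          have h2 : D ≤ 256 * |lam ω j p + lam ω l q| := h1
          have h3 : |Ω * lam ω j p + Ω * lam ω l q| = Ω * |lam ω j p + lam ω l q| := by
            rw [← mul_add, abs_mul, abs_of_pos hΩ]
          have h4 : 0 < |lam ω j p + lam ω l q| := by linarith
          have h5 : Ω * lam ω j p + Ω * lam ω l q ≠ 0 := by
            rw [← abs_pos, h3]
            positivity
          have hcomp1 := hComp ω Ω T E h hh p j hpn
          have hcomp2 := hComp ω Ω T E h hh q l hqn
          have h6 := hParts t (‖vec p‖ * E) (‖vec q‖ * E) (Ω * lam ω j p) (Ω * lam ω l q)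
            (fun s => h s p (fr j p)) (fun s => h s q (fr l q))
            (fun s => -Complex.I * conv (h s) p (fr j p))
            (fun s => -Complex.I * conv (h s) q (fr l q)) ht.1 h5
            (fun s hs => by
              have := ((hcomp1.2 s (hsub hs)).2).mono hsub
              push_cast
              exact this)
            (fun s hs => by
              have := ((hcomp2.2 s (hsub hs)).2).mono hsub
              push_cast
              exact this)
            (continuousOn_const.mul (hcomp1.1.mono hsub))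
            (continuousOn_const.mul (hcomp2.1.mono hsub))
            (fun s hs => by
              rw [norm_mul, norm_neg, Complex.norm_I, one_mul]
              exact (hcomp1.2 s (hsub hs)).1)
            (fun s hs => by
              rw [norm_mul, norm_neg, Complex.norm_I, one_mul]
              exact (hcomp2.2 s (hsub hs)).1)
          have h7 : (|Ω * lam ω j p + Ω * lam ω l q|)⁻¹ ≤ 256 / Ω * D⁻¹ := by
            rw [h3, mul_inv, div_mul_eq_mul_div, mul_comm, ← div_eq_mul_inv]
            apply div_le_div_of_nonneg_right _ hΩ.le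
            rw [← div_eq_mul_inv, inv_eq_one_div, div_le_div_iff₀ h4 hDp, one_mul]
            exact h2
          have h8 : ∫ s in (0 : ℝ)..t, (‖vec p‖ * E * ‖h s q (fr l q)‖ +
              ‖vec q‖ * E * ‖h s p (fr j p)‖) ≤ E * I₀ := by
            rw [hI₀, ← intervalIntegral.integral_const_mul]
            apply intervalIntegral.integral_mono_on ht.1
            · apply ContinuousOn.intervalIntegrable_of_Icc ht.1
              exact (((continuousOn_const.mul (hcq l).norm).add
                (continuousOn_const.mul (hcp j).norm))).mono hsub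
            · apply ContinuousOn.intervalIntegrable_of_Icc ht.1
              exact (continuousOn_const.mul ((continuousOn_const.mul hnq).add
                (continuousOn_const.mul hnp))).mono hsub
            · intro s hs
              have h9 := hlp s (hsub hs) j
              have h10 := hlq s (hsub hs) l
              calc ‖vec p‖ * E * ‖h s q (fr l q)‖ + ‖vec q‖ * E * ‖h s p (fr j p)‖
                  ≤ ‖vec p‖ * E * Real.sqrt (nsq (h s q)) +
                    ‖vec q‖ * E * Real.sqrt (nsq (h s p)) := by gcongr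
                _ = E * (‖vec p‖ * Real.sqrt (nsq (h s q)) +
                    ‖vec q‖ * Real.sqrt (nsq (h s p))) := by ring
          have h9 : ‖h t p (fr j p)‖ * ‖h t q (fr l q)‖ ≤
              Real.sqrt (nsq (h t p)) * Real.sqrt (nsq (h t q)) :=
            mul_le_mul (hlp t ht j) (hlq t ht l) (norm_nonneg _) (Real.sqrt_nonneg _)
          have h10 : ‖h 0 p (fr j p)‖ * ‖h 0 q (fr l q)‖ ≤
              Real.sqrt (nsq (h 0 p)) * Real.sqrt (nsq (h 0 q)) :=
            mul_le_mul (hlp 0 h0T j) (hlq 0 h0T l) (norm_nonneg _) (Real.sqrt_nonneg _)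
          have h11 : ‖∫ s in (0 : ℝ)..t, h s p (fr j p) * h s q (fr l q)‖ ≤
              256 / Ω * D⁻¹ * P := by
            refine h6.trans ?_
            have h12 : ‖h t p (fr j p)‖ * ‖h t q (fr l q)‖ + ‖h 0 p (fr j p)‖ *
                ‖h 0 q (fr l q)‖ + ∫ s in (0 : ℝ)..t, (‖vec p‖ * E * ‖h s q (fr l q)‖ +
              ‖vec q‖ * E * ‖h s p (fr j p)‖) ≤ P := by
              rw [hP]
              linarith
            calc (|Ω * lam ω j p + Ω * lam ω l q|)⁻¹ * (‖h t p (fr j p)‖ * ‖h t q (fr l q)‖ +
                ‖h 0 p (fr j p)‖ * ‖h 0 q (fr l q)‖ + ∫ s in (0 : ℝ)..t,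
                  (‖vec p‖ * E * ‖h s q (fr l q)‖ + ‖vec q‖ * E * ‖h s p (fr j p)‖))
                ≤ (|Ω * lam ω j p + Ω * lam ω l q|)⁻¹ * P :=
                  mul_le_mul_of_nonneg_left h12 (by positivity)
              _ ≤ 256 / Ω * D⁻¹ * P := mul_le_mul_of_nonneg_right h7 hPn
          calc |cf j l| * ‖∫ s in (0 : ℝ)..t, h s p (fr j p) * h s q (fr l q)‖
              ≤ (‖vec (kn n)‖ * ‖vec (en n)‖) * (256 / Ω * D⁻¹ * P) :=
                mul_le_mul (hcfb j l) h11 (norm_nonneg _) (by positivity)
            _ = 256 / Ω * ‖vec (kn n)‖ * ‖vec (en n)‖ * D⁻¹ * P := by ring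
      have hsum : ∫ s in (0 : ℝ)..t, nres n (h s) p = ∑ j : Fin 2, ∑ l : Fin 2,
          ∫ s in (0 : ℝ)..t, (cf j l : ℂ) * (h s p (fr j p) * h s q (fr l q)) := by
        simp only [hnr]
        rw [intervalIntegral.integral_finsetSum]
        · apply Finset.sum_congr rfl
          intro j _
          rw [intervalIntegral.integral_finsetSum]
          intro l _
          exact hcI j l
        · intro j _
          apply ContinuousOn.intervalIntegrable_of_Icc ht.1
          exact (continuousOn_finsetSum _ fun l _ =>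
            continuousOn_const.mul ((hcp j).mul (hcq l))).mono hsub
      rw [hsum]
      calc ‖∑ j : Fin 2, ∑ l : Fin 2, ∫ s in (0 : ℝ)..t, (cf j l : ℂ) *
            (h s p (fr j p) * h s q (fr l q))‖
          ≤ ∑ j : Fin 2, ∑ l : Fin 2, ‖∫ s in (0 : ℝ)..t, (cf j l : ℂ) *
            (h s p (fr j p) * h s q (fr l q))‖ :=
            (norm_sum_le _ _).trans (Finset.sum_le_sum fun j _ => norm_sum_le _ _)
        _ ≤ ∑ j : Fin 2, ∑ l : Fin 2, 256 / Ω * ‖vec (kn n)‖ * ‖vec (en n)‖ * D⁻¹ * P :=
            Finset.sum_le_sum fun j _ => Finset.sum_le_sum fun l _ => hkey j l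
        _ = 1024 / Ω * ‖vec (kn n)‖ * ‖vec (en n)‖ * D⁻¹ * P := by
            simp only [Finset.sum_const, Finset.card_univ, Fintype.card_fin, nsmul_eq_mul]
            push_cast
            ring

end Pool.Agent.Work.MP_b0497c_an.Disp
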