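import Mathlib
import Pool.Agent.Work.MP_b0497c_an.Disp.Stmts

set_option autoImplicit false

/-!
R7. The equation for the chain with its remainder.
-/

namespace Pool.Agent.Work.MP_b0497c_an.Disp

open Set MeasureTheory RealInnerProductSpace Pool.Agent.Work.MP_b0497c_an
open Pool.Agent.Work.MP_b0497c_an.Dec (cube phase vec)

theorem Rem_nsq_nonneg (h : E3 → ℂ) : 0 ≤ nsq h := by
  unfold nsq
  positivity

/-- Continuity of every coefficient. -/
theorem Rem_cont {B : (Fin 3 → ℤ) → E3 → E3} {T E : ℝ} {h : ℝ → (Fin 3 → ℤ) → E3 → ℂ}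
    (hh : IsHat B T E h) (k : Fin 3 → ℤ) (c : E3) :
    ContinuousOn (fun s => h s k c) (Ico 0 T) := by
  set a : ℝ := ⟪vec k, c⟫ / ‖vec k‖ ^ 2 with ha
  set d : E3 := (1 : ℝ) • c + (-a) • vec k with hd
  have hperp : ⟪vec k, d⟫ = 0 := by
    rw [hd, inner_add_right, real_inner_smul_right, real_inner_smul_right,
      real_inner_self_eq_norm_sq, ha]
    by_cases h0 : ‖vec k‖ = 0
    · have h1 : vec k = 0 := norm_eq_zero.1 h0
      rw [h1]
      simp
    · field_simp
      ring
  have h1 : ContinuousOn (fun s => h s k d) (Ico 0 T) := fun s hs =>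
    (hh.deriv k d hperp s hs).continuousWithinAt
  refine h1.congr fun s hs => ?_
  simp only [hd]
  rw [hh.lin s hs, hh.div s hs]
  push_cast
  ring

theorem Rem_cont_sqrt {B : (Fin 3 → ℤ) → E3 → E3} {T E : ℝ} {h : ℝ → (Fin 3 → ℤ) → E3 → ℂ}
    (hh : IsHat B T E h) (k : Fin 3 → ℤ) :
    ContinuousOn (fun s => Real.sqrt (nsq (h s k))) (Ico 0 T) := by
  unfold nsq
  exact ((((Rem_cont hh k (e 0)).norm.pow 2).add ((Rem_cont hh k (e 1)).norm.pow 2)).add
    ((Rem_cont hh k (e 2)).norm.pow 2)).sqrt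

theorem Rem_summable {N : (Fin 3 → ℤ) → ℝ} {E : ℝ} (hN : ∀ p, 0 ≤ N p) (hE : HasSum N E)
    (k : Fin 3 → ℤ) : Summable (fun p => Real.sqrt (N p) * Real.sqrt (N (k - p))) ∧
    ∑' p, Real.sqrt (N p) * Real.sqrt (N (k - p)) ≤ E := by
  have h1 : HasSum (fun p => N (k - p)) E := (Equiv.subLeft k).hasSum_iff.2 hE
  have h2 : HasSum (fun p => (1 / 2 : ℝ) * (N p + N (k - p))) (1 / 2 * (E + E)) :=
    (hE.add h1).mul_left _
  have h3 : ∀ p, Real.sqrt (N p) * Real.sqrt (N (k - p)) ≤ 1 / 2 * (N p + N (k - p)) := by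
    intro p
    have h4 := Real.sq_sqrt (hN p)
    have h5 := Real.sq_sqrt (hN (k - p))
    nlinarith [sq_nonneg (Real.sqrt (N p) - Real.sqrt (N (k - p)))]
  have h4 : Summable (fun p => Real.sqrt (N p) * Real.sqrt (N (k - p))) :=
    Summable.of_nonneg_of_le (fun p => by positivity) h3 h2.summable
  refine ⟨h4, ?_⟩
  have h5 := h4.tsum_le_tsum h3 h2.summable
  rw [h2.tsum_eq] at h5
  linarith

theorem claimRem (hKn : ClaimKn) (hRes : ClaimRes) (hTerm : ClaimTerm) (hSum : ClaimSum) :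
    ClaimRem := by
  classical
  obtain ⟨C, hC, hS⟩ := hSum
  refine ⟨1024 * (2 + C), by positivity, ?_⟩
  intro ω Ω T E t h n hω hΩ hh ht hn
  have hE : 0 ≤ E := (hh.sum t ht).nonneg fun _ => Rem_nsq_nonneg _
  have hsub : Icc 0 t ⊆ Ico 0 T := fun s hs => ⟨hs.1, hs.2.trans_lt ht.2⟩
  have h0T : (0 : ℝ) ∈ Ico 0 T := ⟨le_rfl, ht.1.trans_lt ht.2⟩
  set k : Fin 3 → ℤ := kn n with hk
  set e' : E3 := vec (en n) with he'
  obtain ⟨hke1, hke2, hke3, -⟩ := hKn.2.2.1 n
  have hsym : sym ω k e' = 0 := hKn.2.2.2 ω n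
  have hk1 : 1 ≤ ‖vec k‖ := by
    have h1 : (1 : ℝ) ≤ ‖vec k‖ ^ 2 := by
      rw [hke3]
      have h2 : (1 : ℝ) ≤ 2 ^ n := one_le_pow₀ (by norm_num)
      have h3 : (0 : ℝ) < 4 ^ n := by positivity
      linarith
    nlinarith [norm_nonneg (vec k)]
  have hk0 : k ≠ 0 := by
    intro h0
    rw [h0] at hk1
    have h1 : vec (0 : Fin 3 → ℤ) = 0 := by
      ext i
      fin_cases i <;> simp [vec]
    rw [h1, norm_zero] at hk1
    linarith
  have hen : ‖e'‖ = Real.sqrt (2 ^ n + 1) := by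
    rw [← hke1, Real.sqrt_sq (norm_nonneg _)]
  -- the equation for the amplitude
  have hder : ∀ s ∈ Ico 0 T, HasDerivWithinAt (fun s => Sn n (h s)) (conv (h s) k e').re
      (Ico 0 T) s := by
    intro s hs
    have h1 := hh.deriv k e' hke2 s hs
    have h2 : h s k (Ω • sym ω k e') = 0 := by
      rw [hsym, smul_zero]
      have h3 := hh.lin s hs k 0 0 0 0
      simpa using h3
    rw [h2, mul_zero, sub_zero] at h1
    have h3 := (Complex.imCLM.hasFDerivAt.comp_hasDerivWithinAt s h1).neg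
    have h4 : -(Complex.imCLM (-Complex.I * conv (h s) k e')) = (conv (h s) k e').re := by
      simp
    rw [h4] at h3
    exact h3
  have hconv : ContinuousOn (fun s => conv (h s) k e') (Ico 0 T) := hh.cont k e' hke2
  have hFTC : ∫ s in (0 : ℝ)..t, (conv (h s) k e').re = Sn n (h t) - Sn n (h 0) := by
    apply intervalIntegral.integral_eq_sub_of_hasDeriv_right_of_le ht.1
    · exact (fun s hs => ((hder s (hsub hs)).continuousWithinAt).mono hsub)
    · intro s hs
      have h1 : Ico 0 T ∈ nhds s := Ico_mem_nhds hs.1 (hs.2.trans ht.2)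
      exact ((hder s ⟨hs.1.le, hs.2.trans ht.2⟩).hasDerivAt h1).hasDerivWithinAt
    · exact ((Complex.continuous_re.comp_continuousOn hconv).mono
        hsub).intervalIntegrable_of_Icc ht.1
  -- the nonresonant terms
  have hT := fun p => hTerm ω Ω T E t h n p hω hΩ hh ht hn
  set F : (Fin 3 → ℤ) → ℝ → ℂ := fun p s => nres n (h s) p with hF
  have hFsum : ∀ s ∈ Ico 0 T, Summable (fun p => ‖F p s‖) ∧
      ∑' p, ‖F p s‖ ≤ 4 * ‖vec k‖ * ‖e'‖ * E := by
    intro s hs
    obtain ⟨h1, h2⟩ := Rem_summable (fun p => Rem_nsq_nonneg (h s p)) (hh.sum s hs) k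
    have h3 : ∀ p, ‖F p s‖ ≤ 4 * ‖vec k‖ * ‖e'‖ *
        (Real.sqrt (nsq (h s p)) * Real.sqrt (nsq (h s (k - p)))) :=
      fun p => (hT p).2.2.1 s hs
    have h4 : Summable (fun p => ‖F p s‖) :=
      Summable.of_nonneg_of_le (fun p => norm_nonneg _) h3 (h1.mul_left _)
    refine ⟨h4, ?_⟩
    refine (h4.tsum_le_tsum h3 (h1.mul_left _)).trans ?_
    rw [tsum_mul_left]
    exact mul_le_mul_of_nonneg_left h2 (by positivity)
  have hsplit : ∀ s ∈ Ico 0 T, (conv (h s) k e').re = (2 ^ n * nsq (h s (kn (n - 1))) -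
      2 ^ (n + 1) * (Sn n (h s) * Sn (n + 1) (h s)) / (2 ^ (n + 1) + 1)) +
      (∑' p, F p s).re := by
    intro s hs
    obtain ⟨hnd, hout, hval⟩ := hRes (h s) (hh.lin s hs) (hh.div s hs) (hh.conj s hs)
      (hh.rot s hs) n hn
    have h1 : conv (h s) k e' = ∑' p, (F p s + pres n (h s) p) := by
      unfold conv
      apply tsum_congr
      intro p
      exact (hT p).2.1 s hs
    have h2 : Summable (fun p => F p s) := (hFsum s hs).1.of_norm
    have h3 : HasSum (fun p => pres n (h s) p) (∑ p ∈ (cp n).toFinset, pres n (h s) p) := by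
      apply hasSum_sum_of_ne_finset_zero
      intro p hp
      apply hout
      intro h4
      exact hp (List.mem_toFinset.2 h4)
    rw [h1, h2.tsum_add h3.summable, h3.tsum_eq, Complex.add_re,
      List.sum_toFinset _ hnd, hval]
    ring
  -- the error is the integral of the nonresonant terms
  have hcI : ContinuousOn (fun s => (2 ^ n * nsq (h s (kn (n - 1))) -
      2 ^ (n + 1) * (Sn n (h s) * Sn (n + 1) (h s)) / (2 ^ (n + 1) + 1))) (Ico 0 T) := by
    have h1 : ∀ m, ContinuousOn (fun s => Sn m (h s)) (Ico 0 T) := fun m => by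
      unfold Sn
      exact (Complex.continuous_im.comp_continuousOn (Rem_cont hh _ _)).neg
    have h2 : ContinuousOn (fun s => nsq (h s (kn (n - 1)))) (Ico 0 T) := by
      unfold nsq
      exact (((Rem_cont hh _ (e 0)).norm.pow 2).add ((Rem_cont hh _ (e 1)).norm.pow 2)).add
        ((Rem_cont hh _ (e 2)).norm.pow 2)
    exact (continuousOn_const.mul h2).sub
      ((continuousOn_const.mul ((h1 n).mul (h1 (n + 1)))).div_const _)
  have hcF : ∀ p, ContinuousOn (F p) (Ico 0 T) := fun p => (hT p).1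
  have herr : Sn n (h t) - Sn n (h 0) - ∫ s in (0 : ℝ)..t, (2 ^ n * nsq (h s (kn (n - 1))) -
      2 ^ (n + 1) * (Sn n (h s) * Sn (n + 1) (h s)) / (2 ^ (n + 1) + 1)) =
      ∫ s in (0 : ℝ)..t, (∑' p, F p s).re := by
    rw [← hFTC, ← intervalIntegral.integral_sub]
    · apply intervalIntegral.integral_congr
      intro s hs
      rw [uIcc_of_le ht.1] at hs
      simp only [hsplit s (hsub hs)]
      ring
    · exact ((Complex.continuous_re.comp_continuousOn hconv).mono
        hsub).intervalIntegrable_of_Icc ht.1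
    · exact (hcI.mono hsub).intervalIntegrable_of_Icc ht.1
  -- exchange of sum and integral
  have hFi : ∀ p, IntegrableOn (F p) (Ioc 0 t) := fun p =>
    (((hcF p).mono hsub).integrableOn_Icc).mono_set Ioc_subset_Icc_self
  have hnormsum : Summable (fun p => ∫ s in Ioc 0 t, ‖F p s‖) := by
    apply summable_of_sum_le (c := t * (4 * ‖vec k‖ * ‖e'‖ * E))
    · intro p
      exact integral_nonneg fun s => norm_nonneg _
    · intro u
      rw [← integral_finsetSum _ fun p _ => (hFi p).norm]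
      have h1 : ∫ s in Ioc 0 t, ∑ p ∈ u, ‖F p s‖ ≤ ∫ s in Ioc 0 t, (4 * ‖vec k‖ * ‖e'‖ * E) := by
        apply setIntegral_mono_on
        · exact integrable_finsetSum _ fun p _ => (hFi p).norm
        · exact integrableOn_const (by simp)
        · exact measurableSet_Ioc
        · intro s hs
          have h2 := hFsum s (hsub (Ioc_subset_Icc_self hs))
          exact (h2.1.sum_le_tsum _ fun p _ => norm_nonneg _).trans h2.2
      rw [setIntegral_const] at h1
      simpa [ht.1] using h1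
  have hswap := hasSum_integral_of_summable_integral_norm hFi hnormsum
  have hre : ∫ s in (0 : ℝ)..t, (∑' p, F p s).re = (∑' p, ∫ s in Ioc 0 t, F p s).re := by
    rw [hswap.tsum_eq, intervalIntegral.integral_of_le ht.1]
    have h1 : Integrable (fun s => ∑' p, F p s) (volume.restrict (Ioc 0 t)) := by
      have h2 : ∀ s ∈ Ioc 0 t, ∑' p, F p s = conv (h s) k e' -
          ∑ p ∈ (cp n).toFinset, pres n (h s) p := by
        intro s hs'
        have hs := hsub (Ioc_subset_Icc_self hs')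
        obtain ⟨hnd, hout, hval⟩ := hRes (h s) (hh.lin s hs) (hh.div s hs) (hh.conj s hs)
          (hh.rot s hs) n hn
        have h1 : conv (h s) k e' = ∑' p, (F p s + pres n (h s) p) := by
          unfold conv
          apply tsum_congr
          intro p
          exact (hT p).2.1 s hs
        have h2 : Summable (fun p => F p s) := (hFsum s hs).1.of_norm
        have h3 : HasSum (fun p => pres n (h s) p) (∑ p ∈ (cp n).toFinset, pres n (h s) p) := by
          apply hasSum_sum_of_ne_finset_zero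
          intro p hp
          apply hout
          intro h4
          exact hp (List.mem_toFinset.2 h4)
        rw [h1, h2.tsum_add h3.summable, h3.tsum_eq]
        ring
      have h3 : ContinuousOn (fun s => conv (h s) k e' -
          ∑ p ∈ (cp n).toFinset, pres n (h s) p) (Ico 0 T) := by
        apply hconv.sub
        apply continuousOn_finsetSum
        intro p _
        unfold pres
        apply continuousOn_finsetSum
        intro j _
        apply continuousOn_finsetSum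
        intro l _
        split_ifs
        · exact continuousOn_const.mul ((Rem_cont hh _ _).mul (Rem_cont hh _ _))
        · exact continuousOn_const
      have h4 : IntegrableOn (fun s => conv (h s) k e' -
          ∑ p ∈ (cp n).toFinset, pres n (h s) p) (Ioc 0 t) :=
        ((h3.mono hsub).integrableOn_Icc).mono_set Ioc_subset_Icc_self
      exact h4.congr_fun (fun s hs => (h2 s hs).symm) measurableSet_Ioc
    exact (integral_re h1)
  -- the bound
  have hbd : ∀ u : Finset (Fin 3 → ℤ), ∑ p ∈ u, ‖∫ s in Ioc 0 t, F p s‖ ≤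
      1024 * (2 + C) * ‖e'‖ * (E + t * (E * Real.sqrt E)) / Ω := by
    intro u
    set D : (Fin 3 → ℤ) → ℝ := fun p => (‖vec p‖ + ‖vec (k - p)‖) ^ 4 with hD
    set G : (Fin 3 → ℤ) → ℝ → ℝ := fun p s => ‖vec p‖ * Real.sqrt (nsq (h s (k - p))) +
      ‖vec (k - p)‖ * Real.sqrt (nsq (h s p)) with hG
    have hGc : ∀ p, ContinuousOn (G p) (Ico 0 T) := fun p =>
      (continuousOn_const.mul (Rem_cont_sqrt hh _)).add
        (continuousOn_const.mul (Rem_cont_sqrt hh _))
    have h1 : ∀ p, ‖∫ s in Ioc 0 t, F p s‖ ≤ 1024 / Ω * ‖vec k‖ * ‖e'‖ *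
        ((D p)⁻¹ * (Real.sqrt (nsq (h t p)) * Real.sqrt (nsq (h t (k - p)))) +
        (D p)⁻¹ * (Real.sqrt (nsq (h 0 p)) * Real.sqrt (nsq (h 0 (k - p)))) +
        E * ((D p)⁻¹ * ∫ s in (0 : ℝ)..t, G p s)) := by
      intro p
      have h2 := (hT p).2.2.2
      rw [intervalIntegral.integral_of_le ht.1] at h2
      refine h2.trans (le_of_eq ?_)
      simp only [hD, hG]
      ring
    have h2 : ∑ p ∈ u, (D p)⁻¹ * (Real.sqrt (nsq (h t p)) * Real.sqrt (nsq (h t (k - p)))) ≤
        E * (‖vec k‖ ^ 4)⁻¹ :=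
      (hS (fun p => nsq (h t p)) E k u (fun p => Rem_nsq_nonneg _) (hh.sum t ht) hk0).1
    have h3 : ∑ p ∈ u, (D p)⁻¹ * (Real.sqrt (nsq (h 0 p)) * Real.sqrt (nsq (h 0 (k - p)))) ≤
        E * (‖vec k‖ ^ 4)⁻¹ :=
      (hS (fun p => nsq (h 0 p)) E k u (fun p => Rem_nsq_nonneg _) (hh.sum 0 h0T) hk0).1
    have h4 : ∑ p ∈ u, (D p)⁻¹ * ∫ s in (0 : ℝ)..t, G p s ≤
        t * (C * Real.sqrt E * ‖vec k‖⁻¹) := by
      have h5 : ∑ p ∈ u, (D p)⁻¹ * ∫ s in (0 : ℝ)..t, G p s =
          ∫ s in (0 : ℝ)..t, ∑ p ∈ u, (D p)⁻¹ * G p s := by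
        rw [intervalIntegral.integral_finsetSum]
        · apply Finset.sum_congr rfl
          intro p _
          rw [intervalIntegral.integral_const_mul]
        · intro p _
          exact ((continuousOn_const.mul (hGc p)).mono hsub).intervalIntegrable_of_Icc ht.1
      rw [h5]
      have h6 : ∫ s in (0 : ℝ)..t, ∑ p ∈ u, (D p)⁻¹ * G p s ≤
          ∫ s in (0 : ℝ)..t, (C * Real.sqrt E * ‖vec k‖⁻¹) := by
        apply intervalIntegral.integral_mono_on ht.1
        · exact ((continuousOn_finsetSum _ fun p _ =>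
            continuousOn_const.mul (hGc p)).mono hsub).intervalIntegrable_of_Icc ht.1
        · simp
        · intro s hs
          exact (hS (fun p => nsq (h s p)) E k u (fun p => Rem_nsq_nonneg _)
            (hh.sum s (hsub hs)) hk0).2
      rw [intervalIntegral.integral_const, sub_zero, smul_eq_mul] at h6
      exact h6
    have h5 : ∑ p ∈ u, ‖∫ s in Ioc 0 t, F p s‖ ≤ 1024 / Ω * ‖vec k‖ * ‖e'‖ *
        (E * (‖vec k‖ ^ 4)⁻¹ + E * (‖vec k‖ ^ 4)⁻¹ +
          E * (t * (C * Real.sqrt E * ‖vec k‖⁻¹))) := by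
      refine (Finset.sum_le_sum fun p _ => h1 p).trans ?_
      rw [← Finset.mul_sum, Finset.sum_add_distrib, Finset.sum_add_distrib, ← Finset.mul_sum]
      apply mul_le_mul_of_nonneg_left _ (by positivity)
      have := mul_le_mul_of_nonneg_left h4 hE
      linarith
    refine h5.trans ?_
    have hkp : 0 < ‖vec k‖ := by linarith
    have h6 : ‖vec k‖ * (‖vec k‖ ^ 4)⁻¹ ≤ 1 := by
      rw [← div_eq_mul_inv, div_le_one (by positivity)]
      calc ‖vec k‖ = ‖vec k‖ ^ 1 := (pow_one _).symm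
        _ ≤ ‖vec k‖ ^ 4 := pow_le_pow_right₀ hk1 (by norm_num)
    have h7 : 1024 / Ω * ‖vec k‖ * ‖e'‖ * (E * (‖vec k‖ ^ 4)⁻¹ + E * (‖vec k‖ ^ 4)⁻¹ +
        E * (t * (C * Real.sqrt E * ‖vec k‖⁻¹))) =
        1024 / Ω * ‖e'‖ * (2 * E * (‖vec k‖ * (‖vec k‖ ^ 4)⁻¹) +
          C * (t * (E * Real.sqrt E))) := by
      field_simp
      ring
    rw [h7]
    have h8 : 2 * E * (‖vec k‖ * (‖vec k‖ ^ 4)⁻¹) ≤ 2 * E * 1 :=
      mul_le_mul_of_nonneg_left h6 (by positivity)
    have h9 : 0 ≤ t * (E * Real.sqrt E) := by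
      have := ht.1
      positivity
    have h10 : 2 * E * (‖vec k‖ * (‖vec k‖ ^ 4)⁻¹) + C * (t * (E * Real.sqrt E)) ≤
        (2 + C) * (E + t * (E * Real.sqrt E)) := by
      nlinarith [mul_nonneg hC.le hE]
    calc 1024 / Ω * ‖e'‖ * (2 * E * (‖vec k‖ * (‖vec k‖ ^ 4)⁻¹) + C * (t * (E * Real.sqrt E)))
        ≤ 1024 / Ω * ‖e'‖ * ((2 + C) * (E + t * (E * Real.sqrt E))) :=
          mul_le_mul_of_nonneg_left h10 (by positivity)
      _ = 1024 * (2 + C) * ‖e'‖ * (E + t * (E * Real.sqrt E)) / Ω := by ring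
  have hns : Summable (fun p => ‖∫ s in Ioc 0 t, F p s‖) :=
    summable_of_sum_le (fun p => norm_nonneg _) hbd
  rw [herr, hre, ← hen]
  calc |(∑' p, ∫ s in Ioc 0 t, F p s).re| ≤ ‖∑' p, ∫ s in Ioc 0 t, F p s‖ :=
        Complex.abs_re_le_norm _
    _ ≤ ∑' p, ‖∫ s in Ioc 0 t, F p s‖ := norm_tsum_le_tsum_norm hns
    _ ≤ 1024 * (2 + C) * ‖e'‖ * (E + t * (E * Real.sqrt E)) / Ω :=
        hns.tsum_le_of_sum_le hbd

end Pool.Agent.Work.MP_b0497c_an.Disp
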