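import Mathlib
import Pool.Agent.Work.MP_b0497c_an.Disp.Stmts

set_option autoImplicit false

/-!
Euler equations with a dispersive term: the life span of the coefficients (item L).
-/

namespace Pool.Agent.Work.MP_b0497c_an.Disp

open Set MeasureTheory RealInnerProductSpace Pool.Agent.Work.MP_b0497c_an
open Pool.Agent.Work.MP_b0497c_an.Dec (cube phase vec)

theorem Life_nsq_nonneg (h : E3 → ℂ) : 0 ≤ nsq h := by
  unfold nsq
  positivity

theorem claimLife (hKn : ClaimKn) (hEig : ClaimEig) (hLin : ClaimLin) (hRem : ClaimRem)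
    (hStay : ClaimStay) (hBlow : ClaimBlow) : ClaimLife := by
  intro N m₀ E₀ hm₀
  obtain ⟨Cr, hCr, hrem⟩ := hRem
  set C : ℝ := Cr * (|E₀| + |E₀| * Real.sqrt |E₀|) +
    4 * ‖vec (kn N)‖ * |E₀| / Real.sqrt m₀ + 1 with hC
  have hsm : 0 < Real.sqrt m₀ := Real.sqrt_pos.2 hm₀
  have hC1 : 0 ≤ Cr * (|E₀| + |E₀| * Real.sqrt |E₀|) := by positivity
  have hC2 : 0 ≤ 4 * ‖vec (kn N)‖ * |E₀| / Real.sqrt m₀ := by positivity
  have hCpos : 0 < C := by rw [hC]; linarith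
  obtain ⟨c, hc, hblow⟩ := hBlow N (m₀ / 4) C (by positivity) hCpos
  refine ⟨c, hc, ?_⟩
  intro ω A Ω T h hω hA hAΩ hT hh hN h0
  have hΩ : 0 < Ω := by
    by_contra hneg
    have : c * Ω ≤ 0 := mul_nonpos_of_nonneg_of_nonpos hc.le (not_lt.mp hneg)
    linarith
  have h0T : (0 : ℝ) ∈ Ico 0 T := ⟨le_refl _, hT⟩
  -- the energy is nonnegative
  have hE : 0 ≤ E₀ := by
    have h1 := (hh.sum 0 h0T).nonneg fun k => Life_nsq_nonneg (h 0 k)
    exact (mul_nonneg_iff_of_pos_left (by positivity)).1 h1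
  have habs : |E₀| = E₀ := abs_of_nonneg hE
  -- the vectors of the chain do not lie on the axis
  have hax : ∀ n, ¬ (kn n 0 = 0 ∧ kn n 1 = 0) := by
    rintro n ⟨h1, h2⟩
    have h3 := (hKn.1 n).1
    rw [h1, h2] at h3
    have : (0 : ℤ) < 2 ^ n := by positivity
    simp at h3
    omega
  have hcontS : ∀ n, ContinuousOn (fun t => Sn n (h t)) (Ico 0 T) := by
    intro n t ht
    have h1 := (hh.deriv (kn n) (vec (en n)) (hKn.2.2.1 n).2.1 t ht).continuousWithinAt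
    exact (Complex.continuous_im.continuousAt.comp_continuousWithinAt h1).neg
  have hcontM : ∀ n, ContinuousOn (fun t => nsq (h t (kn n))) (Ico 0 T) := by
    intro n
    have h1 : ContinuousOn (fun t => ‖h t (kn n) (fr 0 (kn n))‖ ^ 2 +
        ‖h t (kn n) (fr 1 (kn n))‖ ^ 2) (Ico 0 T) := by
      have h2 : ∀ j, ContinuousOn (fun t => h t (kn n) (fr j (kn n))) (Ico 0 T) :=
        fun j t ht => (hh.deriv (kn n) _ ((hEig (kn n) (hax n)).2.1 j) t ht).continuousWithinAt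
      exact ((h2 0).norm.pow 2).add ((h2 1).norm.pow 2)
    refine h1.congr fun t ht => ?_
    exact ((hLin (h t (kn n)) (kn n) (hh.lin t ht (kn n)) (hh.div t ht (kn n))).2 (hax n)).2.symm
  refine hblow A Ω T (fun n t => Sn n (h t)) (fun n t => nsq (h t (kn n))) hA hΩ hT hAΩ hcontS
    hcontM ?_ ?_ ?_ ?_
  · intro n t ht
    have h1 := (hLin (h t (kn n)) (kn n) (hh.lin t ht (kn n)) (hh.div t ht (kn n))).1 (vec (en n))
    rw [(hKn.2.2.1 n).1] at h1
    have h2 : Sn n (h t) ^ 2 ≤ ‖h t (kn n) (vec (en n))‖ ^ 2 := by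
      unfold Sn
      rw [neg_sq, ← sq_abs]
      exact pow_le_pow_left₀ (abs_nonneg _) (Complex.abs_im_le_norm _) 2
    calc Sn n (h t) ^ 2 ≤ ‖h t (kn n) (vec (en n))‖ ^ 2 := h2
      _ ≤ nsq (h t (kn n)) * (2 ^ n + 1) := h1
      _ = (2 ^ n + 1) * nsq (h t (kn n)) := mul_comm _ _
  · intro n hn t ht
    have h1 := hrem ω Ω T (A ^ 2 * E₀) t h n hω hΩ hh ht (by omega)
    have h2 : Sn n (h 0) = 0 := by
      unfold Sn
      rw [h0 n hn]
      simp
    rw [h2, sub_zero] at h1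
    refine h1.trans ?_
    have hs : Real.sqrt (A ^ 2 * E₀) = A * Real.sqrt E₀ := by
      rw [Real.sqrt_mul (sq_nonneg A), Real.sqrt_sq hA.le]
    rw [hs]
    have ht0 : 0 ≤ t := ht.1
    have hcs : C * Real.sqrt (2 ^ n + 1) * (A ^ 2 + t * A ^ 3) / Ω -
        Cr * Real.sqrt (2 ^ n + 1) * (A ^ 2 * E₀ + t * (A ^ 2 * E₀ * (A * Real.sqrt E₀))) / Ω =
        Real.sqrt (2 ^ n + 1) / Ω * ((C - Cr * E₀) * A ^ 2 +
          (C - Cr * (E₀ * Real.sqrt E₀)) * (t * A ^ 3)) := by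
      ring
    have hk1 : 0 ≤ C - Cr * E₀ := by
      rw [hC, habs]
      have : 0 ≤ Cr * (E₀ * Real.sqrt E₀) := by positivity
      have h4 := hC2
      rw [habs] at h4
      nlinarith
    have hk2 : 0 ≤ C - Cr * (E₀ * Real.sqrt E₀) := by
      rw [hC, habs]
      have : 0 ≤ Cr * E₀ := by positivity
      have h4 := hC2
      rw [habs] at h4
      nlinarith
    have hk3 : 0 ≤ Real.sqrt (2 ^ n + 1) / Ω * ((C - Cr * E₀) * A ^ 2 +
          (C - Cr * (E₀ * Real.sqrt E₀)) * (t * A ^ 3)) := by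
      positivity
    linarith
  · intro t ht
    obtain ⟨D, hD⟩ := hh.grad t ht
    refine ⟨D, fun n s hs => ?_⟩
    refine le_trans ?_ (hD s hs (kn n))
    rw [(hKn.2.2.1 n).2.2.1]
    have := Life_nsq_nonneg (h s (kn n))
    have h2 : (0 : ℝ) ≤ 2 ^ n := by positivity
    nlinarith
  · intro t ht hCt
    have hst := hStay ω Ω T (A ^ 2 * E₀) h (kn N) (hax N) hh t ht
    have hsq : Real.sqrt (nsq (h 0 (kn N))) = A * Real.sqrt m₀ := by
      rw [hN, Real.sqrt_mul (sq_nonneg A), Real.sqrt_sq hA.le]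
    rw [hsq, hN] at hst
    have h3 : 2 * (‖vec (kn N)‖ * (A ^ 2 * E₀) * t) ≤ A * Real.sqrt m₀ / 2 := by
      have h4 : 4 * ‖vec (kn N)‖ * E₀ / Real.sqrt m₀ * A * t ≤ 1 := by
        refine le_trans ?_ hCt
        have h5 : 4 * ‖vec (kn N)‖ * E₀ / Real.sqrt m₀ ≤ C := by
          rw [hC, habs]
          rw [habs] at hC1
          linarith
        have ht0 : 0 ≤ A * t := mul_nonneg hA.le ht.1
        calc 4 * ‖vec (kn N)‖ * E₀ / Real.sqrt m₀ * A * t
            = 4 * ‖vec (kn N)‖ * E₀ / Real.sqrt m₀ * (A * t) := by ring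
          _ ≤ C * (A * t) := mul_le_mul_of_nonneg_right h5 ht0
          _ = C * A * t := by ring
      have h6 : 4 * ‖vec (kn N)‖ * E₀ * (A * t) ≤ Real.sqrt m₀ := by
        have h7 : 4 * ‖vec (kn N)‖ * E₀ / Real.sqrt m₀ * A * t =
            4 * ‖vec (kn N)‖ * E₀ * (A * t) / Real.sqrt m₀ := by ring
        rw [h7, div_le_one hsm] at h4
        exact h4
      have h8 : 2 * (‖vec (kn N)‖ * (A ^ 2 * E₀) * t) =
          A / 2 * (4 * ‖vec (kn N)‖ * E₀ * (A * t)) := by ring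
      rw [h8]
      calc A / 2 * (4 * ‖vec (kn N)‖ * E₀ * (A * t)) ≤ A / 2 * Real.sqrt m₀ :=
            mul_le_mul_of_nonneg_left h6 (by positivity)
        _ = A * Real.sqrt m₀ / 2 := by ring
    have h9 := hst h3
    linarith

end Pool.Agent.Work.MP_b0497c_an.Disp
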