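import Pool.Agent.Work.MP_b0497c_an.Disp.Stmts

set_option autoImplicit false

/-!
R8: a mode of the chain persists.
-/

namespace Pool.Agent.Work.MP_b0497c_an.Disp

open Set MeasureTheory

theorem stay_phase (T G l : ℝ) (f g : ℝ → ℂ) (t : ℝ) (ht : t ∈ Ico 0 T)
    (hd : ∀ s ∈ Ico 0 T, HasDerivWithinAt f (-Complex.I * g s - Complex.I * l * f s) (Ico 0 T) s)
    (hG : ∀ s ∈ Ico 0 T, ‖g s‖ ≤ G) : ‖f 0‖ ≤ ‖f t‖ + G * t := by
  have h0 : (0 : ℝ) ∈ Ico 0 T := ⟨le_rfl, ht.1.trans_lt ht.2⟩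
  set A : ℝ → ℂ := fun s => Complex.exp (Complex.I * l * s) * f s with hA
  have hder : ∀ s ∈ Ico 0 T, HasDerivWithinAt A
      (Complex.exp (Complex.I * l * s) * (-Complex.I * g s)) (Ico 0 T) s := by
    intro s hs
    have h1 : HasDerivAt (fun s : ℝ => Complex.I * l * (s : ℂ)) (Complex.I * l) s := by
      have h3 := (hasDerivAt_id s).ofReal_comp.const_mul (Complex.I * (l : ℂ))
      simpa using h3
    have h2 := (h1.cexp.hasDerivWithinAt (s := Ico 0 T)).mul (hd s hs)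
    refine h2.congr_deriv ?_
    ring
  have hexp : ∀ s : ℝ, ‖Complex.exp (Complex.I * l * s)‖ = 1 := by
    intro s
    have : Complex.I * l * s = ((l * s : ℝ) : ℂ) * Complex.I := by push_cast; ring
    rw [this]
    exact Complex.norm_exp_ofReal_mul_I _
  have hb : ‖A 0 - A t‖ ≤ G * ‖(0 : ℝ) - t‖ := by
    refine (convex_Ico 0 T).norm_image_sub_le_of_norm_hasDerivWithin_le hder ?_ ht h0
    intro s hs
    rw [norm_mul, hexp, one_mul, norm_mul, norm_neg, Complex.norm_I, one_mul]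
    exact hG s hs
  rw [zero_sub, norm_neg, Real.norm_eq_abs, abs_of_nonneg ht.1] at hb
  have hA0 : ‖A 0‖ = ‖f 0‖ := by rw [hA]; simp only [norm_mul, hexp, one_mul]
  have hAt : ‖A t‖ = ‖f t‖ := by rw [hA]; simp only [norm_mul, hexp, one_mul]
  have h3 : ‖A 0‖ ≤ ‖A t‖ + ‖A 0 - A t‖ := by
    have := norm_add_le (A t) (A 0 - A t)
    rwa [add_sub_cancel] at this
  linarith

theorem claimStay (hLin : ClaimLin) (hComp : ClaimComp) : ClaimStay := by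
  intro ω Ω T E h k hk H t ht hsmall
  have h0 : (0 : ℝ) ∈ Ico 0 T := ⟨le_rfl, ht.1.trans_lt ht.2⟩
  have e0 := ((hLin (h 0 k) k (H.lin 0 h0 k) (H.div 0 h0 k)).2 hk).2
  have et := ((hLin (h t k) k (H.lin t ht k) (H.div t ht k)).2 hk).2
  have hj : ∀ j : Fin 2, ‖h 0 k (fr j k)‖ ≤ ‖h t k (fr j k)‖ + ‖Dec.vec k‖ * E * t := by
    intro j
    obtain ⟨-, hc⟩ := hComp ω Ω T E h H k j hk
    refine stay_phase T (‖Dec.vec k‖ * E) (Ω * lam ω j k) (fun s => h s k (fr j k))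
      (fun s => conv (h s) k (fr j k)) t ht ?_ (fun s hs => (hc s hs).1)
    intro s hs
    have := (hc s hs).2
    refine this.congr_deriv ?_
    push_cast
    ring
  have hG : 0 ≤ ‖Dec.vec k‖ * E :=
    (norm_nonneg _).trans ((hComp ω Ω T E h H k 0 hk).2 0 h0).1
  have hu : 0 ≤ ‖Dec.vec k‖ * E * t := mul_nonneg hG ht.1
  have hn0 : 0 ≤ nsq (h 0 k) := by
    unfold nsq
    positivity
  have hR := Real.sq_sqrt hn0
  have hRn := Real.sqrt_nonneg (nsq (h 0 k))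
  have j0 := hj 0
  have j1 := hj 1
  set u := ‖Dec.vec k‖ * E * t
  set R := Real.sqrt (nsq (h 0 k))
  have hu2 : 16 * u ^ 2 ≤ nsq (h 0 k) := by
    rw [← hR]
    have : 4 * u ≤ R := by linarith
    nlinarith
  have k0 : ‖h 0 k (fr 0 k)‖ ^ 2 ≤ 2 * ‖h t k (fr 0 k)‖ ^ 2 + 2 * u ^ 2 := by
    have : ‖h 0 k (fr 0 k)‖ ^ 2 ≤ (‖h t k (fr 0 k)‖ + u) ^ 2 :=
      pow_le_pow_left₀ (norm_nonneg _) j0 2
    nlinarith [sq_nonneg (‖h t k (fr 0 k)‖ - u)]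
  have k1 : ‖h 0 k (fr 1 k)‖ ^ 2 ≤ 2 * ‖h t k (fr 1 k)‖ ^ 2 + 2 * u ^ 2 := by
    have : ‖h 0 k (fr 1 k)‖ ^ 2 ≤ (‖h t k (fr 1 k)‖ + u) ^ 2 :=
      pow_le_pow_left₀ (norm_nonneg _) j1 2
    nlinarith [sq_nonneg (‖h t k (fr 1 k)‖ - u)]
  nlinarith

end Pool.Agent.Work.MP_b0497c_an.Disp
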