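import Pool.Agent.Work.MP_b0497c_an.Disp.Stmts

set_option autoImplicit false

/-!
R6: the weighted sums.
-/

namespace Pool.Agent.Work.MP_b0497c_an.Disp

open Set MeasureTheory RealInnerProductSpace Pool.Agent.Work.MP_b0497c_an
open Pool.Agent.Work.MP_b0497c_an.Dec (cube phase vec)

theorem sum_vec_sq (k : Fin 3 → ℤ) :
    ‖vec k‖ ^ 2 = (k 0 : ℝ) ^ 2 + (k 1 : ℝ) ^ 2 + (k 2 : ℝ) ^ 2 := by
  rw [EuclideanSpace.norm_sq_eq, Fin.sum_univ_three]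
  simp [vec]

theorem sum_vec_add (p q : Fin 3 → ℤ) : vec (p + q) = vec p + vec q := by
  ext i
  fin_cases i <;> simp [vec]

theorem sum_tri (k p : Fin 3 → ℤ) : ‖vec k‖ ≤ ‖vec p‖ + ‖vec (k - p)‖ := by
  have h : vec k = vec p + vec (k - p) := by
    rw [← sum_vec_add]
    congr 1
    abel
  rw [h]
  exact norm_add_le _ _

theorem sum_one_le {k : Fin 3 → ℤ} (hk : k ≠ 0) : 1 ≤ ‖vec k‖ := by
  have h : 1 ≤ k 0 ^ 2 + k 1 ^ 2 + k 2 ^ 2 := by
    by_contra hlt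
    have h0 := sq_nonneg (k 0)
    have h1 := sq_nonneg (k 1)
    have h2 := sq_nonneg (k 2)
    have e0 : k 0 ^ 2 = 0 := by omega
    have e1 : k 1 ^ 2 = 0 := by omega
    have e2 : k 2 ^ 2 = 0 := by omega
    apply hk
    funext i
    fin_cases i
    · simpa using e0
    · simpa using e1
    · simpa using e2
  have h' : (1 : ℝ) ≤ (k 0 : ℝ) ^ 2 + (k 1 : ℝ) ^ 2 + (k 2 : ℝ) ^ 2 := by exact_mod_cast h
  rw [← sum_vec_sq] at h'
  nlinarith [norm_nonneg (vec k)]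

theorem sum_abs_le (k : Fin 3 → ℤ) (i : Fin 3) : |(k i : ℝ)| ≤ ‖vec k‖ := by
  have h : (k i : ℝ) ^ 2 ≤ ‖vec k‖ ^ 2 := by
    rw [sum_vec_sq]
    have h0 := sq_nonneg (k 0 : ℝ)
    have h1 := sq_nonneg (k 1 : ℝ)
    have h2 := sq_nonneg (k 2 : ℝ)
    fin_cases i <;> simp <;> linarith
  exact abs_le_of_sq_le_sq h (norm_nonneg _)

theorem sum_int : Summable fun n : ℤ => (1 + |(n : ℝ)|) ^ (-(4 / 3) : ℝ) := by
  have h := Real.summable_abs_int_rpow (b := 4 / 3) (by norm_num)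
  rw [← Finset.summable_compl_iff ({0} : Finset ℤ)] at h ⊢
  refine Summable.of_nonneg_of_le (fun n => by positivity) (fun n => ?_) h
  have hn : (n : ℤ) ≠ 0 := by
    have := n.2
    simpa using this
  have hn' : (0 : ℝ) < |((n : ℤ) : ℝ)| := abs_pos.2 (by exact_mod_cast hn)
  exact Real.rpow_le_rpow_of_nonpos hn' (by linarith) (by norm_num)

theorem sum_lattice : Summable fun p : Fin 3 → ℤ => (‖vec p‖ ^ 4)⁻¹ := by
  have h1 := sum_int
  have pos : ∀ n : ℤ, 0 ≤ (1 + |(n : ℝ)|) ^ (-(4 / 3) : ℝ) := fun n => by positivity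
  have h3 : Summable fun q : ℤ × ℤ =>
      (1 + |(q.1 : ℝ)|) ^ (-(4 / 3) : ℝ) * (1 + |(q.2 : ℝ)|) ^ (-(4 / 3) : ℝ) :=
    h1.mul_of_nonneg h1 (fun n => pos n) (fun n => pos n)
  have h2 : Summable fun q : ℤ × ℤ × ℤ => (1 + |(q.1 : ℝ)|) ^ (-(4 / 3) : ℝ) *
      ((1 + |(q.2.1 : ℝ)|) ^ (-(4 / 3) : ℝ) * (1 + |(q.2.2 : ℝ)|) ^ (-(4 / 3) : ℝ)) :=
    h1.mul_of_nonneg h3 (fun n => pos n) (fun q => mul_nonneg (pos q.1) (pos q.2))
  have hinj : Function.Injective fun k : Fin 3 → ℤ => (k 0, k 1, k 2) := by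
    intro k l h
    simp only [Prod.mk.injEq] at h
    funext i
    fin_cases i
    · exact h.1
    · exact h.2.1
    · exact h.2.2
  refine Summable.of_nonneg_of_le (fun _ => by positivity) (fun k => ?_)
    ((h2.comp_injective hinj).mul_left 16)
  simp only [Function.comp]
  by_cases hk : k = 0
  · subst hk
    have : ‖vec 0‖ = 0 := by
      have h := sum_vec_sq 0
      simp only [Pi.zero_apply, Int.cast_zero] at h
      nlinarith [norm_nonneg (vec 0)]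
    rw [this]
    have := mul_nonneg (pos ((0 : Fin 3 → ℤ) 0)) (mul_nonneg (pos ((0 : Fin 3 → ℤ) 1))
      (pos ((0 : Fin 3 → ℤ) 2)))
    norm_num at this ⊢
  · have h1 := sum_one_le hk
    have hx : ∀ i, (2 * ‖vec k‖) ^ (-(4 / 3) : ℝ) ≤ (1 + |(k i : ℝ)|) ^ (-(4 / 3) : ℝ) := by
      intro i
      refine Real.rpow_le_rpow_of_nonpos (by positivity) ?_ (by norm_num)
      have := sum_abs_le k i
      linarith
    have hp : (0 : ℝ) ≤ (2 * ‖vec k‖) ^ (-(4 / 3) : ℝ) := by positivity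
    have hm := mul_le_mul (hx 0) (mul_le_mul (hx 1) (hx 2) hp (pos _)) (mul_nonneg hp hp) (pos _)
    have he : (2 * ‖vec k‖) ^ (-(4 / 3) : ℝ) * ((2 * ‖vec k‖) ^ (-(4 / 3) : ℝ) *
        (2 * ‖vec k‖) ^ (-(4 / 3) : ℝ)) = ((2 * ‖vec k‖) ^ 4)⁻¹ := by
      have hpos : 0 < 2 * ‖vec k‖ := by linarith
      rw [← Real.rpow_add hpos, ← Real.rpow_add hpos]
      have : (-(4 / 3) + (-(4 / 3) + -(4 / 3)) : ℝ) = -((4 : ℕ) : ℝ) := by norm_num
      rw [this, Real.rpow_neg hpos.le, Real.rpow_natCast]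
    rw [he] at hm
    have hq : (‖vec k‖ ^ 4)⁻¹ = 16 * ((2 * ‖vec k‖) ^ 4)⁻¹ := by
      have : ‖vec k‖ ≠ 0 := by linarith
      field_simp
      norm_num
    rw [hq]
    exact mul_le_mul_of_nonneg_left hm (by norm_num)

theorem sum_weight {a b K : ℝ} (ha : 0 ≤ a) (hb : 0 ≤ b) (hK : 0 < K) (h : K ≤ a + b) :
    ((a + b) ^ 4)⁻¹ * a ≤ K⁻¹ * (a ^ 2)⁻¹ := by
  rcases ha.eq_or_lt with h0 | h0
  · subst h0
    simp
  · have h1 : K * a ^ 3 ≤ (a + b) ^ 4 := by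
      have : a ^ 3 ≤ (a + b) ^ 3 := pow_le_pow_left₀ ha (by linarith) 3
      calc K * a ^ 3 ≤ (a + b) * (a + b) ^ 3 :=
            mul_le_mul h this (by positivity) (by linarith)
        _ = (a + b) ^ 4 := by ring
    have h2 : ((a + b) ^ 4)⁻¹ ≤ (K * a ^ 3)⁻¹ := inv_anti₀ (by positivity) h1
    calc ((a + b) ^ 4)⁻¹ * a ≤ (K * a ^ 3)⁻¹ * a := mul_le_mul_of_nonneg_right h2 ha
      _ = K⁻¹ * (a ^ 2)⁻¹ := by
          field_simp

theorem sum_cauchy (F : Finset (Fin 3 → ℤ)) (x N : (Fin 3 → ℤ) → ℝ) (W E : ℝ)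
    (hN : ∀ p, 0 ≤ N p) (hx : ∑ p ∈ F, (x p ^ 4)⁻¹ ≤ W) (hE : ∑ p ∈ F, N p ≤ E) :
    ∑ p ∈ F, (x p ^ 2)⁻¹ * Real.sqrt (N p) ≤ Real.sqrt W * Real.sqrt E := by
  have h := Real.sum_mul_le_sqrt_mul_sqrt F (fun p => (x p ^ 2)⁻¹) (fun p => Real.sqrt (N p))
  refine h.trans (mul_le_mul (Real.sqrt_le_sqrt ?_) (Real.sqrt_le_sqrt ?_) (Real.sqrt_nonneg _)
    (Real.sqrt_nonneg _))
  · refine le_trans (le_of_eq ?_) hx
    refine Finset.sum_congr rfl fun p _ => ?_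
    rw [inv_pow, ← pow_mul]
  · refine le_trans (le_of_eq ?_) hE
    refine Finset.sum_congr rfl fun p _ => ?_
    exact Real.sq_sqrt (hN p)

theorem claimSum : ClaimSum := by
  set W := ∑' p : Fin 3 → ℤ, (‖vec p‖ ^ 4)⁻¹ with hW
  refine ⟨2 * Real.sqrt W + 1, by positivity, ?_⟩
  intro N E k F hN hE hk
  have hs : HasSum (fun p => N (k - p)) E := (Equiv.subLeft k).hasSum_iff.2 hE
  have hE1 : ∑ p ∈ F, N p ≤ E := sum_le_hasSum F (fun p _ => hN p) hE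
  have hE2 : ∑ p ∈ F, N (k - p) ≤ E := sum_le_hasSum F (fun p _ => hN _) hs
  have hE0 : 0 ≤ E := hE.nonneg hN
  have hk1 := sum_one_le hk
  have hk0 : 0 < ‖vec k‖ := by linarith
  have hw : HasSum (fun p : Fin 3 → ℤ => (‖vec p‖ ^ 4)⁻¹) W := sum_lattice.hasSum
  have hw' : HasSum (fun p : Fin 3 → ℤ => (‖vec (k - p)‖ ^ 4)⁻¹) W :=
    (Equiv.subLeft k).hasSum_iff.2 hw
  have hW1 : ∑ p ∈ F, (‖vec p‖ ^ 4)⁻¹ ≤ W := sum_le_hasSum F (fun p _ => by positivity) hw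
  have hW2 : ∑ p ∈ F, (‖vec (k - p)‖ ^ 4)⁻¹ ≤ W := sum_le_hasSum F (fun p _ => by positivity) hw'
  constructor
  · have h1 : ∀ p ∈ F, ((‖vec p‖ + ‖vec (k - p)‖) ^ 4)⁻¹ *
        (Real.sqrt (N p) * Real.sqrt (N (k - p))) ≤ (‖vec k‖ ^ 4)⁻¹ *
          ((N p + N (k - p)) / 2) := by
      intro p _
      have ha : ((‖vec p‖ + ‖vec (k - p)‖) ^ 4)⁻¹ ≤ (‖vec k‖ ^ 4)⁻¹ :=
        inv_anti₀ (by positivity) (pow_le_pow_left₀ hk0.le (sum_tri k p) 4)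
      have hb : Real.sqrt (N p) * Real.sqrt (N (k - p)) ≤ (N p + N (k - p)) / 2 := by
        nlinarith [Real.sq_sqrt (hN p), Real.sq_sqrt (hN (k - p)),
          sq_nonneg (Real.sqrt (N p) - Real.sqrt (N (k - p)))]
      exact mul_le_mul ha hb (by positivity) (by positivity)
    refine (Finset.sum_le_sum h1).trans ?_
    rw [← Finset.mul_sum, ← Finset.sum_div, Finset.sum_add_distrib, mul_comm]
    refine mul_le_mul_of_nonneg_right ?_ (by positivity)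
    linarith
  · have h1 : ∀ p ∈ F, ((‖vec p‖ + ‖vec (k - p)‖) ^ 4)⁻¹ *
        (‖vec p‖ * Real.sqrt (N (k - p)) + ‖vec (k - p)‖ * Real.sqrt (N p)) ≤
        ‖vec k‖⁻¹ * ((‖vec p‖ ^ 2)⁻¹ * Real.sqrt (N (k - p)) +
          (‖vec (k - p)‖ ^ 2)⁻¹ * Real.sqrt (N p)) := by
      intro p _
      have ha := sum_weight (norm_nonneg (vec p)) (norm_nonneg (vec (k - p))) hk0 (sum_tri k p)
      have hb := sum_weight (norm_nonneg (vec (k - p))) (norm_nonneg (vec p)) hk0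
        (by rw [add_comm]; exact sum_tri k p)
      rw [add_comm ‖vec (k - p)‖ ‖vec p‖] at hb
      have ha' := mul_le_mul_of_nonneg_right ha (Real.sqrt_nonneg (N (k - p)))
      have hb' := mul_le_mul_of_nonneg_right hb (Real.sqrt_nonneg (N p))
      calc _ = ((‖vec p‖ + ‖vec (k - p)‖) ^ 4)⁻¹ * ‖vec p‖ * Real.sqrt (N (k - p)) +
            ((‖vec p‖ + ‖vec (k - p)‖) ^ 4)⁻¹ * ‖vec (k - p)‖ * Real.sqrt (N p) := by ring
        _ ≤ _ := add_le_add ha' hb'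
        _ = _ := by ring
    refine (Finset.sum_le_sum h1).trans ?_
    rw [← Finset.mul_sum, Finset.sum_add_distrib, mul_comm]
    refine mul_le_mul_of_nonneg_right ?_ (by positivity)
    have c1 := sum_cauchy F (fun p => ‖vec p‖) (fun p => N (k - p)) W E (fun p => hN _) hW1 hE2
    have c2 := sum_cauchy F (fun p => ‖vec (k - p)‖) N W E hN hW2 hE1
    have := Real.sqrt_nonneg E
    calc _ ≤ Real.sqrt W * Real.sqrt E + Real.sqrt W * Real.sqrt E := add_le_add c1 c2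
      _ ≤ (2 * Real.sqrt W + 1) * Real.sqrt E := by nlinarith

end Pool.Agent.Work.MP_b0497c_an.Disp
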