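import Mathlib
import Pool.Agent.Work.MP_b0497c_an.Disp.Stmts

set_option autoImplicit false

/-!
S1: the symbol is a symbol.
-/

namespace Pool.Agent.Work.MP_b0497c_an.Disp

open Set MeasureTheory RealInnerProductSpace Pool.Agent.Work.MP_b0497c_an
open Pool.Agent.Work.MP_b0497c_an.Dec (cube phase vec)

namespace Symbol

theorem inner3 (a b : E3) : ⟪a, b⟫ = a 0 * b 0 + a 1 * b 1 + a 2 * b 2 := by
  rw [PiLp.inner_apply, Fin.sum_univ_three]
  simp only [RCLike.inner_apply, conj_trivial]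
  ring

theorem rx0 (x : E3) : rx x 0 = x 1 := rfl
theorem rx1 (x : E3) : rx x 1 = -x 0 := rfl
theorem rx2 (x : E3) : rx x 2 = -x 2 := rfl

theorem rx_inner (a b : E3) : ⟪rx a, rx b⟫ = ⟪a, b⟫ := by
  rw [inner3, inner3, rx0, rx0, rx1, rx1, rx2, rx2]
  ring

theorem ext3 {a b : E3} (h0 : a 0 = b 0) (h1 : a 1 = b 1) (h2 : a 2 = b 2) : a = b := by
  ext i
  fin_cases i
  · exact h0
  · exact h1
  · exact h2

theorem rx_add (a b : E3) : rx (a + b) = rx a + rx b := by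
  apply ext3
  · rfl
  · show -(a 0 + b 0) = -a 0 + -b 0
    ring
  · show -(a 2 + b 2) = -a 2 + -b 2
    ring

theorem rx_smul (r : ℝ) (a : E3) : rx (r • a) = r • rx a := by
  apply ext3
  · rfl
  · show -(r * a 0) = r * -a 0
    ring
  · show -(r * a 2) = r * -a 2
    ring

theorem rx_ez : rx ez = -ez := by
  apply ext3
  · show (0 : ℝ) = -0
    simp
  · show -(0 : ℝ) = -0
    rfl
  · rfl

theorem rk0 (k : Fin 3 → ℤ) : rk k 0 = k 1 := rfl
theorem rk1 (k : Fin 3 → ℤ) : rk k 1 = -k 0 := rfl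
theorem rk2 (k : Fin 3 → ℤ) : rk k 2 = -k 2 := rfl

theorem sg_neg (k : Fin 3 → ℤ) : sg (-k) = sg k := by
  unfold sg
  simp only [Pi.neg_apply, neg_mul_neg, neg_eq_zero]

theorem sg_rk (k : Fin 3 → ℤ) (h : ¬ (k 0 = 0 ∧ k 1 = 0)) : sg (rk k) = -sg k := by
  unfold sg
  rw [rk0, rk1]
  rcases lt_trichotomy (k 0 * k 1) 0 with h1 | h1 | h1
  · have h2 : k 1 ≠ 0 := fun e => by rw [e, mul_zero] at h1; exact lt_irrefl _ h1
    rw [if_pos (Or.inl (by nlinarith)), if_neg (by push Not; exact ⟨h1.le, h2⟩), neg_neg]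
  · rcases mul_eq_zero.1 h1 with h2 | h2
    · have h3 : k 1 ≠ 0 := fun e => h ⟨h2, e⟩
      rw [if_pos (Or.inr (by rw [h2, neg_zero])), if_neg (by push Not; exact ⟨h1.le, h3⟩), neg_neg]
    · have h3 : k 0 ≠ 0 := fun e => h ⟨e, h2⟩
      rw [if_neg (by push Not; exact ⟨by rw [h2, zero_mul], by simpa using h3⟩),
        if_pos (Or.inr h2)]
  · have h2 : k 0 ≠ 0 := fun e => by rw [e, zero_mul] at h1; exact lt_irrefl _ h1
    rw [if_neg (by push Not; exact ⟨by nlinarith, by simpa using h2⟩), if_pos (Or.inl h1)]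

theorem tor0 (k : Fin 3 → ℤ) :
    tor k 0 = (Real.sqrt ((k 0 : ℝ) ^ 2 + (k 1 : ℝ) ^ 2))⁻¹ * -(k 1 : ℝ) := rfl
theorem tor1 (k : Fin 3 → ℤ) :
    tor k 1 = (Real.sqrt ((k 0 : ℝ) ^ 2 + (k 1 : ℝ) ^ 2))⁻¹ * (k 0 : ℝ) := rfl
theorem tor2 (k : Fin 3 → ℤ) :
    tor k 2 = 0 := mul_zero _

theorem tor_neg (k : Fin 3 → ℤ) : tor (-k) = -tor k := by
  apply ext3
  · rw [PiLp.neg_apply, tor0, tor0]
    simp only [Pi.neg_apply, Int.cast_neg, neg_sq]
    ring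
  · rw [PiLp.neg_apply, tor1, tor1]
    simp only [Pi.neg_apply, Int.cast_neg, neg_sq]
    ring
  · rw [PiLp.neg_apply, tor2, tor2, neg_zero]

theorem tor_rk (k : Fin 3 → ℤ) : tor (rk k) = rx (tor k) := by
  have e : ((rk k 0 : ℤ) : ℝ) ^ 2 + ((rk k 1 : ℤ) : ℝ) ^ 2 = (k 0 : ℝ) ^ 2 + (k 1 : ℝ) ^ 2 := by
    rw [rk0, rk1]
    push_cast
    ring
  apply ext3
  · rw [tor0, rx0, tor1, e, rk1]
    push_cast
    ring
  · rw [tor1, rx1, tor0, e, rk0]
    ring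
  · rw [tor2, rx2, tor2, neg_zero]

theorem X_neg (k : Fin 3 → ℤ) : -k ∈ X ↔ k ∈ X := by
  simp only [X, Set.mem_ofPred_eq, Pi.neg_apply, neg_sq, abs_neg]

theorem X_rk (k : Fin 3 → ℤ) : rk k ∈ X ↔ k ∈ X := by
  simp only [X, Set.mem_ofPred_eq, rk0, rk1, rk2, neg_sq, abs_neg, add_comm]

theorem vec0 (k : Fin 3 → ℤ) : vec k 0 = k 0 := rfl
theorem vec1 (k : Fin 3 → ℤ) : vec k 1 = k 1 := rfl
theorem vec2 (k : Fin 3 → ℤ) : vec k 2 = k 2 := rfl

theorem vec_tor (k : Fin 3 → ℤ) : ⟪vec k, tor k⟫ = 0 := by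
  rw [inner3, tor0, tor1, tor2, vec0, vec1]
  ring

theorem vec_ez (k : Fin 3 → ℤ) : ⟪vec k, ez⟫ = k 2 := by
  rw [inner3, vec2]
  show _ * (0 : ℝ) + _ * 0 + _ * 1 = _
  ring

theorem ez_norm : ‖ez‖ = 1 := by
  have h : ‖ez‖ ^ 2 = 1 := by
    rw [← real_inner_self_eq_norm_sq, inner3]
    show (0 : ℝ) * 0 + 0 * 0 + 1 * 1 = 1
    norm_num
  nlinarith [norm_nonneg ez]

theorem tor_norm_le (k : Fin 3 → ℤ) : ‖tor k‖ ≤ 1 := by
  have h : ‖tor k‖ ^ 2 ≤ 1 := by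
    rw [← real_inner_self_eq_norm_sq, inner3, tor0, tor1, tor2]
    set s := Real.sqrt ((k 0 : ℝ) ^ 2 + (k 1 : ℝ) ^ 2) with hs
    have h1 : s ^ 2 = (k 0 : ℝ) ^ 2 + (k 1 : ℝ) ^ 2 := Real.sq_sqrt (by positivity)
    have h2 : s⁻¹ * -(k 1 : ℝ) * (s⁻¹ * -(k 1 : ℝ)) + s⁻¹ * (k 0 : ℝ) * (s⁻¹ * (k 0 : ℝ)) + 0 * 0
        = (s⁻¹) ^ 2 * s ^ 2 := by rw [h1]; ring
    rw [h2, ← mul_pow]
    by_cases h3 : s = 0
    · rw [h3]; norm_num
    · rw [inv_mul_cancel₀ h3]; norm_num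
  nlinarith [norm_nonneg (tor k)]

theorem sg_abs (k : Fin 3 → ℤ) : |sg k| = 1 := by
  unfold sg
  split_ifs <;> simp

theorem sign_abs (z : ℤ) : |((z.sign : ℤ) : ℝ)| ≤ 1 := by
  rcases lt_trichotomy z 0 with h | h | h
  · rw [Int.sign_eq_neg_one_of_neg h]; simp
  · subst h; simp
  · rw [Int.sign_eq_one_of_pos h]; simp

end Symbol

open Pool.Agent.Work.MP_b0497c_an.Disp.Symbol

theorem Symbol.symm (ω : (Fin 3 → ℤ) → ℝ) (k : Fin 3 → ℤ) (b c : E3) :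
    ⟪sym ω k b, c⟫ = ⟪b, sym ω k c⟫ := by
  unfold sym
  split_ifs with h1 h2 h3
  · simp
  · simp only [inner_smul_left, inner_smul_right, inner_add_left, inner_add_right, conj_trivial]
    rw [real_inner_comm b (tor k), real_inner_comm b ez]
    ring
  · simp only [inner_smul_left, inner_smul_right, conj_trivial]
    rw [real_inner_comm b (tor k)]
    ring
  · simp only [inner_smul_left, inner_smul_right, conj_trivial]

theorem Symbol.perp (ω : (Fin 3 → ℤ) → ℝ) (k : Fin 3 → ℤ) (c : E3) (h : ⟪vec k, c⟫ = 0) :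
    ⟪vec k, sym ω k c⟫ = 0 := by
  unfold sym
  split_ifs with h1 h2 h3
  · simp
  · simp only [inner_smul_right, inner_add_right, vec_tor, vec_ez, h2]
    simp
  · simp only [inner_smul_right, vec_tor]
    simp
  · simp only [inner_smul_right, h, mul_zero]

theorem Symbol.odd (ω : (Fin 3 → ℤ) → ℝ) (hω : IsFreq ω) (k : Fin 3 → ℤ) (c : E3) :
    sym ω (-k) c = -sym ω k c := by
  unfold sym
  simp only [Pi.neg_apply, neg_eq_zero, sg_neg, hω.neg, tor_neg, Int.sign_neg]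
  by_cases h1 : k 0 = 0 ∧ k 1 = 0
  · rw [if_pos h1, if_pos h1, neg_zero]
  · rw [if_neg h1, if_neg h1]
    by_cases h2 : k 2 = 0
    · rw [if_pos h2, if_pos h2]
      simp only [inner_neg_left, neg_smul, smul_neg, smul_add, neg_add_rev]
      abel
    · rw [if_neg h2, if_neg h2]
      by_cases h3 : k ∈ X
      · rw [if_pos ((X_neg k).2 h3), if_pos h3]
        push_cast
        simp only [inner_neg_left, neg_smul, smul_neg, neg_mul, neg_neg]
      · rw [if_neg (fun h => h3 ((X_neg k).1 h)), if_neg h3]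
        push_cast
        simp only [neg_mul, neg_smul]

theorem Symbol.rot (ω : (Fin 3 → ℤ) → ℝ) (hω : IsFreq ω) (k : Fin 3 → ℤ) (c : E3) :
    sym ω (rk k) (rx c) = rx (sym ω k c) := by
  have hez : ⟪ez, rx c⟫ = -⟪ez, c⟫ := by
    rw [← rx_inner ez c, rx_ez, inner_neg_left, neg_neg]
  unfold sym
  simp only [rk0, rk1, rk2, neg_eq_zero, hω.rot, tor_rk, Int.sign_neg, rx_inner, hez]
  by_cases h1 : k 0 = 0 ∧ k 1 = 0
  · rw [if_pos ⟨h1.2, h1.1⟩, if_pos h1]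
    apply ext3 <;> simp [rx]
  · rw [if_neg (fun h => h1 ⟨h.2, h.1⟩), if_neg h1, sg_rk k h1]
    by_cases h2 : k 2 = 0
    · rw [if_pos h2, if_pos h2, rx_smul, rx_add, rx_smul, rx_smul, rx_ez]
      simp only [neg_smul, smul_neg, smul_add, neg_mul, neg_neg]
    · rw [if_neg h2, if_neg h2]
      by_cases h3 : k ∈ X
      · rw [if_pos ((X_rk k).2 h3), if_pos h3]
        push_cast
        rw [rx_smul, rx_smul, neg_mul_neg]
      · rw [if_neg (fun h => h3 ((X_rk k).1 h)), if_neg h3]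
        push_cast
        rw [rx_smul, neg_mul_neg]

theorem Symbol.bound (ω : (Fin 3 → ℤ) → ℝ) (hω : IsFreq ω) (k : Fin 3 → ℤ) (c : E3) :
    ‖sym ω k c‖ ≤ 2 * ω k * ‖c‖ := by
  have h0 : 0 ≤ ω k := le_trans (by positivity) (hω.lower k)
  have ht : ‖⟪tor k, c⟫ • tor k‖ ≤ ‖c‖ := by
    rw [norm_smul]
    have h1 := norm_inner_le_norm (𝕜 := ℝ) (tor k) c
    have h2 := tor_norm_le k
    calc ‖⟪tor k, c⟫‖ * ‖tor k‖ ≤ (1 * ‖c‖) * 1 := by
          apply mul_le_mul _ h2 (norm_nonneg _) (by positivity)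
          exact h1.trans (mul_le_mul_of_nonneg_right h2 (norm_nonneg _))
      _ = ‖c‖ := by ring
  have hs : ‖(k 2).sign * sg k * ω k‖ ≤ ω k := by
    rw [norm_mul, norm_mul, Real.norm_eq_abs, Real.norm_eq_abs, Real.norm_eq_abs, sg_abs, mul_one,
      abs_of_nonneg h0]
    calc |(((k 2).sign : ℤ) : ℝ)| * ω k ≤ 1 * ω k :=
          mul_le_mul_of_nonneg_right (sign_abs _) h0
      _ = ω k := one_mul _
  have hc := norm_nonneg c
  unfold sym
  split_ifs with h1 h2 h3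
  · rw [norm_zero]; positivity
  · rw [norm_smul]
    have h4 : ‖sg k * ω k‖ = ω k := by
      rw [norm_mul, Real.norm_eq_abs, sg_abs, one_mul, Real.norm_eq_abs, abs_of_nonneg h0]
    have h5 : ‖⟪tor k, c⟫ • ez + ⟪ez, c⟫ • tor k‖ ≤ 2 * ‖c‖ := by
      refine (norm_add_le _ _).trans ?_
      rw [norm_smul, norm_smul, ez_norm, mul_one]
      have h6 := norm_inner_le_norm (𝕜 := ℝ) (tor k) c
      have h7 := norm_inner_le_norm (𝕜 := ℝ) ez c
      rw [ez_norm, one_mul] at h7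
      have h8 := tor_norm_le k
      have h9 : ‖⟪tor k, c⟫‖ ≤ 1 * ‖c‖ := h6.trans (mul_le_mul_of_nonneg_right h8 hc)
      have h10 : ‖⟪ez, c⟫‖ * ‖tor k‖ ≤ ‖c‖ * 1 := mul_le_mul h7 h8 (norm_nonneg _) hc
      linarith
    rw [h4]
    calc ω k * _ ≤ ω k * (2 * ‖c‖) := mul_le_mul_of_nonneg_left h5 h0
      _ = 2 * ω k * ‖c‖ := by ring
  · rw [norm_smul]
    calc _ ≤ ω k * ‖c‖ := mul_le_mul hs ht (norm_nonneg _) h0
      _ ≤ 2 * ω k * ‖c‖ := by nlinarith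
  · rw [norm_smul]
    calc _ ≤ ω k * ‖c‖ := mul_le_mul_of_nonneg_right hs hc
      _ ≤ 2 * ω k * ‖c‖ := by nlinarith

theorem claimSymbol : ClaimSymbol := by
  intro ω Ω hω
  refine ⟨?_, ?_, ?_, ?_, ?_⟩
  · intro k b c
    simp only [inner_smul_left, inner_smul_right, conj_trivial]
    rw [Symbol.symm ω k b c]
  · intro k c h
    simp only [inner_smul_right, Symbol.perp ω k c h, mul_zero]
  · intro k c
    simp only [Symbol.odd ω hω, smul_neg]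
  · intro k c
    simp only [Symbol.rot ω hω, rx_smul]
  · obtain ⟨C, s, hC⟩ := hω.growth
    refine ⟨⌈2 * |Ω|⌉₊ * C, s, fun k c => ?_⟩
    have h0 : 0 ≤ ω k := le_trans (by positivity) (hω.lower k)
    rw [norm_smul, Real.norm_eq_abs]
    have h1 : 2 * |Ω| ≤ (⌈2 * |Ω|⌉₊ : ℝ) := Nat.le_ceil _
    calc |Ω| * ‖sym ω k c‖ ≤ |Ω| * (2 * ω k * ‖c‖) :=
          mul_le_mul_of_nonneg_left (Symbol.bound ω hω k c) (abs_nonneg _)
      _ = (2 * |Ω|) * ω k * ‖c‖ := by ring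
      _ ≤ (⌈2 * |Ω|⌉₊ : ℝ) * (C * (1 + ‖vec k‖) ^ s) * ‖c‖ := by
          apply mul_le_mul_of_nonneg_right _ (norm_nonneg _)
          exact mul_le_mul h1 (hC k) h0 (by positivity)
      _ = ((⌈2 * |Ω|⌉₊ * C : ℕ) : ℝ) * (1 + ‖vec k‖) ^ s * ‖c‖ := by
          push_cast
          ring

end Pool.Agent.Work.MP_b0497c_an.Disp
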