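import Mathlib
import Pool.Agent.Work.MP_b0497c_an.Disp.Stmts

set_option autoImplicit false

/-!
R2: there are no modes on the vertical axis.
-/

namespace Pool.Agent.Work.MP_b0497c_an.Disp

open Set MeasureTheory RealInnerProductSpace Pool.Agent.Work.MP_b0497c_an
open Pool.Agent.Work.MP_b0497c_an.Dec (cube phase vec)

/-- A complex number equal to its negative vanishes. -/
theorem axis_zero (z : ℂ) (h : ((-1 : ℝ) : ℂ) * z + ((0 : ℝ) : ℂ) * z = z) : z = 0 := by
  push_cast at h
  have h2 : (2 : ℂ) * z = 0 := by linear_combination -h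
  rcases mul_eq_zero.1 h2 with h3 | h3
  · exact absurd h3 two_ne_zero
  · exact h3

theorem claimAxis : ClaimAxis := by
  intro h hlin hdiv _ hrot k hk0 hk1 c
  have hrk : rk (rk k) = k := by
    funext i
    fin_cases i <;> simp [rk, hk0, hk1]
  have hrot2 : ∀ d, h k (rx (rx d)) = h k d := by
    intro d
    have h1 := hrot (rk k) (rx d)
    rw [hrk, hrot k d] at h1
    exact h1
  have he0 : h k (e 0) = 0 := by
    have h1 := hrot2 (e 0)
    have h2 : rx (rx (e 0)) = (-1 : ℝ) • (e 0 : E3) + (0 : ℝ) • (e 0 : E3) := by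
      ext i
      fin_cases i <;> simp [rx, e]
    rw [h2, hlin] at h1
    exact axis_zero _ h1
  have he1 : h k (e 1) = 0 := by
    have h1 := hrot2 (e 1)
    have h2 : rx (rx (e 1)) = (-1 : ℝ) • (e 1 : E3) + (0 : ℝ) • (e 1 : E3) := by
      ext i
      fin_cases i <;> simp [rx, e]
    rw [h2, hlin] at h1
    exact axis_zero _ h1
  have he2 : h k (e 2) = 0 := by
    by_cases hk2 : k 2 = 0
    · have hk : rk k = k := by
        funext i
        fin_cases i <;> simp [rk, hk0, hk1, hk2]
      have h1 := hrot k (e 2)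
      have h2 : rx (e 2) = (-1 : ℝ) • (e 2 : E3) + (0 : ℝ) • (e 2 : E3) := by
        ext i
        fin_cases i <;> simp [rx, e]
      rw [hk, h2, hlin] at h1
      exact axis_zero _ h1
    · have h1 := hdiv k
      have h2 : vec k = (k 2 : ℝ) • (e 2 : E3) + (0 : ℝ) • (e 2 : E3) := by
        ext i
        fin_cases i <;> simp [vec, e, hk0, hk1]
      rw [h2, hlin] at h1
      push_cast at h1
      rw [zero_mul, add_zero] at h1
      rcases mul_eq_zero.1 h1 with h3 | h3
      · exact absurd (by exact_mod_cast h3) hk2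
      · exact h3
  have hc : c = (1 : ℝ) • ((c 0) • (e 0 : E3) + (c 1) • (e 1 : E3)) + (c 2) • (e 2 : E3) := by
    ext i
    fin_cases i <;> simp [e]
  rw [hc, hlin, hlin, he0, he1, he2]
  ring

end Pool.Agent.Work.MP_b0497c_an.Disp
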