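import Mathlib
import Pool.Agent.Work.MP_b0497c_an.Disp.Stmts
import Pool.Agent.Work.MP_b0497c_an.Damp.Basic
import Pool.Agent.Work.MP_b0497c_an.Damp.Parseval

set_option autoImplicit false

/-!
Basic properties of the complex Fourier coefficients of a divergence free field.
-/

namespace Pool.Agent.Work.MP_b0497c_an.Disp

open Set MeasureTheory RealInnerProductSpace Pool.Agent.Work.MP_b0497c_an
open Pool.Agent.Work.MP_b0497c_an.Dec (cube phase vec)
open Pool.Agent.Work.MP_b0497c_an.Damp (cc sc acc)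

theorem Basic_norm_sq (a : ℝ) (x y : E3) (i : Fin 3) :
    ‖((a * ⟪x, e i⟫ : ℝ) : ℂ) - Complex.I * ((a * ⟪y, e i⟫ : ℝ) : ℂ)‖ ^ 2 =
      a ^ 2 * (x i ^ 2 + y i ^ 2) := by
  have h1 : ∀ z : E3, ⟪z, e i⟫ = z i := by
    intro z
    rw [real_inner_comm]
    unfold e
    rw [EuclideanSpace.inner_single_left]
    simp
  rw [h1, h1, ← Complex.normSq_eq_norm_sq, Complex.normSq_apply]
  simp
  ring

theorem Basic_nsq (f : E3 → E3) (k : Fin 3 → ℤ) :
    nsq (hat f k) = (((2 * Real.pi) ^ 3)⁻¹) ^ 2 * (‖cc f k‖ ^ 2 + ‖sc f k‖ ^ 2) := by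
  unfold nsq hat
  rw [Basic_norm_sq, Basic_norm_sq, Basic_norm_sq, EuclideanSpace.norm_sq_eq,
    EuclideanSpace.norm_sq_eq, Fin.sum_univ_three, Fin.sum_univ_three]
  simp only [Real.norm_eq_abs, sq_abs]
  ring

/-- Integration by parts, vector valued. -/
theorem Basic_parts' {f : E3 → E3} (h1 : ContDiff ℝ 1 f) (h2 : Periodic3 f) (k : Fin 3 → ℤ)
    (j : Fin 3) : (k j : ℝ) • cc f k =
      -∫ x in cube, Real.sin (phase k x) • fderiv ℝ f x (e j) := by
  have hcd : Continuous fun x => fderiv ℝ f x (e j) :=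
    (h1.continuous_fderiv (by norm_num)).clm_apply continuous_const
  refine ext_inner_left ℝ fun c => ?_
  rw [inner_smul_right, inner_neg_right]
  unfold cc
  have i1 : IntegrableOn (fun x => Real.cos (phase k x) • f x) cube :=
    Damp.Basic_int ((Real.continuous_cos.comp (Dec.continuous_phase k)).smul h1.continuous)
  have i2 : IntegrableOn (fun x => Real.sin (phase k x) • fderiv ℝ f x (e j)) cube :=
    Damp.Basic_int ((Real.continuous_sin.comp (Dec.continuous_phase k)).smul hcd)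
  rw [← integral_inner i1, ← integral_inner i2]
  have hg : ContDiff ℝ 1 fun x => ⟪c, f x⟫ := contDiff_const.inner ℝ h1
  have hp : Periodic3 fun x => ⟪c, f x⟫ := by
    intro i x
    have := h2 i x
    simp only [this]
  have h3 := Tri.Bes.int_sin_deriv hg hp k j
  have h4 : ∀ x, fderiv ℝ (fun x => ⟪c, f x⟫) x (e j) = ⟪c, fderiv ℝ f x (e j)⟫ := by
    intro x
    have h5 : HasFDerivAt (fun x => ⟪c, f x⟫) ((innerSL ℝ c).comp (fderiv ℝ f x)) x :=
      (innerSL ℝ c).hasFDerivAt.comp x (h1.differentiable (by norm_num) x).hasFDerivAt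
    rw [h5.fderiv]
    rfl
  simp only [h4] at h3
  simp only [inner_smul_right]
  rw [h3, neg_neg]

theorem Basic_grad' {f : E3 → E3} (h1 : ContDiff ℝ 1 f) (h2 : Periodic3 f) (k : Fin 3 → ℤ)
    (K : ℝ) (hK : ∀ x, ‖fderiv ℝ f x‖ ≤ K) :
    ‖vec k‖ * (((2 * Real.pi) ^ 3)⁻¹ * ‖cc f k‖) ≤ 3 * K := by
  have hpos : 0 < (2 * Real.pi) ^ 3 := by positivity
  have hj : ∀ j : Fin 3, |(k j : ℝ)| * (((2 * Real.pi) ^ 3)⁻¹ * ‖cc f k‖) ≤ K := by
    intro j
    have a1 : ‖(k j : ℝ) • cc f k‖ ≤ K * (2 * Real.pi) ^ 3 := by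
      rw [Basic_parts' h1 h2 k j, norm_neg, ← Dec.volume_cube]
      refine norm_setIntegral_le_of_norm_le_const Dec.cube_compact.measure_lt_top fun x _ => ?_
      have a2 : ‖fderiv ℝ f x (e j)‖ ≤ K := by
        have a3 := (fderiv ℝ f x).le_opNorm (e j)
        have a4 : ‖(e j : E3)‖ = 1 := by
          simp [e]
        rw [a4, mul_one] at a3
        exact a3.trans (hK x)
      rw [norm_smul, Real.norm_eq_abs]
      calc |Real.sin (phase k x)| * ‖fderiv ℝ f x (e j)‖ ≤ 1 * K :=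
            mul_le_mul (Real.abs_sin_le_one _) a2 (norm_nonneg _) zero_le_one
        _ = K := one_mul K
    rw [norm_smul, Real.norm_eq_abs] at a1
    rw [show |(k j : ℝ)| * (((2 * Real.pi) ^ 3)⁻¹ * ‖cc f k‖) =
      (|(k j : ℝ)| * ‖cc f k‖) / (2 * Real.pi) ^ 3 by field_simp]
    rw [div_le_iff₀ hpos]
    exact a1
  have hv : ‖vec k‖ ≤ |(k 0 : ℝ)| + |(k 1 : ℝ)| + |(k 2 : ℝ)| := by
    have h3 : ‖vec k‖ ^ 2 = (k 0 : ℝ) ^ 2 + (k 1 : ℝ) ^ 2 + (k 2 : ℝ) ^ 2 := by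
      rw [EuclideanSpace.norm_sq_eq, Fin.sum_univ_three]
      simp [vec]
    refine abs_le_of_sq_le_sq' ?_ (by positivity) |>.2
    rw [h3]
    have b0 := abs_nonneg (k 0 : ℝ)
    have b1 := abs_nonneg (k 1 : ℝ)
    have b2 := abs_nonneg (k 2 : ℝ)
    rw [← sq_abs (k 0 : ℝ), ← sq_abs (k 1 : ℝ), ← sq_abs (k 2 : ℝ)]
    nlinarith [mul_nonneg b0 b1, mul_nonneg b0 b2, mul_nonneg b1 b2]
  have hn : 0 ≤ ((2 * Real.pi) ^ 3)⁻¹ * ‖cc f k‖ := by positivity
  calc ‖vec k‖ * (((2 * Real.pi) ^ 3)⁻¹ * ‖cc f k‖)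
      ≤ (|(k 0 : ℝ)| + |(k 1 : ℝ)| + |(k 2 : ℝ)|) * (((2 * Real.pi) ^ 3)⁻¹ * ‖cc f k‖) :=
        mul_le_mul_of_nonneg_right hv hn
    _ = |(k 0 : ℝ)| * (((2 * Real.pi) ^ 3)⁻¹ * ‖cc f k‖) +
        |(k 1 : ℝ)| * (((2 * Real.pi) ^ 3)⁻¹ * ‖cc f k‖) +
        |(k 2 : ℝ)| * (((2 * Real.pi) ^ 3)⁻¹ * ‖cc f k‖) := by ring
    _ ≤ 3 * K := by
        have := hj 0
        have := hj 1
        have := hj 2
        linarith

theorem claimBasic : ClaimBasic := by
  intro f h1 h2 h3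
  have hpos : 0 < (2 * Real.pi) ^ 3 := by positivity
  refine ⟨?_, ?_, ?_, ?_, ?_⟩
  · intro k
    have hc : ⟪cc f k, vec k⟫ = 0 := by
      rw [real_inner_comm]; exact Damp.Basic_cos_orth h1 h2 h3 k
    have hs : ⟪sc f k, vec k⟫ = 0 := by
      rw [real_inner_comm]; exact Dec.sin_coeff_orth h1 h2 h3 k
    unfold hat
    rw [hc, hs]
    simp
  · intro k c
    have hc : cc f (-k) = cc f k := by
      unfold cc
      simp only [Dec.phase_neg_left, Real.cos_neg]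
    have hs : sc f (-k) = -sc f k := by
      unfold sc
      simp only [Dec.phase_neg_left, Real.sin_neg, neg_smul]
      rw [integral_neg]
    unfold hat
    rw [hc, hs, inner_neg_left, map_sub, map_mul, Complex.conj_I, Complex.conj_ofReal,
      Complex.conj_ofReal]
    push_cast
    ring
  · intro k a b c d
    unfold hat
    rw [inner_add_right, inner_add_right, inner_smul_right, inner_smul_right, inner_smul_right,
      inner_smul_right]
    push_cast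
    ring
  · have hP := Damp.claimParseval f f h1.continuous h1.continuous h2 h2
    have h4 := hP.mul_left ((((2 * Real.pi) ^ 3)⁻¹) ^ 2)
    have h5 : (fun k => nsq (hat f k)) = fun k => (((2 * Real.pi) ^ 3)⁻¹) ^ 2 *
        (⟪cc f k, cc f k⟫ + ⟪sc f k, sc f k⟫) := by
      funext k
      rw [Basic_nsq, real_inner_self_eq_norm_sq, real_inner_self_eq_norm_sq]
    rw [h5]
    have h6 : ((2 * Real.pi) ^ 3)⁻¹ * ∫ x in cube, ‖f x‖ ^ 2 =
        (((2 * Real.pi) ^ 3)⁻¹) ^ 2 * ((2 * Real.pi) ^ 3 * ∫ x in cube, ⟪f x, f x⟫) := by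
      simp only [real_inner_self_eq_norm_sq]
      field_simp
    rw [h6]
    exact h4
  · intro K hK k
    rw [Basic_nsq]
    have a1 := Basic_grad' h1 h2 k K hK
    have a2 := Damp.Basic_grad h1 h2 k K hK
    unfold Damp.sa at a2
    rw [norm_smul, norm_inv, Real.norm_eq_abs, abs_of_pos hpos] at a2
    have b1 : 0 ≤ ‖vec k‖ * (((2 * Real.pi) ^ 3)⁻¹ * ‖cc f k‖) := by positivity
    have b2 : 0 ≤ ‖vec k‖ * (((2 * Real.pi) ^ 3)⁻¹ * ‖sc f k‖) := by positivity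
    have c1 := mul_self_le_mul_self b1 a1
    have c2 := mul_self_le_mul_self b2 a2
    have hK2 : 0 ≤ K ^ 2 := sq_nonneg K
    calc ‖vec k‖ ^ 2 * ((((2 * Real.pi) ^ 3)⁻¹) ^ 2 * (‖cc f k‖ ^ 2 + ‖sc f k‖ ^ 2))
        = (‖vec k‖ * (((2 * Real.pi) ^ 3)⁻¹ * ‖cc f k‖)) *
            (‖vec k‖ * (((2 * Real.pi) ^ 3)⁻¹ * ‖cc f k‖)) +
          (‖vec k‖ * (((2 * Real.pi) ^ 3)⁻¹ * ‖sc f k‖)) *
            (‖vec k‖ * (((2 * Real.pi) ^ 3)⁻¹ * ‖sc f k‖)) := by ring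
      _ ≤ 3 * K * (3 * K) + 3 * K * (3 * K) := add_le_add c1 c2
      _ ≤ 100 * K ^ 2 := by nlinarith

end Pool.Agent.Work.MP_b0497c_an.Disp
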