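import Mathlib
import Pool.Agent.Work.MP_b0497c_an.Damp.Stmts
import Pool.Agent.Work.MP_b0497c_an.Disp.Stmts

set_option autoImplicit false

/-!
Euler equations with a dispersive term: blow-up for the perturbed dyadic system (item B2).
-/

namespace Pool.Agent.Work.MP_b0497c_an.Disp

open Set MeasureTheory Pool.Agent.Work.MP_b0497c_an

/-- The truncated functional. -/
noncomputable def Blow_J (N L : ℕ) (x : ℕ → ℝ) : ℝ :=
  ∑ n ∈ Finset.Ioc N L, (7 / 10 : ℝ) ^ n * x n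

theorem Blow_m_nonneg {x m : ℕ → ℝ} (h : ∀ n, x n ^ 2 ≤ (2 ^ n + 1) * m n) (n : ℕ) :
    0 ≤ m n := by
  by_contra hneg
  push Not at hneg
  have h1 := h n
  have h2 : (0 : ℝ) < 2 ^ n + 1 := by positivity
  nlinarith [sq_nonneg (x n)]

theorem Blow_J_sq (N L : ℕ) (x m : ℕ → ℝ) (h : ∀ n, x n ^ 2 ≤ (2 ^ n + 1) * m n) :
    Blow_J N L x ^ 2 ≤
      5 * ∑ n ∈ Finset.Ioc N L, (7 / 10) ^ (n + 1) * 2 ^ (n + 1) * m n := by
  have hm := Blow_m_nonneg h
  have h1 : Blow_J N L x ^ 2 ≤ (∑ n ∈ Finset.Ioc N L, (10 / 7 : ℝ) * (7 / 10) ^ n) *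
      ∑ n ∈ Finset.Ioc N L, (7 / 10) ^ (n + 1) * 2 ^ (n + 1) * m n := by
    unfold Blow_J
    apply Finset.sum_sq_le_sum_mul_sum_of_sq_le_mul
    · intro n _
      positivity
    · intro n _
      exact mul_nonneg (by positivity) (hm n)
    · intro n _
      have h2 : x n ^ 2 ≤ 2 ^ (n + 1) * m n := by
        have h3 : (2 : ℝ) ^ n + 1 ≤ 2 ^ (n + 1) := by
          have h4 : (1 : ℝ) ≤ 2 ^ n := one_le_pow₀ (by norm_num)
          rw [pow_succ]; linarith
        exact (h n).trans (mul_le_mul_of_nonneg_right h3 (hm n))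
      have h4 : (0 : ℝ) < (7 / 10) ^ n := by positivity
      calc ((7 / 10 : ℝ) ^ n * x n) ^ 2 = (7 / 10) ^ n * (7 / 10) ^ n * x n ^ 2 := by ring
        _ ≤ (7 / 10) ^ n * (7 / 10) ^ n * (2 ^ (n + 1) * m n) :=
            mul_le_mul_of_nonneg_left h2 (by positivity)
        _ = 10 / 7 * (7 / 10) ^ n * ((7 / 10) ^ (n + 1) * 2 ^ (n + 1) * m n) := by
            rw [pow_succ (7 / 10 : ℝ) n]; ring
  have h2 : ∑ n ∈ Finset.Ioc N L, (10 / 7 : ℝ) * (7 / 10) ^ n ≤ 5 := by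
    have h3 : Summable fun n : ℕ => (10 / 7 : ℝ) * (7 / 10) ^ n :=
      (summable_geometric_of_lt_one (by norm_num) (by norm_num)).mul_left _
    refine (h3.sum_le_tsum (Finset.Ioc N L) (fun n _ => by positivity)).trans ?_
    rw [tsum_mul_left, tsum_geometric_of_lt_one (by norm_num) (by norm_num)]
    norm_num
  refine h1.trans (mul_le_mul_of_nonneg_right h2 ?_)
  exact Finset.sum_nonneg fun n _ => mul_nonneg (by positivity) (hm n)

theorem Blow_sqrt (n : ℕ) : (7 / 10 : ℝ) ^ n * Real.sqrt (2 ^ n + 1) ≤ 2 * (994 / 1000) ^ n := by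
  have h1 : Real.sqrt (2 ^ n + 1) ≤ 2 * (142 / 100) ^ n := by
    rw [Real.sqrt_le_left (by positivity)]
    have h2 : (2 : ℝ) ^ n ≤ ((142 / 100) ^ n) ^ 2 := by
      rw [← pow_mul, mul_comm n 2, pow_mul]
      exact pow_le_pow_left₀ (by norm_num) (by norm_num) n
    have h3 : (1 : ℝ) ≤ 2 ^ n := one_le_pow₀ (by norm_num)
    rw [mul_pow]
    nlinarith
  calc (7 / 10 : ℝ) ^ n * Real.sqrt (2 ^ n + 1) ≤ (7 / 10) ^ n * (2 * (142 / 100) ^ n) :=
        mul_le_mul_of_nonneg_left h1 (by positivity)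
    _ = 2 * ((7 / 10) ^ n * (142 / 100) ^ n) := by ring
    _ = 2 * (994 / 1000) ^ n := by rw [← mul_pow]; norm_num

theorem Blow_summable : Summable fun n : ℕ => (7 / 10 : ℝ) ^ n * Real.sqrt (2 ^ n + 1) := by
  refine Summable.of_nonneg_of_le (fun n => by positivity) Blow_sqrt ?_
  exact (summable_geometric_of_lt_one (by norm_num) (by norm_num)).mul_left _

/-- The boundary terms are small. -/
theorem Blow_bnd (D : ℝ) (L : ℕ) (m : ℕ → ℝ) (hD : 0 ≤ D) (h : ∀ n, 4 ^ n * m n ≤ D) :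
    2 * ((7 / 10) ^ (L + 1) * 2 ^ (L + 1) * m L) + (7 / 10) ^ (L + 2) * 2 ^ (L + 2) * m (L + 1) ≤
      4 * D * (7 / 20) ^ L := by
  have h1 : (7 / 10 : ℝ) ^ (L + 1) * 2 ^ (L + 1) * m L ≤ 7 / 5 * (D * (7 / 20) ^ L) := by
    have h2 : (7 / 20 : ℝ) ^ L * 4 ^ L = (7 / 10) ^ L * 2 ^ L := by
      rw [← mul_pow, ← mul_pow]; norm_num
    have h3 : (7 / 10 : ℝ) ^ (L + 1) * 2 ^ (L + 1) * m L = 7 / 5 * ((7 / 20) ^ L * (4 ^ L * m L)) := by
      rw [← mul_assoc ((7 / 20 : ℝ) ^ L), h2, pow_succ, pow_succ]; ring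
    rw [h3]
    have h4 : (7 / 20 : ℝ) ^ L * (4 ^ L * m L) ≤ (7 / 20) ^ L * D :=
      mul_le_mul_of_nonneg_left (h L) (by positivity)
    linarith
  have h2 : (7 / 10 : ℝ) ^ (L + 2) * 2 ^ (L + 2) * m (L + 1) ≤ 49 / 100 * (D * (7 / 20) ^ L) := by
    have h2 : (7 / 20 : ℝ) ^ L * 4 ^ L = (7 / 10) ^ L * 2 ^ L := by
      rw [← mul_pow, ← mul_pow]; norm_num
    have h3 : (7 / 10 : ℝ) ^ (L + 2) * 2 ^ (L + 2) * m (L + 1) =
        49 / 100 * ((7 / 20) ^ L * (4 ^ (L + 1) * m (L + 1))) := by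
      have h5 : (7 / 20 : ℝ) ^ L * (4 ^ (L + 1) * m (L + 1)) =
          4 * ((7 / 20 : ℝ) ^ L * 4 ^ L) * m (L + 1) := by rw [pow_succ]; ring
      rw [h5, h2]; ring
    rw [h3]
    have h4 : (7 / 20 : ℝ) ^ L * (4 ^ (L + 1) * m (L + 1)) ≤ (7 / 20) ^ L * D :=
      mul_le_mul_of_nonneg_left (h (L + 1)) (by positivity)
    linarith
  have h3 : 0 ≤ D * (7 / 20) ^ L := by positivity
  linarith

/-- The quadratic form bounded below. -/
theorem Blow_point (hQ : ClaimQuad) (N L : ℕ) (hNL : N < L) (x m : ℕ → ℝ) (η : ℝ)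
    (h : ∀ n, x n ^ 2 ≤ (2 ^ n + 1) * m n)
    (hb : 2 * ((7 / 10) ^ (L + 1) * 2 ^ (L + 1) * m L) +
      (7 / 10) ^ (L + 2) * 2 ^ (L + 2) * m (L + 1) ≤ η) :
    (7 / 10) ^ (N + 1) * 2 ^ (N + 1) * m N + 1 / 100 * Blow_J N L x ^ 2 - η ≤
      ∑ n ∈ Finset.Ioc N L, (7 / 10) ^ n * (2 ^ n * m (n - 1) -
        2 ^ (n + 1) * (x n * x (n + 1)) / (2 ^ (n + 1) + 1)) := by
  have h1 := hQ N L x m hNL h
  have h2 := Blow_J_sq N L x m h
  linarith

theorem claimBlow (hQ : ClaimQuad) (hRic : Damp.ClaimRic) : ClaimBlow := by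
  intro N m₀ C hm₀ hC
  set Z : ℝ := ∑' n : ℕ, (7 / 10 : ℝ) ^ n * Real.sqrt (2 ^ n + 1) with hZ
  have hZp : 0 < Z := Blow_summable.tsum_pos (fun n => by positivity) 0 (by positivity)
  set W : ℝ := (7 / 10) ^ (N + 1) * 2 ^ (N + 1) with hW
  have hWp : 0 < W := by positivity
  set c1 : ℝ := W * m₀ / C with hc1
  have hc1p : 0 < c1 := by positivity
  set K : ℝ := 1 / C + 200 / c1 + 1 with hK
  have hKp : 0 < K := by positivity
  set P : ℝ := 4 * C * Z * (1 + K) / c1 with hP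
  have hPp : 0 < P := by positivity
  set c : ℝ := 1 / (K + P + 1) with hc
  have hcp : 0 < c := by positivity
  have hcK : c * K ≤ 1 := by
    rw [hc, div_mul_eq_mul_div, one_mul, div_le_one (by positivity)]
    linarith
  have hcP : c * P ≤ 1 := by
    rw [hc, div_mul_eq_mul_div, one_mul, div_le_one (by positivity)]
    linarith
  refine ⟨c, hcp, ?_⟩
  intro A Ω T S M hA hΩ hT hAΩ hSc hMc hSM hrem hD hMN
  by_contra hcon
  push Not at hcon
  have hM0 : ∀ n, ∀ t ∈ Ico 0 T, 0 ≤ M n t := fun n t ht =>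
    Blow_m_nonneg (x := fun n => S n t) (m := fun n => M n t) (fun n => hSM n t ht) n
  set T' : ℝ := K / A with hT'
  have hT'p : 0 < T' := by positivity
  have hT'T : T' < T := by
    rw [hT', div_lt_iff₀ hA]
    have h1 : K * (c * A * T) = (c * K) * (T * A) := by ring
    have h2 : K < K * (c * A * T) := by nlinarith
    have h3 : (c * K) * (T * A) ≤ 1 * (T * A) := mul_le_mul_of_nonneg_right hcK (by positivity)
    linarith
  set t₁ : ℝ := 1 / (C * A) with ht₁
  have ht₁p : 0 < t₁ := by positivity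
  have ht₁T : t₁ < T' := by
    rw [ht₁, hT', div_lt_div_iff₀ (by positivity) hA]
    have h1 : 1 / C < K := by
      have : 0 < 200 / c1 := by positivity
      rw [hK]
      linarith
    rw [div_lt_iff₀ hC] at h1
    nlinarith
  set η : ℝ := c1 * A / (4 * T') with hη
  have hηp : 0 < η := by positivity
  -- the cut-off
  obtain ⟨D, hDd⟩ := hD T' ⟨hT'p.le, hT'T⟩
  have hD0 : 0 ≤ D := by
    have h1 := hDd 0 0 ⟨le_rfl, hT'p.le⟩
    have h2 := hM0 0 0 ⟨le_rfl, hT⟩
    simp only [pow_zero, one_mul] at h1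
    linarith
  obtain ⟨L, hNL, hL⟩ : ∃ L, N < L ∧ 4 * D * (7 / 20) ^ L ≤ η := by
    have h1 : Filter.Tendsto (fun n : ℕ => 4 * D * (7 / 20 : ℝ) ^ n) Filter.atTop (nhds 0) := by
      have h3 := (tendsto_pow_atTop_nhds_zero_of_lt_one (r := (7 / 20 : ℝ)) (by norm_num)
        (by norm_num)).const_mul (4 * D)
      simpa using h3
    obtain ⟨L, hL1, hL2⟩ := ((h1.eventually (gt_mem_nhds hηp)).and
      (Filter.eventually_gt_atTop N)).exists
    exact ⟨L, hL2, hL1.le⟩
  set J : ℝ → ℝ := fun s => Blow_J N L (fun n => S n s) with hJ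
  have hJc : ContinuousOn J (Ico 0 T) := by
    simp only [hJ]
    unfold Blow_J
    exact continuousOn_finsetSum _ fun n _ => continuousOn_const.mul (hSc n)
  have hsub : ∀ {t}, t ≤ T' → Icc 0 t ⊆ Ico 0 T := fun ht s hs =>
    ⟨hs.1, (hs.2.trans ht).trans_lt hT'T⟩
  set g : ℕ → ℝ → ℝ := fun n s => 2 ^ n * M (n - 1) s -
    2 ^ (n + 1) * (S n s * S (n + 1) s) / (2 ^ (n + 1) + 1) with hg
  have hgc : ∀ n, ContinuousOn (g n) (Ico 0 T) := by
    intro n
    simp only [hg]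
    exact (continuousOn_const.mul (hMc _)).sub
      ((continuousOn_const.mul ((hSc n).mul (hSc (n + 1)))).div_const _)
  -- the pointwise inequality
  have hpt : ∀ s ∈ Icc 0 T', W * M N s + 1 / 100 * J s ^ 2 - η ≤
      ∑ n ∈ Finset.Ioc N L, (7 / 10) ^ n * g n s := by
    intro s hs
    have hsT : s ∈ Ico 0 T := hsub le_rfl hs
    exact Blow_point hQ N L hNL (fun n => S n s) (fun n => M n s) η (fun n => hSM n s hsT)
      ((Blow_bnd D L (fun n => M n s) hD0 (fun n => hDd n s hs)).trans hL)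
  -- integration
  have hint : ∀ t ∈ Icc t₁ T', c1 * A / 2 + 1 / 100 * ∫ s in t₁..t, J s ^ 2 ≤ J t := by
    intro t ht
    have ht0 : 0 ≤ t := ht₁p.le.trans ht.1
    have hss : Icc 0 t ⊆ Ico 0 T := hsub ht.2
    have htT : t < T := ht.2.trans_lt hT'T
    have hcW : ContinuousOn (fun s => W * M N s) (Icc 0 t) :=
      continuousOn_const.mul ((hMc N).mono hss)
    have hcJ : ContinuousOn (fun s => 1 / 100 * J s ^ 2) (Icc 0 t) :=
      continuousOn_const.mul ((hJc.mono hss).pow 2)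
    have hiW := hcW.intervalIntegrable_of_Icc (μ := volume) ht0
    have hiJ := hcJ.intervalIntegrable_of_Icc (μ := volume) ht0
    have hiE : IntervalIntegrable (fun _ : ℝ => η) volume 0 t := by simp
    have hig : ∀ n ∈ Finset.Ioc N L,
        IntervalIntegrable (fun s => (7 / 10 : ℝ) ^ n * g n s) volume 0 t := fun n _ =>
      (continuousOn_const.mul ((hgc n).mono hss)).intervalIntegrable_of_Icc ht0
    have h1 : ∫ s in (0 : ℝ)..t, (W * M N s + 1 / 100 * J s ^ 2 - η) ≤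
        ∫ s in (0 : ℝ)..t, ∑ n ∈ Finset.Ioc N L, (7 / 10) ^ n * g n s := by
      apply intervalIntegral.integral_mono_on ht0 ((hiW.add hiJ).sub hiE)
      · have h0 := IntervalIntegrable.sum _ hig
        have h0' : (fun s => ∑ n ∈ Finset.Ioc N L, (7 / 10 : ℝ) ^ n * g n s) =
            ∑ n ∈ Finset.Ioc N L, fun s => (7 / 10 : ℝ) ^ n * g n s := by
          ext s; simp
        rw [h0']
        exact h0
      · intro s hs
        exact hpt s ⟨hs.1, hs.2.trans ht.2⟩
    rw [intervalIntegral.integral_sub (hiW.add hiJ) hiE, intervalIntegral.integral_add hiW hiJ,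
      intervalIntegral.integral_const, sub_zero, smul_eq_mul,
      intervalIntegral.integral_finsetSum hig] at h1
    -- the remainder
    have h2 : (∑ n ∈ Finset.Ioc N L, ∫ s in (0 : ℝ)..t, (7 / 10 : ℝ) ^ n * g n s) -
        C * Z * (A ^ 2 + t * A ^ 3) / Ω ≤ J t := by
      have h3 : ∀ n ∈ Finset.Ioc N L, (∫ s in (0 : ℝ)..t, (7 / 10 : ℝ) ^ n * g n s) -
          C * (A ^ 2 + t * A ^ 3) / Ω * ((7 / 10) ^ n * Real.sqrt (2 ^ n + 1)) ≤
            (7 / 10) ^ n * S n t := by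
        intro n hn
        rw [intervalIntegral.integral_const_mul]
        have h4 := hrem n (Finset.mem_Ioc.1 hn).1 t ⟨ht0, htT⟩
        have h5 := (abs_le.1 h4).1
        have h6 : (∫ s in (0 : ℝ)..t, g n s) - C * Real.sqrt (2 ^ n + 1) *
            (A ^ 2 + t * A ^ 3) / Ω ≤ S n t := by
          simp only [hg]
          linarith
        have h7 := mul_le_mul_of_nonneg_left h6 (show (0 : ℝ) ≤ (7 / 10) ^ n by positivity)
        calc _ = (7 / 10 : ℝ) ^ n * ((∫ s in (0 : ℝ)..t, g n s) - C * Real.sqrt (2 ^ n + 1) *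
            (A ^ 2 + t * A ^ 3) / Ω) := by ring
          _ ≤ _ := h7
      have h4 := Finset.sum_le_sum h3
      rw [Finset.sum_sub_distrib, ← Finset.mul_sum] at h4
      have h5 : ∑ n ∈ Finset.Ioc N L, (7 / 10 : ℝ) ^ n * Real.sqrt (2 ^ n + 1) ≤ Z :=
        Blow_summable.sum_le_tsum _ (fun n _ => by positivity)
      have h6 : 0 ≤ C * (A ^ 2 + t * A ^ 3) / Ω := by positivity
      have h7 := mul_le_mul_of_nonneg_left h5 h6
      have h8 : C * (A ^ 2 + t * A ^ 3) / Ω * Z = C * Z * (A ^ 2 + t * A ^ 3) / Ω := by ring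
      have h9 : J t = ∑ n ∈ Finset.Ioc N L, (7 / 10 : ℝ) ^ n * S n t := rfl
      rw [h9]
      linarith
    -- the first term
    have h3 : c1 * A ≤ ∫ s in (0 : ℝ)..t, W * M N s := by
      have hi1 : IntervalIntegrable (fun s => W * M N s) volume 0 t₁ :=
        (hcW.mono (Icc_subset_Icc_right ht.1)).intervalIntegrable_of_Icc ht₁p.le
      have hi2 : IntervalIntegrable (fun s => W * M N s) volume t₁ t :=
        (hcW.mono (Icc_subset_Icc_left ht₁p.le)).intervalIntegrable_of_Icc ht.1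
      rw [← intervalIntegral.integral_add_adjacent_intervals hi1 hi2]
      have h4 : 0 ≤ ∫ s in t₁..t, W * M N s :=
        intervalIntegral.integral_nonneg ht.1 fun s hs => mul_nonneg hWp.le
          (hM0 N s ⟨ht₁p.le.trans hs.1, hs.2.trans_lt htT⟩)
      have h5 : ∫ _ in (0 : ℝ)..t₁, W * (A ^ 2 * m₀) ≤ ∫ s in (0 : ℝ)..t₁, W * M N s := by
        apply intervalIntegral.integral_mono_on ht₁p.le (by simp) hi1
        intro s hs
        refine mul_le_mul_of_nonneg_left (hMN s ⟨hs.1, (hs.2.trans ht.1).trans_lt htT⟩ ?_) hWp.le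
        have h6 : C * A * s ≤ C * A * t₁ := mul_le_mul_of_nonneg_left hs.2 (by positivity)
        have h7 : C * A * t₁ = 1 := by
          rw [ht₁]
          field_simp
        linarith
      rw [intervalIntegral.integral_const, sub_zero, smul_eq_mul] at h5
      have h6 : t₁ * (W * (A ^ 2 * m₀)) = c1 * A := by
        rw [ht₁, hc1]
        field_simp
      linarith
    have h4 : 1 / 100 * ∫ s in t₁..t, J s ^ 2 ≤ ∫ s in (0 : ℝ)..t, 1 / 100 * J s ^ 2 := by
      have hi1 : IntervalIntegrable (fun s => 1 / 100 * J s ^ 2) volume 0 t₁ :=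
        (hcJ.mono (Icc_subset_Icc_right ht.1)).intervalIntegrable_of_Icc ht₁p.le
      have hi2 : IntervalIntegrable (fun s => 1 / 100 * J s ^ 2) volume t₁ t :=
        (hcJ.mono (Icc_subset_Icc_left ht₁p.le)).intervalIntegrable_of_Icc ht.1
      have h5 : ∫ s in t₁..t, 1 / 100 * J s ^ 2 = 1 / 100 * ∫ s in t₁..t, J s ^ 2 :=
        intervalIntegral.integral_const_mul _ _
      rw [← intervalIntegral.integral_add_adjacent_intervals hi1 hi2, h5]
      have h4 : 0 ≤ ∫ s in (0 : ℝ)..t₁, 1 / 100 * J s ^ 2 :=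
        intervalIntegral.integral_nonneg ht₁p.le fun s _ => by positivity
      linarith
    have h5 : t * η ≤ c1 * A / 4 := by
      have h6 : t * η ≤ T' * η := mul_le_mul_of_nonneg_right ht.2 hηp.le
      have h7 : T' * η = c1 * A / 4 := by
        rw [hη]
        field_simp
      linarith
    have h6 : C * Z * (A ^ 2 + t * A ^ 3) / Ω ≤ c1 * A / 4 := by
      have h7 : t * A ≤ K := by
        have h8 : t * A ≤ T' * A := mul_le_mul_of_nonneg_right ht.2 hA.le
        have h9 : T' * A = K := by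
          rw [hT']
          field_simp
        linarith
      have h8 : A ^ 2 + t * A ^ 3 ≤ (1 + K) * A ^ 2 := by
        have h9 : t * A * A ^ 2 ≤ K * A ^ 2 := mul_le_mul_of_nonneg_right h7 (by positivity)
        linarith
      have h9 : C * Z * (A ^ 2 + t * A ^ 3) / Ω ≤ C * Z * ((1 + K) * A ^ 2) / Ω := by
        gcongr
      have h10 : C * Z * ((1 + K) * A ^ 2) / Ω = (P * A / Ω) * (c1 * A / 4) := by
        rw [hP]
        field_simp
      have h11 : P * A / Ω ≤ 1 := by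
        rw [div_le_one hΩ]
        calc P * A ≤ P * (c * Ω) := mul_le_mul_of_nonneg_left hAΩ hPp.le
          _ = (c * P) * Ω := by ring
          _ ≤ 1 * Ω := mul_le_mul_of_nonneg_right hcP hΩ.le
          _ = Ω := one_mul Ω
      have h12 : (P * A / Ω) * (c1 * A / 4) ≤ 1 * (c1 * A / 4) :=
        mul_le_mul_of_nonneg_right h11 (by positivity)
      linarith
    linarith
  -- Riccati
  have hfin := hRic t₁ T' (c1 * A / 2) (1 / 100) J (by positivity) (by norm_num) ht₁T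
    (hJc.mono fun s hs => ⟨ht₁p.le.trans hs.1, hs.2.trans hT'T⟩)
    (fun t ht => hint t ⟨ht.1, ht.2.le⟩)
  have h1 : t₁ + 1 / (c1 * A / 2 * (1 / 100)) = (1 / C + 200 / c1) / A := by
    rw [ht₁]
    field_simp
    ring
  rw [h1, hT', div_le_div_iff_of_pos_right hA, hK] at hfin
  linarith

end Pool.Agent.Work.MP_b0497c_an.Disp
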