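import Mathlib
import Pool.Agent.Work.MP_b0497c_an.Damp.Build
import Pool.Agent.Work.MP_b0497c_an.Disp.Stmts

set_option autoImplicit false

/-!
X2. From coefficients to a classical solution.
-/

namespace Pool.Agent.Work.MP_b0497c_an.Disp

open Set MeasureTheory RealInnerProductSpace Pool.Agent.Work.MP_b0497c_an Filter Topology
open Pool.Agent.Work.MP_b0497c_an.Dec (cube phase vec phaseL continuous_phase hasFDerivAt_phaseL
  phase_add phase_e phase_add' phase_sub' integrable_cube volume_cube cube_compact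
  trace_smulRight)
open Pool.Agent.Work.MP_b0497c_an.Damp (cc sc BuildSum)
open scoped ContDiff

/-! ### Shifted sine series -/

/-- A shifted sine series. -/
noncomputable def buildS (θ : ℝ) (b : (Fin 3 → ℤ) → E3) (x : E3) : E3 :=
  ∑' k, Real.sin (phase k x + θ) • b k

/-- The derivative of a shifted sine series. -/
noncomputable def buildDS (θ : ℝ) (b : (Fin 3 → ℤ) → E3) (x : E3) : E3 →L[ℝ] E3 :=
  ∑' k, Real.cos (phase k x + θ) • (phaseL k).smulRight (b k)

variable {b : (Fin 3 → ℤ) → E3} {θ : ℝ}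

theorem build_summable_S (hb : BuildSum b) (θ : ℝ) (x : E3) :
    Summable fun k => Real.sin (phase k x + θ) • b k :=
  Summable.of_norm_bounded hb fun k => Damp.build_norm_sin k _ _

theorem build_summable_DS (hb : BuildSum b) (θ : ℝ) (x : E3) :
    Summable fun k => Real.cos (phase k x + θ) • (phaseL k).smulRight (b k) :=
  Summable.of_norm_bounded hb fun k => Damp.build_norm_cos k _ _

theorem build_cont_phase (k : Fin 3 → ℤ) (θ : ℝ) : Continuous fun x : E3 => phase k x + θ :=
  (continuous_phase k).add continuous_const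

theorem build_cont_S (hb : BuildSum b) (θ : ℝ) : Continuous (buildS θ b) :=
  continuous_tsum (fun k => (Real.continuous_sin.comp (build_cont_phase k θ)).smul
    continuous_const) hb fun k _ => Damp.build_norm_sin k _ _

theorem build_cont_DS (hb : BuildSum b) (θ : ℝ) : Continuous (buildDS θ b) :=
  continuous_tsum (fun k => (Real.continuous_cos.comp (build_cont_phase k θ)).smul
    continuous_const) hb fun k _ => Damp.build_norm_cos k _ _

theorem build_fderiv_S (hb : BuildSum b) (θ : ℝ) (x : E3) :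
    HasFDerivAt (buildS θ b) (buildDS θ b x) x := by
  refine hasFDerivAt_tsum (f := fun k x => Real.sin (phase k x + θ) • b k)
    (f' := fun k x => Real.cos (phase k x + θ) • (phaseL k).smulRight (b k)) hb (fun k y => ?_)
    (fun k y => Damp.build_norm_cos k _ _) (build_summable_S hb θ x) x
  have h := (((hasFDerivAt_phaseL k y).add_const θ).sin).smul_const (b k)
  convert h using 1
  ext v
  simp [mul_smul]

theorem build_per_S (θ : ℝ) (b : (Fin 3 → ℤ) → E3) : Periodic3 (buildS θ b) := by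
  intro i x
  unfold buildS
  refine tsum_congr fun k => ?_
  rw [phase_add, phase_e, add_right_comm, Real.sin_add_int_mul_two_pi]

theorem build_trace_DS (hb : BuildSum b) (hdiv : ∀ k, ⟪vec k, b k⟫ = 0) (θ : ℝ) (x : E3) :
    LinearMap.trace ℝ E3 (buildDS θ b x) = 0 := by
  set Lt : (E3 →L[ℝ] E3) →L[ℝ] ℝ := ∑ i : Fin 3,
    (EuclideanSpace.proj i : E3 →L[ℝ] ℝ).comp (ContinuousLinearMap.apply ℝ E3 (e i)) with hLt
  have htr : ∀ A : E3 →L[ℝ] E3, LinearMap.trace ℝ E3 A = Lt A := by
    intro A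
    rw [trace_eq, hLt, _root_.sum_apply, Fin.sum_univ_three]
    rfl
  rw [htr, buildDS, ContinuousLinearMap.map_tsum _ (build_summable_DS hb θ x)]
  have h0 : ∀ k, Lt (Real.cos (phase k x + θ) • (phaseL k).smulRight (b k)) = 0 := by
    intro k
    have e1 : Real.cos (phase k x + θ) • (phaseL k).smulRight (b k) =
        ((Real.cos (phase k x + θ) • innerSL ℝ (vec k)).smulRight (b k) : E3 →L[ℝ] E3) := by
      ext v
      simp [phaseL, mul_smul]
    rw [e1, ← htr, trace_smulRight, hdiv, mul_zero]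
  simp only [h0, tsum_zero]

/-! ### Fourier coefficients -/

theorem build_int_cos (k : Fin 3 → ℤ) (α : ℝ) : ∫ x in cube, Real.cos (phase k x + α) =
    Real.cos α * (if k = 0 then (2 * Real.pi) ^ 3 else 0) := by
  have h : ∀ x, Real.cos (phase k x + α) =
      Real.cos α * Real.cos (phase k x) - Real.sin α * Real.sin (phase k x) := by
    intro x
    rw [Real.cos_add]
    ring
  simp_rw [h]
  rw [integral_sub, integral_const_mul, integral_const_mul, Dec.integral_cos,
    Dec.integral_sin]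
  · ring
  · exact integrable_cube (continuous_const.mul (Real.continuous_cos.comp (continuous_phase _)))
  · exact integrable_cube (continuous_const.mul (Real.continuous_sin.comp (continuous_phase _)))

theorem build_int_ss (k l : Fin 3 → ℤ) (α θ : ℝ) :
    ∫ x in cube, Real.sin (phase k x + α) * Real.sin (phase l x + θ)
      = (1 / 2) * (Real.cos (α - θ) * (if k - l = 0 then (2 * Real.pi) ^ 3 else 0)
        - Real.cos (α + θ) * (if k + l = 0 then (2 * Real.pi) ^ 3 else 0)) := by
  have h : ∀ x, Real.sin (phase k x + α) * Real.sin (phase l x + θ)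
      = (1 / 2) * Real.cos (phase (k - l) x + (α - θ)) -
        (1 / 2) * Real.cos (phase (k + l) x + (α + θ)) := by
    intro x
    rw [phase_add', phase_sub']
    have e1 : phase k x - phase l x + (α - θ) = (phase k x + α) - (phase l x + θ) := by ring
    have e2 : phase k x + phase l x + (α + θ) = (phase k x + α) + (phase l x + θ) := by ring
    rw [e1, e2, Real.cos_sub (phase k x + α), Real.cos_add (phase k x + α)]
    ring
  simp_rw [h]
  rw [integral_sub, integral_const_mul, integral_const_mul, build_int_cos, build_int_cos]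
  · ring
  · exact integrable_cube (continuous_const.mul (Real.continuous_cos.comp (build_cont_phase _ _)))
  · exact integrable_cube (continuous_const.mul (Real.continuous_cos.comp (build_cont_phase _ _)))

theorem build_coeff (hb : BuildSum b) (θ α : ℝ) (k : Fin 3 → ℤ) (c : E3) :
    ∫ x in cube, Real.sin (phase k x + α) * ⟪buildS θ b x, c⟫ =
      (2 * Real.pi) ^ 3 / 2 * (Real.cos (α - θ) * ⟪b k, c⟫ - Real.cos (α + θ) * ⟪b (-k), c⟫) := by
  have h1 : ∀ x, Real.sin (phase k x + α) * ⟪buildS θ b x, c⟫ =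
      ∑' p, (Real.sin (phase k x + α) * Real.sin (phase p x + θ)) * ⟪b p, c⟫ := by
    intro x
    have h2 : ⟪buildS θ b x, c⟫ = ∑' p, Real.sin (phase p x + θ) * ⟪b p, c⟫ := by
      rw [real_inner_comm, buildS, ← innerSL_apply_apply ℝ c,
        ContinuousLinearMap.map_tsum _ (build_summable_S hb θ x)]
      refine tsum_congr fun p => ?_
      rw [innerSL_apply_apply, inner_smul_right, real_inner_comm]
    rw [h2, ← tsum_mul_left]
    exact tsum_congr fun p => by ring
  simp_rw [h1]
  have hcont : ∀ p, Continuous fun x =>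
      (Real.sin (phase k x + α) * Real.sin (phase p x + θ)) * ⟪b p, c⟫ :=
    fun p => ((Real.continuous_sin.comp (build_cont_phase k α)).mul
      (Real.continuous_sin.comp (build_cont_phase p θ))).mul continuous_const
  have hnorm : ∀ p x, ‖(Real.sin (phase k x + α) * Real.sin (phase p x + θ)) * ⟪b p, c⟫‖ ≤
      ‖b p‖ * ‖c‖ := by
    intro p x
    rw [norm_mul, norm_mul, Real.norm_eq_abs, Real.norm_eq_abs, Real.norm_eq_abs]
    have s1 := Real.abs_sin_le_one (phase k x + α)
    have s2 := Real.abs_sin_le_one (phase p x + θ)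
    have s3 := abs_real_inner_le_norm (b p) c
    have s4 : |Real.sin (phase k x + α)| * |Real.sin (phase p x + θ)| ≤ 1 := by
      have := abs_nonneg (Real.sin (phase k x + α))
      have := abs_nonneg (Real.sin (phase p x + θ))
      nlinarith
    calc |Real.sin (phase k x + α)| * |Real.sin (phase p x + θ)| * |⟪b p, c⟫|
        ≤ 1 * (‖b p‖ * ‖c‖) := mul_le_mul s4 s3 (abs_nonneg _) (by norm_num)
      _ = ‖b p‖ * ‖c‖ := one_mul _
  rw [← integral_tsum_of_summable_integral_norm (fun p => integrable_cube (hcont p))]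
  · have h3 : ∀ p, ∫ x in cube, (Real.sin (phase k x + α) * Real.sin (phase p x + θ)) * ⟪b p, c⟫ =
        (Real.cos (α - θ) / 2) * ((if k - p = 0 then (2 * Real.pi) ^ 3 else 0) * ⟪b p, c⟫) -
          (Real.cos (α + θ) / 2) *
            ((if k + p = 0 then (2 * Real.pi) ^ 3 else 0) * ⟪b p, c⟫) := by
      intro p
      rw [integral_mul_const, build_int_ss]
      ring
    simp_rw [h3]
    have g1 : HasSum (fun p => (if k - p = 0 then (2 * Real.pi) ^ 3 else 0) * ⟪b p, c⟫)
        ((2 * Real.pi) ^ 3 * ⟪b k, c⟫) := by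
      have := hasSum_single (f := fun p : Fin 3 → ℤ =>
        (if k - p = 0 then (2 * Real.pi) ^ 3 else 0) * ⟪b p, c⟫) k (fun p hp => by
          have h4 : k - p ≠ 0 := fun h => hp (sub_eq_zero.mp h).symm
          simp only [if_neg h4, zero_mul])
      simpa using this
    have g2 : HasSum (fun p => (if k + p = 0 then (2 * Real.pi) ^ 3 else 0) * ⟪b p, c⟫)
        ((2 * Real.pi) ^ 3 * ⟪b (-k), c⟫) := by
      have := hasSum_single (f := fun p : Fin 3 → ℤ =>
        (if k + p = 0 then (2 * Real.pi) ^ 3 else 0) * ⟪b p, c⟫) (-k) (fun p hp => by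
          have h4 : k + p ≠ 0 := fun h => hp (neg_eq_of_add_eq_zero_right h).symm
          simp only [if_neg h4, zero_mul])
      simpa using this
    rw [((g1.mul_left (Real.cos (α - θ) / 2)).sub
      (g2.mul_left (Real.cos (α + θ) / 2))).tsum_eq]
    ring
  · refine Summable.of_nonneg_of_le (fun p => integral_nonneg fun x => norm_nonneg _) (fun p => ?_)
      (((Damp.build_summable_norm hb).mul_right ‖c‖).mul_left ((2 * Real.pi) ^ 3))
    calc ∫ x in cube, ‖(Real.sin (phase k x + α) * Real.sin (phase p x + θ)) * ⟪b p, c⟫‖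
        ≤ ∫ x in cube, ‖b p‖ * ‖c‖ := by
          refine setIntegral_mono_on (integrable_cube (hcont p).norm)
            (integrable_cube continuous_const) cube_compact.measurableSet fun x _ => hnorm p x
      _ = (2 * Real.pi) ^ 3 * (‖b p‖ * ‖c‖) := by
          rw [setIntegral_const, volume_cube, smul_eq_mul]

/-- The field with cosine coefficients `a` and sine coefficients `b`. -/
noncomputable def buildU (a b : (Fin 3 → ℤ) → E3) (x : E3) : E3 :=
  buildS (Real.pi / 2) a x + buildS 0 b x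

/-- Its derivative. -/
noncomputable def buildDU (a b : (Fin 3 → ℤ) → E3) (x : E3) : E3 →L[ℝ] E3 :=
  buildDS (Real.pi / 2) a x + buildDS 0 b x

variable {a : (Fin 3 → ℤ) → E3}

theorem build_tsum_U (ha : BuildSum a) (hb : BuildSum b) (x : E3) :
    ∑' k, (Real.cos (phase k x) • a k + Real.sin (phase k x) • b k) = buildU a b x := by
  have h1 := build_summable_S ha (Real.pi / 2) x
  have h2 := build_summable_S hb 0 x
  unfold buildU buildS
  rw [← h1.tsum_add h2]
  refine tsum_congr fun k => ?_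
  rw [Real.sin_add_pi_div_two, add_zero]

theorem build_cont_U (ha : BuildSum a) (hb : BuildSum b) : Continuous (buildU a b) :=
  (build_cont_S ha _).add (build_cont_S hb _)

theorem build_cont_DU (ha : BuildSum a) (hb : BuildSum b) : Continuous (buildDU a b) :=
  (build_cont_DS ha _).add (build_cont_DS hb _)

theorem build_fderiv_U (ha : BuildSum a) (hb : BuildSum b) (x : E3) :
    HasFDerivAt (buildU a b) (buildDU a b x) x :=
  (build_fderiv_S ha _ x).add (build_fderiv_S hb _ x)

theorem build_per_U (a b : (Fin 3 → ℤ) → E3) : Periodic3 (buildU a b) := by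
  intro i x
  unfold buildU
  rw [build_per_S _ a i x, build_per_S _ b i x]

theorem build_trace_DU (ha : BuildSum a) (hb : BuildSum b) (hda : ∀ k, ⟪vec k, a k⟫ = 0)
    (hdb : ∀ k, ⟪vec k, b k⟫ = 0) (x : E3) : LinearMap.trace ℝ E3 (buildDU a b x) = 0 := by
  unfold buildDU
  rw [ContinuousLinearMap.toLinearMap_add, map_add, build_trace_DS ha hda, build_trace_DS hb hdb,
    add_zero]

theorem build_inner_int {f : E3 → E3} (hf : Continuous f) {s : E3 → ℝ} (hs : Continuous s)
    (c : E3) : ⟪∫ x in cube, s x • f x, c⟫ = ∫ x in cube, s x * ⟪f x, c⟫ := by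
  have hI : IntegrableOn (fun x => s x • f x) cube := integrable_cube (hs.smul hf)
  rw [real_inner_comm, ← integral_inner hI]
  refine integral_congr_ae (Eventually.of_forall fun x => ?_)
  simp only [real_inner_smul_right]
  rw [real_inner_comm]

theorem build_cos_U (ha : BuildSum a) (hb : BuildSum b) (hae : ∀ k, a (-k) = a k)
    (k : Fin 3 → ℤ) (c : E3) :
    ∫ x in cube, Real.cos (phase k x) * ⟪buildU a b x, c⟫ = (2 * Real.pi) ^ 3 * ⟪a k, c⟫ := by
  have e1 : ∀ x, Real.cos (phase k x) * ⟪buildU a b x, c⟫ =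
      Real.sin (phase k x + Real.pi / 2) * ⟪buildS (Real.pi / 2) a x, c⟫ +
      Real.sin (phase k x + Real.pi / 2) * ⟪buildS 0 b x, c⟫ := by
    intro x
    rw [buildU, inner_add_left, mul_add, Real.sin_add_pi_div_two]
  simp_rw [e1]
  have hs : Continuous fun x : E3 => Real.sin (phase k x + Real.pi / 2) :=
    Real.continuous_sin.comp (build_cont_phase k _)
  have i1 : IntegrableOn (fun x => Real.sin (phase k x + Real.pi / 2) *
      ⟪buildS (Real.pi / 2) a x, c⟫) cube :=
    integrable_cube (hs.mul ((build_cont_S ha _).inner continuous_const))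
  have i2 : IntegrableOn (fun x => Real.sin (phase k x + Real.pi / 2) *
      ⟪buildS 0 b x, c⟫) cube :=
    integrable_cube (hs.mul ((build_cont_S hb _).inner continuous_const))
  rw [integral_add i1 i2, build_coeff ha, build_coeff hb, hae]
  have e2 : Real.pi / 2 + Real.pi / 2 = Real.pi := by ring
  rw [sub_self, e2, sub_zero, add_zero, Real.cos_zero, Real.cos_pi, Real.cos_pi_div_two]
  ring

theorem build_sin_U (ha : BuildSum a) (hb : BuildSum b) (hbo : ∀ k, b (-k) = -b k)
    (k : Fin 3 → ℤ) (c : E3) :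
    ∫ x in cube, Real.sin (phase k x) * ⟪buildU a b x, c⟫ = (2 * Real.pi) ^ 3 * ⟪b k, c⟫ := by
  have e1 : ∀ x, Real.sin (phase k x) * ⟪buildU a b x, c⟫ =
      Real.sin (phase k x + 0) * ⟪buildS (Real.pi / 2) a x, c⟫ +
      Real.sin (phase k x + 0) * ⟪buildS 0 b x, c⟫ := by
    intro x
    rw [buildU, inner_add_left, mul_add, add_zero]
  simp_rw [e1]
  have hs : Continuous fun x : E3 => Real.sin (phase k x + 0) :=
    Real.continuous_sin.comp (build_cont_phase k _)
  have i1 : IntegrableOn (fun x => Real.sin (phase k x + 0) *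
      ⟪buildS (Real.pi / 2) a x, c⟫) cube :=
    integrable_cube (hs.mul ((build_cont_S ha _).inner continuous_const))
  have i2 : IntegrableOn (fun x => Real.sin (phase k x + 0) *
      ⟪buildS 0 b x, c⟫) cube :=
    integrable_cube (hs.mul ((build_cont_S hb _).inner continuous_const))
  rw [integral_add i1 i2, build_coeff ha, build_coeff hb, hbo, inner_neg_left]
  rw [zero_sub, zero_add, sub_zero, zero_add, Real.cos_neg, Real.cos_pi_div_two, Real.cos_zero]
  ring

theorem build_hat_U (ha : BuildSum a) (hb : BuildSum b) (hae : ∀ k, a (-k) = a k)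
    (hbo : ∀ k, b (-k) = -b k) (k : Fin 3 → ℤ) (c : E3) :
    hat (buildU a b) k c = (⟪a k, c⟫ : ℂ) - Complex.I * (⟪b k, c⟫ : ℂ) := by
  have h1 : ⟪cc (buildU a b) k, c⟫ = (2 * Real.pi) ^ 3 * ⟪a k, c⟫ := by
    exact (build_inner_int (build_cont_U ha hb)
      (Real.continuous_cos.comp (continuous_phase k)) c).trans (build_cos_U ha hb hae k c)
  have h2 : ⟪sc (buildU a b) k, c⟫ = (2 * Real.pi) ^ 3 * ⟪b k, c⟫ := by
    exact (build_inner_int (build_cont_U ha hb)
      (Real.continuous_sin.comp (continuous_phase k)) c).trans (build_sin_U ha hb hbo k c)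
  have hpi : (2 * Real.pi) ^ 3 ≠ 0 := by positivity
  unfold hat
  rw [h1, h2, inv_mul_cancel_left₀ hpi, inv_mul_cancel_left₀ hpi]

/-! ### Time dependence -/

/-- The derivative of a term. -/
noncomputable def buildD (θ : ℝ) (A A' : (Fin 3 → ℤ) → ℝ → E3) (k : Fin 3 → ℤ) (z : ℝ × E3) :
    ℝ × E3 →L[ℝ] E3 :=
  Real.sin (phase k z.2 + θ) • (ContinuousLinearMap.fst ℝ ℝ E3).smulRight (A' k z.1) +
    Real.cos (phase k z.2 + θ) •
      ((phaseL k).comp (ContinuousLinearMap.snd ℝ ℝ E3)).smulRight (A k z.1)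

variable {A A' : (Fin 3 → ℤ) → ℝ → E3}

theorem build_hasFDerivAt (θ : ℝ) (hA : ∀ k t, HasDerivAt (A k) (A' k t) t) (k : Fin 3 → ℤ)
    (z : ℝ × E3) :
    HasFDerivAt (fun z : ℝ × E3 => Real.sin (phase k z.2 + θ) • A k z.1)
      (buildD θ A A' k z) z := by
  have h1 : HasFDerivAt (fun z : ℝ × E3 => Real.sin (phase k z.2 + θ))
      (Real.cos (phase k z.2 + θ) • (phaseL k).comp (ContinuousLinearMap.snd ℝ ℝ E3)) z :=
    (((hasFDerivAt_phaseL k z.2).comp z hasFDerivAt_snd).add_const θ).sin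
  have h2 : HasFDerivAt (fun z : ℝ × E3 => A k z.1)
      ((ContinuousLinearMap.fst ℝ ℝ E3).smulRight (A' k z.1)) z := by
    have h4 := (hA k z.1).hasFDerivAt.comp z (hasFDerivAt_fst (𝕜 := ℝ) (E := ℝ) (F := E3))
    have e1 : (ContinuousLinearMap.fst ℝ ℝ E3).smulRight (A' k z.1) =
        (ContinuousLinearMap.toSpanSingleton ℝ (A' k z.1)).comp
          (ContinuousLinearMap.fst ℝ ℝ E3) := by
      ext v <;> simp
    rw [e1]
    exact h4
  have h3 := h1.smul h2
  have e2 : buildD θ A A' k z = Real.sin (phase k z.2 + θ) •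
      (ContinuousLinearMap.fst ℝ ℝ E3).smulRight (A' k z.1) +
      (Real.cos (phase k z.2 + θ) •
        (phaseL k).comp (ContinuousLinearMap.snd ℝ ℝ E3)).smulRight (A k z.1) := by
    unfold buildD
    congr 1
    refine ContinuousLinearMap.ext fun v => ?_
    simp [mul_smul]
  rw [e2]
  exact h3

theorem build_norm_D (θ : ℝ) {C : ℝ} {k : Fin 3 → ℤ} {z : ℝ × E3}
    (h1 : ‖A k z.1‖ ≤ C * Real.exp (-‖vec k‖)) (h2 : ‖A' k z.1‖ ≤ C * Real.exp (-‖vec k‖)) :
    ‖buildD θ A A' k z‖ ≤ C * ((1 + ‖vec k‖) * Real.exp (-‖vec k‖)) := by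
  have h3 : ‖Real.sin (phase k z.2 + θ) • (ContinuousLinearMap.fst ℝ ℝ E3).smulRight (A' k z.1)‖ ≤
      C * Real.exp (-‖vec k‖) := by
    rw [norm_smul, ContinuousLinearMap.norm_smulRight_apply, Real.norm_eq_abs]
    have s1 := Real.abs_sin_le_one (phase k z.2 + θ)
    have s2 := ContinuousLinearMap.norm_fst_le ℝ ℝ E3
    calc |Real.sin (phase k z.2 + θ)| * (‖ContinuousLinearMap.fst ℝ ℝ E3‖ * ‖A' k z.1‖)
        ≤ 1 * (1 * ‖A' k z.1‖) := by gcongr
      _ = ‖A' k z.1‖ := by ring
      _ ≤ _ := h2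
  have h4 : ‖Real.cos (phase k z.2 + θ) •
      ((phaseL k).comp (ContinuousLinearMap.snd ℝ ℝ E3)).smulRight (A k z.1)‖ ≤
      ‖vec k‖ * (C * Real.exp (-‖vec k‖)) := by
    rw [norm_smul, ContinuousLinearMap.norm_smulRight_apply, Real.norm_eq_abs]
    have s1 := Real.abs_cos_le_one (phase k z.2 + θ)
    have s2 : ‖(phaseL k).comp (ContinuousLinearMap.snd ℝ ℝ E3)‖ ≤ ‖vec k‖ := by
      refine (ContinuousLinearMap.opNorm_comp_le _ _).trans ?_
      rw [Damp.build_norm_phaseL]
      exact (mul_le_mul_of_nonneg_left (ContinuousLinearMap.norm_snd_le ℝ ℝ E3)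
        (norm_nonneg _)).trans_eq (mul_one _)
    calc |Real.cos (phase k z.2 + θ)| *
          (‖(phaseL k).comp (ContinuousLinearMap.snd ℝ ℝ E3)‖ * ‖A k z.1‖)
        ≤ 1 * (‖vec k‖ * (C * Real.exp (-‖vec k‖))) := by gcongr
      _ = _ := one_mul _
  refine (norm_add_le _ _).trans ?_
  calc _ ≤ C * Real.exp (-‖vec k‖) + ‖vec k‖ * (C * Real.exp (-‖vec k‖)) := add_le_add h3 h4
    _ = _ := by ring

theorem build_time (θ : ℝ) (hA : ∀ k t, HasDerivAt (A k) (A' k t) t)
    (hc : ∀ k, Continuous (A' k))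
    {C R : ℝ} (hbd : ∀ k, ∀ t ∈ Ioo (-1) R, ‖A k t‖ ≤ C * Real.exp (-‖vec k‖) ∧
      ‖A' k t‖ ≤ C * Real.exp (-‖vec k‖)) {z : ℝ × E3} (hz : z.1 ∈ Ioo (-1) R) :
    ContDiffAt ℝ 1 (fun z : ℝ × E3 => ∑' k, Real.sin (phase k z.2 + θ) • A k z.1) z ∧
    HasDerivAt (fun s => ∑' k, Real.sin (phase k z.2 + θ) • A k s)
      (∑' k, Real.sin (phase k z.2 + θ) • A' k z.1) z.1 := by
  have hC : 0 ≤ C := by
    have h1 := (norm_nonneg _).trans (hbd 0 z.1 hz).1
    exact nonneg_of_mul_nonneg_left h1 (Real.exp_pos _)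
  have hopen : IsOpen (Ioo (-1) R ×ˢ (univ : Set E3)) := isOpen_Ioo.prod isOpen_univ
  have hconv : Convex ℝ (Ioo (-1) R ×ˢ (univ : Set E3)) := (convex_Ioo _ _).prod convex_univ
  have hsum : Summable fun k : Fin 3 → ℤ => C * ((1 + ‖vec k‖) * Real.exp (-‖vec k‖)) :=
    Damp.build_summable_wt.mul_left C
  have hzmem : z ∈ Ioo (-1) R ×ˢ (univ : Set E3) := ⟨hz, mem_univ _⟩
  have hle : ∀ (k : Fin 3 → ℤ) (s : ℝ) (v : E3), ‖v‖ ≤ C * Real.exp (-‖vec k‖) →
      ‖Real.sin s • v‖ ≤ C * ((1 + ‖vec k‖) * Real.exp (-‖vec k‖)) := by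
    intro k s v hv
    refine (Damp.build_norm_sin k s v).trans ?_
    calc (1 + ‖vec k‖) * ‖v‖ ≤ (1 + ‖vec k‖) * (C * Real.exp (-‖vec k‖)) := by gcongr
      _ = _ := by ring
  constructor
  · rw [contDiffAt_one_iff]
    refine ⟨fun z => ∑' k, buildD θ A A' k z, Ioo (-1) R ×ˢ univ, hopen.mem_nhds hzmem, ?_, ?_⟩
    · refine continuousOn_tsum (fun k => ?_) hsum
        (fun k y hy => build_norm_D θ (hbd k y.1 hy.1).1 (hbd k y.1 hy.1).2)
      have hAc : Continuous fun z : ℝ × E3 => A k z.1 :=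
        (continuous_iff_continuousAt.mpr fun t => (hA k t).continuousAt).comp continuous_fst
      have hAc' : Continuous fun z : ℝ × E3 => A' k z.1 := (hc k).comp continuous_fst
      have hp : Continuous fun z : ℝ × E3 => phase k z.2 + θ :=
        (build_cont_phase k θ).comp continuous_snd
      have h1 : Continuous fun z : ℝ × E3 =>
          (ContinuousLinearMap.fst ℝ ℝ E3).smulRight (A' k z.1) :=
        (ContinuousLinearMap.smulRightL ℝ (ℝ × E3) E3
          (ContinuousLinearMap.fst ℝ ℝ E3)).continuous.comp hAc'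
      have h2 : Continuous fun z : ℝ × E3 =>
          ((phaseL k).comp (ContinuousLinearMap.snd ℝ ℝ E3)).smulRight (A k z.1) :=
        (ContinuousLinearMap.smulRightL ℝ (ℝ × E3) E3
          ((phaseL k).comp (ContinuousLinearMap.snd ℝ ℝ E3))).continuous.comp hAc
      exact (((Real.continuous_sin.comp hp).smul h1).add
        ((Real.continuous_cos.comp hp).smul h2)).continuousOn
    · intro z' hz'
      refine hasFDerivAt_tsum_of_isPreconnected hsum hopen hconv.isPreconnected
        (fun k y _ => build_hasFDerivAt θ hA k y)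
        (fun k y hy => build_norm_D θ (hbd k y.1 hy.1).1 (hbd k y.1 hy.1).2) hzmem ?_ hz'
      exact Summable.of_norm_bounded hsum fun k => hle k _ _ (hbd k z.1 hz).1
  · refine hasDerivAt_tsum_of_isPreconnected
      (g := fun k s => Real.sin (phase k z.2 + θ) • A k s)
      (g' := fun k s => Real.sin (phase k z.2 + θ) • A' k s) (t := Ioo (-1) R) hsum isOpen_Ioo
      isPreconnected_Ioo (fun k y _ => (hA k y).const_smul (Real.sin (phase k z.2 + θ)))
      (fun k y hy => hle k _ _ (hbd k y hy).2) hz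
      (Summable.of_norm_bounded hsum fun k => hle k _ _ (hbd k z.1 hz).1) hz

/-- One of the two series of the solution. -/
theorem build_part {T K : ℝ} (hT : 0 < T) (θ : ℝ) {s s' : (Fin 3 → ℤ) → ℝ → E3}
    (hd : ∀ k, ∀ t ∈ Icc 0 T, HasDerivWithinAt (s k) (s' k t) (Icc 0 T) t)
    (hc : ∀ k, ContinuousOn (s' k) (Icc 0 T))
    (hb : ∀ k, ∀ t ∈ Icc 0 T, ‖s k t‖ ≤ K * Real.exp (-‖vec k‖))
    (hb' : ∀ k, ∀ t ∈ Icc 0 T, ‖s' k t‖ ≤ K * Real.exp (-‖vec k‖)) :
    ContDiffOn ℝ 1 (fun z : ℝ × E3 => buildS θ (fun k => s k z.1) z.2) (Ico 0 T ×ˢ univ) ∧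
    ∀ t ∈ Ico 0 T, ∀ x, HasDerivWithinAt (fun r => buildS θ (fun k => s k r) x)
      (buildS θ (fun k => s' k t) x) (Ico 0 T) t := by
  choose A A' hA1 hA2 hA3 hA4 using fun k => Damp.build_ext hT (hd k) (hc k)
    (M := K * Real.exp (-‖vec k‖)) (hb k) (hb' k)
  have hsub : ∀ t ∈ Ico 0 T, t ∈ Icc 0 T := fun t ht => Ico_subset_Icc_self ht
  have hsub' : ∀ t ∈ Ico 0 T, t ∈ Ioo (-1) (T + 1) := fun t ht =>
    ⟨by linarith [ht.1], by linarith [ht.2]⟩
  have htime := fun (z : ℝ × E3) (hz : z.1 ∈ Ico 0 T) => build_time θ hA1 hA2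
    (C := K * (2 + T)) (R := T + 1) (fun k t ht => by
      have := hA4 k t ht
      rw [show K * (2 + T) * Real.exp (-‖vec k‖) = K * Real.exp (-‖vec k‖) * (2 + T) by ring]
      exact this) (hsub' z.1 hz)
  have hGu : ∀ t ∈ Ico 0 T, ∀ x : E3, buildS θ (fun k => s k t) x =
      ∑' k, Real.sin (phase k x + θ) • A k t := fun t ht x =>
    tsum_congr fun k => by rw [(hA3 k t (hsub t ht)).1]
  constructor
  · refine ContDiffOn.congr (f := fun z : ℝ × E3 => ∑' k, Real.sin (phase k z.2 + θ) • A k z.1)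
      (fun z hz => ((htime z hz.1).1).contDiffWithinAt) fun z hz => hGu z.1 hz.1 z.2
  · intro t ht x
    have h1 := (htime (t, x) ht).2
    have h2 : ∑' k, Real.sin (phase k x + θ) • A' k t = buildS θ (fun k => s' k t) x :=
      tsum_congr fun k => by rw [(hA3 k t (hsub t ht)).2]
    simp only at h1
    rw [h2] at h1
    exact h1.hasDerivWithinAt.congr (fun s hs => hGu s hs x) (hGu t ht x)

theorem build_sum_of_bd {K : ℝ} {v : (Fin 3 → ℤ) → E3}
    (h : ∀ k, ‖v k‖ ≤ K * Real.exp (-‖vec k‖)) : BuildSum v := by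
  refine Summable.of_nonneg_of_le (fun k => by positivity) (fun k => ?_)
    (Damp.build_summable_wt.mul_left K)
  calc (1 + ‖vec k‖) * ‖v k‖ ≤ (1 + ‖vec k‖) * (K * Real.exp (-‖vec k‖)) := by
        gcongr
        exact h k
    _ = _ := by ring

theorem build_re (P Q : ℝ) : Complex.reCLM (-Complex.I * ((P : ℂ) - Complex.I * (Q : ℂ))) = -Q := by
  simp

theorem build_im (P Q : ℝ) : Complex.imCLM (-Complex.I * ((P : ℂ) - Complex.I * (Q : ℂ))) = -P := by
  simp

/-- The nonlinearity. -/
theorem build_conv (hConv : ClaimConv) (ha : BuildSum a) (hb : BuildSum b)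
    (hae : ∀ k, a (-k) = a k) (hbo : ∀ k, b (-k) = -b k) (hda : ∀ k, ⟪vec k, a k⟫ = 0)
    (hdb : ∀ k, ⟪vec k, b k⟫ = 0) (k : Fin 3 → ℤ) (c : E3) :
    (∫ x in cube, Real.cos (phase k x) * ⟪buildDU a b x (buildU a b x), c⟫ =
      (2 * Real.pi) ^ 3 *
        ∑' p, (⟪a p, vec k⟫ * ⟪b (k - p), c⟫ + ⟪b p, vec k⟫ * ⟪a (k - p), c⟫)) ∧
    ∫ x in cube, Real.sin (phase k x) * ⟪buildDU a b x (buildU a b x), c⟫ =
      -((2 * Real.pi) ^ 3 *
        ∑' p, (⟪a p, vec k⟫ * ⟪a (k - p), c⟫ - ⟪b p, vec k⟫ * ⟪b (k - p), c⟫)) := by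
  have hfd : ∀ x, fderiv ℝ (buildU a b) x = buildDU a b x := fun x =>
    (build_fderiv_U ha hb x).fderiv
  have hC : ContDiff ℝ 1 (buildU a b) := by
    rw [contDiff_one_iff_fderiv]
    refine ⟨fun x => (build_fderiv_U ha hb x).differentiableAt, ?_⟩
    have : fderiv ℝ (buildU a b) = buildDU a b := funext hfd
    rw [this]
    exact build_cont_DU ha hb
  have h := hConv (buildU a b) hC (build_per_U a b) (fun x => by
    rw [hfd]
    exact build_trace_DU ha hb hda hdb x) k c
  simp only [hfd, build_hat_U ha hb hae hbo] at h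
  have hN : Continuous fun x => buildDU a b x (buildU a b x) :=
    (build_cont_DU ha hb).clm_apply (build_cont_U ha hb)
  have h1 : ⟪cc (fun x => buildDU a b x (buildU a b x)) k, c⟫ =
      ∫ x in cube, Real.cos (phase k x) * ⟪buildDU a b x (buildU a b x), c⟫ :=
    build_inner_int hN (Real.continuous_cos.comp (continuous_phase k)) c
  have h2 : ⟪sc (fun x => buildDU a b x (buildU a b x)) k, c⟫ =
      ∫ x in cube, Real.sin (phase k x) * ⟪buildDU a b x (buildU a b x), c⟫ :=
    build_inner_int hN (Real.continuous_sin.comp (continuous_phase k)) c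
  unfold hat at h
  rw [h1, h2] at h
  have hre := Complex.reCLM.hasSum h
  have him := Complex.imCLM.hasSum h
  have er : ∀ p : Fin 3 → ℤ, Complex.reCLM ((((⟪a p, vec k⟫ : ℝ) : ℂ) -
      Complex.I * ((⟪b p, vec k⟫ : ℝ) : ℂ)) * (((⟪a (k - p), c⟫ : ℝ) : ℂ) -
      Complex.I * ((⟪b (k - p), c⟫ : ℝ) : ℂ))) =
      ⟪a p, vec k⟫ * ⟪a (k - p), c⟫ - ⟪b p, vec k⟫ * ⟪b (k - p), c⟫ := by
    intro p
    simp
  have ei : ∀ p : Fin 3 → ℤ, Complex.imCLM ((((⟪a p, vec k⟫ : ℝ) : ℂ) -
      Complex.I * ((⟪b p, vec k⟫ : ℝ) : ℂ)) * (((⟪a (k - p), c⟫ : ℝ) : ℂ) -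
      Complex.I * ((⟪b (k - p), c⟫ : ℝ) : ℂ))) =
      -(⟪a p, vec k⟫ * ⟪b (k - p), c⟫ + ⟪b p, vec k⟫ * ⟪a (k - p), c⟫) := by
    intro p
    simp
    ring
  have hpi : (2 * Real.pi) ^ 3 ≠ 0 := by positivity
  have hre' := (hre.congr_fun fun p => (er p).symm).tsum_eq
  have him' := (him.congr_fun fun p => (ei p).symm).tsum_eq
  constructor
  · rw [tsum_neg] at him'
    have : ∑' p, (⟪a p, vec k⟫ * ⟪b (k - p), c⟫ + ⟪b p, vec k⟫ * ⟪a (k - p), c⟫) =
      ((2 * Real.pi) ^ 3)⁻¹ *
        ∫ x in cube, Real.cos (phase k x) * ⟪buildDU a b x (buildU a b x), c⟫ := by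
      rw [← neg_inj, him', build_im]
    rw [this, mul_inv_cancel_left₀ hpi]
  · have : ∑' p, (⟪a p, vec k⟫ * ⟪a (k - p), c⟫ - ⟪b p, vec k⟫ * ⟪b (k - p), c⟫) =
      -(((2 * Real.pi) ^ 3)⁻¹ *
        ∫ x in cube, Real.sin (phase k x) * ⟪buildDU a b x (buildU a b x), c⟫) := by
      rw [hre', build_re]
    rw [this, mul_neg, mul_inv_cancel_left₀ hpi, neg_neg]

theorem claimBuild (hConv : ClaimConv) : ClaimBuild := by
  intro B T K a b a' b' hB hT h
  have hsub : ∀ t ∈ Ico 0 T, t ∈ Icc 0 T := fun t ht => Ico_subset_Icc_self ht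
  have bda : ∀ k, ∀ t ∈ Icc 0 T, ‖a k t‖ ≤ K * Real.exp (-‖vec k‖) := fun k t ht =>
    le_trans (le_add_of_nonneg_right (norm_nonneg _)) (h.bd k t ht)
  have bdb : ∀ k, ∀ t ∈ Icc 0 T, ‖b k t‖ ≤ K * Real.exp (-‖vec k‖) := fun k t ht =>
    le_trans (le_add_of_nonneg_left (norm_nonneg _)) (h.bd k t ht)
  have bda' : ∀ k, ∀ t ∈ Icc 0 T, ‖a' k t‖ ≤ K * Real.exp (-‖vec k‖) := fun k t ht =>
    le_trans (le_add_of_nonneg_right (norm_nonneg _)) (h.bd' k t ht)
  have bdb' : ∀ k, ∀ t ∈ Icc 0 T, ‖b' k t‖ ≤ K * Real.exp (-‖vec k‖) := fun k t ht =>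
    le_trans (le_add_of_nonneg_left (norm_nonneg _)) (h.bd' k t ht)
  have ha : ∀ t ∈ Icc 0 T, BuildSum fun k => a k t := fun t ht =>
    build_sum_of_bd fun k => bda k t ht
  have hb : ∀ t ∈ Icc 0 T, BuildSum fun k => b k t := fun t ht =>
    build_sum_of_bd fun k => bdb k t ht
  have ha' : ∀ t ∈ Icc 0 T, BuildSum fun k => a' k t := fun t ht =>
    build_sum_of_bd fun k => bda' k t ht
  have hb' : ∀ t ∈ Icc 0 T, BuildSum fun k => b' k t := fun t ht =>
    build_sum_of_bd fun k => bdb' k t ht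
  have hodd' : ∀ k, ∀ t ∈ Icc 0 T, b' (-k) t = -b' k t := by
    intro k t ht
    exact (uniqueDiffOn_Icc hT t ht).eq_deriv _ (h.deriv_b (-k) t ht)
      (((h.deriv_b k t ht).neg).congr (fun s hs => h.odd k s hs) (h.odd k t ht))
  have heven' : ∀ k, ∀ t ∈ Icc 0 T, a' (-k) t = a' k t := by
    intro k t ht
    exact (uniqueDiffOn_Icc hT t ht).eq_deriv _ (h.deriv_a (-k) t ht)
      ((h.deriv_a k t ht).congr (fun s hs => h.even k s hs) (h.even k t ht))
  have heq : ∀ t ∈ Ico 0 T, ∀ x : E3,
      ∑' k, (Real.cos (phase k x) • a k t + Real.sin (phase k x) • b k t) =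
        buildU (fun k => a k t) (fun k => b k t) x := fun t ht x =>
    build_tsum_U (ha t (hsub t ht)) (hb t (hsub t ht)) x
  have hpa := build_part hT (Real.pi / 2) h.deriv_a h.cont_a bda bda'
  have hpb := build_part hT 0 h.deriv_b h.cont_b bdb bdb'
  -- time derivative
  have hdt : ∀ t ∈ Ico 0 T, ∀ x : E3,
      derivWithin (fun s => ∑' k, (Real.cos (phase k x) • a k s + Real.sin (phase k x) • b k s))
        (Ico 0 T) t = buildU (fun k => a' k t) (fun k => b' k t) x := by
    intro t ht x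
    have h1 := (hpa.2 t ht x).add (hpb.2 t ht x)
    exact (h1.congr (fun s hs => heq s hs x) (heq t ht x)).derivWithin
      (uniqueDiffOn_Ico 0 T t ht)
  -- space derivative
  have hdx : ∀ t ∈ Ico 0 T, ∀ x : E3,
      fderiv ℝ (fun x => ∑' k, (Real.cos (phase k x) • a k t + Real.sin (phase k x) • b k t)) x =
        buildDU (fun k => a k t) (fun k => b k t) x := by
    intro t ht x
    have h1 : (fun x => ∑' k, (Real.cos (phase k x) • a k t + Real.sin (phase k x) • b k t)) =
        buildU (fun k => a k t) (fun k => b k t) := funext fun x => heq t ht x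
    rw [h1]
    exact (build_fderiv_U (ha t (hsub t ht)) (hb t (hsub t ht)) x).fderiv
  have hC1 : ContDiffOn ℝ 1 (fun z : ℝ × E3 =>
      ∑' k, (Real.cos (phase k z.2) • a k z.1 + Real.sin (phase k z.2) • b k z.1))
      (Ico 0 T ×ˢ univ) :=
    (hpa.1.add hpb.1).congr fun z hz => heq z.1 hz.1 z.2
  refine ⟨hC1, fun t ht i x => ?_, fun t ht x => ?_, fun t ht k c hc => ?_,
    fun t ht k c hc => ?_⟩
  · rw [heq t ht, heq t ht]
    exact build_per_U _ _ i x
  · rw [hdx t ht x]
    exact build_trace_DU (ha t (hsub t ht)) (hb t (hsub t ht))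
      (fun k => h.div_a k t (hsub t ht)) (fun k => h.div_b k t (hsub t ht)) x
  · have ht' := hsub t ht
    have hcos : Continuous fun x => Real.cos (phase k x) :=
      Real.continuous_cos.comp (continuous_phase k)
    have e1 : ∫ x in cube, Real.cos (phase k x) *
        ⟪derivWithin (fun s => ∑' k, (Real.cos (phase k x) • a k s +
            Real.sin (phase k x) • b k s)) (Ico 0 T) t +
          fderiv ℝ (fun x => ∑' k, (Real.cos (phase k x) • a k t +
            Real.sin (phase k x) • b k t)) x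
            (∑' k, (Real.cos (phase k x) • a k t + Real.sin (phase k x) • b k t)), c⟫ =
        (∫ x in cube, Real.cos (phase k x) *
          ⟪buildU (fun k => a' k t) (fun k => b' k t) x, c⟫) +
        ∫ x in cube, Real.cos (phase k x) *
          ⟪buildDU (fun k => a k t) (fun k => b k t) x
            (buildU (fun k => a k t) (fun k => b k t) x), c⟫ := by
      rw [← integral_add]
      · congr 1
        funext x
        rw [hdt t ht x, hdx t ht x, heq t ht x, inner_add_left, mul_add]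
      · exact integrable_cube (hcos.mul ((build_cont_U (ha' t ht') (hb' t ht')).inner
          continuous_const))
      · exact integrable_cube (hcos.mul (((build_cont_DU (ha t ht') (hb t ht')).clm_apply
          (build_cont_U (ha t ht') (hb t ht'))).inner continuous_const))
    have e2 : ∫ x in cube, Real.sin (phase k x) *
        ⟪∑' k, (Real.cos (phase k x) • a k t + Real.sin (phase k x) • b k t), B k c⟫ =
        (2 * Real.pi) ^ 3 * ⟪b k t, B k c⟫ := by
      simp_rw [heq t ht]
      exact build_sin_U (ha t ht') (hb t ht') (fun k => h.odd k t ht') k (B k c)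
    rw [e1, e2, build_cos_U (ha' t ht') (hb' t ht') (fun k => heven' k t ht') k c,
      (build_conv hConv (ha t ht') (hb t ht') (fun k => h.even k t ht')
        (fun k => h.odd k t ht') (fun k => h.div_a k t ht') (fun k => h.div_b k t ht') k c).1,
      h.eqn_a k t ht' c hc]
    ring
  · have ht' := hsub t ht
    have hsin : Continuous fun x => Real.sin (phase k x) :=
      Real.continuous_sin.comp (continuous_phase k)
    have e1 : ∫ x in cube, Real.sin (phase k x) *
        ⟪derivWithin (fun s => ∑' k, (Real.cos (phase k x) • a k s +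
            Real.sin (phase k x) • b k s)) (Ico 0 T) t +
          fderiv ℝ (fun x => ∑' k, (Real.cos (phase k x) • a k t +
            Real.sin (phase k x) • b k t)) x
            (∑' k, (Real.cos (phase k x) • a k t + Real.sin (phase k x) • b k t)), c⟫ =
        (∫ x in cube, Real.sin (phase k x) *
          ⟪buildU (fun k => a' k t) (fun k => b' k t) x, c⟫) +
        ∫ x in cube, Real.sin (phase k x) *
          ⟪buildDU (fun k => a k t) (fun k => b k t) x
            (buildU (fun k => a k t) (fun k => b k t) x), c⟫ := by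
      rw [← integral_add]
      · congr 1
        funext x
        rw [hdt t ht x, hdx t ht x, heq t ht x, inner_add_left, mul_add]
      · exact integrable_cube (hsin.mul ((build_cont_U (ha' t ht') (hb' t ht')).inner
          continuous_const))
      · exact integrable_cube (hsin.mul (((build_cont_DU (ha t ht') (hb t ht')).clm_apply
          (build_cont_U (ha t ht') (hb t ht'))).inner continuous_const))
    have e2 : ∫ x in cube, Real.cos (phase k x) *
        ⟪∑' k, (Real.cos (phase k x) • a k t + Real.sin (phase k x) • b k t), B k c⟫ =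
        (2 * Real.pi) ^ 3 * ⟪a k t, B k c⟫ := by
      simp_rw [heq t ht]
      exact build_cos_U (ha t ht') (hb t ht') (fun k => h.even k t ht') k (B k c)
    rw [e1, e2, build_sin_U (ha' t ht') (hb' t ht') (fun k => hodd' k t ht') k c,
      (build_conv hConv (ha t ht') (hb t ht') (fun k => h.even k t ht')
        (fun k => h.odd k t ht') (fun k => h.div_a k t ht') (fun k => h.div_b k t ht') k c).2,
      h.eqn_b k t ht' c hc]
    ring

end Pool.Agent.Work.MP_b0497c_an.Disp
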