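import Mathlib
import Pool.Agent.Work.MP_b0497c_an.Disp.Stmts
import Pool.Agent.Work.MP_b0497c_an.Damp.Coeff

set_option autoImplicit false

/-!
The unitary group of the dispersive term, acting on pairs of vectors (real and imaginary parts of
the coefficients).
-/

namespace Pool.Agent.Work.MP_b0497c_an.Disp

open Set MeasureTheory RealInnerProductSpace Pool.Agent.Work.MP_b0497c_an
open Pool.Agent.Work.MP_b0497c_an.Dec
open Pool.Agent.Work.MP_b0497c_an.Damp (coeffBox coeffBox_mem coeffBox_neg coeffBox_add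
  coeffBox_exists coeff_vec_neg coeff_norm_le coeffPj coeffPj_inner coeffPj_test coeffPj_norm
  coeffPj_neg coeff_shift coeffTime coeffCl coeffCl_mem coeffCl_eq coeffCl_cont coeff_catalan_le
  coeff_exp_aux coeff_geom coeff_summ)

/-! ### Groups generated by skew maps -/

section abstract

variable {V : Type} [NormedAddCommGroup V] [InnerProductSpace ℝ V] [CompleteSpace V]

/-- The group generated by `G`. -/
noncomputable def expG (G : V →L[ℝ] V) (t : ℝ) : V →L[ℝ] V := NormedSpace.exp (t • G)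

lemma expG_zero (G : V →L[ℝ] V) : expG G 0 = 1 := by
  unfold expG
  rw [zero_smul, NormedSpace.exp_zero]

lemma expG_zero_apply (G : V →L[ℝ] V) (w : V) : expG G 0 w = w := by
  rw [expG_zero]; rfl

lemma expG_add (G : V →L[ℝ] V) (s t : ℝ) : expG G (s + t) = expG G s * expG G t := by
  let _ : NormedAlgebra ℚ (V →L[ℝ] V) := NormedAlgebra.restrictScalars ℚ ℝ (V →L[ℝ] V)
  unfold expG
  have h : (s + t) • G = s • G + t • G := add_smul s t G
  rw [h]
  exact NormedSpace.exp_add_of_commute (((Commute.refl G).smul_left s).smul_right t)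

lemma expG_add_apply (G : V →L[ℝ] V) (s t : ℝ) (w : V) :
    expG G (s + t) w = expG G s (expG G t w) := by
  rw [expG_add]; rfl

lemma expG_deriv (G : V →L[ℝ] V) (t : ℝ) : HasDerivAt (expG G) (G * expG G t) t :=
  hasDerivAt_exp_smul_const' (𝕂 := ℝ) G t

lemma expG_comm (G : V →L[ℝ] V) (t : ℝ) : G * expG G t = expG G t * G :=
  (expG_deriv G t).unique (hasDerivAt_exp_smul_const (𝕂 := ℝ) G t)

lemma expG_cont (G : V →L[ℝ] V) : Continuous (expG G) :=
  continuous_iff_continuousAt.2 fun t => (expG_deriv G t).continuousAt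

lemma expG_deriv_apply (G : V →L[ℝ] V) (w : V) (t : ℝ) :
    HasDerivAt (fun t => expG G t w) (G (expG G t w)) t := by
  have h := (expG_deriv G t).clm_apply (hasDerivAt_const t w)
  rw [map_zero, add_zero] at h
  exact h

lemma expG_norm {G : V →L[ℝ] V} (hG : ∀ w, ⟪w, G w⟫ = 0) (t : ℝ) (w : V) :
    ‖expG G t w‖ = ‖w‖ := by
  have h1 : ∀ t, HasDerivAt (fun t => ‖expG G t w‖ ^ 2) 0 t := by
    intro t
    have h2 := (expG_deriv_apply G w t).norm_sq
    rw [hG, mul_zero] at h2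
    exact h2
  have h3 := is_const_of_deriv_eq_zero (fun t => (h1 t).differentiableAt)
    (fun t => (h1 t).deriv) t 0
  simp only [expG_zero_apply] at h3
  exact (pow_left_inj₀ (norm_nonneg _) (norm_nonneg _) two_ne_zero).1 h3

lemma expG_inv {G : V →L[ℝ] V} (φ : V →L[ℝ] ℝ) (hφ : ∀ w, φ (G w) = 0) (t : ℝ) (w : V) :
    φ (expG G t w) = φ w := by
  have h1 : ∀ t, HasDerivAt (fun t => φ (expG G t w)) 0 t := by
    intro t
    have h2 := φ.hasFDerivAt.comp_hasDerivAt t (expG_deriv_apply G w t)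
    rw [hφ] at h2
    exact h2
  have h3 := is_const_of_deriv_eq_zero (fun t => (h1 t).differentiableAt)
    (fun t => (h1 t).deriv) t 0
  simp only [expG_zero_apply] at h3
  exact h3

lemma expG_conj {G G' C : V →L[ℝ] V} (h : ∀ w, G' (C w) = C (G w)) (t : ℝ) (w : V) :
    expG G' t (C w) = C (expG G t w) := by
  have h1 : ∀ s, HasDerivAt (fun s => expG G' (-s) (C (expG G s w))) 0 s := by
    intro s
    have h2 : HasDerivAt (fun s => C (expG G s w)) (C (G (expG G s w))) s :=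
      C.hasFDerivAt.comp_hasDerivAt s (expG_deriv_apply G w s)
    have h3 : HasDerivAt (fun s => expG G' (-s)) (-(G' * expG G' (-s))) s := by
      have h5 := (expG_deriv G' (-s)).scomp s (hasDerivAt_neg s)
      rw [neg_one_smul] at h5
      exact h5
    have h4 := h3.clm_apply h2
    refine HasDerivAt.congr_deriv h4 ?_
    rw [expG_comm, ← h]
    simp
  have h3 := is_const_of_deriv_eq_zero (fun t => (h1 t).differentiableAt)
    (fun t => (h1 t).deriv) t 0
  have h4 : expG G' (-t) (C (expG G t w)) = C w := by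
    have h5 : expG G' (-t) (C (expG G t w)) = expG G' (-0) (C (expG G 0 w)) := h3
    rw [h5, neg_zero, expG_zero_apply, expG_zero_apply]
  rw [← h4, ← expG_add_apply, add_neg_cancel, expG_zero_apply]

/-- The Duhamel integral. -/
noncomputable def expDu (G : V →L[ℝ] V) (g : ℝ → V) (t : ℝ) : V :=
  ∫ s in (0 : ℝ)..t, expG G (t - s) (g s)

lemma expDu_g_cont (G : V →L[ℝ] V) {g : ℝ → V} (hg : Continuous g) (t : ℝ) :
    Continuous (fun s => expG G (t - s) (g s)) :=
  ((expG_cont G).comp (continuous_const.sub continuous_id)).clm_apply hg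

lemma expDu_eq (G : V →L[ℝ] V) {g : ℝ → V} (hg : Continuous g) (t : ℝ) :
    expDu G g t = expG G t (∫ s in (0 : ℝ)..t, expG G (-s) (g s)) := by
  unfold expDu
  have hc : Continuous (fun s => expG G (-s) (g s)) :=
    ((expG_cont G).comp continuous_neg).clm_apply hg
  rw [← (expG G t).intervalIntegral_comp_comm (hc.intervalIntegrable _ _)]
  congr 1
  ext s : 1
  rw [← expG_add_apply, sub_eq_add_neg]

lemma expDu_zero (G : V →L[ℝ] V) (g : ℝ → V) : expDu G g 0 = 0 := by simp [expDu]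

lemma expDu_deriv (G : V →L[ℝ] V) {g : ℝ → V} (hg : Continuous g) (t : ℝ) :
    HasDerivAt (expDu G g) (g t + G (expDu G g t)) t := by
  have hc : Continuous (fun s => expG G (-s) (g s)) :=
    ((expG_cont G).comp continuous_neg).clm_apply hg
  have h1 : HasDerivAt (fun t => ∫ s in (0 : ℝ)..t, expG G (-s) (g s)) (expG G (-t) (g t)) t :=
    intervalIntegral.integral_hasDerivAt_right (hc.intervalIntegrable _ _)
      (hc.stronglyMeasurableAtFilter _ _) hc.continuousAt
  have h3 := (expG_deriv G t).clm_apply h1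
  have e1 : expDu G g = fun t => expG G t (∫ s in (0 : ℝ)..t, expG G (-s) (g s)) :=
    funext (expDu_eq G hg)
  rw [e1]
  refine HasDerivAt.congr_deriv h3 ?_
  rw [← expG_add_apply, add_neg_cancel, expG_zero_apply, add_comm]
  rfl

lemma expDu_cont (G : V →L[ℝ] V) {g : ℝ → V} (hg : Continuous g) : Continuous (expDu G g) :=
  continuous_iff_continuousAt.2 fun t => (expDu_deriv G hg t).continuousAt

lemma expDu_norm {G : V →L[ℝ] V} (hG : ∀ w, ⟪w, G w⟫ = 0) {g : ℝ → V} {t : ℝ} (ht : 0 ≤ t) :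
    ‖expDu G g t‖ ≤ ∫ s in (0 : ℝ)..t, ‖g s‖ := by
  unfold expDu
  refine (intervalIntegral.norm_integral_le_integral_norm ht).trans ?_
  apply le_of_eq
  congr 1
  ext s : 1
  rw [expG_norm hG]

lemma expDu_hasSum {G : V →L[ℝ] V} (hG : ∀ w, ⟪w, G w⟫ = 0) {g : ℕ → ℝ → V} {g' : ℝ → V}
    {u : ℕ → ℝ} {t : ℝ} (ht : 0 ≤ t) (hg : ∀ m, Continuous (g m)) (hu : Summable u)
    (hb : ∀ m, ∀ s ∈ Icc 0 t, ‖g m s‖ ≤ u m)
    (hs : ∀ s ∈ Icc 0 t, HasSum (fun m => g m s) (g' s)) :
    HasSum (fun m => expDu G (g m) t) (expDu G g' t) := by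
  have hsub : ∀ s ∈ uIoc 0 t, s ∈ Icc 0 t := by
    intro s hs
    rw [uIoc_of_le ht] at hs
    exact ⟨hs.1.le, hs.2⟩
  have hmeas : ∀ m, AEStronglyMeasurable (fun s => expG G (t - s) (g m s))
      (volume.restrict (uIoc 0 t)) := fun m =>
    (expDu_g_cont G (hg m) t).aestronglyMeasurable
  have hbd : ∀ m, ∀ᵐ s ∂volume, s ∈ uIoc 0 t → ‖expG G (t - s) (g m s)‖ ≤ u m := by
    intro m
    refine Filter.Eventually.of_forall fun s hs => ?_
    rw [expG_norm hG]
    exact hb m s (hsub s hs)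
  exact intervalIntegral.hasSum_integral_of_dominated_convergence (fun m _ => u m) hmeas hbd
    (Filter.Eventually.of_forall fun s _ => hu) intervalIntegrable_const
    (Filter.Eventually.of_forall fun s hs' => (expG G (t - s)).hasSum (hs s (hsub s hs')))

lemma expDu_conj {G G' C : V →L[ℝ] V} (h : ∀ w, G' (C w) = C (G w)) {g : ℝ → V}
    (hg : Continuous g) (t : ℝ) : expDu G' (fun s => C (g s)) t = C (expDu G g t) := by
  unfold expDu
  rw [← C.intervalIntegral_comp_comm ((expDu_g_cont G hg t).intervalIntegrable _ _)]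
  congr 1
  ext s : 1
  rw [expG_conj h]

lemma expDu_inv {G : V →L[ℝ] V} (φ : V →L[ℝ] ℝ) (hφ : ∀ w, φ (G w) = 0) {g : ℝ → V}
    (hg : Continuous g) (h0 : ∀ s, φ (g s) = 0) (t : ℝ) : φ (expDu G g t) = 0 := by
  unfold expDu
  rw [← φ.intervalIntegral_comp_comm ((expDu_g_cont G hg t).intervalIntegrable _ _)]
  simp [expG_inv φ hφ, h0]

end abstract

/-! ### Pairs of vectors -/

/-- Pairs of vectors. -/
def CV : Type := WithLp 2 (E3 × E3)

noncomputable instance : NormedAddCommGroup CV :=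
  inferInstanceAs (NormedAddCommGroup (WithLp 2 (E3 × E3)))

noncomputable instance : InnerProductSpace ℝ CV :=
  inferInstanceAs (InnerProductSpace ℝ (WithLp 2 (E3 × E3)))

noncomputable instance : CompleteSpace CV :=
  inferInstanceAs (CompleteSpace (WithLp 2 (E3 × E3)))

/-- The first component. -/
noncomputable def coeffFst : CV →L[ℝ] E3 := WithLp.fstL 2 ℝ E3 E3

/-- The second component. -/
noncomputable def coeffSnd : CV →L[ℝ] E3 := WithLp.sndL 2 ℝ E3 E3

/-- The identification with pairs. -/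
noncomputable def coeffEq : CV ≃L[ℝ] E3 × E3 := WithLp.prodContinuousLinearEquiv 2 ℝ E3 E3

/-- The map with the given components. -/
noncomputable def coeffMk (f g : CV →L[ℝ] E3) : CV →L[ℝ] CV :=
  (coeffEq.symm : E3 × E3 →L[ℝ] CV).comp (f.prod g)

lemma coeffFst_mk (f g : CV →L[ℝ] E3) (w : CV) : coeffFst (coeffMk f g w) = f w := rfl

lemma coeffSnd_mk (f g : CV →L[ℝ] E3) (w : CV) : coeffSnd (coeffMk f g w) = g w := rfl

lemma coeffV_ext {v w : CV} (h1 : coeffFst v = coeffFst w) (h2 : coeffSnd v = coeffSnd w) :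
    v = w := by
  apply coeffEq.injective
  exact Prod.ext h1 h2

lemma coeffV_inner (v w : CV) : ⟪v, w⟫ = ⟪coeffFst v, coeffFst w⟫ + ⟪coeffSnd v, coeffSnd w⟫ :=
  WithLp.prod_inner_apply v w

lemma coeffV_norm (v : CV) : ‖v‖ ^ 2 = ‖coeffFst v‖ ^ 2 + ‖coeffSnd v‖ ^ 2 :=
  WithLp.prod_norm_sq_eq_of_L2 v

lemma coeffFst_norm (v : CV) : ‖coeffFst v‖ ≤ ‖v‖ := by
  apply le_of_sq_le_sq _ (norm_nonneg _)
  rw [coeffV_norm v]
  linarith [sq_nonneg ‖coeffSnd v‖]

lemma coeffSnd_norm (v : CV) : ‖coeffSnd v‖ ≤ ‖v‖ := by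
  apply le_of_sq_le_sq _ (norm_nonneg _)
  rw [coeffV_norm v]
  linarith [sq_nonneg ‖coeffFst v‖]

lemma coeffV_norm_le {v : CV} {c : ℝ} {x : CV} (hc : 0 ≤ c) (h1 : ‖coeffFst v‖ ≤ c * ‖coeffFst x‖)
    (h2 : ‖coeffSnd v‖ ≤ c * ‖coeffSnd x‖) : ‖v‖ ≤ c * ‖x‖ := by
  apply le_of_sq_le_sq _ (by positivity)
  have h3 := pow_le_pow_left₀ (norm_nonneg _) h1 2
  have h4 := pow_le_pow_left₀ (norm_nonneg _) h2 2
  rw [coeffV_norm v, mul_pow, coeffV_norm x]
  rw [mul_pow] at h3 h4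
  linarith

/-! ### The generator -/

/-- A symmetric map as a continuous linear map. -/
noncomputable def coeffLin (f : E3 → E3) (hf : ∀ b c, ⟪f b, c⟫ = ⟪b, f c⟫) : E3 →L[ℝ] E3 :=
  LinearMap.toContinuousLinearMap
    { toFun := f
      map_add' := fun x y => by
        refine ext_inner_right ℝ fun c => ?_
        rw [hf, inner_add_left, inner_add_left, hf, hf]
      map_smul' := fun r x => by
        refine ext_inner_right ℝ fun c => ?_
        rw [hf, real_inner_smul_left, RingHom.id_apply, real_inner_smul_left, hf] }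

lemma coeffLin_apply (f : E3 → E3) (hf : ∀ b c, ⟪f b, c⟫ = ⟪b, f c⟫) (x : E3) :
    coeffLin f hf x = f x := rfl

section group

variable {B : (Fin 3 → ℤ) → E3 → E3} (hB : IsSymbol B)

/-- The symbol restricted to the vectors orthogonal to `k`. -/
noncomputable def coeffB (k : Fin 3 → ℤ) : E3 →L[ℝ] E3 :=
  (coeffPj k).comp ((coeffLin (B k) (hB.symm k)).comp (coeffPj k))

lemma coeffB_apply (k : Fin 3 → ℤ) (x : E3) :
    coeffB hB k x = coeffPj k (B k (coeffPj k x)) := rfl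

lemma coeffB_inner (k : Fin 3 → ℤ) (x : E3) : ⟪vec k, coeffB hB k x⟫ = 0 := coeffPj_inner _ _

lemma coeffPj_symm (k : Fin 3 → ℤ) (x y : E3) : ⟪coeffPj k x, y⟫ = ⟪x, coeffPj k y⟫ := by
  unfold coeffPj
  rw [Submodule.inner_starProjection_left_eq_right]

lemma coeffB_symm (k : Fin 3 → ℤ) (x y : E3) : ⟪coeffB hB k x, y⟫ = ⟪x, coeffB hB k y⟫ := by
  rw [coeffB_apply, coeffB_apply, coeffPj_symm, hB.symm, coeffPj_symm]

lemma coeffB_test (k : Fin 3 → ℤ) (x c : E3) (hc : ⟪vec k, c⟫ = 0) :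
    ⟪coeffB hB k x, c⟫ = ⟪x, B k c⟫ := by
  rw [coeffB_apply, coeffPj_test k _ c hc, hB.symm, coeffPj_test k _ _ (hB.perp k c hc)]

lemma coeffB_neg (k : Fin 3 → ℤ) (x : E3) : coeffB hB (-k) x = -coeffB hB k x := by
  rw [coeffB_apply, coeffB_apply, coeffPj_neg, hB.odd, map_neg]

lemma coeffB_norm {C s : ℕ} (hC : ∀ k c, ‖B k c‖ ≤ C * (1 + ‖vec k‖) ^ s * ‖c‖)
    (k : Fin 3 → ℤ) (x : E3) : ‖coeffB hB k x‖ ≤ C * (1 + ‖vec k‖) ^ s * ‖x‖ := by
  rw [coeffB_apply]
  refine (coeffPj_norm k _).trans ((hC k _).trans ?_)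
  exact mul_le_mul_of_nonneg_left (coeffPj_norm k x) (by positivity)

/-- The generator. -/
noncomputable def coeffG (k : Fin 3 → ℤ) : CV →L[ℝ] CV :=
  coeffMk (-((coeffB hB k).comp coeffSnd)) ((coeffB hB k).comp coeffFst)

lemma coeffG_fst (k : Fin 3 → ℤ) (w : CV) : coeffFst (coeffG hB k w) = -coeffB hB k (coeffSnd w) :=
  rfl

lemma coeffG_snd (k : Fin 3 → ℤ) (w : CV) : coeffSnd (coeffG hB k w) = coeffB hB k (coeffFst w) :=
  rfl

lemma coeffG_skew (k : Fin 3 → ℤ) (w : CV) : ⟪w, coeffG hB k w⟫ = 0 := by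
  rw [coeffV_inner, coeffG_fst, coeffG_snd, inner_neg_right, ← coeffB_symm,
    real_inner_comm (coeffSnd w)]
  ring

lemma coeffG_norm {C s : ℕ} (hC : ∀ k c, ‖B k c‖ ≤ C * (1 + ‖vec k‖) ^ s * ‖c‖)
    (k : Fin 3 → ℤ) (w : CV) : ‖coeffG hB k w‖ ≤ C * (1 + ‖vec k‖) ^ s * ‖w‖ := by
  apply le_of_sq_le_sq _ (by positivity)
  have h1 := coeffB_norm hB hC k (coeffSnd w)
  have h2 := coeffB_norm hB hC k (coeffFst w)
  have h3 := pow_le_pow_left₀ (norm_nonneg _) h1 2
  have h4 := pow_le_pow_left₀ (norm_nonneg _) h2 2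
  rw [coeffV_norm, coeffG_fst, coeffG_snd, norm_neg, mul_pow _ ‖w‖, coeffV_norm w]
  rw [mul_pow _ ‖_‖] at h3 h4
  linarith

/-- Complex conjugation. -/
noncomputable def coeffC : CV →L[ℝ] CV := coeffMk coeffFst (-coeffSnd)

lemma coeffC_fst (w : CV) : coeffFst (coeffC w) = coeffFst w := rfl

lemma coeffC_snd (w : CV) : coeffSnd (coeffC w) = -coeffSnd w := rfl

lemma coeffC_C (w : CV) : coeffC (coeffC w) = w := by
  apply coeffV_ext
  · rfl
  · rw [coeffC_snd, coeffC_snd, neg_neg]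

lemma coeffG_C (k : Fin 3 → ℤ) (w : CV) : coeffG hB (-k) (coeffC w) = coeffC (coeffG hB k w) := by
  apply coeffV_ext
  · rw [coeffG_fst, coeffC_snd, coeffC_fst, coeffG_fst, coeffB_neg, map_neg, neg_neg]
  · rw [coeffG_snd, coeffC_fst, coeffC_snd, coeffG_snd, coeffB_neg]

/-- The functional testing the divergence of the first component. -/
noncomputable def coeffDiv1 (k : Fin 3 → ℤ) : CV →L[ℝ] ℝ := (innerSL ℝ (vec k)).comp coeffFst

/-- The functional testing the divergence of the second component. -/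
noncomputable def coeffDiv2 (k : Fin 3 → ℤ) : CV →L[ℝ] ℝ := (innerSL ℝ (vec k)).comp coeffSnd

lemma coeffDiv1_apply (k : Fin 3 → ℤ) (w : CV) : coeffDiv1 k w = ⟪vec k, coeffFst w⟫ := rfl

lemma coeffDiv2_apply (k : Fin 3 → ℤ) (w : CV) : coeffDiv2 k w = ⟪vec k, coeffSnd w⟫ := rfl

lemma coeffDiv1_G (k : Fin 3 → ℤ) (w : CV) : coeffDiv1 k (coeffG hB k w) = 0 := by
  rw [coeffDiv1_apply, coeffG_fst, inner_neg_right, coeffB_inner, neg_zero]

lemma coeffDiv2_G (k : Fin 3 → ℤ) (w : CV) : coeffDiv2 k (coeffG hB k w) = 0 := by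
  rw [coeffDiv2_apply, coeffG_snd, coeffB_inner]

end group

end Pool.Agent.Work.MP_b0497c_an.Disp
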