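import Mathlib
import Pool.Agent.Work.MP_b0497c_an.Disp.CoeffU

set_option autoImplicit false

/-!
Local existence for the Fourier coefficients of the Euler equations with a dispersive term:
expansion in powers of the amplitude. The term of order `m + 1` has finitely many modes, of size
at most `(m + 1) R`.
-/

namespace Pool.Agent.Work.MP_b0497c_an.Disp

open Set MeasureTheory RealInnerProductSpace Pool.Agent.Work.MP_b0497c_an
open Pool.Agent.Work.MP_b0497c_an.Dec
open Pool.Agent.Work.MP_b0497c_an.Damp (coeffBox coeffBox_mem coeffBox_neg coeffBox_add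
  coeffBox_exists coeff_vec_neg coeff_norm_le coeffPj coeffPj_inner coeffPj_test coeffPj_norm
  coeffPj_neg coeff_shift coeffTime coeffCl coeffCl_mem coeffCl_eq coeffCl_cont coeff_catalan_le
  coeff_exp_aux coeff_geom coeff_summ)

/-! ### The product -/

/-- Multiplication by `i`. -/
noncomputable def coeffJ : CV →L[ℝ] CV := coeffMk coeffSnd (-coeffFst)

lemma coeffJ_fst (w : CV) : coeffFst (coeffJ w) = coeffSnd w := rfl

lemma coeffJ_snd (w : CV) : coeffSnd (coeffJ w) = -coeffFst w := rfl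

lemma coeffJ_norm (w : CV) : ‖coeffJ w‖ = ‖w‖ := by
  have h : ‖coeffJ w‖ ^ 2 = ‖w‖ ^ 2 := by
    rw [coeffV_norm, coeffV_norm w, coeffJ_fst, coeffJ_snd, norm_neg, add_comm]
  exact (pow_left_inj₀ (norm_nonneg _) (norm_nonneg _) two_ne_zero).1 h

lemma coeffJ_inner (w : CV) : ⟪coeffJ w, w⟫ = 0 := by
  rw [coeffV_inner, coeffJ_fst, coeffJ_snd, inner_neg_left, real_inner_comm (coeffFst w)]
  ring

lemma coeffJ_C (w : CV) : coeffJ (coeffC w) = -coeffC (coeffJ w) := by
  apply coeffV_ext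
  · rw [map_neg, coeffJ_fst, coeffC_snd, coeffC_fst, coeffJ_fst]
  · rw [map_neg, coeffJ_snd, coeffC_fst, coeffC_snd, coeffJ_snd, neg_neg]

/-- The product. -/
noncomputable def coeffMul (k : Fin 3 → ℤ) (v w : CV) : CV :=
  ⟪coeffFst v, vec k⟫ • coeffJ w + ⟪coeffSnd v, vec k⟫ • w

lemma coeffMul_fst (k : Fin 3 → ℤ) (v w : CV) : coeffFst (coeffMul k v w) =
    ⟪coeffFst v, vec k⟫ • coeffSnd w + ⟪coeffSnd v, vec k⟫ • coeffFst w := by
  unfold coeffMul
  rw [map_add, map_smul, map_smul, coeffJ_fst]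

lemma coeffMul_snd (k : Fin 3 → ℤ) (v w : CV) : coeffSnd (coeffMul k v w) =
    -(⟪coeffFst v, vec k⟫ • coeffFst w) + ⟪coeffSnd v, vec k⟫ • coeffSnd w := by
  unfold coeffMul
  rw [map_add, map_smul, map_smul, coeffJ_snd, smul_neg]

lemma coeffMul_zero_right (k : Fin 3 → ℤ) (v : CV) : coeffMul k v 0 = 0 := by
  unfold coeffMul
  rw [map_zero, smul_zero, smul_zero, add_zero]

lemma coeffMul_norm (k : Fin 3 → ℤ) (v w : CV) : ‖coeffMul k v w‖ ≤ ‖v‖ * ‖vec k‖ * ‖w‖ := by
  apply le_of_sq_le_sq _ (by positivity)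
  have h1 : ‖coeffMul k v w‖ ^ 2 =
      (⟪coeffFst v, vec k⟫ ^ 2 + ⟪coeffSnd v, vec k⟫ ^ 2) * ‖w‖ ^ 2 := by
    unfold coeffMul
    rw [norm_add_sq_real, real_inner_smul_left, real_inner_smul_right, coeffJ_inner, norm_smul,
      norm_smul, coeffJ_norm, mul_pow, mul_pow, Real.norm_eq_abs, Real.norm_eq_abs, sq_abs, sq_abs]
    ring
  have h2 : ∀ x : E3, ⟪x, vec k⟫ ^ 2 ≤ ‖x‖ ^ 2 * ‖vec k‖ ^ 2 := by
    intro x
    rw [← mul_pow]
    exact sq_le_sq' (by linarith [(abs_le.1 (abs_real_inner_le_norm x (vec k))).1])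
      (abs_le.1 (abs_real_inner_le_norm x (vec k))).2
  have h3 := h2 (coeffFst v)
  have h4 := h2 (coeffSnd v)
  rw [h1]
  calc _ ≤ (‖coeffFst v‖ ^ 2 * ‖vec k‖ ^ 2 + ‖coeffSnd v‖ ^ 2 * ‖vec k‖ ^ 2) * ‖w‖ ^ 2 := by
        gcongr
    _ = (‖v‖ * ‖vec k‖ * ‖w‖) ^ 2 := by rw [mul_pow, mul_pow, coeffV_norm v]; ring

lemma coeffMul_C (k : Fin 3 → ℤ) (v w : CV) :
    coeffMul (-k) (coeffC v) (coeffC w) = coeffC (coeffMul k v w) := by
  unfold coeffMul
  rw [coeffC_fst, coeffC_snd, coeff_vec_neg, coeffJ_C, map_add, map_smul, map_smul, inner_neg_neg,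
    inner_neg_right, neg_smul, smul_neg, neg_neg]

lemma coeffMul_cont (k : Fin 3 → ℤ) {v w : ℝ → CV} (hv : Continuous v) (hw : Continuous w) :
    Continuous (fun s => coeffMul k (v s) (w s)) := by
  unfold coeffMul
  exact ((Continuous.inner (𝕜 := ℝ) (coeffFst.continuous.comp hv) continuous_const).smul
    (coeffJ.continuous.comp hw)).add
    ((Continuous.inner (𝕜 := ℝ) (coeffSnd.continuous.comp hv) continuous_const).smul hw)

/-- The projection. -/
noncomputable def coeffPP (k : Fin 3 → ℤ) : CV →L[ℝ] CV :=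
  coeffMk ((coeffPj k).comp coeffFst) ((coeffPj k).comp coeffSnd)

lemma coeffPP_fst (k : Fin 3 → ℤ) (w : CV) : coeffFst (coeffPP k w) = coeffPj k (coeffFst w) := rfl

lemma coeffPP_snd (k : Fin 3 → ℤ) (w : CV) : coeffSnd (coeffPP k w) = coeffPj k (coeffSnd w) := rfl

lemma coeffPP_norm (k : Fin 3 → ℤ) (w : CV) : ‖coeffPP k w‖ ≤ ‖w‖ := by
  have h := coeffV_norm_le (v := coeffPP k w) (x := w) (c := 1) zero_le_one
    (by rw [one_mul]; exact coeffPj_norm k _) (by rw [one_mul]; exact coeffPj_norm k _)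
  rwa [one_mul] at h

lemma coeffPP_C (k : Fin 3 → ℤ) (w : CV) : coeffPP (-k) (coeffC w) = coeffC (coeffPP k w) := by
  apply coeffV_ext
  · rw [coeffPP_fst, coeffC_fst, coeffC_fst, coeffPP_fst, coeffPj_neg]
  · rw [coeffPP_snd, coeffC_snd, coeffC_snd, coeffPP_snd, coeffPj_neg, map_neg]

/-! ### The expansion -/

/-- The terms of the expansion in powers of the amplitude. -/
noncomputable def coeffT (G : (Fin 3 → ℤ) → CV →L[ℝ] CV) (w : (Fin 3 → ℤ) → CV) (M : ℕ) :
    ℕ → (Fin 3 → ℤ) → ℝ → CV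
  | 0, k, t => expG (G k) t (w k)
  | (m + 1), k, t => -expDu (G k) (fun s => coeffPP k (∑ i : Fin (m + 1),
      ∑ p ∈ coeffBox (((i : ℕ) + 1) * M),
        coeffMul k (coeffT G w M (i : ℕ) p s) (coeffT G w M (m - i) (k - p) s))) t
  termination_by m => m
  decreasing_by
    · exact i.2
    · omega

/-- The nonlinearity of order `m + 2`. -/
noncomputable def coeffN (G : (Fin 3 → ℤ) → CV →L[ℝ] CV) (w : (Fin 3 → ℤ) → CV) (M m : ℕ)
    (k : Fin 3 → ℤ) (s : ℝ) : CV :=
  coeffPP k (∑ i ∈ Finset.range (m + 1), ∑ p ∈ coeffBox ((i + 1) * M),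
    coeffMul k (coeffT G w M i p s) (coeffT G w M (m - i) (k - p) s))

section expansion

variable {G : (Fin 3 → ℤ) → CV →L[ℝ] CV} {w : (Fin 3 → ℤ) → CV} {M : ℕ}

lemma coeffT_zero (k : Fin 3 → ℤ) (t : ℝ) : coeffT G w M 0 k t = expG (G k) t (w k) := by
  rw [coeffT]

lemma coeffT_succ (m : ℕ) (k : Fin 3 → ℤ) (t : ℝ) :
    coeffT G w M (m + 1) k t = -expDu (G k) (coeffN G w M m k) t := by
  rw [coeffT]
  congr 2
  funext s
  unfold coeffN
  rw [Finset.sum_range]

lemma coeffT_supp (hb : ∀ k ∉ coeffBox M, w k = 0) (m : ℕ) : ∀ k ∉ coeffBox ((m + 1) * M), ∀ t,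
    coeffT G w M m k t = 0 := by
  induction m using Nat.strong_induction_on with
  | _ m ih =>
    intro k hk t
    cases m with
    | zero =>
      rw [coeffT_zero, hb k (by simpa using hk), map_zero]
    | succ m =>
      rw [coeffT_succ]
      have : coeffN G w M m k = fun _ => 0 := by
        funext s
        unfold coeffN
        rw [Finset.sum_eq_zero, map_zero]
        intro i hi
        rw [Finset.mem_range] at hi
        apply Finset.sum_eq_zero
        intro p hp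
        rw [ih (m - i) (by omega) (k - p) _ s, coeffMul_zero_right]
        intro hq
        apply hk
        apply coeffBox_add hp hq
        have : i + (m - i) = m := by omega
        calc (i + 1) * M + (m - i + 1) * M = (i + (m - i) + 2) * M := by ring
          _ = (m + 1 + 1) * M := by rw [this]
      rw [this]
      simp [expDu]

lemma coeffN_supp (hb : ∀ k ∉ coeffBox M, w k = 0) (m : ℕ) : ∀ k ∉ coeffBox ((m + 2) * M), ∀ s,
    coeffN G w M m k s = 0 := by
  intro k hk s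
  unfold coeffN
  rw [Finset.sum_eq_zero, map_zero]
  intro i hi
  rw [Finset.mem_range] at hi
  apply Finset.sum_eq_zero
  intro p hp
  rw [coeffT_supp hb (m - i) (k - p) _ s, coeffMul_zero_right]
  intro hq
  apply hk
  apply coeffBox_add hp hq
  have : i + (m - i) = m := by omega
  calc (i + 1) * M + (m - i + 1) * M = (i + (m - i) + 2) * M := by ring
    _ = (m + 2) * M := by rw [this]

lemma coeffN_cont_of (m : ℕ) (h : ∀ i ≤ m, ∀ k, Continuous (coeffT G w M i k)) (k : Fin 3 → ℤ) :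
    Continuous (coeffN G w M m k) := by
  unfold coeffN
  refine (coeffPP k).continuous.comp ?_
  refine continuous_finsetSum _ fun i hi => ?_
  rw [Finset.mem_range] at hi
  refine continuous_finsetSum _ fun p _ => ?_
  exact coeffMul_cont k (h i (by omega) p) (h (m - i) (by omega) (k - p))

lemma coeffT_cont (m : ℕ) : ∀ k, Continuous (coeffT G w M m k) := by
  induction m using Nat.strong_induction_on with
  | _ m ih =>
    intro k
    cases m with
    | zero =>
      have : coeffT G w M 0 k = fun t => expG (G k) t (w k) :=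
        funext fun t => coeffT_zero k t
      rw [this]
      exact (expG_cont (G k)).clm_apply continuous_const
    | succ m =>
      have : coeffT G w M (m + 1) k = fun t => -expDu (G k) (coeffN G w M m k) t :=
        funext fun t => coeffT_succ m k t
      rw [this]
      exact (expDu_cont (G k) (coeffN_cont_of m (fun i hi => ih i (by omega)) k)).neg

lemma coeffN_cont (m : ℕ) (k : Fin 3 → ℤ) : Continuous (coeffN G w M m k) :=
  coeffN_cont_of m (fun i _ => coeffT_cont i) k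

lemma coeffN_C_of (m : ℕ) (h : ∀ i ≤ m, ∀ k s, coeffT G w M i (-k) s = coeffC (coeffT G w M i k s))
    (k : Fin 3 → ℤ) (s : ℝ) : coeffN G w M m (-k) s = coeffC (coeffN G w M m k s) := by
  unfold coeffN
  rw [← coeffPP_C]
  congr 1
  rw [map_sum]
  refine Finset.sum_congr rfl fun i hi => ?_
  rw [Finset.mem_range] at hi
  rw [map_sum]
  refine Finset.sum_nbij' (fun p => -p) (fun p => -p) ?_ ?_ ?_ ?_ ?_
  · exact fun p hp => coeffBox_neg.2 hp
  · exact fun p hp => coeffBox_neg.2 hp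
  · exact fun p _ => neg_neg p
  · exact fun p _ => neg_neg p
  · intro p _
    have e1 : -k - p = -(k - -p) := by abel
    have e2 : coeffT G w M i p s = coeffC (coeffT G w M i (-p) s) := by
      rw [← h i (by omega), neg_neg]
    rw [e1, h (m - i) (by omega), e2, coeffMul_C]

lemma coeffT_C (hG : ∀ k x, G (-k) (coeffC x) = coeffC (G k x)) (hw : ∀ k, w (-k) = coeffC (w k))
    (m : ℕ) : ∀ k t, coeffT G w M m (-k) t = coeffC (coeffT G w M m k t) := by
  induction m using Nat.strong_induction_on with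
  | _ m ih =>
    intro k t
    cases m with
    | zero => rw [coeffT_zero, coeffT_zero, hw, expG_conj (hG k)]
    | succ m =>
      rw [coeffT_succ, coeffT_succ]
      have : coeffN G w M m (-k) = fun s => coeffC (coeffN G w M m k s) :=
        funext fun s => coeffN_C_of m (fun i hi => ih i (by omega)) k s
      rw [this, expDu_conj (hG k) (coeffN_cont m k), map_neg]

lemma coeffN_div1 (m : ℕ) (k : Fin 3 → ℤ) (s : ℝ) : coeffDiv1 k (coeffN G w M m k s) = 0 :=
  coeffPj_inner _ _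

lemma coeffN_div2 (m : ℕ) (k : Fin 3 → ℤ) (s : ℝ) : coeffDiv2 k (coeffN G w M m k s) = 0 :=
  coeffPj_inner _ _

/-- The sum of the norms of the coefficients. -/
noncomputable def coeffA (G : (Fin 3 → ℤ) → CV →L[ℝ] CV) (w : (Fin 3 → ℤ) → CV) (M m : ℕ) (t : ℝ) : ℝ :=
  ∑ k ∈ coeffBox ((m + 1) * M), ‖coeffT G w M m k t‖

lemma coeffA_nonneg (m : ℕ) (t : ℝ) : 0 ≤ coeffA G w M m t :=
  Finset.sum_nonneg fun _ _ => norm_nonneg _

lemma coeffN_sum (hb : ∀ k ∉ coeffBox M, w k = 0) (m : ℕ) (s : ℝ) :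
    ∑ k ∈ coeffBox ((m + 2) * M), ‖coeffN G w M m k s‖ ≤
      2 * (((m + 2) * M : ℕ) : ℝ) *
        ∑ i ∈ Finset.range (m + 1), coeffA G w M i s * coeffA G w M (m - i) s := by
  have h1 : ∀ k ∈ coeffBox ((m + 2) * M), ‖coeffN G w M m k s‖ ≤
      2 * (((m + 2) * M : ℕ) : ℝ) * ∑ i ∈ Finset.range (m + 1), ∑ p ∈ coeffBox ((i + 1) * M),
        ‖coeffT G w M i p s‖ * ‖coeffT G w M (m - i) (k - p) s‖ := by
    intro k hk
    refine (coeffPP_norm k _).trans ?_
    rw [Finset.mul_sum]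
    refine (norm_sum_le _ _).trans (Finset.sum_le_sum fun i _ => ?_)
    rw [Finset.mul_sum]
    refine (norm_sum_le _ _).trans (Finset.sum_le_sum fun p _ => ?_)
    refine (coeffMul_norm k _ _).trans ?_
    calc _ ≤ ‖coeffT G w M i p s‖ * (2 * (((m + 2) * M : ℕ) : ℝ)) *
          ‖coeffT G w M (m - i) (k - p) s‖ := by
          have h2 := coeff_norm_le hk
          gcongr
      _ = _ := by ring
  refine (Finset.sum_le_sum h1).trans ?_
  rw [← Finset.mul_sum]
  refine mul_le_mul_of_nonneg_left ?_ (by positivity)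
  rw [Finset.sum_comm]
  refine Finset.sum_le_sum fun i _ => ?_
  rw [Finset.sum_comm]
  unfold coeffA
  rw [Finset.sum_mul]
  refine Finset.sum_le_sum fun p _ => ?_
  rw [← Finset.mul_sum]
  refine mul_le_mul_of_nonneg_left ?_ (norm_nonneg _)
  exact coeff_shift (f := fun q => ‖coeffT G w M (m - i) q s‖) (fun q => norm_nonneg _)
    (fun q hq => by rw [coeffT_supp hb (m - i) q hq s, norm_zero]) _ p

lemma coeffN_le_of (hb : ∀ k ∉ coeffBox M, w k = 0) {A : ℝ} (hA0 : 0 ≤ A) (m : ℕ) (s : ℝ)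
    (hs : 0 ≤ s)
    (ih : ∀ i ≤ m, coeffA G w M i s ≤ catalan i * A ^ (i + 1) * (4 * M) ^ i * s ^ i) :
    ∑ k ∈ coeffBox ((m + 2) * M), ‖coeffN G w M m k s‖ ≤
      2 * (((m + 2) * M : ℕ) : ℝ) * (A ^ (m + 2) * (4 * M) ^ m * catalan (m + 1) * s ^ m) := by
  refine (coeffN_sum hb m s).trans (mul_le_mul_of_nonneg_left ?_ (by positivity))
  have e1 : A ^ (m + 2) * (4 * M) ^ m * catalan (m + 1) * s ^ m = ∑ i ∈ Finset.range (m + 1),
      (catalan i * A ^ (i + 1) * (4 * M) ^ i * s ^ i) *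
      (catalan (m - i) * A ^ (m - i + 1) * (4 * M) ^ (m - i) * s ^ (m - i)) := by
    rw [catalan_succ, ← Finset.sum_range (fun i => catalan i * catalan (m - i))]
    push_cast
    rw [Finset.mul_sum, Finset.sum_mul]
    refine Finset.sum_congr rfl fun i hi => ?_
    rw [Finset.mem_range] at hi
    obtain ⟨j, rfl⟩ : ∃ j, m = i + j := ⟨m - i, by omega⟩
    rw [Nat.add_sub_cancel_left]
    ring
  rw [e1]
  refine Finset.sum_le_sum fun i hi => ?_
  rw [Finset.mem_range] at hi
  exact mul_le_mul (ih i (by omega)) (ih (m - i) (by omega)) (coeffA_nonneg _ _) (by positivity)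

lemma coeffA_le (hG : ∀ k x, ⟪x, G k x⟫ = 0) (hb : ∀ k ∉ coeffBox M, w k = 0) {A : ℝ}
    (hA : ∑ k ∈ coeffBox M, ‖w k‖ ≤ A) (m : ℕ) : ∀ t : ℝ, 0 ≤ t →
    coeffA G w M m t ≤ catalan m * A ^ (m + 1) * (4 * M) ^ m * t ^ m := by
  have hA0 : 0 ≤ A := (Finset.sum_nonneg fun _ _ => norm_nonneg _).trans hA
  induction m using Nat.strong_induction_on with
  | _ m ih =>
    intro t ht
    cases m with
    | zero =>
      simp only [catalan_zero, Nat.cast_one, zero_add, pow_one, pow_zero, mul_one, one_mul]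
      refine le_trans ?_ hA
      unfold coeffA
      rw [zero_add, one_mul]
      refine Finset.sum_le_sum fun k _ => ?_
      rw [coeffT_zero, expG_norm (hG k)]
    | succ m =>
      set Q : ℝ := A ^ (m + 2) * (4 * M) ^ m * catalan (m + 1) with hQ
      have h1 : ∀ s ∈ Icc 0 t, ∑ k ∈ coeffBox ((m + 2) * M), ‖coeffN G w M m k s‖ ≤
          2 * (((m + 2) * M : ℕ) : ℝ) * (Q * s ^ m) := fun s hs =>
        coeffN_le_of hb hA0 m s hs.1 fun i hi => ih i (by omega) s hs.1
      have h2 : coeffA G w M (m + 1) t ≤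
          ∫ s in (0 : ℝ)..t, ∑ k ∈ coeffBox ((m + 2) * M), ‖coeffN G w M m k s‖ := by
        rw [intervalIntegral.integral_finsetSum
          (fun k _ => (coeffN_cont m k).norm.intervalIntegrable _ _)]
        unfold coeffA
        refine Finset.sum_le_sum fun k _ => ?_
        rw [coeffT_succ, norm_neg]
        exact expDu_norm (hG k) ht
      have h3 : ∫ s in (0 : ℝ)..t, ∑ k ∈ coeffBox ((m + 2) * M), ‖coeffN G w M m k s‖ ≤
          ∫ s in (0 : ℝ)..t, 2 * (((m + 2) * M : ℕ) : ℝ) * (Q * s ^ m) := by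
        apply intervalIntegral.integral_mono_on ht
        · refine Continuous.intervalIntegrable ?_ _ _
          exact continuous_finsetSum _ fun k _ => (coeffN_cont m k).norm
        · exact Continuous.intervalIntegrable (by fun_prop) _ _
        · exact h1
      have h4 : ∫ s in (0 : ℝ)..t, 2 * (((m + 2) * M : ℕ) : ℝ) * (Q * s ^ m) =
          2 * (((m + 2) * M : ℕ) : ℝ) * Q * (t ^ (m + 1) / (m + 1)) := by
        rw [intervalIntegral.integral_const_mul, intervalIntegral.integral_const_mul, integral_pow]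
        simp
        ring
      rw [h4] at h3
      refine (h2.trans h3).trans ?_
      have hQ0 : 0 ≤ Q := by positivity
      have e2 : (catalan (m + 1) : ℝ) * A ^ (m + 1 + 1) * (4 * M) ^ (m + 1) * t ^ (m + 1) =
          4 * M * Q * t ^ (m + 1) := by rw [hQ]; ring
      rw [e2]
      have h5 : (((m + 2) * M : ℕ) : ℝ) ≤ 2 * M * (m + 1) := by
        push_cast
        have : (0 : ℝ) ≤ M * m := by positivity
        nlinarith
      calc 2 * (((m + 2) * M : ℕ) : ℝ) * Q * (t ^ (m + 1) / (m + 1))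
          ≤ 2 * (2 * M * (m + 1)) * Q * (t ^ (m + 1) / (m + 1)) := by gcongr
        _ = 4 * M * Q * t ^ (m + 1) := by field_simp; ring

end expansion

/-! ### Bounds on a short time interval -/

/-- Hypotheses on the data. -/
structure CoeffH (G : (Fin 3 → ℤ) → CV →L[ℝ] CV) (w : (Fin 3 → ℤ) → CV) (M : ℕ) (A : ℝ) : Prop where
  hG : ∀ k x, ⟪x, G k x⟫ = 0
  hb : ∀ k ∉ coeffBox M, w k = 0
  hA : ∑ k ∈ coeffBox M, ‖w k‖ ≤ A
  hA0 : 0 < A
  hM : 1 ≤ M

section bounds

variable {G : (Fin 3 → ℤ) → CV →L[ℝ] CV} {w : (Fin 3 → ℤ) → CV} {M : ℕ} {A : ℝ}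

lemma coeffTime_pos (h : CoeffH G w M A) : 0 < coeffTime M A := by
  have h1 := h.hA0
  have h2 : (0 : ℝ) < M := by exact_mod_cast h.hM
  unfold coeffTime
  positivity

lemma coeffTime_pow (h : CoeffH G w M A) {t : ℝ} (ht : t ∈ Icc 0 (coeffTime M A)) (m : ℕ) :
    4 ^ m * (A ^ m * (4 * M) ^ m * t ^ m) ≤ (Real.exp (-(4 * M)) / 4) ^ m := by
  have h1 := h.hA0
  have h2 : (0 : ℝ) < M := by exact_mod_cast h.hM
  rw [← mul_pow, ← mul_pow, ← mul_pow]
  have ht0 := ht.1
  apply pow_le_pow_left₀ (by positivity)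
  calc 4 * (A * (4 * M) * t) ≤ 4 * (A * (4 * M) * coeffTime M A) := by
        have := ht.2
        gcongr
    _ = Real.exp (-(4 * M)) / 4 := by
        unfold coeffTime
        field_simp
        ring

lemma coeffA_le' (h : CoeffH G w M A) {t : ℝ} (ht : t ∈ Icc 0 (coeffTime M A)) (m : ℕ) :
    coeffA G w M m t ≤ A * (Real.exp (-(4 * M)) / 4) ^ m := by
  have h1 := h.hA0
  have ht0 := ht.1
  have h3 := coeffTime_pow h ht m
  calc coeffA G w M m t ≤ catalan m * A ^ (m + 1) * (4 * M) ^ m * t ^ m :=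
        coeffA_le h.hG h.hb h.hA m t ht.1
    _ ≤ 4 ^ m * A ^ (m + 1) * (4 * M) ^ m * t ^ m := by
        have := coeff_catalan_le m
        gcongr
    _ = A * (4 ^ m * (A ^ m * (4 * M) ^ m * t ^ m)) := by ring
    _ ≤ _ := by gcongr

lemma coeffT_bd (h : CoeffH G w M A) {t : ℝ} (ht : t ∈ Icc 0 (coeffTime M A)) (m : ℕ)
    (k : Fin 3 → ℤ) : ‖coeffT G w M m k t‖ ≤
      A * Real.exp (4 * M) * (1 / 2) ^ m * Real.exp (-(2 * ‖vec k‖)) := by
  have h0 := h.hA0
  by_cases hk : k ∈ coeffBox ((m + 1) * M)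
  · have h1 : ‖coeffT G w M m k t‖ ≤ coeffA G w M m t :=
      Finset.single_le_sum (f := fun k => ‖coeffT G w M m k t‖) (fun _ _ => norm_nonneg _) hk
    have h2 := coeff_exp_aux hk
    rw [Nat.cast_one, mul_one] at h2
    have h3 : ((1 : ℝ) / 4) ^ m ≤ (1 / 2) ^ m := pow_le_pow_left₀ (by norm_num) (by norm_num) m
    calc ‖coeffT G w M m k t‖ ≤ A * (Real.exp (-(4 * M)) / 4) ^ m := h1.trans (coeffA_le' h ht m)
      _ = A * (Real.exp (-(4 * M)) ^ m * (1 / 4) ^ m) := by rw [← mul_pow]; ring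
      _ ≤ A * ((Real.exp (4 * M) * Real.exp (-(2 * ‖vec k‖))) * (1 / 2) ^ m) := by gcongr
      _ = _ := by ring
  · rw [coeffT_supp h.hb m k hk t, norm_zero]
    positivity

lemma coeffN_bd (h : CoeffH G w M A) {t : ℝ} (ht : t ∈ Icc 0 (coeffTime M A)) (m : ℕ)
    (k : Fin 3 → ℤ) : ‖coeffN G w M m k t‖ ≤
      16 * M * A ^ 2 * Real.exp (8 * M) * (1 / 2) ^ m * Real.exp (-(2 * ‖vec k‖)) := by
  have h0 := h.hA0
  by_cases hk : k ∈ coeffBox ((m + 2) * M)
  · have h1 : ‖coeffN G w M m k t‖ ≤ ∑ k ∈ coeffBox ((m + 2) * M), ‖coeffN G w M m k t‖ :=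
      Finset.single_le_sum (f := fun k => ‖coeffN G w M m k t‖) (fun _ _ => norm_nonneg _) hk
    have h2 := coeff_exp_aux hk
    have e2 : (4 * M * (2 : ℕ) : ℝ) = 8 * M := by push_cast; ring
    rw [e2] at h2
    have h3 : ((m : ℝ) + 2) * (1 / 4) ^ m ≤ 2 * (1 / 2) ^ m := by
      have e3 : ((1 : ℝ) / 4) ^ m = (1 / 2) ^ m * (1 / 2) ^ m := by rw [← mul_pow]; norm_num
      have e4 : (m : ℝ) + 2 ≤ 2 * 2 ^ m := by
        have : m + 1 ≤ 2 ^ m := Nat.lt_two_pow_self
        have h4 : ((m : ℝ) + 1) ≤ 2 ^ m := by exact_mod_cast this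
        have h5 : (0 : ℝ) ≤ m := Nat.cast_nonneg m
        linarith
      have e5 : (2 : ℝ) ^ m * (1 / 2) ^ m = 1 := by rw [← mul_pow]; norm_num
      rw [e3]
      calc ((m : ℝ) + 2) * ((1 / 2) ^ m * (1 / 2) ^ m) ≤
            2 * 2 ^ m * ((1 / 2) ^ m * (1 / 2) ^ m) := by gcongr
        _ = 2 * (2 ^ m * (1 / 2) ^ m) * (1 / 2) ^ m := by ring
        _ = 2 * (1 / 2) ^ m := by rw [e5, mul_one]
    have h4 := coeffN_le_of h.hb h0.le m t ht.1
      fun i _ => coeffA_le h.hG h.hb h.hA i t ht.1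
    have h5 := coeffTime_pow h ht m
    have h6 := coeff_catalan_le (m + 1)
    have ht0 := ht.1
    calc ‖coeffN G w M m k t‖
        ≤ 2 * (((m + 2) * M : ℕ) : ℝ) * (A ^ (m + 2) * (4 * M) ^ m * catalan (m + 1) * t ^ m) :=
          h1.trans h4
      _ ≤ 2 * (((m + 2) * M : ℕ) : ℝ) * (A ^ (m + 2) * (4 * M) ^ m * 4 ^ (m + 1) * t ^ m) := by
          gcongr
      _ = 8 * M * A ^ 2 * (m + 2) * (4 ^ m * (A ^ m * (4 * M) ^ m * t ^ m)) := by
          push_cast; ring
      _ ≤ 8 * M * A ^ 2 * (m + 2) * (Real.exp (-(4 * M)) / 4) ^ m := by gcongr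
      _ = 8 * M * A ^ 2 * ((m + 2) * (1 / 4) ^ m) * Real.exp (-(4 * M)) ^ m := by
          rw [div_pow, one_div, inv_pow]; ring
      _ ≤ 8 * M * A ^ 2 * (2 * (1 / 2) ^ m) *
          (Real.exp (8 * M) * Real.exp (-(2 * ‖vec k‖))) := by gcongr
      _ = _ := by ring
  · rw [coeffN_supp h.hb m k hk t, norm_zero]
    positivity

/-! ### The solution -/

/-- The nonlinearity. -/
noncomputable def coeffNb (G : (Fin 3 → ℤ) → CV →L[ℝ] CV) (w : (Fin 3 → ℤ) → CV) (M : ℕ) (A : ℝ)
    (k : Fin 3 → ℤ) (s : ℝ) : CV := ∑' m, coeffN G w M m k (coeffCl (coeffTime M A) s)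

/-- The solution. -/
noncomputable def coeffS (G : (Fin 3 → ℤ) → CV →L[ℝ] CV) (w : (Fin 3 → ℤ) → CV) (M : ℕ) (A : ℝ)
    (k : Fin 3 → ℤ) (t : ℝ) : CV :=
  expG (G k) t (w k) - expDu (G k) (coeffNb G w M A k) t

/-- Its derivative. -/
noncomputable def coeffS' (G : (Fin 3 → ℤ) → CV →L[ℝ] CV) (w : (Fin 3 → ℤ) → CV) (M : ℕ) (A : ℝ)
    (k : Fin 3 → ℤ) (t : ℝ) : CV := G k (coeffS G w M A k t) - coeffNb G w M A k t

lemma coeffNb_cont (h : CoeffH G w M A) (k : Fin 3 → ℤ) : Continuous (coeffNb G w M A k) := by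
  unfold coeffNb
  exact continuous_tsum (fun m => (coeffN_cont m k).comp (coeffCl_cont _))
    (coeff_summ (16 * M * A ^ 2 * Real.exp (8 * M)) (Real.exp (-(2 * ‖vec k‖))))
    (fun m s => coeffN_bd h (coeffCl_mem (coeffTime_pos h).le s) m k)

lemma coeffNb_hasSum (h : CoeffH G w M A) (k : Fin 3 → ℤ) {t : ℝ}
    (ht : t ∈ Icc 0 (coeffTime M A)) :
    HasSum (fun m => coeffN G w M m k t) (coeffNb G w M A k t) := by
  unfold coeffNb
  rw [coeffCl_eq ht]
  exact (Summable.of_norm_bounded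
    (coeff_summ (16 * M * A ^ 2 * Real.exp (8 * M)) (Real.exp (-(2 * ‖vec k‖))))
    (fun m => coeffN_bd h ht m k)).hasSum

lemma coeffNb_bd (h : CoeffH G w M A) (k : Fin 3 → ℤ) {t : ℝ} (ht : t ∈ Icc 0 (coeffTime M A)) :
    ‖coeffNb G w M A k t‖ ≤
      16 * M * A ^ 2 * Real.exp (8 * M) * 2 * Real.exp (-(2 * ‖vec k‖)) :=
  (coeffNb_hasSum h k ht).norm_le_of_bounded
    ((coeff_geom (16 * M * A ^ 2 * Real.exp (8 * M))).mul_right (Real.exp (-(2 * ‖vec k‖))))
    (fun m => coeffN_bd h ht m k)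

lemma coeffS_hasSum (h : CoeffH G w M A) (k : Fin 3 → ℤ) {t : ℝ}
    (ht : t ∈ Icc 0 (coeffTime M A)) :
    HasSum (fun m => coeffT G w M m k t) (coeffS G w M A k t) := by
  have h1 : HasSum (fun m => expDu (G k) (coeffN G w M m k) t)
      (expDu (G k) (coeffNb G w M A k) t) :=
    expDu_hasSum (h.hG k) ht.1 (fun m => coeffN_cont m k)
      (coeff_summ (16 * M * A ^ 2 * Real.exp (8 * M)) (Real.exp (-(2 * ‖vec k‖))))
      (fun m s hs => coeffN_bd h ⟨hs.1, hs.2.trans ht.2⟩ m k)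
      (fun s hs => coeffNb_hasSum h k ⟨hs.1, hs.2.trans ht.2⟩)
  have e : (fun m => coeffT G w M (m + 1) k t) = fun m => -expDu (G k) (coeffN G w M m k) t :=
    funext fun m => coeffT_succ m k t
  have h2 : HasSum (fun m => coeffT G w M (m + 1) k t)
      (-expDu (G k) (coeffNb G w M A k) t) := by
    rw [e]
    exact h1.neg
  have h3 := HasSum.zero_add (f := fun m => coeffT G w M m k t) h2
  have e2 : coeffT G w M 0 k t + -expDu (G k) (coeffNb G w M A k) t = coeffS G w M A k t := by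
    rw [coeffT_zero, coeffS, sub_eq_add_neg]
  rw [← e2]
  exact h3

lemma coeffS_bd (h : CoeffH G w M A) (k : Fin 3 → ℤ) {t : ℝ} (ht : t ∈ Icc 0 (coeffTime M A)) :
    ‖coeffS G w M A k t‖ ≤ A * Real.exp (4 * M) * 2 * Real.exp (-(2 * ‖vec k‖)) :=
  (coeffS_hasSum h k ht).norm_le_of_bounded
    ((coeff_geom (A * Real.exp (4 * M))).mul_right (Real.exp (-(2 * ‖vec k‖))))
    (fun m => coeffT_bd h ht m k)

lemma coeffS_deriv (h : CoeffH G w M A) (k : Fin 3 → ℤ) (t : ℝ) :
    HasDerivAt (coeffS G w M A k) (coeffS' G w M A k t) t := by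
  have h2 := (expG_deriv_apply (G k) (w k) t).sub (expDu_deriv (G k) (coeffNb_cont h k) t)
  refine HasDerivAt.congr_deriv h2 ?_
  unfold coeffS' coeffS
  rw [map_sub]
  abel

lemma coeffS_cont (h : CoeffH G w M A) (k : Fin 3 → ℤ) : Continuous (coeffS G w M A k) :=
  continuous_iff_continuousAt.2 fun t => (coeffS_deriv h k t).continuousAt

lemma coeffS'_cont (h : CoeffH G w M A) (k : Fin 3 → ℤ) : Continuous (coeffS' G w M A k) := by
  have h1 := coeffS_cont h k
  have h2 := coeffNb_cont h k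
  unfold coeffS'
  exact ((G k).continuous.comp h1).sub h2

/-- The product formula. -/
lemma coeff_prod (h : CoeffH G w M A) (k : Fin 3 → ℤ) {t : ℝ} (ht : t ∈ Icc 0 (coeffTime M A))
    (φ ψ : CV →L[ℝ] ℝ) :
    Summable (fun p => φ (coeffS G w M A p t) * ψ (coeffS G w M A (k - p) t)) ∧
    HasSum (fun m => ∑ i ∈ Finset.range (m + 1), ∑ p ∈ coeffBox ((i + 1) * M),
      φ (coeffT G w M i p t) * ψ (coeffT G w M (m - i) (k - p) t))
      (∑' p, φ (coeffS G w M A p t) * ψ (coeffS G w M A (k - p) t)) := by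
  have hA0 := h.hA0
  set f : (Fin 3 → ℤ) → ℕ → ℝ := fun p i => φ (coeffT G w M i p t) with hf
  set g : (Fin 3 → ℤ) → ℕ → ℝ := fun p i => ψ (coeffT G w M i (k - p) t) with hg
  have hfs : ∀ p, HasSum (f p) (φ (coeffS G w M A p t)) := fun p =>
    φ.hasSum (coeffS_hasSum h p ht)
  have hgs : ∀ p, HasSum (g p) (ψ (coeffS G w M A (k - p) t)) := fun p =>
    ψ.hasSum (coeffS_hasSum h (k - p) ht)
  have hfn : ∀ p, Summable fun i => ‖f p i‖ := by
    intro p
    refine Summable.of_nonneg_of_le (fun _ => norm_nonneg _) (fun i => ?_)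
      ((coeff_summ (A * Real.exp (4 * M)) (Real.exp (-(2 * ‖vec p‖)))).mul_left ‖φ‖)
    exact (φ.le_opNorm _).trans
      (mul_le_mul_of_nonneg_left (coeffT_bd h ht i p) (norm_nonneg _))
  have hgn : ∀ p, Summable fun i => ‖g p i‖ := by
    intro p
    refine Summable.of_nonneg_of_le (fun _ => norm_nonneg _) (fun i => ?_)
      ((coeff_summ (A * Real.exp (4 * M)) (Real.exp (-(2 * ‖vec (k - p)‖)))).mul_left ‖ψ‖)
    exact (ψ.le_opNorm _).trans
      (mul_le_mul_of_nonneg_left (coeffT_bd h ht i (k - p)) (norm_nonneg _))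
  -- the double family
  set H : ℕ → (Fin 3 → ℤ) → ℝ := fun m p => ∑ i ∈ Finset.range (m + 1), f p i * g p (m - i) with hH
  have hprod : ∀ p, φ (coeffS G w M A p t) * ψ (coeffS G w M A (k - p) t) =
      ∑' m, H m p := by
    intro p
    rw [← (hfs p).tsum_eq, ← (hgs p).tsum_eq]
    exact tsum_mul_tsum_eq_tsum_sum_range_of_summable_norm (hfn p) (hgn p)
  -- each row has finite support
  have hf0 : ∀ i, ∀ p ∉ coeffBox ((i + 1) * M), f p i = 0 := fun i p hp => by
    simp only [hf]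
    rw [coeffT_supp h.hb i p hp t, map_zero]
  have hrow : ∀ m, ∑ i ∈ Finset.range (m + 1), ∑ p ∈ coeffBox ((i + 1) * M),
      φ (coeffT G w M i p t) * ψ (coeffT G w M (m - i) (k - p) t) = ∑' p, H m p := by
    intro m
    have e1 : ∑' p, H m p = ∑ i ∈ Finset.range (m + 1), ∑' p, f p i * g p (m - i) := by
      refine Summable.tsum_finsetSum fun i _ => ?_
      refine (hasSum_sum_of_ne_finset_zero (s := coeffBox ((i + 1) * M)) fun p hp => ?_).summable
      rw [hf0 i p hp, zero_mul]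
    have e2 : ∀ i, ∑' p, f p i * g p (m - i) = ∑ p ∈ coeffBox ((i + 1) * M), f p i * g p (m - i) :=
      fun i => tsum_eq_sum fun p hp => by rw [hf0 i p hp, zero_mul]
    rw [e1]
    exact Finset.sum_congr rfl fun i _ => (e2 i).symm
  -- summability of the double family
  have hsummable : Summable (Function.uncurry H) := by
    set W : ℕ × (Fin 3 → ℤ) → ℝ := fun q => ∑ i ∈ Finset.range (q.1 + 1),
      ‖coeffT G w M i q.2 t‖ * ‖coeffT G w M (q.1 - i) (k - q.2) t‖ with hW
    have hW0 : 0 ≤ W := fun q =>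
      Finset.sum_nonneg fun i _ => mul_nonneg (norm_nonneg _) (norm_nonneg _)
    have hWsupp : ∀ m, ∀ p ∉ coeffBox ((m + 1) * M), W (m, p) = 0 := by
      intro m p hp
      refine Finset.sum_eq_zero fun i hi => ?_
      rw [Finset.mem_range] at hi
      have : p ∉ coeffBox ((i + 1) * M) := by
        intro hp'
        apply hp
        rw [coeffBox_mem] at hp' ⊢
        intro j
        have h1 := hp' j
        have h2 : (i + 1) * M ≤ (m + 1) * M := Nat.mul_le_mul_right M (by omega)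
        have h3 : (((i + 1) * M : ℕ) : ℤ) ≤ (((m + 1) * M : ℕ) : ℤ) := by exact_mod_cast h2
        constructor <;> omega
      rw [coeffT_supp h.hb i p this t, norm_zero, zero_mul]
    have hWs : Summable W := by
      rw [summable_prod_of_nonneg hW0]
      refine ⟨fun m => (hasSum_sum_of_ne_finset_zero (hWsupp m)).summable, ?_⟩
      refine Summable.of_nonneg_of_le (fun m => tsum_nonneg fun p => hW0 (m, p)) (fun m => ?_)
        (coeff_geom (A ^ 2)).summable
      rw [tsum_eq_sum (hWsupp m)]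
      simp only [hW]
      rw [Finset.sum_comm]
      have e1 : ∀ i ∈ Finset.range (m + 1), ∑ p ∈ coeffBox ((m + 1) * M),
          ‖coeffT G w M i p t‖ * ‖coeffT G w M (m - i) (k - p) t‖ ≤
          A ^ 2 * (Real.exp (-(4 * M)) / 4) ^ m := by
        intro i hi
        rw [Finset.mem_range] at hi
        have e2 : ∀ q, ‖coeffT G w M (m - i) q t‖ ≤ coeffA G w M (m - i) t := by
          intro q
          by_cases hq : q ∈ coeffBox ((m - i + 1) * M)
          · exact Finset.single_le_sum (f := fun k => ‖coeffT G w M (m - i) k t‖)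
              (fun _ _ => norm_nonneg _) hq
          · rw [coeffT_supp h.hb (m - i) q hq t, norm_zero]
            exact coeffA_nonneg _ _
        have e3 : ∑ p ∈ coeffBox ((m + 1) * M), ‖coeffT G w M i p t‖ ≤ coeffA G w M i t := by
          have := coeff_shift (f := fun q => ‖coeffT G w M i q t‖) (r := (i + 1) * M)
            (fun q => norm_nonneg _)
            (fun q hq => by rw [coeffT_supp h.hb i q hq t, norm_zero]) (coeffBox ((m + 1) * M)) 0
          unfold coeffA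
          simpa using this
        calc _ ≤ ∑ p ∈ coeffBox ((m + 1) * M),
              ‖coeffT G w M i p t‖ * coeffA G w M (m - i) t :=
              Finset.sum_le_sum fun p _ => mul_le_mul_of_nonneg_left (e2 _) (norm_nonneg _)
          _ = (∑ p ∈ coeffBox ((m + 1) * M), ‖coeffT G w M i p t‖) * coeffA G w M (m - i) t := by
              rw [Finset.sum_mul]
          _ ≤ (A * (Real.exp (-(4 * M)) / 4) ^ i) * (A * (Real.exp (-(4 * M)) / 4) ^ (m - i)) := by
              apply mul_le_mul (e3.trans (coeffA_le' h ht i)) (coeffA_le' h ht (m - i))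
                (coeffA_nonneg _ _) (by positivity)
          _ = _ := by
              obtain ⟨j, rfl⟩ : ∃ j, m = i + j := ⟨m - i, by omega⟩
              rw [Nat.add_sub_cancel_left, pow_add]
              ring
      refine (Finset.sum_le_sum e1).trans ?_
      rw [Finset.sum_const, Finset.card_range, nsmul_eq_mul]
      have e4 : (Real.exp (-(4 * M)) / 4) ^ m ≤ (1 / 2) ^ m * (1 / 2) ^ m := by
        rw [← mul_pow]
        apply pow_le_pow_left₀ (by positivity)
        have : Real.exp (-(4 * M)) ≤ 1 := by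
          rw [Real.exp_le_one_iff]
          have : (0 : ℝ) ≤ M := Nat.cast_nonneg M
          linarith
        linarith
      have e5 : ((m + 1 : ℕ) : ℝ) * (1 / 2) ^ m ≤ 1 := by
        have h4 : ((m + 1 : ℕ) : ℝ) ≤ 2 ^ m := by
          exact_mod_cast (Nat.lt_two_pow_self : m < 2 ^ m)
        have e6 : (2 : ℝ) ^ m * (1 / 2) ^ m = 1 := by rw [← mul_pow]; norm_num
        calc ((m + 1 : ℕ) : ℝ) * (1 / 2) ^ m ≤ 2 ^ m * (1 / 2) ^ m := by gcongr
          _ = 1 := e6
      calc ((m + 1 : ℕ) : ℝ) * (A ^ 2 * (Real.exp (-(4 * M)) / 4) ^ m)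
          ≤ ((m + 1 : ℕ) : ℝ) * (A ^ 2 * ((1 / 2) ^ m * (1 / 2) ^ m)) := by gcongr
        _ = A ^ 2 * (1 / 2) ^ m * (((m + 1 : ℕ) : ℝ) * (1 / 2) ^ m) := by ring
        _ ≤ A ^ 2 * (1 / 2) ^ m * 1 := by gcongr
        _ = _ := mul_one _
    refine Summable.of_norm_bounded (hWs.mul_right (‖φ‖ * ‖ψ‖)) fun q => ?_
    obtain ⟨m, p⟩ := q
    simp only [Function.uncurry, hH, hW]
    rw [Finset.sum_mul]
    refine (norm_sum_le _ _).trans (Finset.sum_le_sum fun i _ => ?_)
    rw [norm_mul]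
    calc ‖f p i‖ * ‖g p (m - i)‖ ≤ (‖φ‖ * ‖coeffT G w M i p t‖) *
          (‖ψ‖ * ‖coeffT G w M (m - i) (k - p) t‖) :=
          mul_le_mul (φ.le_opNorm _) (ψ.le_opNorm _) (norm_nonneg _) (by positivity)
      _ = _ := by ring
  simp only [hrow, hprod]
  have hs1 : Summable (fun p => ∑' m, H m p) := by
    have h1 := hsummable.prod_symm
    exact h1.prod
  refine ⟨hs1, ?_⟩
  have h2 := hsummable.prod
  have h3 : ∑' p, ∑' m, H m p = ∑' m, ∑' p, H m p := Summable.tsum_comm hsummable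
  rw [h3]
  exact h2.hasSum

/-- The functional testing the first component. -/
noncomputable def coeffT1 (c : E3) : CV →L[ℝ] ℝ := (innerSL ℝ c).comp coeffFst

/-- The functional testing the second component. -/
noncomputable def coeffT2 (c : E3) : CV →L[ℝ] ℝ := (innerSL ℝ c).comp coeffSnd

lemma coeffT1_apply (c : E3) (x : CV) : coeffT1 c x = ⟪coeffFst x, c⟫ := by
  show ⟪c, coeffFst x⟫ = _
  exact real_inner_comm _ _

lemma coeffT2_apply (c : E3) (x : CV) : coeffT2 c x = ⟪coeffSnd x, c⟫ := by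
  show ⟪c, coeffSnd x⟫ = _
  exact real_inner_comm _ _

lemma coeffNb_eqn1 (h : CoeffH G w M A) (k : Fin 3 → ℤ) {t : ℝ} (ht : t ∈ Icc 0 (coeffTime M A))
    (c : E3) (hc : ⟪vec k, c⟫ = 0) : ⟪coeffFst (coeffNb G w M A k t), c⟫ =
      ∑' p, (⟪coeffFst (coeffS G w M A p t), vec k⟫ * ⟪coeffSnd (coeffS G w M A (k - p) t), c⟫ +
        ⟪coeffSnd (coeffS G w M A p t), vec k⟫ * ⟪coeffFst (coeffS G w M A (k - p) t), c⟫) := by
  obtain ⟨s1, h1⟩ := coeff_prod h k ht (coeffT1 (vec k)) (coeffT2 c)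
  obtain ⟨s2, h2⟩ := coeff_prod h k ht (coeffT2 (vec k)) (coeffT1 c)
  have h3 := h1.add h2
  rw [← s1.tsum_add s2] at h3
  have h4 := (coeffT1 c).hasSum (coeffNb_hasSum h k ht)
  simp only [coeffT1_apply, coeffT2_apply] at h3 h4
  refine h4.unique ?_
  convert h3 using 1
  funext m
  unfold coeffN
  rw [coeffPP_fst, coeffPj_test k _ c hc, map_sum, sum_inner, ← Finset.sum_add_distrib]
  refine Finset.sum_congr rfl fun i _ => ?_
  rw [map_sum, sum_inner, ← Finset.sum_add_distrib]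
  refine Finset.sum_congr rfl fun p _ => ?_
  rw [coeffMul_fst, inner_add_left, real_inner_smul_left, real_inner_smul_left]

lemma coeffNb_eqn2 (h : CoeffH G w M A) (k : Fin 3 → ℤ) {t : ℝ} (ht : t ∈ Icc 0 (coeffTime M A))
    (c : E3) (hc : ⟪vec k, c⟫ = 0) : -⟪coeffSnd (coeffNb G w M A k t), c⟫ =
      ∑' p, (⟪coeffFst (coeffS G w M A p t), vec k⟫ * ⟪coeffFst (coeffS G w M A (k - p) t), c⟫ -
        ⟪coeffSnd (coeffS G w M A p t), vec k⟫ * ⟪coeffSnd (coeffS G w M A (k - p) t), c⟫) := by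
  obtain ⟨s1, h1⟩ := coeff_prod h k ht (coeffT1 (vec k)) (coeffT1 c)
  obtain ⟨s2, h2⟩ := coeff_prod h k ht (coeffT2 (vec k)) (coeffT2 c)
  have h3 := h1.sub h2
  rw [← s1.tsum_sub s2] at h3
  have h4 := ((coeffT2 c).hasSum (coeffNb_hasSum h k ht)).neg
  simp only [coeffT1_apply, coeffT2_apply] at h3 h4
  refine h4.unique ?_
  convert h3 using 1
  funext m
  unfold coeffN
  rw [coeffPP_snd, coeffPj_test k _ c hc, map_sum, sum_inner, ← Finset.sum_sub_distrib,
    ← Finset.sum_neg_distrib]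
  refine Finset.sum_congr rfl fun i _ => ?_
  rw [map_sum, sum_inner, ← Finset.sum_sub_distrib, ← Finset.sum_neg_distrib]
  refine Finset.sum_congr rfl fun p _ => ?_
  rw [coeffMul_snd, inner_add_left, inner_neg_left, real_inner_smul_left, real_inner_smul_left]
  ring

end bounds

/-- Pairs as elements of `CV`. -/
noncomputable def coeffPair (a b : E3) : CV := coeffEq.symm (a, b)

lemma coeffPair_fst (a b : E3) : coeffFst (coeffPair a b) = a := rfl

lemma coeffPair_snd (a b : E3) : coeffSnd (coeffPair a b) = b := rfl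

/-- Powers are bounded by the exponential. -/
lemma coeff_pow_exp (s : ℕ) : ∃ C : ℝ, 0 ≤ C ∧ ∀ x : ℝ, 0 ≤ x →
    (1 + x) ^ s * Real.exp (-(2 * x)) ≤ C * Real.exp (-x) := by
  refine ⟨s.factorial * Real.exp 1, by positivity, fun x hx => ?_⟩
  have h1 : (1 + x) ^ s / s.factorial ≤ Real.exp (1 + x) :=
    Real.pow_div_factorial_le_exp (1 + x) (by linarith) s
  have h2 : (1 + x) ^ s ≤ s.factorial * Real.exp (1 + x) := by
    rw [div_le_iff₀ (by positivity)] at h1
    linarith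
  calc (1 + x) ^ s * Real.exp (-(2 * x)) ≤ (s.factorial * Real.exp (1 + x)) *
        Real.exp (-(2 * x)) := mul_le_mul_of_nonneg_right h2 (Real.exp_pos _).le
    _ = s.factorial * Real.exp 1 * Real.exp (-x) := by
        rw [mul_assoc, mul_assoc, ← Real.exp_add, ← Real.exp_add]
        congr 2
        ring

theorem claimCoeff : ClaimCoeff := by
  intro B F a₀ b₀ hB hF ha hb hda hdb
  obtain ⟨M, hM, hFM⟩ := coeffBox_exists F
  set w : (Fin 3 → ℤ) → CV := fun k => coeffPair (a₀ k) (b₀ k) with hw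
  set G : (Fin 3 → ℤ) → CV →L[ℝ] CV := fun k => coeffG hB k with hG
  set A : ℝ := ∑ k ∈ coeffBox M, ‖w k‖ + 1 with hA
  have hA1 : 0 ≤ ∑ k ∈ coeffBox M, ‖w k‖ := Finset.sum_nonneg fun _ _ => norm_nonneg _
  have hw0 : ∀ k ∉ coeffBox M, w k = 0 := by
    intro k hk
    have h1 := hF k fun hk' => hk (hFM hk')
    apply coeffV_ext
    · rw [map_zero]; exact h1.1
    · rw [map_zero]; exact h1.2
  have h : CoeffH G w M A :=
    { hG := fun k x => coeffG_skew hB k x
      hb := hw0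
      hA := by linarith
      hA0 := by linarith
      hM := hM }
  have hT := coeffTime_pos h
  set T := coeffTime M A with hTdef
  have hA0 := h.hA0
  have hGC : ∀ k x, G (-k) (coeffC x) = coeffC (G k x) := fun k x => coeffG_C hB k x
  have hwC : ∀ k, w (-k) = coeffC (w k) := by
    intro k
    apply coeffV_ext
    · exact ha k
    · exact hb k
  have hdiv1 : ∀ m k t, coeffDiv1 k (coeffT G w M m k t) = 0 := by
    intro m k t
    cases m with
    | zero =>
      rw [coeffT_zero, expG_inv (coeffDiv1 k) (coeffDiv1_G hB k)]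
      exact hda k
    | succ m =>
      rw [coeffT_succ, map_neg, expDu_inv (coeffDiv1 k) (coeffDiv1_G hB k) (coeffN_cont m k)
        (fun s => coeffN_div1 m k s), neg_zero]
  have hdiv2 : ∀ m k t, coeffDiv2 k (coeffT G w M m k t) = 0 := by
    intro m k t
    cases m with
    | zero =>
      rw [coeffT_zero, expG_inv (coeffDiv2 k) (coeffDiv2_G hB k)]
      exact hdb k
    | succ m =>
      rw [coeffT_succ, map_neg, expDu_inv (coeffDiv2 k) (coeffDiv2_G hB k) (coeffN_cont m k)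
        (fun s => coeffN_div2 m k s), neg_zero]
  have hSC : ∀ k, ∀ t ∈ Icc 0 T, coeffS G w M A (-k) t = coeffC (coeffS G w M A k t) := by
    intro k t ht
    have h1 := coeffS_hasSum h (-k) ht
    have h2 := coeffC.hasSum (coeffS_hasSum h k ht)
    simp only [coeffT_C hGC hwC] at h1
    exact h1.unique h2
  obtain ⟨C, s, hC⟩ := hB.growth
  obtain ⟨Cs, hCs0, hCs⟩ := coeff_pow_exp s
  set K1 : ℝ := 16 * M * A ^ 2 * Real.exp (8 * M) * 2 with hK1
  set K0 : ℝ := A * Real.exp (4 * M) * 2 with hK0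
  have hK10 : 0 ≤ K1 := by positivity
  have hK00 : 0 ≤ K0 := by positivity
  have hexp : ∀ k : Fin 3 → ℤ, Real.exp (-(2 * ‖vec k‖)) ≤ Real.exp (-‖vec k‖) := fun k =>
    Real.exp_le_exp.2 (by linarith [norm_nonneg (vec k)])
  have hS0 : ∀ k, ∀ t ∈ Icc 0 T, ‖coeffS G w M A k t‖ ≤ K0 * Real.exp (-(2 * ‖vec k‖)) :=
    fun k t ht => coeffS_bd h k ht
  have hbd : ∀ k, ∀ t ∈ Icc 0 T, ‖coeffS G w M A k t‖ ≤ K0 * Real.exp (-‖vec k‖) := fun k t ht =>
    (hS0 k t ht).trans (mul_le_mul_of_nonneg_left (hexp k) hK00)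
  have hbd' : ∀ k, ∀ t ∈ Icc 0 T, ‖coeffS' G w M A k t‖ ≤
      (C * K0 * Cs + K1) * Real.exp (-‖vec k‖) := by
    intro k t ht
    unfold coeffS'
    refine (norm_sub_le _ _).trans ?_
    rw [add_mul]
    refine add_le_add ?_ ?_
    · refine (coeffG_norm hB hC k _).trans ?_
      calc (C : ℝ) * (1 + ‖vec k‖) ^ s * ‖coeffS G w M A k t‖ ≤
            C * (1 + ‖vec k‖) ^ s * (K0 * Real.exp (-(2 * ‖vec k‖))) :=
            mul_le_mul_of_nonneg_left (hS0 k t ht) (by positivity)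
        _ = C * K0 * ((1 + ‖vec k‖) ^ s * Real.exp (-(2 * ‖vec k‖))) := by ring
        _ ≤ C * K0 * (Cs * Real.exp (-‖vec k‖)) :=
            mul_le_mul_of_nonneg_left (hCs _ (norm_nonneg _)) (by positivity)
        _ = _ := by ring
    · exact (coeffNb_bd h k ht).trans (mul_le_mul_of_nonneg_left (hexp k) hK10)
  have hpos : ∀ k : Fin 3 → ℤ, 0 ≤ Real.exp (-‖vec k‖) := fun k => (Real.exp_pos _).le
  have hK2 : 0 ≤ C * K0 * Cs + K1 := by positivity
  refine ⟨T, 2 * (K0 + (C * K0 * Cs + K1)), fun k t => coeffFst (coeffS G w M A k t),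
    fun k t => coeffSnd (coeffS G w M A k t), fun k t => coeffFst (coeffS' G w M A k t),
    fun k t => coeffSnd (coeffS' G w M A k t), hT, ?_, ?_⟩
  · intro k
    have h1 : coeffS G w M A k 0 = w k := by
      unfold coeffS
      rw [expDu_zero, expG_zero_apply, sub_zero]
    simp only [h1]
    exact ⟨rfl, rfl⟩
  refine ⟨?_, ?_, ?_, ?_, ?_, ?_, ?_, ?_, ?_, ?_, ?_, ?_⟩
  · exact fun k t _ =>
      (coeffFst.hasFDerivAt.comp_hasDerivAt t (coeffS_deriv h k t)).hasDerivWithinAt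
  · exact fun k t _ =>
      (coeffSnd.hasFDerivAt.comp_hasDerivAt t (coeffS_deriv h k t)).hasDerivWithinAt
  · exact fun k => (coeffFst.continuous.comp (coeffS'_cont h k)).continuousOn
  · exact fun k => (coeffSnd.continuous.comp (coeffS'_cont h k)).continuousOn
  · intro k t ht
    simp only [hSC k t ht, coeffC_fst]
  · intro k t ht
    simp only [hSC k t ht, coeffC_snd]
  · intro k t ht
    have h1 := (coeffDiv1 k).hasSum (coeffS_hasSum h k ht)
    simp only [hdiv1] at h1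
    exact h1.unique hasSum_zero
  · intro k t ht
    have h1 := (coeffDiv2 k).hasSum (coeffS_hasSum h k ht)
    simp only [hdiv2] at h1
    exact h1.unique hasSum_zero
  · intro k t ht
    have h1 := coeffFst_norm (coeffS G w M A k t)
    have h2 := coeffSnd_norm (coeffS G w M A k t)
    have h3 := hbd k t ht
    have h4 := mul_nonneg hK2 (hpos k)
    have h5 : 2 * (K0 + (C * K0 * Cs + K1)) * Real.exp (-‖vec k‖) =
      2 * (K0 * Real.exp (-‖vec k‖)) + 2 * ((C * K0 * Cs + K1) * Real.exp (-‖vec k‖)) := by ring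
    rw [h5]
    linarith
  · intro k t ht
    have h1 := coeffFst_norm (coeffS' G w M A k t)
    have h2 := coeffSnd_norm (coeffS' G w M A k t)
    have h3 := hbd' k t ht
    have h4 := mul_nonneg hK00 (hpos k)
    have h5 : 2 * (K0 + (C * K0 * Cs + K1)) * Real.exp (-‖vec k‖) =
      2 * (K0 * Real.exp (-‖vec k‖)) + 2 * ((C * K0 * Cs + K1) * Real.exp (-‖vec k‖)) := by ring
    rw [h5]
    linarith
  · intro k t ht c hc
    show ⟪coeffFst (coeffS' G w M A k t), c⟫ = _
    unfold coeffS'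
    rw [map_sub, inner_sub_left, coeffNb_eqn1 h k ht c hc, hG]
    simp only
    rw [coeffG_fst, inner_neg_left, coeffB_test hB k _ c hc]
    ring
  · intro k t ht c hc
    show ⟪coeffSnd (coeffS' G w M A k t), c⟫ = _
    unfold coeffS'
    rw [map_sub, inner_sub_left, ← coeffNb_eqn2 h k ht c hc, hG]
    simp only
    rw [coeffG_snd, coeffB_test hB k _ c hc]
    ring

end Pool.Agent.Work.MP_b0497c_an.Disp
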