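import Mathlib
import Pool.Agent.Work.MP_b0497c_an.Disp.Stmts
import Pool.Agent.Work.MP_b0497c_an.Damp.Conv
import Pool.Agent.Work.MP_b0497c_an.Damp.Parseval

set_option autoImplicit false

/-!
F1: the Fourier coefficients of the nonlinearity of a divergence free field.
-/

namespace Pool.Agent.Work.MP_b0497c_an.Disp

open Set MeasureTheory RealInnerProductSpace Pool.Agent.Work.MP_b0497c_an Filter
open Pool.Agent.Work.MP_b0497c_an.Dec (cube phase vec)
open Pool.Agent.Work.MP_b0497c_an.Damp (cc sc acc)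
open Pool.Agent.Work.MP_b0497c_an.Tri.Bes (ch gh memLp_two inner_toLp continuous_ch ch_eq gh_eq
  int_cube)
open Pool.Agent.Work.MP_b0497c_an.Damp.Parseval (vv cst orthonormal_vv inner_vv cont_v mem_closure
  cst_sq)

theorem conv_ch_add (k l : Fin 3 → ℤ) (x : E3) : ch (k + l) x = ch k x * ch l x := by
  unfold Tri.Bes.ch
  rw [← Complex.exp_add, Dec.phase_add_left]
  congr 1
  push_cast
  ring

theorem conv_gh_neg {f : E3 → ℝ} (hf : Continuous f) (k : Fin 3 → ℤ) :
    gh f (-k) = (starRingEnd ℂ) (gh f k) := by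
  rw [gh_eq hf, gh_eq hf, map_sub, map_mul, Complex.conj_I, Complex.conj_ofReal,
    Complex.conj_ofReal]
  simp only [Dec.phase_neg_left, Real.cos_neg, Real.sin_neg, neg_mul, integral_neg]
  push_cast
  ring

/-- Parseval for a product with a character. -/
theorem conv_scalar {f h : E3 → ℝ} (hf : Continuous f) (hh : Continuous h) (pf : Periodic3 f)
    (ph : Periodic3 h) (k : Fin 3 → ℤ) :
    HasSum (fun p : Fin 3 → ℤ => gh f p * gh h (k - p))
      ((((2 * Real.pi) ^ 3 : ℝ) : ℂ) * ∫ x in cube, ch k x * (((f x * h x : ℝ)) : ℂ)) := by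
  have cf : Continuous fun x => ((f x : ℝ) : ℂ) := Complex.continuous_ofReal.comp hf
  have hc : Continuous fun x => Real.cos (phase k x) * h x := (Damp.conv_cos k).mul hh
  have hs : Continuous fun x => Real.sin (phase k x) * h x := (Damp.conv_sin k).mul hh
  have pc : Periodic3 fun x => Real.cos (phase k x) * h x := by
    intro i x
    have h2 := Dec.cos_phase_periodic k i x
    simp only at h2
    simp only [h2, ph i x]
  have ps : Periodic3 fun x => Real.sin (phase k x) * h x := by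
    intro i x
    have h2 := Dec.sin_phase_periodic k i x
    simp only at h2
    simp only [h2, ph i x]
  have cc1 : Continuous fun x => ((Real.cos (phase k x) * h x : ℝ) : ℂ) :=
    Complex.continuous_ofReal.comp hc
  have cs1 : Continuous fun x => ((Real.sin (phase k x) * h x : ℝ) : ℂ) :=
    Complex.continuous_ofReal.comp hs
  have cs2 : Continuous fun x => (-Complex.I) * ((Real.sin (phase k x) * h x : ℝ) : ℂ) :=
    continuous_const.mul cs1
  have cG : Continuous fun x => ((Real.cos (phase k x) * h x : ℝ) : ℂ) +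
      (-Complex.I) * ((Real.sin (phase k x) * h x : ℝ) : ℂ) := cc1.add cs2
  have hG : (memLp_two cG).toLp (fun x => ((Real.cos (phase k x) * h x : ℝ) : ℂ) +
      (-Complex.I) * ((Real.sin (phase k x) * h x : ℝ) : ℂ)) =
      (memLp_two cc1).toLp (fun x => ((Real.cos (phase k x) * h x : ℝ) : ℂ)) +
      (-Complex.I) • (memLp_two cs1).toLp (fun x => ((Real.sin (phase k x) * h x : ℝ) : ℂ)) := by
    have h1 : (memLp_two cs2).toLp (fun x => (-Complex.I) *
        ((Real.sin (phase k x) * h x : ℝ) : ℂ)) =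
        (-Complex.I) • (memLp_two cs1).toLp
          (fun x => ((Real.sin (phase k x) * h x : ℝ) : ℂ)) :=
      MemLp.toLp_const_smul (-Complex.I) (memLp_two cs1)
    rw [← h1]
    exact MemLp.toLp_add (memLp_two cc1) (memLp_two cs2)
  have memG : (memLp_two cG).toLp (fun x => ((Real.cos (phase k x) * h x : ℝ) : ℂ) +
      (-Complex.I) * ((Real.sin (phase k x) * h x : ℝ) : ℂ)) ∈
      (Submodule.span ℂ (Set.range vv)).topologicalClosure := by
    rw [hG]
    exact Submodule.add_mem _ (mem_closure hc pc cc1)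
      (Submodule.smul_mem _ _ (mem_closure hs ps cs1))
  have eG : ∀ x, ((Real.cos (phase k x) * h x : ℝ) : ℂ) +
      (-Complex.I) * ((Real.sin (phase k x) * h x : ℝ) : ℂ) = ch k x * ((h x : ℝ) : ℂ) := by
    intro x
    rw [ch_eq]
    push_cast
    ring
  have hmain := Damp.Parseval.abstract orthonormal_vv (mem_closure hf pf cf) memG
  have e1 : ∀ i, inner ℂ (vv i) ((memLp_two cG).toLp (fun x =>
      ((Real.cos (phase k x) * h x : ℝ) : ℂ) +
      (-Complex.I) * ((Real.sin (phase k x) * h x : ℝ) : ℂ))) = (cst : ℂ) * gh h (i + k) := by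
    intro i
    unfold Damp.Parseval.vv
    rw [inner_toLp (cont_v i) cG]
    unfold Tri.Bes.gh
    rw [← integral_const_mul]
    refine integral_congr_ae (Eventually.of_forall fun x => ?_)
    simp only [eG, map_mul, Complex.conj_conj, Complex.conj_ofReal, conv_ch_add]
    ring
  have e2 : ∀ i, inner ℂ ((memLp_two cf).toLp (fun x => ((f x : ℝ) : ℂ))) (vv i) *
      inner ℂ (vv i) ((memLp_two cG).toLp (fun x =>
      ((Real.cos (phase k x) * h x : ℝ) : ℂ) +
      (-Complex.I) * ((Real.sin (phase k x) * h x : ℝ) : ℂ))) =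
      ((cst ^ 2 : ℝ) : ℂ) * (gh f (-i) * gh h (i + k)) := by
    intro i
    rw [← inner_conj_symm, inner_vv cf, e1, map_mul, Complex.conj_ofReal, conv_gh_neg hf]
    push_cast
    ring
  simp only [e2] at hmain
  rw [inner_toLp cf cG] at hmain
  have h2 := hmain.mul_left (((2 * Real.pi) ^ 3 : ℝ) : ℂ)
  have e3 : ∀ i, (((2 * Real.pi) ^ 3 : ℝ) : ℂ) * (((cst ^ 2 : ℝ) : ℂ) *
      (gh f (-i) * gh h (i + k))) = gh f (-i) * gh h (i + k) := by
    intro i
    rw [← mul_assoc, ← Complex.ofReal_mul, mul_comm ((2 * Real.pi) ^ 3), cst_sq,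
      Complex.ofReal_one, one_mul]
  simp only [e3] at h2
  have e4 : (∫ x in cube, (starRingEnd ℂ) ((f x : ℝ) : ℂ) *
      (((Real.cos (phase k x) * h x : ℝ) : ℂ) +
      (-Complex.I) * ((Real.sin (phase k x) * h x : ℝ) : ℂ))) =
      ∫ x in cube, ch k x * (((f x * h x : ℝ)) : ℂ) := by
    refine integral_congr_ae (Eventually.of_forall fun x => ?_)
    simp only [eG, Complex.conj_ofReal]
    push_cast
    ring
  rw [e4] at h2
  rw [← (Equiv.neg (Fin 3 → ℤ)).hasSum_iff]
  refine h2.congr_fun fun p => ?_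
  simp only [Function.comp_apply, Equiv.neg_apply]
  rw [show k - -p = p + k by abel]

/-- Integration by parts with a cosine. -/
theorem conv_parts_cos {u : E3 → E3} (hu : ContDiff ℝ 1 u) (hp : Periodic3 u)
    (hd : ∀ x, LinearMap.trace ℝ E3 (fderiv ℝ u x) = 0) (k : Fin 3 → ℤ) (c : E3) :
    ∫ x in cube, Real.cos (phase k x) * ⟪fderiv ℝ u x (u x), c⟫ =
      ∫ x in cube, ⟪u x, vec k⟫ * (Real.sin (phase k x) * ⟪u x, c⟫) := by
  have hin : ContDiff ℝ 1 fun x => ⟪u x, c⟫ := hu.inner ℝ contDiff_const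
  have hsc : ContDiff ℝ 1 fun x => Real.cos (phase k x) * ⟪u x, c⟫ := (Damp.conv_cd_cos k).mul hin
  have h0 := Dec.per_div_cube (G := fun x => (Real.cos (phase k x) * ⟪u x, c⟫) • u x)
    (hsc.smul hu) (fun i x => by
      have h1 := Dec.cos_phase_periodic k i x
      simp only at h1
      simp only [h1, hp i x])
  have h1 : ∀ x, LinearMap.trace ℝ E3
      (fderiv ℝ (fun x => (Real.cos (phase k x) * ⟪u x, c⟫) • u x) x) =
      Real.cos (phase k x) * ⟪fderiv ℝ u x (u x), c⟫ -
      ⟪u x, vec k⟫ * (Real.sin (phase k x) * ⟪u x, c⟫) := by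
    intro x
    have hux := (hu.differentiable (by norm_num) x).hasFDerivAt
    have a1 : HasFDerivAt (fun x => ⟪u x, c⟫) ((innerSL ℝ c).comp (fderiv ℝ u x)) x := by
      have h2 : (fun x => ⟪u x, c⟫) = fun x => innerSL ℝ c (u x) := by
        funext y
        rw [innerSL_apply_apply, real_inner_comm]
      rw [h2]
      exact (innerSL ℝ c).hasFDerivAt.comp x hux
    have a2 := ((Dec.hasFDerivAt_phase k x).cos).mul a1
    have a3 : HasFDerivAt (fun x => (Real.cos (phase k x) * ⟪u x, c⟫) • u x)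
        ((Real.cos (phase k x) * ⟪u x, c⟫) • fderiv ℝ u x +
          (Real.cos (phase k x) • (innerSL ℝ c).comp (fderiv ℝ u x) +
            ⟪u x, c⟫ • (-Real.sin (phase k x)) • innerSL ℝ (vec k)).smulRight (u x)) x :=
      a2.smul hux
    rw [a3.fderiv]
    have e1 : ∀ (A B : E3 →L[ℝ] E3), LinearMap.trace ℝ E3 ((A + B : E3 →L[ℝ] E3) : E3 →ₗ[ℝ] E3) =
        LinearMap.trace ℝ E3 (A : E3 →ₗ[ℝ] E3) + LinearMap.trace ℝ E3 (B : E3 →ₗ[ℝ] E3) := by
      intro A B
      rw [ContinuousLinearMap.toLinearMap_add, map_add]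
    have e2 : ∀ (r : ℝ) (A : E3 →L[ℝ] E3), LinearMap.trace ℝ E3 ((r • A : E3 →L[ℝ] E3) :
        E3 →ₗ[ℝ] E3) = r * LinearMap.trace ℝ E3 (A : E3 →ₗ[ℝ] E3) := by
      intro r A
      rw [ContinuousLinearMap.toLinearMap_smul, map_smul, smul_eq_mul]
    rw [e1, e2, hd, Damp.conv_trace]
    simp only [ContinuousLinearMap.add_apply, ContinuousLinearMap.smul_apply, smul_eq_mul,
      ContinuousLinearMap.comp_apply, innerSL_apply_apply, mul_zero, zero_add]
    rw [real_inner_comm (fderiv ℝ u x (u x)) c, real_inner_comm (u x) (vec k)]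
    ring
  simp only [h1] at h0
  have c1 : Continuous fun x => ⟪u x, vec k⟫ * (Real.sin (phase k x) * ⟪u x, c⟫) :=
    (hu.continuous.inner continuous_const).mul ((Damp.conv_sin k).mul hin.continuous)
  have c2 : Continuous fun x => Real.cos (phase k x) * ⟪fderiv ℝ u x (u x), c⟫ :=
    (Damp.conv_cos k).mul (((hu.continuous_fderiv (by norm_num)).clm_apply hu.continuous).inner
      continuous_const)
  rw [integral_sub (Damp.conv_int c2) (Damp.conv_int c1)] at h0
  linarith

theorem conv_cc_inner {u : E3 → E3} (hu : Continuous u) (p : Fin 3 → ℤ) (c : E3) :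
    ∫ x in cube, Real.cos (phase p x) * ⟪u x, c⟫ = ⟪cc u p, c⟫ := by
  unfold Damp.cc
  have hI : IntegrableOn (fun x => Real.cos (phase p x) • u x) cube :=
    Damp.conv_int ((Damp.conv_cos p).smul hu)
  rw [real_inner_comm, ← integral_inner hI]
  refine integral_congr_ae (Eventually.of_forall fun x => ?_)
  simp only [real_inner_smul_right]
  rw [real_inner_comm]

/-- The coefficients through characters. -/
theorem conv_hat_eq {u : E3 → E3} (hu : Continuous u) (p : Fin 3 → ℤ) (c : E3) :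
    hat u p c = ((((2 * Real.pi) ^ 3)⁻¹ : ℝ) : ℂ) * gh (fun x => ⟪u x, c⟫) p := by
  rw [gh_eq (hu.inner continuous_const), Damp.conv_sc_inner hu, conv_cc_inner hu]
  unfold hat
  push_cast
  ring

theorem claimConv : ClaimConv := by
  intro u hu hp hd k c
  have huc := hu.continuous
  have cf : ∀ v : E3, Continuous fun x => ⟪u x, v⟫ := fun v => huc.inner continuous_const
  have h1 := conv_scalar (cf (vec k)) (cf c) (Damp.conv_per_inner hp _)
    (Damp.conv_per_inner hp _) k
  have cw : Continuous fun x => fderiv ℝ u x (u x) :=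
    (hu.continuous_fderiv (by norm_num)).clm_apply huc
  have hpi : (((2 * Real.pi) ^ 3 : ℝ) : ℂ) ≠ 0 := by
    have : ((2 * Real.pi) ^ 3 : ℝ) ≠ 0 := by positivity
    exact_mod_cast this
  have h2 := h1.mul_left (((((2 * Real.pi) ^ 3)⁻¹ : ℝ) : ℂ) * ((((2 * Real.pi) ^ 3)⁻¹ : ℝ) : ℂ))
  have h3 : -Complex.I * hat (fun x => fderiv ℝ u x (u x)) k c =
      (((((2 * Real.pi) ^ 3)⁻¹ : ℝ) : ℂ) * ((((2 * Real.pi) ^ 3)⁻¹ : ℝ) : ℂ)) *
      ((((2 * Real.pi) ^ 3 : ℝ) : ℂ) *
        ∫ x in cube, ch k x * (((⟪u x, vec k⟫ * ⟪u x, c⟫ : ℝ)) : ℂ)) := by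
    rw [conv_hat_eq cw, gh_eq (cw.inner continuous_const), conv_parts_cos hu hp hd,
      Damp.conv_parts hu hp hd]
    have h4 := gh_eq (g := fun x => ⟪u x, vec k⟫ * ⟪u x, c⟫) ((cf (vec k)).mul (cf c)) k
    unfold Tri.Bes.gh at h4
    rw [h4]
    have h5 : (∫ x in cube, ⟪u x, vec k⟫ * (Real.sin (phase k x) * ⟪u x, c⟫)) =
        ∫ x in cube, Real.sin (phase k x) * (⟪u x, vec k⟫ * ⟪u x, c⟫) := by
      refine integral_congr_ae (Eventually.of_forall fun x => ?_)
      simp only
      ring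
    have h6 : (∫ x in cube, ⟪u x, vec k⟫ * (Real.cos (phase k x) * ⟪u x, c⟫)) =
        ∫ x in cube, Real.cos (phase k x) * (⟪u x, vec k⟫ * ⟪u x, c⟫) := by
      refine integral_congr_ae (Eventually.of_forall fun x => ?_)
      simp only
      ring
    rw [h5, h6]
    have h7 : ((((2 * Real.pi) ^ 3)⁻¹ : ℝ) : ℂ) * (((2 * Real.pi) ^ 3 : ℝ) : ℂ) = 1 := by
      rw [Complex.ofReal_inv]
      exact inv_mul_cancel₀ hpi
    set N := (((2 * Real.pi) ^ 3 : ℝ) : ℂ)
    set M := ((((2 * Real.pi) ^ 3)⁻¹ : ℝ) : ℂ)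
    set S := ∫ x in cube, Real.sin (phase k x) * (⟪u x, vec k⟫ * ⟪u x, c⟫)
    set C := ∫ x in cube, Real.cos (phase k x) * (⟪u x, vec k⟫ * ⟪u x, c⟫)
    push_cast
    have hI : Complex.I * Complex.I = -1 := Complex.I_mul_I
    linear_combination (-M * (C : ℂ)) * hI - M * ((C : ℂ) - Complex.I * (S : ℂ)) * h7
  rw [h3]
  refine h2.congr_fun fun p => ?_
  rw [conv_hat_eq huc, conv_hat_eq huc]
  ring

end Pool.Agent.Work.MP_b0497c_an.Disp
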