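import Pool.Agent.Work.MP_b0497c_an.Dec.Fields
import Pool.Agent.Work.MP_b0497c_an.Disp.Stmts

set_option autoImplicit false

/-!
Data are finite sums.
-/

namespace Pool.Agent.Work.MP_b0497c_an.Disp

open Set MeasureTheory RealInnerProductSpace Pool.Agent.Work.MP_b0497c_an
open Pool.Agent.Work.MP_b0497c_an.Dec
open Pool.Agent.Work.MP_b0497c_an.Damp (cc sc acc)

theorem datum_cos_cos (k l : Fin 3 → ℤ) :
    ∫ x in cube, Real.cos (phase k x) * Real.cos (phase l x)
      = (1 / 2) * ((if k - l = 0 then (2 * Real.pi) ^ 3 else 0)
        + (if k + l = 0 then (2 * Real.pi) ^ 3 else 0)) := by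
  have h : ∀ x, Real.cos (phase k x) * Real.cos (phase l x)
      = (1 / 2) * Real.cos (phase (k - l) x) + (1 / 2) * Real.cos (phase (k + l) x) := by
    intro x
    rw [phase_add', phase_sub', Real.cos_add, Real.cos_sub]
    ring
  simp_rw [h]
  rw [integral_add, integral_const_mul, integral_const_mul, Dec.integral_cos, Dec.integral_cos]
  · ring
  · exact integrable_cube (continuous_const.mul (Real.continuous_cos.comp (continuous_phase _)))
  · exact integrable_cube (continuous_const.mul (Real.continuous_cos.comp (continuous_phase _)))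

section Sum

variable (F : Finset (Fin 3 → ℤ)) (b c : (Fin 3 → ℤ) → E3)

/-- The trigonometric sum. -/
noncomputable def datumSum (x : E3) : E3 :=
  ∑ k ∈ F, (Real.cos (phase k x) • b k + Real.sin (phase k x) • c k)

theorem datum_cc (l : Fin 3 → ℤ) : cc (datumSum F b c) l =
    ∑ k ∈ F, ((1 / 2 : ℝ) * ((if l - k = 0 then (2 * Real.pi) ^ 3 else 0) +
      (if l + k = 0 then (2 * Real.pi) ^ 3 else 0))) • b k := by
  unfold cc
  have e1 : ∀ x, Real.cos (phase l x) • datumSum F b c x =
      ∑ k ∈ F, ((Real.cos (phase l x) * Real.cos (phase k x)) • b k +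
        (Real.cos (phase l x) * Real.sin (phase k x)) • c k) := by
    intro x
    rw [datumSum, Finset.smul_sum]
    exact Finset.sum_congr rfl fun k _ => by rw [smul_add, smul_smul, smul_smul]
  simp_rw [e1]
  have hi1 : ∀ k, IntegrableOn (fun x => (Real.cos (phase l x) * Real.cos (phase k x)) • b k)
      cube := fun k => integrable_cube (((Real.continuous_cos.comp (continuous_phase l)).mul
        (Real.continuous_cos.comp (continuous_phase k))).smul continuous_const)
  have hi2 : ∀ k, IntegrableOn (fun x => (Real.cos (phase l x) * Real.sin (phase k x)) • c k)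
      cube := fun k => integrable_cube (((Real.continuous_cos.comp (continuous_phase l)).mul
        (Real.continuous_sin.comp (continuous_phase k))).smul continuous_const)
  rw [integral_finsetSum]
  · refine Finset.sum_congr rfl fun k _ => ?_
    rw [integral_add (hi1 k) (hi2 k), integral_smul_const, integral_smul_const, datum_cos_cos,
      integral_cos_sin, zero_smul, add_zero]
  · exact fun k _ => (hi1 k).add (hi2 k)

theorem datum_sc (l : Fin 3 → ℤ) : sc (datumSum F b c) l =
    ∑ k ∈ F, ((1 / 2 : ℝ) * ((if l - k = 0 then (2 * Real.pi) ^ 3 else 0) -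
      (if l + k = 0 then (2 * Real.pi) ^ 3 else 0))) • c k := by
  unfold sc
  have e1 : ∀ x, Real.sin (phase l x) • datumSum F b c x =
      ∑ k ∈ F, ((Real.cos (phase k x) * Real.sin (phase l x)) • b k +
        (Real.sin (phase l x) * Real.sin (phase k x)) • c k) := by
    intro x
    rw [datumSum, Finset.smul_sum]
    refine Finset.sum_congr rfl fun k _ => ?_
    rw [smul_add, smul_smul, smul_smul, mul_comm (Real.sin (phase l x)) (Real.cos (phase k x))]
  simp_rw [e1]
  have hi1 : ∀ k, IntegrableOn (fun x => (Real.cos (phase k x) * Real.sin (phase l x)) • b k)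
      cube := fun k => integrable_cube (((Real.continuous_cos.comp (continuous_phase k)).mul
        (Real.continuous_sin.comp (continuous_phase l))).smul continuous_const)
  have hi2 : ∀ k, IntegrableOn (fun x => (Real.sin (phase l x) * Real.sin (phase k x)) • c k)
      cube := fun k => integrable_cube (((Real.continuous_sin.comp (continuous_phase l)).mul
        (Real.continuous_sin.comp (continuous_phase k))).smul continuous_const)
  rw [integral_finsetSum]
  · refine Finset.sum_congr rfl fun k _ => ?_
    rw [integral_add (hi1 k) (hi2 k), integral_smul_const, integral_smul_const, integral_sin_sin,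
      integral_cos_sin, zero_smul, zero_add]
  · exact fun k _ => (hi1 k).add (hi2 k)

end Sum

theorem claimDatum : ClaimDatum := by
  classical
  intro v hv
  obtain ⟨F, b, c, htrig⟩ := hv.trig
  have hv' : v = datumSum F b c := funext htrig
  subst hv'
  have hpi : (2 * Real.pi) ^ 3 ≠ 0 := by positivity
  refine ⟨?_, ?_, F ∪ F.image (fun k => -k), ?_, ?_⟩
  · refine ContDiff.sum fun k _ => ?_
    exact ((Real.contDiff_cos.comp ((contDiff_phase k).of_le (by exact_mod_cast le_top))).smul
      contDiff_const).add
      ((Real.contDiff_sin.comp ((contDiff_phase k).of_le (by exact_mod_cast le_top))).smul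
      contDiff_const)
  · intro i x
    unfold datumSum
    refine Finset.sum_congr rfl fun k _ => ?_
    have h1 := sin_phase_periodic k i x
    have h2 := cos_phase_periodic k i x
    simp only at h1 h2
    rw [h1, h2]
  · intro l hl
    rw [Finset.mem_union, not_or, Finset.mem_image] at hl
    have h1 : ∀ k ∈ F, ¬ (l - k = 0) := by
      intro k hk h
      rw [sub_eq_zero] at h
      exact hl.1 (h ▸ hk)
    have h2 : ∀ k ∈ F, ¬ (l + k = 0) := by
      intro k hk h
      exact hl.2 ⟨k, hk, by rw [← eq_neg_iff_add_eq_zero.2 h]⟩
    rw [datum_cc, datum_sc]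
    constructor
    · refine Finset.sum_eq_zero fun k hk => ?_
      rw [if_neg (h1 k hk), if_neg (h2 k hk)]
      simp
    · refine Finset.sum_eq_zero fun k hk => ?_
      rw [if_neg (h1 k hk), if_neg (h2 k hk)]
      simp
  · intro x
    have e1 : ∀ l ∈ F ∪ F.image (fun k => -k),
        ((2 * Real.pi) ^ 3)⁻¹ • (Real.cos (phase l x) • cc (datumSum F b c) l +
          Real.sin (phase l x) • sc (datumSum F b c) l) =
        ∑ k ∈ F, (((1 / 2 : ℝ) * ((if l = k then Real.cos (phase l x) else 0) +
          (if l = -k then Real.cos (phase l x) else 0))) • b k +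
          ((1 / 2 : ℝ) * ((if l = k then Real.sin (phase l x) else 0) -
          (if l = -k then Real.sin (phase l x) else 0))) • c k) := by
      intro l _
      rw [datum_cc, datum_sc, Finset.smul_sum, Finset.smul_sum, ← Finset.sum_add_distrib,
        Finset.smul_sum]
      refine Finset.sum_congr rfl fun k _ => ?_
      rw [smul_add, smul_smul, smul_smul, smul_smul, smul_smul]
      have h1 : (l - k = 0) = (l = k) := propext sub_eq_zero
      have h2 : (l + k = 0) = (l = -k) := propext eq_neg_iff_add_eq_zero.symm
      simp only [h1, h2]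
      congr 2
      · split_ifs <;> field_simp <;> ring
      · split_ifs <;> field_simp <;> ring
    rw [Finset.sum_congr rfl e1, Finset.sum_comm]
    unfold datumSum
    refine Finset.sum_congr rfl fun k hk => ?_
    rw [Finset.sum_add_distrib, ← Finset.sum_smul, ← Finset.sum_smul]
    have hm1 : k ∈ F ∪ F.image (fun k => -k) := Finset.mem_union_left _ hk
    have hm2 : -k ∈ F ∪ F.image (fun k => -k) :=
      Finset.mem_union_right _ (Finset.mem_image_of_mem _ hk)
    congr 2
    · rw [← Finset.mul_sum, Finset.sum_add_distrib, Finset.sum_ite_eq', Finset.sum_ite_eq',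
        if_pos hm1, if_pos hm2, phase_neg_left, Real.cos_neg]
      ring
    · rw [← Finset.mul_sum, Finset.sum_sub_distrib, Finset.sum_ite_eq', Finset.sum_ite_eq',
        if_pos hm1, if_pos hm2, phase_neg_left, Real.sin_neg]
      ring

end Pool.Agent.Work.MP_b0497c_an.Disp
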