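import Mathlib
import Pool.Agent.Work.MP_b0497c_an.Bd.B21
import Pool.Agent.Work.MP_b0497c_an.Damp.Energy
import Pool.Agent.Work.MP_b0497c_an.Damp.Basic
import Pool.Agent.Work.MP_b0497c_an.Damp.Parseval
import Pool.Agent.Work.MP_b0497c_an.Damp.Time
import Pool.Agent.Work.MP_b0497c_an.Disp.Stmts

set_option autoImplicit false

/-!
F3. Conservation of energy.
-/

namespace Pool.Agent.Work.MP_b0497c_an.Disp

open Set MeasureTheory RealInnerProductSpace Pool.Agent.Work.MP_b0497c_an
open Pool.Agent.Work.MP_b0497c_an.Dec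
open Pool.Agent.Work.MP_b0497c_an.Damp (cc sc acc)

theorem claimEnergy : ClaimEnergy := by
  intro B T u hBs hu t ht
  have hacc := Damp.Energy_acc hu.contDiff_u
  have hz : ∀ s ∈ Ico 0 T, ∫ x in cube, ⟪acc T u s x, u s x⟫ = 0 := by
    intro t ht
    have hcu := Damp.Energy_contDiff hu.contDiff_u ht
    have hca : Continuous (acc T u t) := Damp.Energy_slice hacc ht
    have hb := Damp.claimBasic Damp.claimParseval (u t) hcu (hu.periodic t ht) (hu.div_free t ht)
    have hP := Damp.claimParseval (acc T u t) (u t) hca hcu.continuous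
      (Damp.Energy_acc_per hu.periodic ht) (hu.periodic t ht)
    have hk : ∀ k : Fin 3 → ℤ, ⟪cc (acc T u t) k, cc (u t) k⟫ + ⟪sc (acc T u t) k, sc (u t) k⟫ =
        0 := by
      intro k
      have wc : Continuous (fun x => Real.cos (phase k x)) :=
        Real.continuous_cos.comp (continuous_phase k)
      have ws : Continuous (fun x => Real.sin (phase k x)) :=
        Real.continuous_sin.comp (continuous_phase k)
      have e1 := hu.cos_eq t ht k (cc (u t) k) (hb k).1
      have e2 := hu.sin_eq t ht k (sc (u t) k) (hb k).2.1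
      have f1 := Damp.Energy_int wc hca (cc (u t) k)
      have f2 := Damp.Energy_int ws hca (sc (u t) k)
      have f3 := Damp.Energy_int ws hcu.continuous (B k (cc (u t) k))
      have f4 := Damp.Energy_int wc hcu.continuous (B k (sc (u t) k))
      rw [f3] at e1
      rw [f4] at e2
      have g1 : ⟪cc (acc T u t) k, cc (u t) k⟫ + ⟪sc (u t) k, B k (cc (u t) k)⟫ = 0 := by
        rw [← e1]
        congr 1
        exact f1.symm
      have g2 : ⟪sc (acc T u t) k, sc (u t) k⟫ - ⟪cc (u t) k, B k (sc (u t) k)⟫ = 0 := by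
        rw [← e2]
        congr 1
        exact f2.symm
      have g3 : ⟪cc (u t) k, B k (sc (u t) k)⟫ = ⟪sc (u t) k, B k (cc (u t) k)⟫ := by
        rw [← hBs.symm, real_inner_comm]
      linarith
    simp only [hk] at hP
    have h0 := hP.unique hasSum_zero
    have hπ : (2 * Real.pi) ^ 3 ≠ 0 := by positivity
    exact (mul_eq_zero.1 h0).resolve_left hπ
  -- the energy
  have hG : ContDiffOn ℝ 1 (fun z : ℝ × E3 => ‖u z.1 z.2‖ ^ 2) (Ico 0 T ×ˢ univ) :=
    hu.contDiff_u.norm_sq ℝ
  have hD := Damp.claimIntDeriv T (fun s x => ‖u s x‖ ^ 2) hG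
  have hval : ∀ s ∈ Ico 0 T, ∫ x in cube, derivWithin (fun s => ‖u s x‖ ^ 2) (Ico 0 T) s = 0 := by
    intro s hs
    have hcu := Damp.Energy_contDiff hu.contDiff_u hs
    have hca : Continuous (acc T u s) := Damp.Energy_slice hacc hs
    have hcf : Continuous (fun x => fderiv ℝ (u s) x (u s x)) :=
      (hcu.continuous_fderiv (by norm_num)).clm_apply hcu.continuous
    have e1 : ∀ x, derivWithin (fun s => ‖u s x‖ ^ 2) (Ico 0 T) s =
        2 * ⟪acc T u s x, u s x⟫ - 2 * ⟪fderiv ℝ (u s) x (u s x), u s x⟫ := by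
      intro x
      have hd := hasDerivWithinAt_along hu.contDiff_u (I := Ico 0 T) (Subset.refl _)
        (t := s) hs (X := fun _ => x) (X' := 0) (hasDerivWithinAt_const _ _ _)
      simp only [map_zero, add_zero] at hd
      have hd2 := (hd.norm_sq).derivWithin (uniqueDiffOn_Ico 0 T s hs)
      rw [hd2]
      unfold acc
      rw [inner_add_left, real_inner_comm]
      ring
    simp only [e1]
    have i1 : IntegrableOn (fun x => 2 * ⟪acc T u s x, u s x⟫) cube :=
      (continuous_const.mul (hca.inner hcu.continuous)).continuousOn.integrableOn_compact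
        cube_compact
    have i2 : IntegrableOn (fun x => 2 * ⟪fderiv ℝ (u s) x (u s x), u s x⟫) cube :=
      (continuous_const.mul (hcf.inner hcu.continuous)).continuousOn.integrableOn_compact
        cube_compact
    rw [integral_sub i1 i2, integral_const_mul, integral_const_mul,
      Uniq.transport_zero hcu (hu.periodic s hs) (hu.div_free s hs) hcu (hu.periodic s hs),
      mul_zero, sub_zero, hz s hs, mul_zero]
  have hsub : Icc 0 t ⊆ Ico 0 T := fun s hs => ⟨hs.1, hs.2.trans_lt ht.2⟩
  have hcont : ContinuousOn (fun s => ∫ x in cube, ‖u s x‖ ^ 2) (Icc 0 t) :=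
    fun s hs => ((hD s (hsub hs)).continuousWithinAt).mono hsub
  have hder : ∀ s ∈ Ioo 0 t, HasDerivWithinAt (fun s => ∫ x in cube, ‖u s x‖ ^ 2)
      0 (Ioi s) s := by
    intro s hs
    have hs' : s ∈ Ico 0 T := ⟨hs.1.le, hs.2.trans ht.2⟩
    have := (hD s hs').hasDerivAt (Ico_mem_nhds hs.1 hs'.2)
    rw [hval s hs'] at this
    exact this.hasDerivWithinAt
  have hint : IntervalIntegrable (fun _ : ℝ => (0 : ℝ)) volume 0 t := intervalIntegrable_const
  have := intervalIntegral.integral_eq_sub_of_hasDeriv_right_of_le ht.1 hcont hder hint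
  rw [intervalIntegral.integral_zero] at this
  linarith

end Pool.Agent.Work.MP_b0497c_an.Disp
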