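import Mathlib
import Pool.Agent.Work.MP_b0497c_an.Disp.Stmts

set_option autoImplicit false

/-!
S3: the powers of the code are admissible frequencies.
-/

namespace Pool.Agent.Work.MP_b0497c_an.Disp

open Set MeasureTheory RealInnerProductSpace Pool.Agent.Work.MP_b0497c_an
open Pool.Agent.Work.MP_b0497c_an.Dec (cube phase vec)

/-- the sum of the absolute values -/
def freqS (k : Fin 3 → ℤ) : ℕ := (k 0).natAbs + (k 1).natAbs + (k 2).natAbs

/-- the last digit of the code -/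
def freqA (k : Fin 3 → ℤ) : ℕ :=
  if 0 < k 0 * k 1 ∨ k 1 = 0 then (k 1).natAbs else (k 0).natAbs

theorem freq_code (k : Fin 3 → ℤ) :
    code k = freqS k ^ 3 + (freqS k + 1) * (k 2).natAbs + freqA k := rfl

theorem freqA_le (k : Fin 3 → ℤ) : freqA k ≤ freqS k := by
  unfold freqA freqS
  split_ifs <;> omega

theorem freq_z_le (k : Fin 3 → ℤ) : (k 2).natAbs ≤ freqS k := by
  unfold freqS
  omega

theorem freq_code_ge (k : Fin 3 → ℤ) : freqS k ^ 3 ≤ code k := by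
  rw [freq_code]
  omega

theorem freq_code_lt (k : Fin 3 → ℤ) : code k < (freqS k + 1) ^ 3 := by
  rw [freq_code]
  have h1 := freqA_le k
  have h2 : (freqS k + 1) * (k 2).natAbs ≤ (freqS k + 1) * freqS k :=
    Nat.mul_le_mul_left _ (freq_z_le k)
  nlinarith [sq_nonneg (freqS k)]

theorem freqA_cases (k : Fin 3 → ℤ) :
    (((0 < k 0 ∧ 0 < k 1) ∨ (k 0 < 0 ∧ k 1 < 0) ∨ k 1 = 0) ∧ freqA k = (k 1).natAbs) ∨
    ((((0 < k 0 ∧ k 1 < 0) ∨ (k 0 < 0 ∧ 0 < k 1) ∨ (k 0 = 0 ∧ k 1 ≠ 0))) ∧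
      freqA k = (k 0).natAbs) := by
  unfold freqA
  by_cases h : 0 < k 0 * k 1 ∨ k 1 = 0
  · left
    rw [if_pos h, mul_pos_iff] at *
    refine ⟨?_, rfl⟩
    tauto
  · right
    rw [if_neg h]
    rw [mul_pos_iff] at h
    push Not at h
    refine ⟨?_, rfl⟩
    obtain ⟨⟨h1, h2⟩, h3⟩ := h
    rcases lt_trichotomy (k 0) 0 with h0 | h0 | h0
    · right; left
      exact ⟨h0, lt_of_le_of_ne (h2 h0) (Ne.symm h3)⟩
    · right; right
      exact ⟨h0, h3⟩
    · left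
      exact ⟨h0, lt_of_le_of_ne (h1 h0) h3⟩

theorem freqA_rk (k : Fin 3 → ℤ) : freqA (rk k) = freqA k := by
  have h1 := freqA_cases k
  have h2 := freqA_cases (rk k)
  have e0 : rk k 0 = k 1 := rfl
  have e1 : rk k 1 = -k 0 := rfl
  rw [e0, e1] at h2
  omega

theorem freqS_rk (k : Fin 3 → ℤ) : freqS (rk k) = freqS k := by
  have e0 : rk k 0 = k 1 := rfl
  have e1 : rk k 1 = -k 0 := rfl
  have e2 : rk k 2 = -k 2 := rfl
  unfold freqS
  rw [e0, e1, e2]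
  omega

theorem freqA_neg (k : Fin 3 → ℤ) : freqA (-k) = freqA k := by
  have h1 := freqA_cases k
  have h2 := freqA_cases (-k)
  simp only [Pi.neg_apply] at h2
  omega

theorem freqS_neg (k : Fin 3 → ℤ) : freqS (-k) = freqS k := by
  unfold freqS
  simp only [Pi.neg_apply]
  omega

theorem code_rk (k : Fin 3 → ℤ) : code (rk k) = code k := by
  have e2 : rk k 2 = -k 2 := rfl
  rw [freq_code, freq_code, freqS_rk, freqA_rk, e2, Int.natAbs_neg]

theorem code_neg (k : Fin 3 → ℤ) : code (-k) = code k := by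
  rw [freq_code, freq_code, freqS_neg, freqA_neg, Pi.neg_apply, Int.natAbs_neg]

theorem freq_code_inj {p q : Fin 3 → ℤ} (h : code p = code q) :
    freqS p = freqS q ∧ (p 2).natAbs = (q 2).natAbs ∧ freqA p = freqA q := by
  have hS : freqS p = freqS q := by
    rcases lt_trichotomy (freqS p) (freqS q) with hlt | heq | hgt
    · exfalso
      have h1 : (freqS p + 1) ^ 3 ≤ freqS q ^ 3 := Nat.pow_le_pow_left hlt 3
      have h2 := freq_code_lt p
      have h3 := freq_code_ge q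
      omega
    · exact heq
    · exfalso
      have h1 : (freqS q + 1) ^ 3 ≤ freqS p ^ 3 := Nat.pow_le_pow_left hgt 3
      have h2 := freq_code_lt q
      have h3 := freq_code_ge p
      omega
  rw [freq_code, freq_code, hS] at h
  have hAp := freqA_le p
  have hAq := freqA_le q
  rw [hS] at hAp
  have h' : freqA p + (freqS q + 1) * (p 2).natAbs = freqA q + (freqS q + 1) * (q 2).natAbs := by
    omega
  have hz : (p 2).natAbs = (q 2).natAbs := by
    have e1 : (freqA p + (freqS q + 1) * (p 2).natAbs) / (freqS q + 1) = (p 2).natAbs := by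
      rw [Nat.add_mul_div_left _ _ (Nat.succ_pos _), Nat.div_eq_of_lt (Nat.lt_succ_of_le hAp),
        zero_add]
    have e2 : (freqA q + (freqS q + 1) * (q 2).natAbs) / (freqS q + 1) = (q 2).natAbs := by
      rw [Nat.add_mul_div_left _ _ (Nat.succ_pos _), Nat.div_eq_of_lt (Nat.lt_succ_of_le hAq),
        zero_add]
    rw [← e1, ← e2, h']
  refine ⟨hS, hz, ?_⟩
  rw [hz] at h'
  omega

theorem freq_orbit {p q : Fin 3 → ℤ} (h2 : q 2 = p 2 ∨ q 2 = -p 2)
    (h : (q 0 = p 0 ∧ q 1 = p 1) ∨ (q 0 = -p 0 ∧ q 1 = -p 1) ∨ (q 0 = p 1 ∧ q 1 = -p 0) ∨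
      (q 0 = -p 1 ∧ q 1 = p 0)) : ∃ j : ℕ, q = rk^[j] p ∨ q = -(rk^[j] p) := by
  have key : ∀ r : Fin 3 → ℤ, q 0 = r 0 → q 1 = r 1 → q 2 = r 2 → q = r := by
    intro r a b c
    funext i
    fin_cases i
    · exact a
    · exact b
    · exact c
  rcases h with ⟨h0, h1⟩ | ⟨h0, h1⟩ | ⟨h0, h1⟩ | ⟨h0, h1⟩ <;> rcases h2 with h2 | h2
  · exact ⟨0, Or.inl (key _ h0 h1 h2)⟩
  · exact ⟨2, Or.inr (key _ (by simp [rk, h0]) (by simp [rk, h1]) (by simp [rk, h2]))⟩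
  · exact ⟨2, Or.inl (key _ (by simp [rk, h0]) (by simp [rk, h1]) (by simp [rk, h2]))⟩
  · exact ⟨0, Or.inr (key _ (by simp [h0]) (by simp [h1]) (by simp [h2]))⟩
  · exact ⟨3, Or.inr (key _ (by simp [rk, h0]) (by simp [rk, h1]) (by simp [rk, h2]))⟩
  · exact ⟨1, Or.inl (key _ (by simp [rk, h0]) (by simp [rk, h1]) (by simp [rk, h2]))⟩
  · exact ⟨1, Or.inr (key _ (by simp [rk, h0]) (by simp [rk, h1]) (by simp [rk, h2]))⟩
  · exact ⟨3, Or.inl (key _ (by simp [rk, h0]) (by simp [rk, h1]) (by simp [rk, h2]))⟩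

theorem freq_code_orbit {p q : Fin 3 → ℤ} (h : code p = code q) :
    ∃ j : ℕ, q = rk^[j] p ∨ q = -(rk^[j] p) := by
  obtain ⟨hS, hz, hA⟩ := freq_code_inj h
  unfold freqS at hS
  have hp := freqA_cases p
  have hq := freqA_cases q
  apply freq_orbit
  · omega
  · omega

theorem freq_norm_sq (k : Fin 3 → ℤ) :
    ‖vec k‖ ^ 2 = (k 0 : ℝ) ^ 2 + (k 1 : ℝ) ^ 2 + (k 2 : ℝ) ^ 2 := by
  rw [EuclideanSpace.norm_sq_eq, Fin.sum_univ_three]
  simp [vec]

theorem freqS_cast (k : Fin 3 → ℤ) : (freqS k : ℝ) = |(k 0 : ℝ)| + |(k 1 : ℝ)| + |(k 2 : ℝ)| := by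
  unfold freqS
  push_cast [Nat.cast_natAbs]
  rfl

theorem freq_norm_le (k : Fin 3 → ℤ) : ‖vec k‖ ≤ freqS k := by
  apply le_of_sq_le_sq _ (by positivity)
  rw [freq_norm_sq, freqS_cast]
  have h0 := abs_nonneg (k 0 : ℝ)
  have h1 := abs_nonneg (k 1 : ℝ)
  have h2 := abs_nonneg (k 2 : ℝ)
  rw [← sq_abs (k 0 : ℝ), ← sq_abs (k 1 : ℝ), ← sq_abs (k 2 : ℝ)]
  nlinarith [mul_nonneg h0 h1, mul_nonneg h0 h2, mul_nonneg h1 h2]

theorem freqS_le (k : Fin 3 → ℤ) : (freqS k : ℝ) ≤ 2 * ‖vec k‖ := by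
  apply le_of_sq_le_sq _ (by positivity)
  rw [mul_pow, freq_norm_sq, freqS_cast]
  rw [← sq_abs (k 0 : ℝ), ← sq_abs (k 1 : ℝ), ← sq_abs (k 2 : ℝ)]
  nlinarith [sq_nonneg (|(k 0 : ℝ)| - |(k 1 : ℝ)|), sq_nonneg (|(k 0 : ℝ)| - |(k 2 : ℝ)|),
    sq_nonneg (|(k 1 : ℝ)| - |(k 2 : ℝ)|), sq_nonneg (|(k 0 : ℝ)|), sq_nonneg (|(k 1 : ℝ)|),
    sq_nonneg (|(k 2 : ℝ)|)]

theorem freq_norm_cube_le (k : Fin 3 → ℤ) : ‖vec k‖ ^ 3 ≤ code k := by
  have h1 : ‖vec k‖ ^ 3 ≤ (freqS k : ℝ) ^ 3 := pow_le_pow_left₀ (norm_nonneg _) (freq_norm_le k) 3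
  have h2 : ((freqS k ^ 3 : ℕ) : ℝ) ≤ code k := by exact_mod_cast freq_code_ge k
  push_cast at h2
  exact h1.trans h2

theorem freq_code_le (k : Fin 3 → ℤ) : (code k : ℝ) ≤ (1 + 2 * ‖vec k‖) ^ 3 := by
  have h1 : (code k : ℝ) ≤ ((freqS k + 1) ^ 3 : ℕ) := by exact_mod_cast (freq_code_lt k).le
  push_cast at h1
  refine h1.trans ?_
  apply pow_le_pow_left₀ (by positivity)
  linarith [freqS_le k]

theorem freq_one_le {k : Fin 3 → ℤ} (hk : k ≠ 0) : 1 ≤ ‖vec k‖ := by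
  have h1 : (1 : ℝ) ≤ ‖vec k‖ ^ 2 := by
    rw [freq_norm_sq]
    have h2 : 1 ≤ k 0 ^ 2 + k 1 ^ 2 + k 2 ^ 2 := by
      by_contra hcon
      apply hk
      have a0 := sq_nonneg (k 0)
      have a1 := sq_nonneg (k 1)
      have a2 := sq_nonneg (k 2)
      have b0 : k 0 ^ 2 = 0 := by omega
      have b1 : k 1 ^ 2 = 0 := by omega
      have b2 : k 2 ^ 2 = 0 := by omega
      funext i
      fin_cases i
      · simpa using b0
      · simpa using b1
      · simpa using b2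
    exact_mod_cast h2
  nlinarith [norm_nonneg (vec k)]

theorem freq_pow_gap {a b m : ℕ} (hm : 1 ≤ m) (hab : a < b) : b ^ (m - 1) + a ^ m ≤ b ^ m := by
  obtain ⟨m, rfl⟩ : ∃ m', m = m' + 1 := ⟨m - 1, by omega⟩
  rw [Nat.add_sub_cancel, pow_succ, pow_succ]
  have h1 : a ^ m ≤ b ^ m := Nat.pow_le_pow_left hab.le m
  have h2 : a ^ m * a ≤ b ^ m * a := Nat.mul_le_mul_right a h1
  have h3 : b ^ m * (a + 1) ≤ b ^ m * b := Nat.mul_le_mul_left _ hab
  rw [mul_add, mul_one] at h3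
  omega

theorem freq_gap_aux {a b m : ℕ} (hm : 3 ≤ m) (hab : a < b) :
    (b : ℝ) ^ 2 ≤ (b : ℝ) ^ m - (a : ℝ) ^ m := by
  have h1 := freq_pow_gap (a := a) (b := b) (m := m) (by omega) hab
  have h2 : b ^ 2 ≤ b ^ (m - 1) := Nat.pow_le_pow_right (by omega) (by omega)
  have h3 : b ^ 2 + a ^ m ≤ b ^ m := by omega
  have h4 : ((b ^ 2 + a ^ m : ℕ) : ℝ) ≤ ((b ^ m : ℕ) : ℝ) := by exact_mod_cast h3
  push_cast at h4
  linarith

theorem freq_gap_one {p q : Fin 3 → ℤ} {m : ℕ} (hm : 3 ≤ m) (hlt : code p < code q)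
    (h1 : 1 ≤ ‖vec p‖ ∨ 1 ≤ ‖vec q‖) :
    (‖vec p‖ + ‖vec q‖) ^ 4 ≤ |freq m p - freq m q| := by
  have hg := freq_gap_aux hm hlt
  have hp := freq_norm_cube_le p
  have hq := freq_norm_cube_le q
  have hlt' : (code p : ℝ) ≤ code q := by exact_mod_cast hlt.le
  set M := max ‖vec p‖ ‖vec q‖ with hM
  have hM1 : 1 ≤ M := by
    rcases h1 with h | h
    · exact h.trans (le_max_left _ _)
    · exact h.trans (le_max_right _ _)
  have hM3 : M ^ 3 ≤ code q := by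
    rcases le_total ‖vec p‖ ‖vec q‖ with h | h
    · rw [hM, max_eq_right h]; exact hq
    · rw [hM, max_eq_left h]; exact hp.trans hlt'
  have hM0 : 0 ≤ M := by linarith
  have hsum : ‖vec p‖ + ‖vec q‖ ≤ 2 * M := by
    linarith [le_max_left ‖vec p‖ ‖vec q‖, le_max_right ‖vec p‖ ‖vec q‖]
  have e1 : (‖vec p‖ + ‖vec q‖) ^ 4 ≤ (2 * M) ^ 4 :=
    pow_le_pow_left₀ (by positivity) hsum 4
  have e2 : (M ^ 3) ^ 2 ≤ (code q : ℝ) ^ 2 := pow_le_pow_left₀ (by positivity) hM3 2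
  have e3 : M ^ 4 ≤ M ^ 6 := pow_le_pow_right₀ hM1 (by norm_num)
  have e4 : |freq m p - freq m q| = 16 * ((code q : ℝ) ^ m - (code p : ℝ) ^ m) := by
    unfold freq
    rw [abs_sub_comm, abs_of_nonneg]
    · ring
    · have : (code p : ℝ) ^ m ≤ (code q : ℝ) ^ m :=
        pow_le_pow_left₀ (Nat.cast_nonneg _) hlt' m
      linarith
  rw [e4]
  calc (‖vec p‖ + ‖vec q‖) ^ 4 ≤ (2 * M) ^ 4 := e1
    _ = 16 * M ^ 4 := by ring
    _ ≤ 16 * M ^ 6 := by linarith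
    _ = 16 * (M ^ 3) ^ 2 := by ring
    _ ≤ 16 * (code q : ℝ) ^ 2 := by linarith
    _ ≤ 16 * ((code q : ℝ) ^ m - (code p : ℝ) ^ m) := by linarith

/-- S3. -/
theorem claimFreq : ClaimFreq := by
  intro m hm
  have hup : ∀ k, freq m k ≤ 16 * (1 + 2 * ‖vec k‖) ^ (3 * m) := by
    intro k
    unfold freq
    rw [pow_mul]
    have := pow_le_pow_left₀ (Nat.cast_nonneg _) (freq_code_le k) m
    linarith
  have hlo : ∀ k, ‖vec k‖ ^ (3 * m) ≤ freq m k := by
    intro k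
    unfold freq
    rw [pow_mul]
    have h1 := pow_le_pow_left₀ (by positivity) (freq_norm_cube_le k) m
    have h2 : (0 : ℝ) ≤ (code k : ℝ) ^ m := by positivity
    linarith
  refine ⟨⟨⟨16 * 2 ^ (3 * m), 3 * m, ?_⟩, ?_, ?_, ?_, ?_⟩, fun k => ⟨hlo k, hup k⟩⟩
  · intro k
    refine (hup k).trans ?_
    push_cast
    rw [mul_assoc, ← mul_pow]
    have h1 : (1 + 2 * ‖vec k‖) ^ (3 * m) ≤ (2 * (1 + ‖vec k‖)) ^ (3 * m) := by
      apply pow_le_pow_left₀ (by positivity)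
      linarith [norm_nonneg (vec k)]
    linarith
  · intro k
    unfold freq
    rw [code_rk]
  · intro k
    unfold freq
    rw [code_neg]
  · intro k
    by_cases hk : k = 0
    · subst hk
      have h0 : ‖vec (0 : Fin 3 → ℤ)‖ = 0 := by
        have := freq_norm_sq (0 : Fin 3 → ℤ)
        simp at this
        simpa using this
      rw [h0, zero_pow (by norm_num)]
      unfold freq
      positivity
    · refine le_trans ?_ (hlo k)
      exact pow_le_pow_right₀ (freq_one_le hk) (by omega)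
  · intro p q hX hq
    have hne : p + q ≠ 0 := by
      intro h0
      obtain ⟨n, hn, _⟩ := hX
      rw [h0] at hn
      simp at hn
      exact absurd hn.symm (by positivity)
    have h1 : 1 ≤ ‖vec p‖ ∨ 1 ≤ ‖vec q‖ := by
      by_cases hp : p = 0
      · right
        apply freq_one_le
        rintro rfl
        exact hne (by rw [hp, add_zero])
      · left
        exact freq_one_le hp
    rcases lt_trichotomy (code p) (code q) with hlt | heq | hgt
    · exact freq_gap_one hm hlt h1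
    · exfalso
      obtain ⟨j, hj⟩ := freq_code_orbit heq
      rcases hj with hj | hj
      · exact (hq j).1 hj
      · exact (hq j).2 hj
    · rw [abs_sub_comm, add_comm ‖vec p‖]
      exact freq_gap_one hm hgt h1.symm

end Pool.Agent.Work.MP_b0497c_an.Disp
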