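import Mathlib
import Pool.Agent.Work.MP_b0497c_an.Bd.B21
import Pool.Agent.Work.MP_b0497c_an.Damp.Core
import Pool.Agent.Work.MP_b0497c_an.Disp.Stmts

set_option autoImplicit false

/-!
F9. The coefficients of a symmetric solution.
-/

namespace Pool.Agent.Work.MP_b0497c_an.Disp

open Set MeasureTheory RealInnerProductSpace Pool.Agent.Work.MP_b0497c_an
open Pool.Agent.Work.MP_b0497c_an.Dec (cube phase vec)
open Pool.Agent.Work.MP_b0497c_an.Damp (cc sc acc)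

theorem Hat_slice {T : ℝ} {u : ℝ → E3 → E3}
    (h : ContDiffOn ℝ 1 (fun z : ℝ × E3 => u z.1 z.2) (Ico 0 T ×ˢ univ)) {t : ℝ}
    (ht : t ∈ Ico 0 T) : ContDiff ℝ 1 (u t) := by
  have h1 : ContDiff ℝ 1 (fun x : E3 => (t, x)) := by fun_prop
  have h2 : ContDiffOn ℝ 1 ((fun z : ℝ × E3 => u z.1 z.2) ∘ (fun x : E3 => (t, x))) univ :=
    h.comp h1.contDiffOn (fun x _ => ⟨ht, mem_univ _⟩)
  exact contDiffOn_univ.mp h2

theorem Hat_grad {T : ℝ} {u : ℝ → E3 → E3}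
    (h : ContDiffOn ℝ 1 (fun z : ℝ × E3 => u z.1 z.2) (Ico 0 T ×ˢ univ))
    (hp : ∀ t ∈ Ico 0 T, Periodic3 (u t)) {t : ℝ} (ht : t < T) :
    ∃ C : ℝ, 0 ≤ C ∧ ∀ s ∈ Icc 0 t, ∀ x, ‖fderiv ℝ (u s) x‖ ≤ C := by
  have hsub : Icc 0 t ⊆ Ico 0 T := fun s hs => ⟨hs.1, hs.2.trans_lt ht⟩
  exact exists_bound (G := fun t x => fderiv ℝ (u t) x)
    ((continuousOn_fderiv h).mono (prod_mono hsub (Subset.refl _)))
    fun s hs => (hp s (hsub hs)).fderiv

theorem claimHat (hBasic : ClaimBasic) (hEnergy : ClaimEnergy) (hSymm : ClaimSymm)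
    (hHatSym : ClaimHatSym) (hOde : ClaimOde) : ClaimHat := by
  intro B T E u hT hB hu hu0 hE
  have hπ : (0 : ℝ) < (2 * Real.pi) ^ 3 := by positivity
  have hcd : ∀ t ∈ Ico 0 T, ContDiff ℝ 1 (u t) := fun t ht => Hat_slice hu.contDiff_u ht
  have hb := fun t (ht : t ∈ Ico 0 T) =>
    hBasic (u t) (hcd t ht) (hu.periodic t ht) (hu.div_free t ht)
  have hs := hSymm B T u hB hu hT hu0
  refine ⟨?_, ?_, ?_, ?_, ?_, ?_, ?_, ?_⟩
  · intro t ht k a b c d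
    exact (hb t ht).2.2.1 k a b c d
  · intro t ht k
    exact (hb t ht).1 k
  · intro t ht k c
    exact (hb t ht).2.1 k c
  · intro t ht k c
    exact hHatSym (u t) (hcd t ht).continuous (hu.periodic t ht) (hs t ht) k c
  · intro t ht
    have h1 := (hb t ht).2.2.2.1
    rw [hEnergy B T u hB hu t ht, hE] at h1
    have h2 : ((2 * Real.pi) ^ 3)⁻¹ * ((2 * Real.pi) ^ 3 * E) = E := by
      field_simp
    rw [h2] at h1
    exact h1
  · intro k c hc t ht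
    exact (hOde B T u hB hu k c hc).2 t ht
  · intro k c hc
    exact (hOde B T u hB hu k c hc).1
  · intro t ht
    obtain ⟨C, -, hC⟩ := Hat_grad hu.contDiff_u hu.periodic ht.2
    refine ⟨100 * C ^ 2, fun s hs k => ?_⟩
    exact (hb s ⟨hs.1, hs.2.trans_lt ht.2⟩).2.2.2.2 C (hC s hs) k

end Pool.Agent.Work.MP_b0497c_an.Disp
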