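import Mathlib
import Pool.Agent.Work.MP_b0497c_an.Damp.CubeInv
import Pool.Agent.Work.MP_b0497c_an.Damp.Symm
import Pool.Agent.Work.MP_b0497c_an.Disp.Stmts

set_option autoImplicit false

/-!
F6. The coefficients of a symmetric field.
-/

namespace Pool.Agent.Work.MP_b0497c_an.Disp

open Set MeasureTheory RealInnerProductSpace Pool.Agent.Work.MP_b0497c_an
open Pool.Agent.Work.MP_b0497c_an.Dec
open Pool.Agent.Work.MP_b0497c_an.Damp (cc sc acc)

/-- The rotoreflection as a signed permutation. -/
def HatSym_g : Sgn := (Equiv.swap 0 1, ![1, -1, -1])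

theorem HatSym_rx (x : E3) : rx x = Damp.actR HatSym_g x := by
  ext i
  fin_cases i <;> simp [rx, Damp.actR, HatSym_g, Equiv.swap_apply_def]

theorem HatSym_rk (k : Fin 3 → ℤ) : rk k = act HatSym_g k := by
  funext i
  fin_cases i <;> simp [rk, act, HatSym_g, Equiv.swap_apply_def]

theorem HatSym_inner (x y : E3) : ⟪rx x, rx y⟫ = ⟪x, y⟫ := by
  rw [inner_eq, inner_eq]
  simp only [rx]
  simp
  ring

theorem HatSym_phase (k : Fin 3 → ℤ) (x : E3) : phase (rk k) (rx x) = phase k x := by
  simp only [phase, rk, rx]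
  simp
  ring

theorem HatSym_int {φ : ℝ → ℝ} (hφ : Continuous φ)
    (hper : ∀ k, Periodic3 (fun x => φ (phase k x))) {f : E3 → E3} (hf : Continuous f)
    (hfp : Periodic3 f) (hs : ∀ x, f (rx x) = rx (f x)) (k : Fin 3 → ℤ) (c : E3) :
    ∫ x in cube, φ (phase (rk k) x) * ⟪f x, rx c⟫ =
      ∫ x in cube, φ (phase k x) * ⟪f x, c⟫ := by
  have h1 := Damp.claimCubeInv (fun x => φ (phase (rk k) x) * ⟪f x, rx c⟫)
    ((hφ.comp (continuous_phase _)).mul (hf.inner continuous_const))
    (fun i x => by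
      have a1 := hper (rk k) i x
      have a2 := hfp i x
      simp only at a1 ⊢
      rw [a1, a2]) HatSym_g
  rw [← h1]
  congr 1
  funext x
  rw [← HatSym_rx, hs, HatSym_inner, HatSym_phase]

theorem HatSym_inner_int {w : E3 → ℝ} {f : E3 → E3} (hw : Continuous w) (hf : Continuous f)
    (c : E3) : ⟪∫ x in cube, w x • f x, c⟫ = ∫ x in cube, w x * ⟪f x, c⟫ := by
  have hi : IntegrableOn (fun x => w x • f x) cube :=
    (hw.smul hf).continuousOn.integrableOn_compact cube_compact
  rw [real_inner_comm, ← integral_inner hi c]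
  congr 1
  funext x
  rw [inner_smul_right, real_inner_comm]

theorem claimHatSym : ClaimHatSym := by
  intro f hf hp hs k c
  have wc : ∀ k : Fin 3 → ℤ, Continuous (fun x => Real.cos (phase k x)) :=
    fun k => Real.continuous_cos.comp (continuous_phase k)
  have ws : ∀ k : Fin 3 → ℤ, Continuous (fun x => Real.sin (phase k x)) :=
    fun k => Real.continuous_sin.comp (continuous_phase k)
  have h1 : ⟪cc f (rk k), rx c⟫ = ⟪cc f k, c⟫ := by
    unfold cc
    rw [HatSym_inner_int (wc (rk k)) hf, HatSym_inner_int (wc k) hf]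
    exact HatSym_int Real.continuous_cos cos_phase_periodic hf hp hs k c
  have h2 : ⟪sc f (rk k), rx c⟫ = ⟪sc f k, c⟫ := by
    unfold sc
    rw [HatSym_inner_int (ws (rk k)) hf, HatSym_inner_int (ws k) hf]
    exact HatSym_int Real.continuous_sin sin_phase_periodic hf hp hs k c
  unfold hat
  rw [h1, h2]

end Pool.Agent.Work.MP_b0497c_an.Disp
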