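import Mathlib
import Pool.Agent.Work.MP_b0497c_an.Disp.Stmts

set_option autoImplicit false

/-!
The maximal time of existence.
-/

namespace Pool.Agent.Work.MP_b0497c_an.Disp

open Set MeasureTheory RealInnerProductSpace Pool.Agent.Work.MP_b0497c_an
open Pool.Agent.Work.MP_b0497c_an.Dec (cube phase vec)
open Filter Topology

/-- Two half open intervals have the same germ at an interior point. -/
theorem max_germ {T τ t : ℝ} (h1 : t < T) (h2 : t < τ) :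
    (Ico 0 T : Set ℝ) =ᶠ[𝓝 t] (Ico 0 τ : Set ℝ) := by
  filter_upwards [Iio_mem_nhds h1, Iio_mem_nhds h2] with s hs1 hs2
  apply propext
  constructor
  · rintro ⟨h, -⟩
    exact ⟨h, hs2⟩
  · rintro ⟨h, -⟩
    exact ⟨h, hs1⟩

/-- Gluing of solutions which agree locally with solutions. -/
theorem max_glue (B : (Fin 3 → ℤ) → E3 → E3) (T : ℝ) (u : ℝ → E3 → E3)
    (h : ∀ t ∈ Ico 0 T, ∃ (τ : ℝ) (w : ℝ → E3 → E3), t < τ ∧ IsSolution B τ w ∧
      ∀ s ∈ Ico 0 T, s < τ → ∀ x, u s x = w s x) : IsSolution B T u := by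
  have key : ∀ t ∈ Ico 0 T, ∀ (τ : ℝ) (w : ℝ → E3 → E3), t < τ →
      (∀ s ∈ Ico 0 T, s < τ → ∀ x, u s x = w s x) → ∀ x,
      derivWithin (fun s => u s x) (Ico 0 T) t = derivWithin (fun s => w s x) (Ico 0 τ) t := by
    intro t ht τ w hτ hu x
    have e1 : derivWithin (fun s => u s x) (Ico 0 T) t =
        derivWithin (fun s => w s x) (Ico 0 T) t := by
      apply Filter.EventuallyEq.derivWithin_eq
      · have : Iio τ ∈ 𝓝[Ico 0 T] t := mem_nhdsWithin_of_mem_nhds (Iio_mem_nhds hτ)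
        filter_upwards [this, self_mem_nhdsWithin] with s hs1 hs2
        exact hu s hs2 hs1 x
      · exact hu t ht hτ x
    rw [e1]
    exact derivWithin_congr_set (max_germ ht.2 hτ)
  refine ⟨?_, ?_, ?_, ?_, ?_⟩
  · rintro ⟨t, x⟩ ⟨ht, -⟩
    obtain ⟨τ, w, hτ, hw, hu⟩ := h t ht
    have c1 : ContDiffWithinAt ℝ 1 (fun z : ℝ × E3 => w z.1 z.2) (Ico 0 τ ×ˢ univ) (t, x) :=
      hw.contDiff_u (t, x) ⟨⟨ht.1, hτ⟩, mem_univ _⟩
    have c2 : ContDiffWithinAt ℝ 1 (fun z : ℝ × E3 => w z.1 z.2) (Ico 0 T ×ˢ univ) (t, x) := by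
      apply c1.mono_of_mem_nhdsWithin
      have : (Iio τ ×ˢ (univ : Set E3)) ∈ 𝓝 (t, x) :=
        prod_mem_nhds (Iio_mem_nhds hτ) univ_mem
      have h2 : (Iio τ ×ˢ (univ : Set E3)) ∈ 𝓝[Ico 0 T ×ˢ univ] (t, x) :=
        mem_nhdsWithin_of_mem_nhds this
      filter_upwards [h2, self_mem_nhdsWithin] with z hz1 hz2
      exact ⟨⟨hz2.1.1, hz1.1⟩, mem_univ _⟩
    apply c2.congr_of_eventuallyEq
    · have : (Iio τ ×ˢ (univ : Set E3)) ∈ 𝓝 (t, x) :=
        prod_mem_nhds (Iio_mem_nhds hτ) univ_mem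
      have h2 : (Iio τ ×ˢ (univ : Set E3)) ∈ 𝓝[Ico 0 T ×ˢ univ] (t, x) :=
        mem_nhdsWithin_of_mem_nhds this
      filter_upwards [h2, self_mem_nhdsWithin] with z hz1 hz2
      exact hu z.1 hz2.1 hz1.1 z.2
    · exact hu t ht hτ x
  · intro t ht
    obtain ⟨τ, w, hτ, hw, hu⟩ := h t ht
    have e : u t = w t := funext (hu t ht hτ)
    rw [e]
    exact hw.periodic t ⟨ht.1, hτ⟩
  · intro t ht
    obtain ⟨τ, w, hτ, hw, hu⟩ := h t ht
    have e : u t = w t := funext (hu t ht hτ)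
    rw [e]
    exact hw.div_free t ⟨ht.1, hτ⟩
  · intro t ht k c hc
    obtain ⟨τ, w, hτ, hw, hu⟩ := h t ht
    have e : u t = w t := funext (hu t ht hτ)
    have := hw.cos_eq t ⟨ht.1, hτ⟩ k c hc
    rw [e]
    simpa only [key t ht τ w hτ hu] using this
  · intro t ht k c hc
    obtain ⟨τ, w, hτ, hw, hu⟩ := h t ht
    have e : u t = w t := funext (hu t ht hτ)
    have := hw.sin_eq t ⟨ht.1, hτ⟩ k c hc
    rw [e]
    simpa only [key t ht τ w hτ hu] using this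

/-- G1. The maximal time. -/
theorem claimMax (hU : ClaimUnique) : ClaimMax := by
  intro B v β hS ⟨T0, hT0, u0, hu0, hu0v⟩ hB
  set A : Set ℝ := {T | 0 < T ∧ ∃ u, IsSolution B T u ∧ ∀ x, u 0 x = v x} with hA
  have hT0A : T0 ∈ A := ⟨hT0, u0, hu0, hu0v⟩
  have hbdd : BddAbove A := ⟨β, fun T hT => hB T hT.1 hT.2.choose hT.2.choose_spec.1
    hT.2.choose_spec.2⟩
  have hle : T0 ≤ sSup A := le_csSup hbdd hT0A
  refine ⟨sSup A, lt_of_lt_of_le hT0 hle, ?_, ?_⟩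
  · apply csSup_le ⟨T0, hT0A⟩
    intro T hT
    exact hB T hT.1 hT.2.choose hT.2.choose_spec.1 hT.2.choose_spec.2
  · intro T hT
    constructor
    · rintro ⟨u, hu, huv⟩
      exact le_csSup hbdd ⟨hT, u, hu, huv⟩
    · intro hTs
      have hex : ∀ t : ℝ, ∃ (τ : ℝ) (w : ℝ → E3 → E3), (t < T → t < τ) ∧
          IsSolution B τ w ∧ 0 < τ ∧ ∀ x, w 0 x = v x := by
        intro t
        by_cases ht : t < T
        · obtain ⟨τ, hτ, htτ⟩ := exists_lt_of_lt_csSup ⟨T0, hT0A⟩ (lt_of_lt_of_le ht hTs)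
          obtain ⟨h1, w, h2, h3⟩ := hτ
          exact ⟨τ, w, fun _ => htτ, h2, h1, h3⟩
        · exact ⟨T0, u0, fun h => absurd h ht, hu0, hT0, hu0v⟩
      choose τ w h1 h2 h3 h4 using hex
      refine ⟨fun t => w t t, ?_, fun x => h4 0 x⟩
      apply max_glue
      intro t ht
      refine ⟨τ t, w t, h1 t ht.2, h2 t, ?_⟩
      intro s hs hst x
      have := hU B (τ s) (τ t) (w s) (w t) hS (h2 s) (h2 t)
        (fun x => by rw [h4 s x, h4 t x]) s ⟨hs.1, lt_min (h1 s hs.2) hst⟩ x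
      exact this

end Pool.Agent.Work.MP_b0497c_an.Disp
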