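import Mathlib
import Pool.Agent.Work.MP_b0497c_an.Disp.Stmts
import Pool.Agent.Work.MP_b0497c_an.Disp.Kn
import Pool.Agent.Work.MP_b0497c_an.Disp.Sum

set_option autoImplicit false

/-!
C3. Nonresonance.
-/

namespace Pool.Agent.Work.MP_b0497c_an.Disp

open Set MeasureTheory RealInnerProductSpace Pool.Agent.Work.MP_b0497c_an
open Pool.Agent.Work.MP_b0497c_an.Dec (cube phase vec)

theorem Nonres_rk4 (k : Fin 3 → ℤ) : rk (rk (rk (rk k))) = k := by
  funext i
  fin_cases i
  · show -(-(k 0)) = k 0; ring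
  · show -(-(k 1)) = k 1; ring
  · show -(-(-(-(k 2)))) = k 2; ring

theorem Nonres_iter (k : Fin 3 → ℤ) (i : ℕ) : rk^[i] k = k ∨ rk^[i] k = rk k ∨
    rk^[i] k = rk (rk k) ∨ rk^[i] k = rk (rk (rk k)) := by
  induction i with
  | zero => left; rfl
  | succ i ih =>
    rw [Function.iterate_succ_apply']
    rcases ih with h | h | h | h
    · rw [h]; right; left; rfl
    · rw [h]; right; right; left; rfl
    · rw [h]; right; right; right; rfl
    · rw [h, Nonres_rk4]; left; rfl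

theorem Nonres_sg_abs (k : Fin 3 → ℤ) : |sg k| = 1 := by
  unfold sg
  split_ifs <;> simp

theorem Nonres_lam_zero (ω : (Fin 3 → ℤ) → ℝ) (k : Fin 3 → ℤ) (hk : k ∈ X) :
    lam ω 0 k = 0 := by
  have hk' := hk
  obtain ⟨n, -, h2⟩ := hk'
  have hne : k 2 ≠ 0 := by
    intro h
    rw [h, abs_zero] at h2
    exact absurd h2.symm (by positivity)
  unfold lam
  rw [if_neg hne, if_pos ⟨hk, rfl⟩]

theorem Nonres_lam_abs (ω : (Fin 3 → ℤ) → ℝ) (hω : ∀ k, 0 ≤ ω k) (j : Fin 2) (k : Fin 3 → ℤ)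
    (hk : ¬ (k ∈ X ∧ j = 0)) : |lam ω j k| = ω k := by
  unfold lam
  by_cases h2 : k 2 = 0
  · rw [if_pos h2]
    split_ifs
    · rw [abs_mul, Nonres_sg_abs, one_mul, abs_of_nonneg (hω k)]
    · rw [abs_neg, abs_mul, Nonres_sg_abs, one_mul, abs_of_nonneg (hω k)]
  · rw [if_neg h2, if_neg hk, abs_mul, abs_mul, Nonres_sg_abs, abs_of_nonneg (hω k)]
    have : |((k 2).sign : ℝ)| = 1 := by
      rcases lt_or_gt_of_ne h2 with h | h
      · rw [Int.sign_eq_neg_one_of_neg h]; norm_num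
      · rw [Int.sign_eq_one_of_pos h]; norm_num
    rw [this]; ring

theorem Nonres_bound (n : ℕ) (hn : 1 ≤ n) (u v : Fin 3 → ℤ) (hu : u ∈ X) (hv : v = kn n - u)
    (hne : ¬ (v 0 = 0 ∧ v 1 = 0)) : ‖vec u‖ ≤ 3 * ‖vec v‖ ^ 2 := by
  obtain ⟨m, h1, h2⟩ := hu
  have hu2 : u 2 ^ 2 = 4 ^ m := by
    rw [← sq_abs, h2, ← pow_mul, mul_comm, pow_mul]; norm_num
  have hun : ‖vec u‖ ^ 2 = 2 ^ m + 4 ^ m := by
    rw [sum_vec_sq]
    have e1 : ((u 0 ^ 2 + u 1 ^ 2 : ℤ) : ℝ) = ((2 ^ m : ℤ) : ℝ) := by rw [h1]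
    have e2 : ((u 2 ^ 2 : ℤ) : ℝ) = ((4 ^ m : ℤ) : ℝ) := by rw [hu2]
    push_cast at e1 e2
    rw [e1, e2]
  have hvn : ‖vec v‖ ^ 2 = ((v 0 ^ 2 + v 1 ^ 2 + v 2 ^ 2 : ℤ) : ℝ) := by
    rw [sum_vec_sq]; push_cast; ring
  have key : (2 : ℤ) ^ m + 4 ^ m ≤ 9 * (v 0 ^ 2 + v 1 ^ 2 + v 2 ^ 2) ^ 2 := by
    have e4 : (4 : ℤ) ^ m = 2 ^ m * 2 ^ m := by rw [← mul_pow]; norm_num
    rw [e4]
    have ha : (1 : ℤ) ≤ 2 ^ m := one_le_pow₀ (by norm_num)
    have hv0 : v 0 = kn n 0 - u 0 := by rw [hv]; rfl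
    have hv1 : v 1 = kn n 1 - u 1 := by rw [hv]; rfl
    have hv2 : v 2 = 2 ^ n - u 2 := by rw [hv, ← kn_two n]; rfl
    have hsq := kn_sq n
    have s0 := sq_nonneg (v 0)
    have s1 := sq_nonneg (v 1)
    have fin1 : ∀ S : ℤ, (2 : ℤ) ^ m * 2 ^ m ≤ S →
        (2 : ℤ) ^ m + 2 ^ m * 2 ^ m ≤ 9 * S ^ 2 := by
      intro S hS
      have hS1 : 1 ≤ S := le_trans (by nlinarith) hS
      nlinarith
    have habs := abs_le.1 h2.le
    rcases lt_trichotomy m n with hmn | hmn | hmn
    · have hb : 2 * (2 : ℤ) ^ m ≤ 2 ^ n := by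
        calc 2 * (2 : ℤ) ^ m = 2 ^ (m + 1) := by ring
          _ ≤ 2 ^ n := pow_le_pow_right₀ (by norm_num) hmn
      apply fin1
      have : (2 : ℤ) ^ m ≤ v 2 := by rw [hv2]; linarith [habs.2]
      nlinarith
    · subst hmn
      rcases abs_choice (u 2) with h | h
      · rw [h] at h2
        rcases kn_rep m (u 0) (u 1) h1 with ⟨h0, h1'⟩ | ⟨h0, h1'⟩ | ⟨h0, h1'⟩ | ⟨h0, h1'⟩
        · exact absurd ⟨by rw [hv0, h0]; ring, by rw [hv1, h1']; ring⟩ hne
        · have : v 0 ^ 2 + v 1 ^ 2 = 2 * 2 ^ m := by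
            rw [hv0, hv1, h0, h1', ← hsq]; ring
          have s2 := sq_nonneg (v 2)
          nlinarith
        · have : v 0 ^ 2 + v 1 ^ 2 = 4 * 2 ^ m := by
            rw [hv0, hv1, h0, h1', ← hsq]; ring
          have s2 := sq_nonneg (v 2)
          nlinarith
        · have : v 0 ^ 2 + v 1 ^ 2 = 2 * 2 ^ m := by
            rw [hv0, hv1, h0, h1', ← hsq]; ring
          have s2 := sq_nonneg (v 2)
          nlinarith
      · rw [h] at h2
        apply fin1
        have : v 2 = 2 * 2 ^ m := by rw [hv2]; linarith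
        rw [this]
        nlinarith
    · have hb : 2 * (2 : ℤ) ^ n ≤ 2 ^ m := by
        calc 2 * (2 : ℤ) ^ n = 2 ^ (n + 1) := by ring
          _ ≤ 2 ^ m := pow_le_pow_right₀ (by norm_num) hmn
      have hb2 : (2 : ℤ) ≤ 2 ^ n := by
        calc (2 : ℤ) = 2 ^ 1 := by norm_num
          _ ≤ 2 ^ n := pow_le_pow_right₀ (by norm_num) hn
      have ha4 : (4 : ℤ) ≤ 2 ^ m := by linarith
      have hvv : (2 : ℤ) ^ m * 2 ^ m ≤ 4 * v 2 ^ 2 := by
        rcases abs_choice (u 2) with h | h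
        · rw [h] at h2
          have : 2 ^ m ≤ 2 * (-v 2) := by rw [hv2]; linarith
          nlinarith
        · rw [h] at h2
          have : 2 ^ m ≤ 2 * (v 2) := by rw [hv2]; linarith
          nlinarith
      set S := v 0 ^ 2 + v 1 ^ 2 + v 2 ^ 2 with hS
      have hS4 : (2 : ℤ) ^ m * 2 ^ m ≤ 4 * S := by linarith
      have h3 : 4 * (2 : ℤ) ^ m ≤ 4 * S := le_trans (by nlinarith) hS4
      have h5 : (2 : ℤ) ^ m ≤ S := by linarith
      nlinarith
  have key' : ‖vec u‖ ^ 2 ≤ (3 * ‖vec v‖ ^ 2) ^ 2 := by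
    rw [hun, hvn]
    have : (((2 : ℤ) ^ m + 4 ^ m : ℤ) : ℝ) ≤ ((9 * (v 0 ^ 2 + v 1 ^ 2 + v 2 ^ 2) ^ 2 : ℤ) : ℝ) := by
      exact_mod_cast key
    push_cast at this ⊢
    linarith
  exact le_of_sq_le_sq key' (by positivity)

theorem Nonres_pow8 (ω : (Fin 3 → ℤ) → ℝ) (hω : IsFreq ω) (n : ℕ) (hn : 1 ≤ n)
    (u v : Fin 3 → ℤ) (hu : u ∈ X) (hv : v = kn n - u)
    (hne : ¬ (v 0 = 0 ∧ v 1 = 0)) : (‖vec u‖ + ‖vec v‖) ^ 4 ≤ 256 * ω v := by
  have h1 : 1 ≤ ‖vec v‖ := by
    apply sum_one_le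
    rintro rfl
    exact hne ⟨rfl, rfl⟩
  have h2 := Nonres_bound n hn u v hu hv hne
  have h3 : ‖vec u‖ + ‖vec v‖ ≤ 4 * ‖vec v‖ ^ 2 := by nlinarith
  calc (‖vec u‖ + ‖vec v‖) ^ 4 ≤ (4 * ‖vec v‖ ^ 2) ^ 4 :=
        pow_le_pow_left₀ (by positivity) h3 4
    _ = 256 * ‖vec v‖ ^ 8 := by ring
    _ ≤ 256 * ω v := by
        have := hω.lower v
        linarith

theorem claimNonres (hClosed : ClaimClosed) : ClaimNonres := by
  intro ω n p j l hω hn hp hq hres
  obtain ⟨m, rfl⟩ : ∃ m, n = m + 1 := ⟨n - 1, by omega⟩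
  set q := kn (m + 1) - p with hqdef
  have hω0 : ∀ k, 0 ≤ ω k := fun k => le_trans (by positivity) (hω.lower k)
  have hsum : p + q = kn (m + 1) := by rw [hqdef]; abel
  have hpq : p = kn (m + 1) - q := by rw [hqdef]; abel
  have e0 : p 0 + q 0 = kn m 0 - kn m 1 := congrFun hsum 0
  have e1 : p 1 + q 1 = kn m 0 + kn m 1 := congrFun hsum 1
  have e2 : p 2 + q 2 = 2 * kn m 2 := congrFun hsum 2
  have hz : kn m 2 = 2 ^ m := kn_two m
  have hzpos : (0 : ℤ) < 2 ^ m := by positivity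
  have hxy := kn_sq m
  by_cases hA : p ∈ X ∧ j = 0
  · by_cases hB : q ∈ X ∧ l = 0
    · exact absurd (Or.inl ⟨hA.2, hB.2, hClosed (m + 1) p hn hA.1 hB.1⟩) hres
    · rw [hA.2, Nonres_lam_zero ω p hA.1, zero_add, Nonres_lam_abs ω hω0 l q hB]
      exact Nonres_pow8 ω hω (m + 1) hn p q hA.1 rfl hq
  · by_cases hB : q ∈ X ∧ l = 0
    · rw [hB.2, Nonres_lam_zero ω q hB.1, add_zero, Nonres_lam_abs ω hω0 j p hA, add_comm]
      exact Nonres_pow8 ω hω (m + 1) hn q p hB.1 hpq hp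
    · have ha := Nonres_lam_abs ω hω0 j p hA
      have hb := Nonres_lam_abs ω hω0 l q hB
      by_cases horb : ∀ i : ℕ, q ≠ rk^[i] p ∧ q ≠ -(rk^[i] p)
      · have hg := hω.gap p q (by rw [hsum]; exact kn_mem _) horb
        have h1 : |ω p - ω q| ≤ |lam ω j p + lam ω l q| := by
          rw [← ha, ← hb]
          have := abs_abs_sub_abs_le_abs_sub (lam ω j p) (-(lam ω l q))
          rwa [abs_neg, sub_neg_eq_add] at this
        have h2 : 0 ≤ |lam ω j p + lam ω l q| := abs_nonneg _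
        linarith
      · push_neg at horb
        obtain ⟨i, hi⟩ := horb
        by_cases hqi : q = rk^[i] p
        · -- q = p
          have hqp : q = p := by
            rcases Nonres_iter p i with h | h | h | h
            · rw [hqi, h]
            · exfalso
              have h2 : q 2 = -p 2 := by rw [hqi, h]; rfl
              omega
            · exfalso
              have h0 : q 0 = -p 0 := by rw [hqi, h]; rfl
              have h1 : q 1 = -p 1 := by rw [hqi, h]; rfl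
              have : kn m 0 = 0 ∧ kn m 1 = 0 := by constructor <;> omega
              rw [this.1, this.2] at hxy
              norm_num at hxy
              omega
            · exfalso
              have h2 : q 2 = -(-(-(p 2))) := by rw [hqi, h]; rfl
              omega
          have hp2 : p 2 ≠ 0 := by
            rw [hqp] at e2
            omega
          have hlam : lam ω l q = lam ω j p := by
            rw [hqp] at hB ⊢
            unfold lam
            rw [if_neg hp2, if_neg hp2, if_neg hA, if_neg hB]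
          rw [hlam, ← two_mul, abs_mul, ha, hqp]
          have h1 : 1 ≤ ‖vec p‖ := by
            apply sum_one_le
            rintro h0
            exact hp ⟨by rw [h0]; rfl, by rw [h0]; rfl⟩
          have h2 := hω.lower p
          have h3 : ‖vec p‖ ^ 4 ≤ ‖vec p‖ ^ 8 := pow_le_pow_right₀ h1 (by norm_num)
          have h4 : (‖vec p‖ + ‖vec p‖) ^ 4 = 16 * ‖vec p‖ ^ 4 := by ring
          have h5 : |(2 : ℝ)| = 2 := by norm_num
          rw [h4, h5]
          have h6 : 0 ≤ ‖vec p‖ ^ 8 := by positivity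
          linarith
        · have hqn := hi hqi
          exfalso
          have hp2 : p = kn m ∨ p = -rk (kn m) := by
            rcases Nonres_iter p i with h | h | h | h
            · exfalso
              have h2 : q 2 = -p 2 := by rw [hqn, h]; rfl
              omega
            · left
              have h0 : q 0 = -p 1 := by rw [hqn, h]; rfl
              have h1 : q 1 = -(-p 0) := by rw [hqn, h]; rfl
              have h2 : q 2 = -(-p 2) := by rw [hqn, h]; rfl
              rw [kn_ext]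
              refine ⟨?_, ?_, ?_⟩ <;> omega
            · exfalso
              have h2 : q 2 = -(-(-(p 2))) := by rw [hqn, h]; rfl
              omega
            · right
              have h0 : q 0 = -(-(p 1)) := by rw [hqn, h]; rfl
              have h1 : q 1 = -(-(-p 0)) := by rw [hqn, h]; rfl
              have h2 : q 2 = -(-(-(-p 2))) := by rw [hqn, h]; rfl
              have c0 : (-rk (kn m)) 0 = -kn m 1 := rfl
              have c1 : (-rk (kn m)) 1 = -(-kn m 0) := rfl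
              have c2 : (-rk (kn m)) 2 = -(-kn m 2) := rfl
              rw [kn_ext, c0, c1, c2]
              refine ⟨?_, ?_, ?_⟩ <;> omega
          have hpX : p ∈ X := by
            rcases hp2 with h | h
            · rw [h]; exact kn_mem m
            · rw [h]; exact kn_neg_mem _ (kn_rk_mem _ (kn_mem m))
          have hqX : q ∈ X := by
            rw [hqn]; exact kn_neg_mem _ (kn_rk_iter_mem _ hpX i)
          have hj : j = 1 := by
            have : j ≠ 0 := fun h => hA ⟨hpX, h⟩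
            omega
          have hl : l = 1 := by
            have : l ≠ 0 := fun h => hB ⟨hqX, h⟩
            omega
          exact hres (Or.inr ⟨hj, hl, hp2⟩)

end Pool.Agent.Work.MP_b0497c_an.Disp
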