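import Mathlib
import Pool.Agent.Work.MP_b0497c_an.Bd.B21
import Pool.Agent.Work.MP_b0497c_an.Damp.Time
import Pool.Agent.Work.MP_b0497c_an.Disp.Stmts

set_option autoImplicit false

/-!
Euler equations with a dispersive term: the equations for the coefficients (item F7).
-/

namespace Pool.Agent.Work.MP_b0497c_an.Disp

open Set MeasureTheory RealInnerProductSpace Pool.Agent.Work.MP_b0497c_an
open Pool.Agent.Work.MP_b0497c_an.Dec (cube phase vec)
open Pool.Agent.Work.MP_b0497c_an.Damp (cc sc acc)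

theorem Ode_contDiff {T : ℝ} {u : ℝ → E3 → E3}
    (h : ContDiffOn ℝ 1 (fun z : ℝ × E3 => u z.1 z.2) (Ico 0 T ×ˢ univ)) {t : ℝ}
    (ht : t ∈ Ico 0 T) : ContDiff ℝ 1 (u t) := by
  rw [← contDiffOn_univ]
  exact h.comp (contDiff_prodMk_right t).contDiffOn (fun y _ => ⟨ht, mem_univ _⟩)

theorem Ode_slice {T : ℝ} {F : Type} [TopologicalSpace F] {G : ℝ → E3 → F}
    (h : ContinuousOn (fun z : ℝ × E3 => G z.1 z.2) (Ico 0 T ×ˢ univ)) {t : ℝ}
    (ht : t ∈ Ico 0 T) : Continuous (G t) := by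
  rw [← continuousOn_univ]
  exact h.comp (Continuous.prodMk_right t).continuousOn (fun y _ => ⟨ht, mem_univ _⟩)

theorem Ode_int {F : Type} [NormedAddCommGroup F] {f : E3 → F}
    (hf : Continuous f) : IntegrableOn f cube :=
  hf.continuousOn.integrableOn_compact Dec.cube_compact

theorem Ode_cc {f : E3 → E3} (hf : Continuous f) (k : Fin 3 → ℤ) (c : E3) :
    ⟪cc f k, c⟫ = ∫ x in cube, Real.cos (phase k x) * ⟪f x, c⟫ := by
  unfold cc
  rw [real_inner_comm]
  have h1 : Integrable (fun x => Real.cos (phase k x) • f x) (volume.restrict cube) :=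
    Ode_int ((Real.continuous_cos.comp (Dec.continuous_phase k)).smul hf)
  rw [← integral_inner h1 c]
  apply integral_congr_ae
  filter_upwards with x
  rw [real_inner_smul_right, real_inner_comm]

theorem Ode_sc {f : E3 → E3} (hf : Continuous f) (k : Fin 3 → ℤ) (c : E3) :
    ⟪sc f k, c⟫ = ∫ x in cube, Real.sin (phase k x) * ⟪f x, c⟫ := by
  unfold sc
  rw [real_inner_comm]
  have h1 : Integrable (fun x => Real.sin (phase k x) • f x) (volume.restrict cube) :=
    Ode_int ((Real.continuous_sin.comp (Dec.continuous_phase k)).smul hf)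
  rw [← integral_inner h1 c]
  apply integral_congr_ae
  filter_upwards with x
  rw [real_inner_smul_right, real_inner_comm]

/-- The coefficient as integrals. -/
theorem Ode_hat {f : E3 → E3} (hf : Continuous f) (k : Fin 3 → ℤ) (c : E3) :
    hat f k c = ((((2 * Real.pi) ^ 3)⁻¹ * ∫ x in cube, Real.cos (phase k x) * ⟪f x, c⟫ : ℝ) : ℂ) -
      Complex.I *
        ((((2 * Real.pi) ^ 3)⁻¹ * ∫ x in cube, Real.sin (phase k x) * ⟪f x, c⟫ : ℝ) : ℂ) := by
  unfold hat
  rw [Ode_cc hf, Ode_sc hf]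

section

variable {T : ℝ} {u : ℝ → E3 → E3}

theorem Ode_nl_cont (h : ContDiffOn ℝ 1 (fun z : ℝ × E3 => u z.1 z.2) (Ico 0 T ×ˢ univ))
    {w : E3 → ℝ} (hw : ContDiff ℝ 1 w) (c : E3) :
    ContinuousOn (fun z : ℝ × E3 => w z.2 * ⟪fderiv ℝ (u z.1) z.2 (u z.1 z.2), c⟫)
      (Ico 0 T ×ˢ univ) :=
  (hw.continuous.comp continuous_snd).continuousOn.mul
    (((continuousOn_fderiv h).clm_apply h.continuousOn).inner continuousOn_const)

theorem Ode_dt_cont (h : ContDiffOn ℝ 1 (fun z : ℝ × E3 => u z.1 z.2) (Ico 0 T ×ˢ univ))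
    {w : E3 → ℝ} (hw : ContDiff ℝ 1 w) (c : E3) :
    ContinuousOn (fun z : ℝ × E3 => w z.2 * ⟪derivWithin (fun s => u s z.2) (Ico 0 T) z.1, c⟫)
      (Ico 0 T ×ˢ univ) :=
  (hw.continuous.comp continuous_snd).continuousOn.mul
    ((continuousOn_derivWithin h).inner continuousOn_const)

theorem Ode_split (h : ContDiffOn ℝ 1 (fun z : ℝ × E3 => u z.1 z.2) (Ico 0 T ×ˢ univ))
    {w : E3 → ℝ} (hw : ContDiff ℝ 1 w) (c : E3) {t : ℝ} (ht : t ∈ Ico 0 T) :
    ∫ x in cube, w x *
        ⟪derivWithin (fun s => u s x) (Ico 0 T) t + fderiv ℝ (u t) x (u t x), c⟫ =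
      (∫ x in cube, w x * ⟪derivWithin (fun s => u s x) (Ico 0 T) t, c⟫) +
        ∫ x in cube, w x * ⟪fderiv ℝ (u t) x (u t x), c⟫ := by
  rw [← integral_add]
  · apply integral_congr_ae
    filter_upwards with x
    rw [inner_add_left, mul_add]
  · exact Ode_int (Ode_slice (G := fun t x => w x *
      ⟪derivWithin (fun s => u s x) (Ico 0 T) t, c⟫) (Ode_dt_cont h hw c) ht)
  · exact Ode_int (Ode_slice (G := fun t x => w x *
      ⟪fderiv ℝ (u t) x (u t x), c⟫) (Ode_nl_cont h hw c) ht)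

theorem Ode_deriv (h : ContDiffOn ℝ 1 (fun z : ℝ × E3 => u z.1 z.2) (Ico 0 T ×ˢ univ))
    {w : E3 → ℝ} (hw : ContDiff ℝ 1 w) (c : E3) {t : ℝ} (ht : t ∈ Ico 0 T) :
    HasDerivWithinAt (fun s => ∫ x in cube, w x * ⟪u s x, c⟫)
      (∫ x in cube, w x * ⟪derivWithin (fun s => u s x) (Ico 0 T) t, c⟫) (Ico 0 T) t := by
  have hG : ContDiffOn ℝ 1 (fun z : ℝ × E3 => w z.2 * ⟪u z.1 z.2, c⟫) (Ico 0 T ×ˢ univ) :=
    (hw.comp contDiff_snd).contDiffOn.mul (h.inner ℝ contDiffOn_const)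
  have h1 := Damp.claimIntDeriv T (fun t x => w x * ⟪u t x, c⟫) hG t ht
  have h2 : ∀ x, derivWithin (fun s => w x * ⟪u s x, c⟫) (Ico 0 T) t =
      w x * ⟪derivWithin (fun s => u s x) (Ico 0 T) t, c⟫ := by
    intro x
    have h3 : HasDerivWithinAt (fun s => u s x)
        (derivWithin (fun s => u s x) (Ico 0 T) t) (Ico 0 T) t := by
      have h4 := hasFDerivWithinAt_S h ht x
      have h5 : HasDerivWithinAt (fun s : ℝ => (s, x)) ((1 : ℝ), (0 : E3)) (Ico 0 T) t :=
        (hasDerivWithinAt_id t _).prodMk (hasDerivWithinAt_const t _ x)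
      have hm : MapsTo (fun s : ℝ => (s, x)) (Ico 0 T) (Ico 0 T ×ˢ (univ : Set E3)) :=
        fun s hs => ⟨hs, mem_univ _⟩
      exact (HasFDerivWithinAt.comp_hasDerivWithinAt t h4 h5
        hm).differentiableWithinAt.hasDerivWithinAt
    have h4 : HasDerivWithinAt (fun s => ⟪u s x, c⟫)
        ⟪derivWithin (fun s => u s x) (Ico 0 T) t, c⟫ (Ico 0 T) t := by
      have h5 := h3.inner ℝ (hasDerivWithinAt_const t (Ico 0 T) c)
      simpa using h5
    exact (h4.const_mul _).derivWithin (uniqueDiffOn_Ico 0 T t ht)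
  simp only [h2] at h1
  exact h1

end

theorem claimOde (hConv : ClaimConv) : ClaimOde := by
  intro B T u _ hu k c hkc
  have hcu : ContinuousOn (fun z : ℝ × E3 => u z.1 z.2) (Ico 0 T ×ˢ univ) :=
    hu.contDiff_u.continuousOn
  have hs : ContDiff ℝ 1 (fun x : E3 => Real.sin (phase k x)) :=
    Real.contDiff_sin.comp ((Dec.contDiff_phase k).of_le (by simp))
  have hc : ContDiff ℝ 1 (fun x : E3 => Real.cos (phase k x)) :=
    Real.contDiff_cos.comp ((Dec.contDiff_phase k).of_le (by simp))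
  have hnl : ∀ t ∈ Ico 0 T, Continuous fun x => fderiv ℝ (u t) x (u t x) := fun t ht =>
    Ode_slice (G := fun t x => fderiv ℝ (u t) x (u t x))
      ((continuousOn_fderiv hu.contDiff_u).clm_apply hcu) ht
  have hconv : ∀ t ∈ Ico 0 T, conv (hat (u t)) k c =
      -Complex.I * hat (fun x => fderiv ℝ (u t) x (u t x)) k c := fun t ht =>
    (hConv (u t) (Ode_contDiff hu.contDiff_u ht) (hu.periodic t ht) (hu.div_free t ht)
      k c).tsum_eq
  constructor
  · refine ContinuousOn.congr ?_ hconv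
    refine continuousOn_const.mul ?_
    have h1 : ContinuousOn (fun t =>
        ((((2 * Real.pi) ^ 3)⁻¹ * ∫ x in cube, Real.cos (phase k x) *
          ⟪fderiv ℝ (u t) x (u t x), c⟫ : ℝ) : ℂ) -
        Complex.I * ((((2 * Real.pi) ^ 3)⁻¹ * ∫ x in cube, Real.sin (phase k x) *
          ⟪fderiv ℝ (u t) x (u t x), c⟫ : ℝ) : ℂ)) (Ico 0 T) := by
      refine ContinuousOn.sub ?_ (continuousOn_const.mul ?_)
      · exact Complex.continuous_ofReal.comp_continuousOn (continuousOn_const.mul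
          (Damp.claimIntCont T (fun t x => Real.cos (phase k x) *
            ⟪fderiv ℝ (u t) x (u t x), c⟫) (Ode_nl_cont hu.contDiff_u hc c)))
      · exact Complex.continuous_ofReal.comp_continuousOn (continuousOn_const.mul
          (Damp.claimIntCont T (fun t x => Real.sin (phase k x) *
            ⟪fderiv ℝ (u t) x (u t x), c⟫) (Ode_nl_cont hu.contDiff_u hs c)))
    exact h1.congr fun t ht => Ode_hat (hnl t ht) k c
  · intro t ht
    rw [hconv t ht]
    have h1 := ((Ode_deriv hu.contDiff_u hc c ht).const_mul (((2 * Real.pi) ^ 3)⁻¹)).ofReal_comp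
    have h2 := ((Ode_deriv hu.contDiff_u hs c ht).const_mul (((2 * Real.pi) ^ 3)⁻¹)).ofReal_comp
    have h3 := h1.sub (h2.const_mul Complex.I)
    have h4 : HasDerivWithinAt (fun s => hat (u s) k c) _ (Ico 0 T) t :=
      h3.congr (fun s hs => Ode_hat (Ode_slice hcu hs) k c) (Ode_hat (Ode_slice hcu ht) k c)
    refine h4.congr_deriv ?_
    rw [Ode_hat (hnl t ht) k c, Ode_hat (Ode_slice hcu ht) k (B k c)]
    have h5 := hu.cos_eq t ht k c hkc
    have h6 := hu.sin_eq t ht k c hkc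
    rw [Ode_split hu.contDiff_u hc c ht] at h5
    rw [Ode_split hu.contDiff_u hs c ht] at h6
    have h5' := eq_sub_of_add_eq (eq_neg_of_add_eq_zero_left h5)
    have h6' := eq_sub_of_add_eq (sub_eq_zero.mp h6)
    rw [h5', h6']
    clear h1 h2 h3 h4 h5 h6 h5' h6'
    generalize (∫ x in cube, Real.cos (phase k x) * ⟪fderiv ℝ (u t) x (u t x), c⟫) = a
    generalize (∫ x in cube, Real.sin (phase k x) * ⟪fderiv ℝ (u t) x (u t x), c⟫) = b
    generalize (∫ x in cube, Real.cos (phase k x) * ⟪u t x, B k c⟫) = p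
    generalize (∫ x in cube, Real.sin (phase k x) * ⟪u t x, B k c⟫) = q
    push_cast
    have hI : Complex.I * Complex.I = -1 := Complex.I_mul_I
    linear_combination (((2 * (Real.pi : ℂ)) ^ 3)⁻¹ * (-(a : ℂ) + Complex.I * b - q)) * hI

end Pool.Agent.Work.MP_b0497c_an.Disp
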