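import Pool.Agent.Work.MP_b0497c_an.Disp.Stmts

set_option autoImplicit false

/-!
R4: integration by parts.
-/

namespace Pool.Agent.Work.MP_b0497c_an.Disp

open Set MeasureTheory

theorem claimParts : ClaimParts := by
  intro t G₁ G₂ l₁ l₂ α β g₁ g₂ ht hD hα hβ hg₁ hg₂ hG₁ hG₂
  have hDc : ((l₁ : ℂ) + l₂) ≠ 0 := by exact_mod_cast hD
  have hcα : ContinuousOn α (Icc 0 t) := fun s hs => (hα s hs).continuousWithinAt
  have hcβ : ContinuousOn β (Icc 0 t) := fun s hs => (hβ s hs).continuousWithinAt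
  have hu : uIcc 0 t = Icc 0 t := uIcc_of_le ht
  set r : ℝ → ℂ := fun s => g₁ s * β s + α s * g₂ s with hr
  have hcr : ContinuousOn r (Icc 0 t) := (hg₁.mul hcβ).add (hcα.mul hg₂)
  have hcp : ContinuousOn (fun s => α s * β s) (Icc 0 t) := hcα.mul hcβ
  have hip : IntervalIntegrable (fun s => α s * β s) volume 0 t :=
    ContinuousOn.intervalIntegrable (by rw [hu]; exact hcp)
  have hir : IntervalIntegrable r volume 0 t :=
    ContinuousOn.intervalIntegrable (by rw [hu]; exact hcr)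
  have hder : ∀ s ∈ Ioo 0 t, HasDerivAt (fun s => α s * β s)
      (r s - (Complex.I * ((l₁ : ℂ) + l₂)) * (α s * β s)) s := by
    intro s hs
    have h1 := (hα s ⟨hs.1.le, hs.2.le⟩).hasDerivAt (Icc_mem_nhds hs.1 hs.2)
    have h2 := (hβ s ⟨hs.1.le, hs.2.le⟩).hasDerivAt (Icc_mem_nhds hs.1 hs.2)
    have h3 := h1.mul h2
    refine h3.congr_deriv ?_
    simp only [hr]
    ring
  have hFT := intervalIntegral.integral_eq_sub_of_hasDerivAt_of_le ht hcp hder
    (hir.sub (hip.const_mul _))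
  rw [intervalIntegral.integral_sub hir (hip.const_mul _), intervalIntegral.integral_const_mul]
    at hFT
  have hkey : (∫ s in (0 : ℝ)..t, α s * β s) =
      (Complex.I * ((l₁ : ℂ) + l₂))⁻¹ *
        ((∫ s in (0 : ℝ)..t, r s) - (α t * β t - α 0 * β 0)) := by
    have hne : Complex.I * ((l₁ : ℂ) + l₂) ≠ 0 := mul_ne_zero Complex.I_ne_zero hDc
    rw [eq_inv_mul_iff_mul_eq₀ hne, ← hFT]
    ring
  have hnorm : ‖(Complex.I * ((l₁ : ℂ) + l₂))⁻¹‖ = |l₁ + l₂|⁻¹ := by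
    rw [norm_inv, norm_mul, Complex.norm_I, one_mul]
    congr 1
    have : ((l₁ : ℂ) + l₂) = ((l₁ + l₂ : ℝ) : ℂ) := by push_cast; ring
    rw [this, Complex.norm_real, Real.norm_eq_abs]
  rw [hkey, norm_mul, hnorm]
  refine mul_le_mul_of_nonneg_left ?_ (inv_nonneg.mpr (abs_nonneg _))
  have hib : IntervalIntegrable (fun s => G₁ * ‖β s‖ + G₂ * ‖α s‖) volume 0 t := by
    apply ContinuousOn.intervalIntegrable
    rw [hu]
    exact (continuousOn_const.mul hcβ.norm).add (continuousOn_const.mul hcα.norm)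
  have h5 : ‖∫ s in (0 : ℝ)..t, r s‖ ≤ ∫ s in (0 : ℝ)..t, (G₁ * ‖β s‖ + G₂ * ‖α s‖) := by
    refine intervalIntegral.norm_integral_le_of_norm_le ht ?_ hib
    refine Filter.Eventually.of_forall ?_
    intro s hs
    have hs' : s ∈ Icc 0 t := ⟨hs.1.le, hs.2⟩
    calc ‖r s‖ ≤ ‖g₁ s * β s‖ + ‖α s * g₂ s‖ := norm_add_le _ _
      _ = ‖g₁ s‖ * ‖β s‖ + ‖g₂ s‖ * ‖α s‖ := by rw [norm_mul, norm_mul]; ring
      _ ≤ G₁ * ‖β s‖ + G₂ * ‖α s‖ :=
        add_le_add (mul_le_mul_of_nonneg_right (hG₁ s hs') (norm_nonneg _))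
          (mul_le_mul_of_nonneg_right (hG₂ s hs') (norm_nonneg _))
  have h6 : ‖α t * β t - α 0 * β 0‖ ≤ ‖α t‖ * ‖β t‖ + ‖α 0‖ * ‖β 0‖ := by
    refine (norm_sub_le _ _).trans ?_
    rw [norm_mul, norm_mul]
  refine (norm_sub_le _ _).trans ?_
  linarith

end Pool.Agent.Work.MP_b0497c_an.Disp
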