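import Mathlib
import Pool.Agent.Work.MP_b0497c_an.Disp.Stmts

set_option autoImplicit false

/-!
Euler equations with a dispersive term: the quadratic form (item B1).
-/

namespace Pool.Agent.Work.MP_b0497c_an.Disp

open Set MeasureTheory Pool.Agent.Work.MP_b0497c_an

theorem Quad_term (n : ℕ) (hn : 1 ≤ n) (x y m m' : ℝ) (hm : 0 ≤ m) (hm' : 0 ≤ m')
    (hx : x ^ 2 ≤ (2 ^ n + 1) * m) (hy : y ^ 2 ≤ (2 ^ (n + 1) + 1) * m') :
    (7 / 10) ^ n * (2 ^ (n + 1) * (x * y) / (2 ^ (n + 1) + 1)) ≤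
      19 / 40 * ((7 / 10) ^ (n + 1) * 2 ^ (n + 1) * m + (7 / 10) ^ (n + 2) * 2 ^ (n + 2) * m') := by
  set a : ℝ := (7 / 10) ^ (n + 1) * 2 ^ (n + 1) * m with ha
  set b : ℝ := (7 / 10) ^ (n + 2) * 2 ^ (n + 2) * m' with hb
  have ha0 : 0 ≤ a := by positivity
  have hb0 : 0 ≤ b := by positivity
  set u : ℝ := 2 ^ n with hu
  set w : ℝ := (7 / 10) ^ n with hw
  have hu2 : 2 ≤ u := by
    rw [hu]
    calc (2 : ℝ) = 2 ^ 1 := by norm_num
      _ ≤ 2 ^ n := pow_le_pow_right₀ (by norm_num) hn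
  have hwp : 0 < w := by positivity
  have hu1 : (2 : ℝ) ^ (n + 1) = 2 * u := by rw [hu, pow_succ]; ring
  have hu2' : (2 : ℝ) ^ (n + 2) = 4 * u := by rw [hu, pow_succ, pow_succ]; ring
  have hw1 : (7 / 10 : ℝ) ^ (n + 1) = 7 / 10 * w := by rw [hw, pow_succ]; ring
  have hw2 : (7 / 10 : ℝ) ^ (n + 2) = 49 / 100 * w := by rw [hw, pow_succ, pow_succ]; ring
  rw [hu1, hw1] at ha
  rw [hu2', hw2] at hb
  rw [hu1] at hy ⊢
  set z : ℝ := w * (2 * u * (x * y) / (2 * u + 1)) with hz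
  have hz2 : z ^ 2 ≤ (19 / 20) ^ 2 * (a * b) := by
    have h1 : z ^ 2 = w ^ 2 * (4 * u ^ 2) * (x ^ 2 * y ^ 2) / (2 * u + 1) ^ 2 := by
      rw [hz]; field_simp; ring
    have h2 : x ^ 2 * y ^ 2 ≤ ((u + 1) * m) * ((2 * u + 1) * m') :=
      mul_le_mul hx hy (sq_nonneg y) (by positivity)
    rw [h1, div_le_iff₀ (by positivity)]
    have h3 : w ^ 2 * (4 * u ^ 2) * (x ^ 2 * y ^ 2) ≤
        w ^ 2 * (4 * u ^ 2) * (((u + 1) * m) * ((2 * u + 1) * m')) :=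
      mul_le_mul_of_nonneg_left h2 (by positivity)
    refine h3.trans ?_
    rw [ha, hb]
    have h4 : (19 / 20 : ℝ) ^ 2 * (7 / 10 * w * (2 * u) * m * (49 / 100 * w * (4 * u) * m')) *
        (2 * u + 1) ^ 2 - w ^ 2 * (4 * u ^ 2) * (((u + 1) * m) * ((2 * u + 1) * m')) =
        w ^ 2 * (4 * u ^ 2) * (m * m') * (2 * u + 1) *
          ((19 / 20) ^ 2 * (7 / 10 * (49 / 100)) * 2 * (2 * u + 1) - (u + 1)) := by ring
    have h5 : 0 ≤ (19 / 20 : ℝ) ^ 2 * (7 / 10 * (49 / 100)) * 2 * (2 * u + 1) - (u + 1) := by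
      norm_num; linarith
    have h6 : 0 ≤ w ^ 2 * (4 * u ^ 2) * (m * m') * (2 * u + 1) *
          ((19 / 20) ^ 2 * (7 / 10 * (49 / 100)) * 2 * (2 * u + 1) - (u + 1)) := by
      apply mul_nonneg _ h5
      positivity
    linarith
  have h7 : z ^ 2 ≤ (19 / 40 * (a + b)) ^ 2 := by
    nlinarith [sq_nonneg (a - b)]
  exact (abs_le_of_sq_le_sq' h7 (by positivity)).2

theorem claimQuad : ClaimQuad := by
  intro N M S m hNM hS
  have hm : ∀ n, 0 ≤ m n := by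
    intro n
    by_contra hneg
    push Not at hneg
    have h1 := hS n
    have h2 : (0 : ℝ) < 2 ^ n + 1 := by positivity
    nlinarith [sq_nonneg (S n)]
  have key : ∀ L, N ≤ L → (7 / 10) ^ (N + 1) * 2 ^ (N + 1) * m N +
      1 / 20 * ∑ n ∈ Finset.Ioc N L, (7 / 10) ^ (n + 1) * 2 ^ (n + 1) * m n
      - (7 / 10) ^ (L + 1) * 2 ^ (L + 1) * m L -
        19 / 40 * ((7 / 10) ^ (L + 2) * 2 ^ (L + 2) * m (L + 1)) ≤
      ∑ n ∈ Finset.Ioc N L, (7 / 10) ^ n * (2 ^ n * m (n - 1) -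
        2 ^ (n + 1) * (S n * S (n + 1)) / (2 ^ (n + 1) + 1)) := by
    intro L hL
    induction L, hL using Nat.le_induction with
    | base =>
      simp only [Finset.Ioc_self, Finset.sum_empty]
      have := hm (N + 1)
      have h1 : (0 : ℝ) ≤ (7 / 10) ^ (N + 2) * 2 ^ (N + 2) * m (N + 1) := by positivity
      linarith
    | succ L hL ih =>
      rw [Finset.sum_Ioc_succ_top hL, Finset.sum_Ioc_succ_top hL]
      have h1 := Quad_term (L + 1) (by omega) (S (L + 1)) (S (L + 2)) (m (L + 1)) (m (L + 2))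
        (hm _) (hm _) (hS _) (hS _)
      have h2 : (7 / 10 : ℝ) ^ (L + 1) * (2 ^ (L + 1) * m (L + 1 - 1) -
          2 ^ (L + 1 + 1) * (S (L + 1) * S (L + 1 + 1)) / (2 ^ (L + 1 + 1) + 1)) =
          (7 / 10) ^ (L + 1) * 2 ^ (L + 1) * m L - (7 / 10) ^ (L + 1) * (2 ^ (L + 1 + 1) *
            (S (L + 1) * S (L + 2)) / (2 ^ (L + 1 + 1) + 1)) := by
        rw [Nat.add_sub_cancel]; ring
      rw [h2]
      have e1 : L + 1 + 1 = L + 2 := rfl
      have e2 : L + 1 + 2 = L + 3 := rfl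
      rw [e1] at *
      rw [e2] at *
      linarith
  have h1 := key M hNM.le
  have h2 : (0 : ℝ) ≤ (7 / 10) ^ (M + 1) * 2 ^ (M + 1) * m M := by
    have := hm M
    positivity
  have h3 : (0 : ℝ) ≤ (7 / 10) ^ (M + 2) * 2 ^ (M + 2) * m (M + 1) := by
    have := hm (M + 1)
    positivity
  linarith

end Pool.Agent.Work.MP_b0497c_an.Disp
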