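import Mathlib
import Pool.Agent.Work.MP_b0497c_an.Disp.Stmts

set_option autoImplicit false

/-!
C4. The resonant terms of the chain.
-/

namespace Pool.Agent.Work.MP_b0497c_an.Disp

open Set MeasureTheory RealInnerProductSpace Pool.Agent.Work.MP_b0497c_an
open Pool.Agent.Work.MP_b0497c_an.Dec (cube phase vec)

namespace ResLemmas

theorem rk_apply (k : Fin 3 → ℤ) : rk k 0 = k 1 ∧ rk k 1 = -k 0 ∧ rk k 2 = -k 2 :=
  ⟨rfl, rfl, rfl⟩

theorem fr_rk (j : Fin 2) (k : Fin 3 → ℤ) (hk : k 2 ≠ 0) : fr j (rk k) = rx (fr j k) := by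
  obtain ⟨h0, h1, h2⟩ := rk_apply k
  have hk' : rk k 2 ≠ 0 := by rw [h2]; simpa using hk
  unfold fr
  rw [if_neg hk, if_neg hk']
  fin_cases j
  · simp only [Fin.zero_eta, if_true]
    unfold pol rx
    rw [h0, h1, h2]
    have e1 : ((k 1 : ℝ) ^ 2 + ((-k 0 : ℤ) : ℝ) ^ 2 +
        (((k 1 : ℝ) ^ 2 + ((-k 0 : ℤ) : ℝ) ^ 2) / ((-k 2 : ℤ) : ℝ)) ^ 2) =
        ((k 0 : ℝ) ^ 2 + (k 1 : ℝ) ^ 2 + (((k 0 : ℝ) ^ 2 + (k 1 : ℝ) ^ 2) / (k 2 : ℝ)) ^ 2) := by
      push_cast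
      rw [div_neg]
      ring
    rw [e1]
    ext i
    fin_cases i
    · simp
    · simp
    · simp [div_neg]
      left
      ring
  · simp only [Fin.mk_one, one_ne_zero, if_false]
    unfold tor rx
    rw [h0, h1]
    have e1 : ((k 1 : ℝ) ^ 2 + ((-k 0 : ℤ) : ℝ) ^ 2) = ((k 0 : ℝ) ^ 2 + (k 1 : ℝ) ^ 2) := by
      push_cast
      ring
    rw [e1]
    ext i
    fin_cases i <;> simp

theorem fr_neg (j : Fin 2) (k : Fin 3 → ℤ) (hk : k 2 ≠ 0) : fr j (-k) = -fr j k := by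
  have hk' : (-k) 2 ≠ 0 := by simpa using hk
  unfold fr
  rw [if_neg hk, if_neg hk']
  fin_cases j
  · simp only [Fin.zero_eta, if_true]
    unfold pol
    have e1 : ((((-k) 0 : ℤ) : ℝ) ^ 2 + (((-k) 1 : ℤ) : ℝ) ^ 2 +
        (((((-k) 0 : ℤ) : ℝ) ^ 2 + (((-k) 1 : ℤ) : ℝ) ^ 2) / (((-k) 2 : ℤ) : ℝ)) ^ 2) =
        ((k 0 : ℝ) ^ 2 + (k 1 : ℝ) ^ 2 + (((k 0 : ℝ) ^ 2 + (k 1 : ℝ) ^ 2) / (k 2 : ℝ)) ^ 2) := by
      simp only [Pi.neg_apply]
      push_cast
      rw [div_neg]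
      ring
    rw [e1]
    ext i
    fin_cases i
    · simp
    · simp
    · simp [div_neg]
  · simp only [Fin.mk_one, one_ne_zero, if_false]
    unfold tor
    have e1 : ((((-k) 0 : ℤ) : ℝ) ^ 2 + (((-k) 1 : ℤ) : ℝ) ^ 2) =
        ((k 0 : ℝ) ^ 2 + (k 1 : ℝ) ^ 2) := by
      simp only [Pi.neg_apply]
      push_cast
      ring
    rw [e1]
    ext i
    fin_cases i <;> simp

theorem inner3 (a b : E3) : ⟪a, b⟫ = a 0 * b 0 + a 1 * b 1 + a 2 * b 2 := by
  rw [PiLp.inner_apply, Fin.sum_univ_three]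
  simp only [RCLike.inner_apply, conj_trivial]
  ring

theorem vec_apply (k : Fin 3 → ℤ) : vec k 0 = (k 0 : ℝ) ∧ vec k 1 = (k 1 : ℝ) ∧
    vec k 2 = (k 2 : ℝ) := by
  refine ⟨?_, ?_, ?_⟩ <;> simp [vec]

theorem rx_apply (x : E3) : rx x 0 = x 1 ∧ rx x 1 = -x 0 ∧ rx x 2 = -x 2 := by
  refine ⟨?_, ?_, ?_⟩ <;> simp [rx]

/-- Data: a mode family. -/
structure Fam (h : (Fin 3 → ℤ) → E3 → ℂ) : Prop where
  lin : ∀ k (a b : ℝ) (c d : E3), h k (a • c + b • d) = a * h k c + b * h k d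
  conj : ∀ k c, h (-k) c = (starRingEnd ℂ) (h k c)
  rot : ∀ k c, h (rk k) (rx c) = h k c

theorem Fam.smul {h : (Fin 3 → ℤ) → E3 → ℂ} (H : Fam h) (k : Fin 3 → ℤ) (a : ℝ) (c : E3) :
    h k (a • c) = a * h k c := by
  have := H.lin k a 0 c 0
  simpa using this

theorem Fam.neg {h : (Fin 3 → ℤ) → E3 → ℂ} (H : Fam h) (k : Fin 3 → ℤ) (c : E3) :
    h k (-c) = -h k c := by
  have := H.smul k (-1) c
  simpa using this

theorem Fam.h_rk {h : (Fin 3 → ℤ) → E3 → ℂ} (H : Fam h) (j : Fin 2) (k : Fin 3 → ℤ)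
    (hk : k 2 ≠ 0) : h (rk k) (fr j (rk k)) = h k (fr j k) := by
  rw [fr_rk j k hk, H.rot]

theorem Fam.h_neg {h : (Fin 3 → ℤ) → E3 → ℂ} (H : Fam h) (j : Fin 2) (k : Fin 3 → ℤ)
    (hk : k 2 ≠ 0) : h (-k) (fr j (-k)) = -(starRingEnd ℂ) (h k (fr j k)) := by
  rw [fr_neg j k hk, H.neg, H.conj]

theorem Fam.h_rk3 {h : (Fin 3 → ℤ) → E3 → ℂ} (H : Fam h) (j : Fin 2) (k : Fin 3 → ℤ)
    (hk : k 2 ≠ 0) : h (rk^[3] k) (fr j (rk^[3] k)) = h k (fr j k) := by
  have e3 : rk^[3] k = rk (rk (rk k)) := rfl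
  have h1 : rk k 2 ≠ 0 := by rw [(rk_apply k).2.2]; simpa using hk
  have h2 : rk (rk k) 2 ≠ 0 := by rw [(rk_apply (rk k)).2.2]; simpa using h1
  rw [e3, H.h_rk j _ h2, H.h_rk j _ h1, H.h_rk j _ hk]

end ResLemmas

open ResLemmas in
theorem claimRes (hKn : ClaimKn) (hLin : ClaimLin) : ClaimRes := by
  intro h hlin hdiv hconj hrot n hn
  obtain ⟨m, rfl⟩ : ∃ m, n = m + 1 := ⟨n - 1, by omega⟩
  have H : Fam h := ⟨hlin, hconj, hrot⟩
  obtain ⟨hk, -, hen, -⟩ := hKn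
  -- coordinates
  have ha := hk m
  have hkk := hk (m + 1)
  have hb := hk (m + 2)
  have ek0 : kn (m + 1) 0 = kn m 0 - kn m 1 := rfl
  have ek1 : kn (m + 1) 1 = kn m 0 + kn m 1 := rfl
  have ek2 : kn (m + 1) 2 = 2 * kn m 2 := rfl
  have eb0 : kn (m + 2) 0 = kn (m + 1) 0 - kn (m + 1) 1 := rfl
  have eb1 : kn (m + 2) 1 = kn (m + 1) 0 + kn (m + 1) 1 := rfl
  have eb2 : kn (m + 2) 2 = 2 * kn (m + 1) 2 := rfl
  have hsub : m + 1 - 1 = m := by omega
  have hadd : m + 1 + 1 = m + 2 := by omega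
  have hcp : cp (m + 1) = [kn m, -rk (kn m), kn (m + 2), rk (kn (m + 1)),
      -(rk (rk (rk (kn (m + 2))))), rk (rk (rk (kn (m + 1))))] := rfl
  have hz : (0 : ℤ) < 2 ^ m := by positivity
  have hz1 : (2 : ℤ) ^ (m + 1) = 2 * 2 ^ m := by ring
  have hz2 : (2 : ℤ) ^ (m + 2) = 4 * 2 ^ m := by ring
  set Z : ℤ := 2 ^ m with hZ
  have ha2 : kn m 2 = Z := ha.2
  have hk2 : kn (m + 1) 2 = 2 * Z := by rw [ek2, ha2]
  have hb2 : kn (m + 2) 2 = 4 * Z := by rw [eb2, hk2]; ring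
  have ha1 : kn m 0 ^ 2 + kn m 1 ^ 2 = Z := ha.1
  have hk1 : kn (m + 1) 0 ^ 2 + kn (m + 1) 1 ^ 2 = 2 * Z := by rw [ek0, ek1]; linarith [ha1]
  have hb1 : kn (m + 2) 0 ^ 2 + kn (m + 2) 1 ^ 2 = 4 * Z := by rw [eb0, eb1]; linarith [hk1]
  set v1 := kn m with hv1
  set v3 := kn (m + 2) with hv3
  set w := kn (m + 1) with hw
  have c2 : (-rk v1) 0 = -v1 1 ∧ (-rk v1) 1 = v1 0 ∧ (-rk v1) 2 = v1 2 := by
    refine ⟨rfl, ?_, ?_⟩
    · show -(-(v1 0)) = v1 0; ring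
    · show -(-(v1 2)) = v1 2; ring
  have c4 : (rk w) 0 = w 1 ∧ (rk w) 1 = -w 0 ∧ (rk w) 2 = -w 2 := ⟨rfl, rfl, rfl⟩
  have c5 : (-(rk (rk (rk v3)))) 0 = v3 1 ∧ (-(rk (rk (rk v3)))) 1 = -v3 0 ∧
      (-(rk (rk (rk v3)))) 2 = v3 2 := by
    refine ⟨?_, ?_, ?_⟩
    · show -(-(v3 1)) = v3 1; ring
    · show -(-(-(v3 0))) = -v3 0; ring
    · show -(-(-(-(v3 2)))) = v3 2; ring
  have c6 : (rk (rk (rk w))) 0 = -w 1 ∧ (rk (rk (rk w))) 1 = w 0 ∧
      (rk (rk (rk w))) 2 = -w 2 := by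
    refine ⟨rfl, ?_, ?_⟩
    · show -(-(w 0)) = w 0; ring
    · show -(-(-(w 2))) = -w 2; ring
  set v2 := -rk v1 with hv2
  set v4 := rk w with hv4
  set v5 := -(rk (rk (rk v3))) with hv5
  set v6 := rk (rk (rk w)) with hv6
  have d12 : v1 ≠ v2 := by
    intro hh
    have h0 := congrFun hh 0
    have h1 := congrFun hh 1
    have : v1 0 = 0 ∧ v1 1 = 0 := by constructor <;> omega
    rw [this.1, this.2] at ha1
    norm_num at ha1
    omega
  have d35 : v3 ≠ v5 := by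
    intro hh
    have h0 := congrFun hh 0
    have h1 := congrFun hh 1
    have : v3 0 = 0 ∧ v3 1 = 0 := by constructor <;> omega
    rw [this.1, this.2] at hb1
    norm_num at hb1
    omega
  have d46 : v4 ≠ v6 := by
    intro hh
    have h0 := congrFun hh 0
    have h1 := congrFun hh 1
    have : w 0 = 0 ∧ w 1 = 0 := by constructor <;> omega
    rw [this.1, this.2] at hk1
    norm_num at hk1
    omega
  have d13 : v1 ≠ v3 := by intro hh; have h2 := congrFun hh 2; omega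
  have d14 : v1 ≠ v4 := by intro hh; have h2 := congrFun hh 2; omega
  have d15 : v1 ≠ v5 := by intro hh; have h2 := congrFun hh 2; omega
  have d16 : v1 ≠ v6 := by intro hh; have h2 := congrFun hh 2; omega
  have d23 : v2 ≠ v3 := by intro hh; have h2 := congrFun hh 2; omega
  have d24 : v2 ≠ v4 := by intro hh; have h2 := congrFun hh 2; omega
  have d25 : v2 ≠ v5 := by intro hh; have h2 := congrFun hh 2; omega
  have d26 : v2 ≠ v6 := by intro hh; have h2 := congrFun hh 2; omega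
  have d34 : v3 ≠ v4 := by intro hh; have h2 := congrFun hh 2; omega
  have d36 : v3 ≠ v6 := by intro hh; have h2 := congrFun hh 2; omega
  have d45 : v4 ≠ v5 := by intro hh; have h2 := congrFun hh 2; omega
  have d56 : v5 ≠ v6 := by intro hh; have h2 := congrFun hh 2; omega
  refine ⟨?_, ?_, ?_⟩
  · rw [hcp]
    simp only [List.nodup_cons, List.mem_cons, List.not_mem_nil, or_false, not_or,
      not_false_eq_true, List.nodup_nil, and_true]
    exact ⟨⟨d12, d13, d14, d15, d16⟩, ⟨d23, d24, d25, d26⟩, ⟨d34, d35, d36⟩, ⟨d45, d46⟩, d56⟩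
  · intro p hp
    unfold pres
    refine Finset.sum_eq_zero fun j _ => Finset.sum_eq_zero fun l _ => if_neg ?_
    rintro (⟨-, -, h1⟩ | ⟨-, -, h1 | h1⟩)
    · exact hp h1
    · apply hp; rw [hcp, h1]; simp [hsub, hv1]
    · apply hp; rw [hcp, h1]; simp [hsub, hv1, hv2]
  · -- differences
    have s1 : w - v1 = v2 := by
      funext i; fin_cases i
      · show w 0 - v1 0 = v2 0; rw [c2.1, ek0]; ring
      · show w 1 - v1 1 = v2 1; rw [c2.2.1, ek1]; ring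
      · show w 2 - v1 2 = v2 2; rw [c2.2.2, ek2]; ring
    have s2 : w - v2 = v1 := by rw [← s1]; abel
    have s3 : w - v3 = v4 := by
      funext i; fin_cases i
      · show w 0 - v3 0 = v4 0; rw [c4.1, eb0]; ring
      · show w 1 - v3 1 = v4 1; rw [c4.2.1, eb1]; ring
      · show w 2 - v3 2 = v4 2; rw [c4.2.2, eb2]; ring
    have s4 : w - v4 = v3 := by rw [← s3]; abel
    have s5 : w - v5 = v6 := by
      funext i; fin_cases i
      · show w 0 - v5 0 = v6 0; rw [c5.1, c6.1, eb1]; ring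
      · show w 1 - v5 1 = v6 1; rw [c5.2.1, c6.2.1, eb0]; ring
      · show w 2 - v5 2 = v6 2; rw [c5.2.2, c6.2.2, eb2]; ring
    have s6 : w - v6 = v5 := by rw [← s5]; abel
    -- the terms
    set t : (Fin 3 → ℤ) → Fin 2 → Fin 2 → ℂ := fun p j l =>
      ((⟪fr j p, vec w⟫ * ⟪fr l (w - p), vec (en (m + 1))⟫ : ℝ) : ℂ) *
        (h p (fr j p) * h (w - p) (fr l (w - p))) with ht
    have hp12 : ∀ p, (p = v1 ∨ p = v2) → pres (m + 1) h p = t p 0 0 + t p 1 1 := by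
      intro p hp
      have hpc : p ∈ cp (m + 1) := by
        rw [hcp]; rcases hp with rfl | rfl <;> simp
      have r00 : Res (m + 1) p 0 0 := Or.inl ⟨rfl, rfl, hpc⟩
      have r11 : Res (m + 1) p 1 1 := Or.inr ⟨rfl, rfl, hp⟩
      have r01 : ¬ Res (m + 1) p 0 1 := by
        rintro (⟨-, h1, -⟩ | ⟨h1, -, -⟩)
        · exact absurd h1 (by decide)
        · exact absurd h1 (by decide)
      have r10 : ¬ Res (m + 1) p 1 0 := by
        rintro (⟨h1, -, -⟩ | ⟨-, h1, -⟩)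
        · exact absurd h1 (by decide)
        · exact absurd h1 (by decide)
      unfold pres
      rw [Fin.sum_univ_two, Fin.sum_univ_two, Fin.sum_univ_two, if_pos r00, if_neg r01,
        if_neg r10, if_pos r11]
      simp only [add_zero, zero_add, ht, hw]
    have hprest : ∀ p, p ∈ cp (m + 1) → p ≠ v1 → p ≠ v2 → pres (m + 1) h p = t p 0 0 := by
      intro p hpc hn1 hn2
      have r00 : Res (m + 1) p 0 0 := Or.inl ⟨rfl, rfl, hpc⟩
      have r11 : ¬ Res (m + 1) p 1 1 := by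
        rintro (⟨h1, -, -⟩ | ⟨-, -, h1 | h1⟩)
        · exact absurd h1 (by decide)
        · exact hn1 h1
        · exact hn2 h1
      have r01 : ¬ Res (m + 1) p 0 1 := by
        rintro (⟨-, h1, -⟩ | ⟨h1, -, -⟩)
        · exact absurd h1 (by decide)
        · exact absurd h1 (by decide)
      have r10 : ¬ Res (m + 1) p 1 0 := by
        rintro (⟨h1, -, -⟩ | ⟨-, h1, -⟩)
        · exact absurd h1 (by decide)
        · exact absurd h1 (by decide)
      unfold pres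
      rw [Fin.sum_univ_two, Fin.sum_univ_two, Fin.sum_univ_two, if_pos r00, if_neg r01,
        if_neg r10, if_neg r11]
      simp only [add_zero, ht, hw]
    -- frames
    have n1 : v1 2 ≠ 0 := by omega
    have nw : w 2 ≠ 0 := by omega
    have n3 : v3 2 ≠ 0 := by omega
    have nrk1 : rk v1 2 ≠ 0 := by rw [(rk_apply v1).2.2]; omega
    have nrkw : rk w 2 ≠ 0 := by rw [(rk_apply w).2.2]; omega
    have nrkw2 : rk (rk w) 2 ≠ 0 := by rw [(rk_apply (rk w)).2.2]; omega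
    have nrk3 : rk v3 2 ≠ 0 := by rw [(rk_apply v3).2.2]; omega
    have nrk32 : rk (rk v3) 2 ≠ 0 := by rw [(rk_apply (rk v3)).2.2]; omega
    have nrk33 : rk (rk (rk v3)) 2 ≠ 0 := by rw [(rk_apply (rk (rk v3))).2.2]; omega
    have F2 : ∀ j, fr j v2 = -rx (fr j v1) := fun j => by
      rw [hv2, fr_neg j _ nrk1, fr_rk j _ n1]
    have F4 : fr 0 v4 = rx (fr 0 w) := fr_rk 0 _ nw
    have F6 : fr 0 v6 = rx (rx (rx (fr 0 w))) := by
      rw [hv6, fr_rk 0 _ nrkw2, fr_rk 0 _ nrkw, fr_rk 0 _ nw]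
    have F5 : fr 0 v5 = -rx (rx (rx (fr 0 v3))) := by
      rw [hv5, fr_neg 0 _ nrk33, fr_rk 0 _ nrk32, fr_rk 0 _ nrk3, fr_rk 0 _ n3]
    obtain ⟨-, -, -, G1⟩ := hen m
    obtain ⟨-, -, -, Gw⟩ := hen (m + 1)
    obtain ⟨-, -, -, G3⟩ := hen (m + 2)
    set x0 : ℝ := (v1 0 : ℝ) with hx0
    set y0 : ℝ := (v1 1 : ℝ) with hy0
    set z : ℝ := (2 : ℝ) ^ m with hz'
    have hzpos : 0 < z := by positivity
    have hxy : x0 ^ 2 + y0 ^ 2 = z := by
      have : ((v1 0 ^ 2 + v1 1 ^ 2 : ℤ) : ℝ) = ((Z : ℤ) : ℝ) := by rw [ha1]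
      rw [hZ] at this
      push_cast at this
      exact this
    have cw0 : (w 0 : ℝ) = x0 - y0 := by rw [ek0]; push_cast; rfl
    have cw1 : (w 1 : ℝ) = x0 + y0 := by rw [ek1]; push_cast; rfl
    have cw2 : (w 2 : ℝ) = 2 * z := by rw [hk2, hZ]; push_cast; rfl
    have cb0 : (v3 0 : ℝ) = (x0 - y0) - (x0 + y0) := by rw [eb0]; push_cast; rw [cw0, cw1]
    have cb1 : (v3 1 : ℝ) = (x0 - y0) + (x0 + y0) := by rw [eb1]; push_cast; rw [cw0, cw1]
    set A : ℝ := (Real.sqrt (2 ^ m + 1))⁻¹ with hA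
    set B : ℝ := (Real.sqrt (2 ^ (m + 2) + 1))⁻¹ with hB
    set C : ℝ := (Real.sqrt (2 ^ (m + 1) + 1))⁻¹ with hC
    have hA2 : A * A * (z + 1) = 1 := by
      rw [hA, ← mul_inv, Real.mul_self_sqrt (by positivity)]
      exact inv_mul_cancel₀ (by positivity)
    have hB2 : B * B * (4 * z + 1) = 1 := by
      have e4 : (4 * z + 1) = 2 ^ (m + 2) + 1 := by rw [hz']; ring
      rw [hB, ← mul_inv, Real.mul_self_sqrt (by positivity), e4]
      exact inv_mul_cancel₀ (by positivity)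
    have hC2 : C * C * (2 * z + 1) = 1 := by
      have e4 : (2 * z + 1) = 2 ^ (m + 1) + 1 := by rw [hz']; ring
      rw [hC, ← mul_inv, Real.mul_self_sqrt (by positivity), e4]
      exact inv_mul_cancel₀ (by positivity)
    have hBpos : 0 < B := by rw [hB]; positivity
    have hCpos : 0 < C := by rw [hC]; positivity
    have enc : ∀ q : ℕ, vec (en q) 0 = (kn q 0 : ℝ) ∧ vec (en q) 1 = (kn q 1 : ℝ) ∧
        vec (en q) 2 = -1 := by
      intro q
      obtain ⟨h0, h1, h2⟩ := vec_apply (en q)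
      refine ⟨h0, h1, ?_⟩
      rw [h2]
      show (((-1 : ℤ)) : ℝ) = -1
      norm_num
    obtain ⟨w0, w1, w2⟩ := vec_apply w
    obtain ⟨q0, q1, q2⟩ := enc (m + 1)
    have f1 : fr 0 v1 0 = A * x0 ∧ fr 0 v1 1 = A * y0 ∧ fr 0 v1 2 = A * (-1) := by
      rw [G1]
      refine ⟨?_, ?_, ?_⟩
      · rw [PiLp.smul_apply, (enc m).1, smul_eq_mul]
      · rw [PiLp.smul_apply, (enc m).2.1, smul_eq_mul]
      · rw [PiLp.smul_apply, (enc m).2.2, smul_eq_mul]
    have f3 : fr 0 v3 0 = B * ((x0 - y0) - (x0 + y0)) ∧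
        fr 0 v3 1 = B * ((x0 - y0) + (x0 + y0)) ∧ fr 0 v3 2 = B * (-1) := by
      rw [G3]
      refine ⟨?_, ?_, ?_⟩
      · rw [PiLp.smul_apply, (enc (m + 2)).1, smul_eq_mul, ← cb0]
      · rw [PiLp.smul_apply, (enc (m + 2)).2.1, smul_eq_mul, ← cb1]
      · rw [PiLp.smul_apply, (enc (m + 2)).2.2, smul_eq_mul]
    have fw : fr 0 w 0 = C * (x0 - y0) ∧ fr 0 w 1 = C * (x0 + y0) ∧ fr 0 w 2 = C * (-1) := by
      rw [Gw]
      refine ⟨?_, ?_, ?_⟩
      · rw [PiLp.smul_apply, q0, smul_eq_mul, ← cw0]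
      · rw [PiLp.smul_apply, q1, smul_eq_mul, ← cw1]
      · rw [PiLp.smul_apply, q2, smul_eq_mul]
    set R : ℝ := (Real.sqrt (x0 ^ 2 + y0 ^ 2))⁻¹ with hR
    have hR2 : R * R * z = 1 := by
      rw [hR, hxy, ← mul_inv, Real.mul_self_sqrt hzpos.le]
      exact inv_mul_cancel₀ hzpos.ne'
    have g1 : fr 1 v1 0 = R * (-y0) ∧ fr 1 v1 1 = R * x0 ∧ fr 1 v1 2 = 0 := by
      have : fr 1 v1 = tor v1 := by
        unfold fr
        rw [if_neg n1, if_neg (by decide)]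
      rw [this]
      unfold tor
      refine ⟨?_, ?_, ?_⟩ <;> simp [hR, hx0, hy0]
    -- coefficients
    have k1 : ⟪fr 0 v1, vec w⟫ = -(A * z) := by
      rw [inner3, f1.1, f1.2.1, f1.2.2, w0, w1, w2, cw0, cw1, cw2]
      linear_combination A * hxy
    have f2 : fr 0 v2 0 = -(A * y0) ∧ fr 0 v2 1 = A * x0 ∧ fr 0 v2 2 = A * (-1) := by
      rw [F2]
      obtain ⟨r0, r1, r2⟩ := rx_apply (fr 0 v1)
      refine ⟨?_, ?_, ?_⟩
      · rw [PiLp.neg_apply, r0, f1.2.1]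
      · rw [PiLp.neg_apply, r1, f1.1]; ring
      · rw [PiLp.neg_apply, r2, f1.2.2]; ring
    have g2 : fr 1 v2 0 = -(R * x0) ∧ fr 1 v2 1 = -(R * y0) ∧ fr 1 v2 2 = 0 := by
      rw [F2]
      obtain ⟨r0, r1, r2⟩ := rx_apply (fr 1 v1)
      refine ⟨?_, ?_, ?_⟩
      · rw [PiLp.neg_apply, r0, g1.2.1]
      · rw [PiLp.neg_apply, r1, g1.1]; ring
      · rw [PiLp.neg_apply, r2, g1.2.2]; ring
    have f4 : fr 0 v4 0 = C * (x0 + y0) ∧ fr 0 v4 1 = -(C * (x0 - y0)) ∧ fr 0 v4 2 = C := by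
      rw [F4]
      obtain ⟨r0, r1, r2⟩ := rx_apply (fr 0 w)
      refine ⟨?_, ?_, ?_⟩
      · rw [r0, fw.2.1]
      · rw [r1, fw.1]
      · rw [r2, fw.2.2]; ring
    have f6 : fr 0 v6 0 = -(C * (x0 + y0)) ∧ fr 0 v6 1 = C * (x0 - y0) ∧ fr 0 v6 2 = C := by
      rw [F6]
      obtain ⟨r0, r1, r2⟩ := rx_apply (fr 0 w)
      obtain ⟨r0', r1', r2'⟩ := rx_apply (rx (fr 0 w))
      obtain ⟨r0'', r1'', r2''⟩ := rx_apply (rx (rx (fr 0 w)))
      refine ⟨?_, ?_, ?_⟩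
      · rw [r0'', r1', r0, fw.2.1]
      · rw [r1'', r0', r1, fw.1]; ring
      · rw [r2'', r2', r2, fw.2.2]; ring
    have f5 : fr 0 v5 0 = B * ((x0 - y0) + (x0 + y0)) ∧
        fr 0 v5 1 = -(B * ((x0 - y0) - (x0 + y0))) ∧ fr 0 v5 2 = B * (-1) := by
      rw [F5]
      obtain ⟨r0, r1, r2⟩ := rx_apply (fr 0 v3)
      obtain ⟨r0', r1', r2'⟩ := rx_apply (rx (fr 0 v3))
      obtain ⟨r0'', r1'', r2''⟩ := rx_apply (rx (rx (fr 0 v3)))
      refine ⟨?_, ?_, ?_⟩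
      · rw [PiLp.neg_apply, r0'', r1', r0, f3.2.1]; ring
      · rw [PiLp.neg_apply, r1'', r0', r1, f3.1]; ring
      · rw [PiLp.neg_apply, r2'', r2', r2, f3.2.2]; ring
    have q0' : vec (en (m + 1)) 0 = x0 - y0 := by rw [q0, ← cw0]
    have q1' : vec (en (m + 1)) 1 = x0 + y0 := by rw [q1, ← cw1]
    have k1e : ⟪fr 0 v1, vec (en (m + 1))⟫ = A * (z + 1) := by
      rw [inner3, f1.1, f1.2.1, f1.2.2, q0', q1', q2]
      linear_combination A * hxy
    have k2 : ⟪fr 0 v2, vec w⟫ = -(A * z) := by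
      rw [inner3, f2.1, f2.2.1, f2.2.2, w0, w1, w2, cw0, cw1, cw2]
      linear_combination A * hxy
    have k2e : ⟪fr 0 v2, vec (en (m + 1))⟫ = A * (z + 1) := by
      rw [inner3, f2.1, f2.2.1, f2.2.2, q0', q1', q2]
      linear_combination A * hxy
    have l1 : ⟪fr 1 v1, vec w⟫ = R * z := by
      rw [inner3, g1.1, g1.2.1, g1.2.2, w0, w1, w2, cw0, cw1, cw2]
      linear_combination R * hxy
    have l1e : ⟪fr 1 v1, vec (en (m + 1))⟫ = R * z := by
      rw [inner3, g1.1, g1.2.1, g1.2.2, q0', q1', q2]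
      linear_combination R * hxy
    have l2 : ⟪fr 1 v2, vec w⟫ = -(R * z) := by
      rw [inner3, g2.1, g2.2.1, g2.2.2, w0, w1, w2, cw0, cw1, cw2]
      linear_combination (-R) * hxy
    have l2e : ⟪fr 1 v2, vec (en (m + 1))⟫ = -(R * z) := by
      rw [inner3, g2.1, g2.2.1, g2.2.2, q0', q1', q2]
      linear_combination (-R) * hxy
    have k3 : ⟪fr 0 v3, vec w⟫ = 0 := by
      rw [inner3, f3.1, f3.2.1, f3.2.2, w0, w1, w2, cw0, cw1, cw2]
      linear_combination (2 * B) * hxy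
    have k3e : ⟪fr 0 v3, vec (en (m + 1))⟫ = B * (2 * z + 1) := by
      rw [inner3, f3.1, f3.2.1, f3.2.2, q0', q1', q2]
      linear_combination (2 * B) * hxy
    have k4 : ⟪fr 0 v4, vec w⟫ = 2 * C * z := by
      rw [inner3, f4.1, f4.2.1, f4.2.2, w0, w1, w2, cw0, cw1, cw2]
      ring
    have k5 : ⟪fr 0 v5, vec w⟫ = 0 := by
      rw [inner3, f5.1, f5.2.1, f5.2.2, w0, w1, w2, cw0, cw1, cw2]
      linear_combination (2 * B) * hxy
    have k5e : ⟪fr 0 v5, vec (en (m + 1))⟫ = B * (2 * z + 1) := by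
      rw [inner3, f5.1, f5.2.1, f5.2.2, q0', q1', q2]
      linear_combination (2 * B) * hxy
    have k6 : ⟪fr 0 v6, vec w⟫ = 2 * C * z := by
      rw [inner3, f6.1, f6.2.1, f6.2.2, w0, w1, w2, cw0, cw1, cw2]
      ring
    -- values of h
    set W : ℂ := h v1 (fr 0 v1) with hW
    set T : ℂ := h v1 (fr 1 v1) with hT
    set U : ℂ := h v3 (fr 0 v3) with hU
    set V : ℂ := h w (fr 0 w) with hV
    have m2 : h v2 (fr 0 v2) = -(starRingEnd ℂ) W := by
      rw [hv2, H.h_neg 0 _ nrk1, H.h_rk 0 _ n1]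
    have m2t : h v2 (fr 1 v2) = -(starRingEnd ℂ) T := by
      rw [hv2, H.h_neg 1 _ nrk1, H.h_rk 1 _ n1]
    have m4 : h v4 (fr 0 v4) = V := H.h_rk 0 _ nw
    have m6 : h v6 (fr 0 v6) = V := by
      rw [hv6, H.h_rk 0 _ nrkw2, H.h_rk 0 _ nrkw, H.h_rk 0 _ nw]
    have m5 : h v5 (fr 0 v5) = -(starRingEnd ℂ) U := by
      rw [hv5, H.h_neg 0 _ nrk33, H.h_rk 0 _ nrk32, H.h_rk 0 _ nrk3, H.h_rk 0 _ n3]
    have t1 : t v1 0 0 = ((z : ℝ) : ℂ) * (W * (starRingEnd ℂ) W) := by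
      simp only [ht]
      rw [s1, k1, k2e, m2, show -(A * z) * (A * (z + 1)) = -z by linear_combination (-z) * hA2]
      push_cast
      ring
    have t1' : t v1 1 1 = ((z : ℝ) : ℂ) * (T * (starRingEnd ℂ) T) := by
      simp only [ht]
      rw [s1, l1, l2e, m2t, show R * z * -(R * z) = -z by linear_combination (-z) * hR2]
      push_cast
      ring
    have t2 : t v2 0 0 = ((z : ℝ) : ℂ) * (W * (starRingEnd ℂ) W) := by
      simp only [ht]
      rw [s2, k2, k1e, m2, show -(A * z) * (A * (z + 1)) = -z by linear_combination (-z) * hA2]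
      push_cast
      ring
    have t2' : t v2 1 1 = ((z : ℝ) : ℂ) * (T * (starRingEnd ℂ) T) := by
      simp only [ht]
      rw [s2, l2, l1e, m2t, show -(R * z) * (R * z) = -z by linear_combination (-z) * hR2]
      push_cast
      ring
    have t3 : t v3 0 0 = 0 := by
      simp only [ht]
      rw [k3]; simp
    have t5 : t v5 0 0 = 0 := by
      simp only [ht]
      rw [k5]; simp
    have t4 : t v4 0 0 = ((2 * C * z * (B * (2 * z + 1)) : ℝ) : ℂ) * (V * U) := by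
      simp only [ht]
      rw [s4, k4, k3e, m4]
    have t6 : t v6 0 0 = ((2 * C * z * (B * (2 * z + 1)) : ℝ) : ℂ) *
        (V * -(starRingEnd ℂ) U) := by
      simp only [ht]
      rw [s6, k6, k5e, m6, m5]
    have p1 := hp12 v1 (Or.inl rfl)
    have p2 := hp12 v2 (Or.inr rfl)
    have p3 := hprest v3 (by rw [hcp]; simp) d13.symm d23.symm
    have p4 := hprest v4 (by rw [hcp]; simp) d14.symm d24.symm
    have p5 := hprest v5 (by rw [hcp]; simp) d15.symm d25.symm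
    have p6 := hprest v6 (by rw [hcp]; simp) d16.symm d26.symm
    rw [hcp]
    simp only [List.map_cons, List.map_nil, List.sum_cons, List.sum_nil, add_zero]
    rw [p1, p2, p3, p4, p5, p6, t1, t1', t2, t2', t3, t4, t5, t6]
    -- the right side
    have hns : nsq (h v1) = ‖W‖ ^ 2 + ‖T‖ ^ 2 :=
      (((hLin (h v1) v1 (hlin v1) (hdiv v1)).2 (by
        rintro ⟨h0, h1⟩
        rw [h0, h1] at ha1
        norm_num at ha1
        omega)).2).symm
    have hsub' : kn (m + 1 - 1) = v1 := rfl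
    have hS : Sn (m + 1) h * C = -V.im := by
      unfold Sn
      have e1 : V = ((C : ℝ) : ℂ) * h w (vec (en (m + 1))) := by
        rw [hV, Gw, H.smul]
      rw [e1, Complex.im_ofReal_mul]
      ring
    have hS' : Sn (m + 1 + 1) h * B = -U.im := by
      unfold Sn
      have e1 : U = ((B : ℝ) : ℂ) * h v3 (vec (en (m + 2))) := by
        rw [hU, G3, H.smul]
      rw [e1, Complex.im_ofReal_mul]
      have e2 : h (kn (m + 1 + 1)) (vec (en (m + 1 + 1))) = h v3 (vec (en (m + 2))) := rfl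
      rw [e2]
      ring
    have hz3 : (2 : ℝ) ^ (m + 1) = 2 * z := by rw [hz']; ring
    have hz4 : (2 : ℝ) ^ (m + 1 + 1) = 4 * z := by rw [hz']; ring
    rw [hsub', hns, hz3, hz4]
    have e1 : (((z : ℝ) : ℂ) * (W * (starRingEnd ℂ) W)).re = z * ‖W‖ ^ 2 := by
      rw [Complex.mul_conj, Complex.normSq_eq_norm_sq, ← Complex.ofReal_mul, Complex.ofReal_re]
    have e2 : (((z : ℝ) : ℂ) * (T * (starRingEnd ℂ) T)).re = z * ‖T‖ ^ 2 := by
      rw [Complex.mul_conj, Complex.normSq_eq_norm_sq, ← Complex.ofReal_mul, Complex.ofReal_re]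
    have e3 : (((2 * C * z * (B * (2 * z + 1)) : ℝ) : ℂ) * (V * U)).re +
        (((2 * C * z * (B * (2 * z + 1)) : ℝ) : ℂ) * (V * -(starRingEnd ℂ) U)).re =
        -(2 * (2 * C * z * (B * (2 * z + 1)))) * (V.im * U.im) := by
      rw [Complex.re_ofReal_mul, Complex.re_ofReal_mul]
      simp only [Complex.mul_re, Complex.neg_re, Complex.neg_im, Complex.conj_re,
        Complex.conj_im]
      ring
    simp only [Complex.add_re, Complex.zero_re]
    rw [e1, e2]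
    have hVi : V.im = -(Sn (m + 1) h * C) := by rw [hS]; ring
    have hUi : U.im = -(Sn (m + 1 + 1) h * B) := by rw [hS']; ring
    rw [hVi, hUi] at e3
    have hd : (4 * z + 1) ≠ 0 := by positivity
    have e4 : 4 * z * (Sn (m + 1) h * Sn (m + 1 + 1) h) / (4 * z + 1) =
        4 * z * (Sn (m + 1) h * Sn (m + 1 + 1) h) * (B * B) := by
      rw [div_eq_iff hd]
      linear_combination (-(4 * z * (Sn (m + 1) h * Sn (m + 1 + 1) h))) * hB2
    rw [e4]
    linear_combination e3 + (-(4 * z * (Sn (m + 1) h * Sn (m + 1 + 1) h) * (B * B))) * hC2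

end Pool.Agent.Work.MP_b0497c_an.Disp
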