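import Mathlib
import Pool.Agent.Work.MP_b0497c_an.Disp.Stmts
import Pool.Agent.Work.MP_b0497c_an.Disp.Unique
import Pool.Agent.Work.MP_b0497c_an.Damp.Symm
import Pool.Agent.Work.MP_b0497c_an.Damp.CubeInv

set_option autoImplicit false

/-!
The rotoreflection maps solutions to solutions; hence, by uniqueness, the symmetry of the datum
propagates.
-/

namespace Pool.Agent.Work.MP_b0497c_an.Disp

open Set MeasureTheory RealInnerProductSpace Pool.Agent.Work.MP_b0497c_an
open Pool.Agent.Work.MP_b0497c_an.Dec (cube phase vec Sgn act inv' act_inv cos_phase_periodic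
  sin_phase_periodic)
open Pool.Agent.Work.MP_b0497c_an.Damp (cc sc acc)

namespace SymmAux

variable {B : (Fin 3 → ℤ) → E3 → E3} {T : ℝ} {u : ℝ → E3 → E3}

/-- The rotoreflection as a signed permutation. -/
def g₀ : Sgn := (Equiv.swap 0 1, ![1, -1, -1])

theorem rx_eq (x : E3) : Damp.actR g₀ x = rx x := by
  have h2 : (Equiv.swap (0 : Fin 3) 1) 2 = 2 := by decide
  ext i
  fin_cases i <;> simp [Damp.actR, g₀, rx, h2]

theorem rk_eq (k : Fin 3 → ℤ) : act g₀ k = rk k := by
  have h2 : (Equiv.swap (0 : Fin 3) 1) 2 = 2 := by decide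
  funext i
  fin_cases i <;> simp [act, g₀, rk, h2]

theorem symm_diff (h : IsSolution B T u) {t : ℝ} (ht : t ∈ Ico 0 T) (x : E3) :
    DifferentiableAt ℝ (u t) x := by
  have h1 : DifferentiableWithinAt ℝ (fun z : ℝ × E3 => u z.1 z.2) (Ico 0 T ×ˢ univ) (t, x) :=
    h.contDiff_u.differentiableOn (by norm_num) (t, x) ⟨ht, mem_univ _⟩
  have h2 : DifferentiableWithinAt ℝ (fun y : E3 => (t, y)) univ x :=
    ((differentiableAt_const t).prodMk differentiableAt_id).differentiableWithinAt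
  have h3 := DifferentiableWithinAt.comp x h1 h2 (fun y _ => ⟨ht, mem_univ _⟩)
  rw [differentiableWithinAt_univ] at h3
  exact h3

theorem symm_fderiv (h : IsSolution B T u) {t : ℝ} (ht : t ∈ Ico 0 T)
    (A : E3 ≃ₗᵢ[ℝ] E3) (x : E3) :
    fderiv ℝ (fun x => A (u t (A.symm x))) x =
      (A.toContinuousLinearEquiv : E3 →L[ℝ] E3).comp ((fderiv ℝ (u t) (A.symm x)).comp
        (A.symm.toContinuousLinearEquiv : E3 →L[ℝ] E3)) := by
  have h1 : HasFDerivAt (u t) (fderiv ℝ (u t) (A.symm x)) (A.symm x) :=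
    (symm_diff h ht (A.symm x)).hasFDerivAt
  have h2 : HasFDerivAt (fun x => A.symm x) (A.symm.toContinuousLinearEquiv : E3 →L[ℝ] E3) x :=
    (A.symm.toContinuousLinearEquiv : E3 →L[ℝ] E3).hasFDerivAt
  have h3 := HasFDerivAt.comp x h1 h2
  have h4 : HasFDerivAt (fun x => A x) (A.toContinuousLinearEquiv : E3 →L[ℝ] E3)
      ((u t ∘ fun x => A.symm x) x) :=
    (A.toContinuousLinearEquiv : E3 →L[ℝ] E3).hasFDerivAt
  exact (HasFDerivAt.comp x h4 h3).fderiv

theorem symm_deriv (h : IsSolution B T u) {t : ℝ} (ht : t ∈ Ico 0 T)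
    (A : E3 ≃ₗᵢ[ℝ] E3) (x : E3) :
    derivWithin (fun s => A (u s (A.symm x))) (Ico 0 T) t =
      A (derivWithin (fun s => u s (A.symm x)) (Ico 0 T) t) := by
  have h1 := hasDerivWithinAt_along h.contDiff_u (I := Ico 0 T) (Subset.refl _)
    (t := t) ht (X := fun _ => A.symm x) (X' := 0) (hasDerivWithinAt_const _ _ _)
  simp only [map_zero, add_zero] at h1
  have h2 := (A.toContinuousLinearEquiv : E3 →L[ℝ] E3).hasFDerivAt.comp_hasDerivWithinAt t h1
  exact h2.derivWithin (uniqueDiffOn_Ico 0 T t ht)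

theorem symm_acc (h : IsSolution B T u) {t : ℝ} (ht : t ∈ Ico 0 T)
    (A : E3 ≃ₗᵢ[ℝ] E3) (x : E3) :
    acc T (fun t x => A (u t (A.symm x))) t x = A (acc T u t (A.symm x)) := by
  unfold acc
  rw [symm_deriv h ht A x, symm_fderiv h ht A x, map_add]
  congr 1
  show A (fderiv ℝ (u t) (A.symm x) (A.symm (A (u t (A.symm x))))) = _
  rw [LinearIsometryEquiv.symm_apply_apply]

theorem symm_cont_u (h : IsSolution B T u) {t : ℝ} (ht : t ∈ Ico 0 T) :
    Continuous (u t) := by
  rw [continuous_iff_continuousAt]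
  exact fun x => (symm_diff h ht x).continuousAt

theorem symm_cont_acc (h : IsSolution B T u) {t : ℝ} (ht : t ∈ Ico 0 T) :
    Continuous (acc T u t) := by
  have c3 : Continuous (fun x : E3 => (t, x)) := by fun_prop
  have c4 : ContinuousOn ((fun z : ℝ × E3 => derivWithin (fun s => u s z.2) (Ico 0 T) z.1)
      ∘ (fun x : E3 => (t, x))) univ :=
    ContinuousOn.comp (continuousOn_derivWithin h.contDiff_u) c3.continuousOn
      (fun x _ => ⟨ht, mem_univ _⟩)
  have c5 : ContinuousOn ((fun z : ℝ × E3 => fderiv ℝ (u z.1) z.2)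
      ∘ (fun x : E3 => (t, x))) univ :=
    ContinuousOn.comp (continuousOn_fderiv h.contDiff_u) c3.continuousOn
      (fun x _ => ⟨ht, mem_univ _⟩)
  exact (continuousOn_univ.mp c4).add
    ((continuousOn_univ.mp c5).clm_apply (symm_cont_u h ht))

theorem symm_per_acc (h : IsSolution B T u) {t : ℝ} (ht : t ∈ Ico 0 T) :
    Periodic3 (acc T u t) := by
  intro i x
  unfold acc
  rw [(h.periodic t ht).fderiv i x, h.periodic t ht i x]
  congr 1
  apply derivWithin_congr
  · intro s hs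
    exact h.periodic s hs i x
  · exact h.periodic t ht i x

theorem act_inv' (k : Fin 3 → ℤ) : act g₀ (act (inv' g₀) k) = k := by
  funext i
  fin_cases i <;> simp [act, g₀, inv']

theorem B_symm (hB : IsSymbol B) (k : Fin 3 → ℤ) (c : E3) :
    (Damp.symm_A g₀).symm (B k c) = B (act (inv' g₀) k) ((Damp.symm_A g₀).symm c) := by
  have h1 := hB.rot (act (inv' g₀) k) ((Damp.symm_A g₀).symm c)
  rw [← rk_eq, act_inv', ← rx_eq, ← rx_eq, ← Damp.symm_A_apply, ← Damp.symm_A_apply,
    LinearIsometryEquiv.apply_symm_apply] at h1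
  rw [h1, LinearIsometryEquiv.symm_apply_apply]

theorem symm_sol (hB : IsSymbol B) (h : IsSolution B T u) :
    IsSolution B T (fun t x => Damp.symm_A g₀ (u t ((Damp.symm_A g₀).symm x))) := by
  have hC : Damp.ClaimCubeInv := Damp.claimCubeInv
  have hck : ∀ (k : Fin 3 → ℤ) (c : E3), ⟪vec k, c⟫ = 0 →
      ⟪vec (act (inv' g₀) k), (Damp.symm_A g₀).symm c⟫ = 0 := by
    intro k c hkc
    rw [← Damp.symm_vec, ← Damp.symm_A_symm_apply, LinearIsometryEquiv.inner_map_map]
    exact hkc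
  refine ⟨?_, ?_, ?_, ?_, ?_⟩
  · have h1 : ContDiff ℝ 1 (fun z : ℝ × E3 => (z.1, (Damp.symm_A g₀).symm z.2)) :=
      contDiff_fst.prodMk ((Damp.symm_A g₀).symm.contDiff.comp contDiff_snd)
    have h2 : ContDiffOn ℝ 1 ((fun z : ℝ × E3 => u z.1 z.2) ∘
        (fun z : ℝ × E3 => (z.1, (Damp.symm_A g₀).symm z.2))) (Ico 0 T ×ˢ univ) :=
      h.contDiff_u.comp h1.contDiffOn (fun z hz => ⟨hz.1, mem_univ _⟩)
    exact (Damp.symm_A g₀).contDiff.comp_contDiffOn h2
  · intro t ht i x
    have h1 := Damp.symm_per (h.periodic t ht) (inv' g₀) i x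
    exact congrArg (Damp.symm_A g₀) h1
  · intro t ht x
    have h1 := symm_fderiv h ht (Damp.symm_A g₀) x
    rw [h1]
    have h2 := LinearMap.trace_conj' (R := ℝ)
      ((fderiv ℝ (u t) ((Damp.symm_A g₀).symm x)) : E3 →ₗ[ℝ] E3) (Damp.symm_A g₀).toLinearEquiv
    rw [h.div_free t ht] at h2
    rw [← h2]
    rfl
  · intro t ht k c hkc
    have e1 : ∀ x : E3, ⟪derivWithin (fun s => Damp.symm_A g₀ (u s ((Damp.symm_A g₀).symm x)))
        (Ico 0 T) t + fderiv ℝ (fun x => Damp.symm_A g₀ (u t ((Damp.symm_A g₀).symm x))) x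
          (Damp.symm_A g₀ (u t ((Damp.symm_A g₀).symm x))), c⟫ =
        ⟪Damp.symm_A g₀ (acc T u t ((Damp.symm_A g₀).symm x)), c⟫ := by
      intro x
      rw [← symm_acc h ht (Damp.symm_A g₀) x]
      rfl
    simp only [e1]
    rw [Damp.symm_int hC g₀ Real.continuous_cos cos_phase_periodic (symm_cont_acc h ht)
      (symm_per_acc h ht), Damp.symm_int hC g₀ Real.continuous_sin sin_phase_periodic
      (symm_cont_u h ht) (h.periodic t ht), B_symm hB]
    exact h.cos_eq t ht _ _ (hck k c hkc)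
  · intro t ht k c hkc
    have e1 : ∀ x : E3, ⟪derivWithin (fun s => Damp.symm_A g₀ (u s ((Damp.symm_A g₀).symm x)))
        (Ico 0 T) t + fderiv ℝ (fun x => Damp.symm_A g₀ (u t ((Damp.symm_A g₀).symm x))) x
          (Damp.symm_A g₀ (u t ((Damp.symm_A g₀).symm x))), c⟫ =
        ⟪Damp.symm_A g₀ (acc T u t ((Damp.symm_A g₀).symm x)), c⟫ := by
      intro x
      rw [← symm_acc h ht (Damp.symm_A g₀) x]
      rfl
    simp only [e1]
    rw [Damp.symm_int hC g₀ Real.continuous_sin sin_phase_periodic (symm_cont_acc h ht)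
      (symm_per_acc h ht), Damp.symm_int hC g₀ Real.continuous_cos cos_phase_periodic
      (symm_cont_u h ht) (h.periodic t ht), B_symm hB]
    exact h.sin_eq t ht _ _ (hck k c hkc)

end SymmAux

open SymmAux

/-- F5. Symmetry propagates. -/
theorem claimSymm : ClaimSymm := by
  intro B T u hB hu _ h0 t ht x
  have hw := symm_sol hB hu
  have h1 := claimUnique B T T _ _ hB hw hu (fun y => by
    show Damp.symm_A g₀ (u 0 ((Damp.symm_A g₀).symm y)) = u 0 y
    have h2 := h0 ((Damp.symm_A g₀).symm y)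
    rw [← rx_eq, ← rx_eq, ← Damp.symm_A_apply, ← Damp.symm_A_apply,
      LinearIsometryEquiv.apply_symm_apply] at h2
    exact h2.symm) t (by rwa [min_self]) (rx x)
  rw [← h1]
  show Damp.symm_A g₀ (u t ((Damp.symm_A g₀).symm (rx x))) = rx (u t x)
  rw [← rx_eq x, ← Damp.symm_A_apply, LinearIsometryEquiv.symm_apply_apply, ← rx_eq]
  rfl

end Pool.Agent.Work.MP_b0497c_an.Disp
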